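import Pool.Agent.Lib.MP_30840b_co_h61.Sw

/-! The a priori bound: if all edge probabilities are at most `1/((3/2-ε/2)D)` then two vertices
are both free with probability at least `η`. -/

set_option autoImplicit false

open Finset Classical

namespace Pool.Agent.KH

section apr

variable {V E : Type} [Fintype V] [Fintype E]

/-- `Z` as a sum of indicators -/
lemma Apr_ind (ve : E → Finset V) (lam : E → ℝ) (F : Finset E) (S : Finset V) :
    Z ve lam F (∅ ∪ S) =
      ∑ M ∈ MS ve F ∅, (∏ e ∈ M, lam e) * (if ∀ e ∈ M, Disjoint (ve e) S then 1 else 0) := by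
  unfold Z
  simp only [mul_ite, mul_one, mul_zero]
  rw [← Finset.sum_filter]
  apply Finset.sum_congr _ (fun _ _ => rfl)
  ext M
  simp only [MS_mem, Finset.mem_filter, Finset.empty_union, Finset.disjoint_empty_right]
  tauto

lemma Apr_free_iff (ve : E → Finset V) (M : Finset E) (a b : V) :
    (∀ e ∈ M, Disjoint (ve e) ({a, b} : Finset V)) ↔
      ((∀ e ∈ M, Disjoint (ve e) ({a} : Finset V)) ∧ ∀ e ∈ M, Disjoint (ve e) ({b} : Finset V)) := by
  constructor
  · intro h
    refine ⟨fun e he => ?_, fun e he => ?_⟩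
    · exact Finset.disjoint_of_subset_right (by simp) (h e he)
    · exact Finset.disjoint_of_subset_right (by simp) (h e he)
  · rintro ⟨h1, h2⟩ e he
    have := h1 e he
    have := h2 e he
    simp only [Finset.disjoint_singleton_right, Finset.disjoint_insert_right] at *
    exact ⟨h1 e he, h2 e he⟩

/-- four vertices: the expected number of free ones is at most one plus the expected number of
free pairs -/
lemma Apr_four (ve : E → Finset V) {lam : E → ℝ} (hl : ∀ e, 0 ≤ lam e) (a b c d : V) :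
    Z ve lam univ (∅ ∪ {a}) + Z ve lam univ (∅ ∪ {b}) + Z ve lam univ (∅ ∪ {c}) +
      Z ve lam univ (∅ ∪ {d}) ≤ Z ve lam univ ∅ + Z ve lam univ (∅ ∪ {a, b}) +
      Z ve lam univ (∅ ∪ {a, c}) + Z ve lam univ (∅ ∪ {a, d}) + Z ve lam univ (∅ ∪ {b, c}) +
      Z ve lam univ (∅ ∪ {b, d}) + Z ve lam univ (∅ ∪ {c, d}) := by
  rw [Apr_ind, Apr_ind, Apr_ind, Apr_ind, Apr_ind, Apr_ind, Apr_ind, Apr_ind, Apr_ind, Apr_ind]
  unfold Z
  simp only [← Finset.sum_add_distrib]
  apply Finset.sum_le_sum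
  intro M _
  have h0 : 0 ≤ ∏ e ∈ M, lam e := Finset.prod_nonneg (fun e _ => hl e)
  simp only [Apr_free_iff ve M]
  generalize (∏ e ∈ M, lam e) = t at h0 ⊢
  have key : ∀ A B C D : Prop, (t * (if A then 1 else 0) + t * (if B then 1 else 0) +
      t * (if C then 1 else 0) + t * (if D then 1 else 0) : ℝ) ≤ t + t * (if A ∧ B then 1 else 0) +
      t * (if A ∧ C then 1 else 0) + t * (if A ∧ D then 1 else 0) +
      t * (if B ∧ C then 1 else 0) + t * (if B ∧ D then 1 else 0) +
      t * (if C ∧ D then 1 else 0) := by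
    intro A B C D
    by_cases hA : A <;> by_cases hB : B <;> by_cases hC : C <;> by_cases hD : D <;>
      simp [hA, hB, hC, hD] <;> linarith
  refine le_trans (le_of_eq ?_) ((key (∀ e ∈ M, Disjoint (ve e) ({a} : Finset V))
    (∀ e ∈ M, Disjoint (ve e) ({b} : Finset V)) (∀ e ∈ M, Disjoint (ve e) ({c} : Finset V))
    (∀ e ∈ M, Disjoint (ve e) ({d} : Finset V))).trans (le_of_eq ?_)) <;> congr!

lemma Apr_monoF (ve : E → Finset V) {lam : E → ℝ} (hl : ∀ e, 0 ≤ lam e) {F F' : Finset E}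
    (h : F ⊆ F') (W : Finset V) : Z ve lam F W ≤ Z ve lam F' W := by
  unfold Z
  apply Finset.sum_le_sum_of_subset_of_nonneg
  · intro M hM
    rw [MS_mem] at hM ⊢
    exact ⟨hM.1.trans h, hM.2⟩
  · intro M _ _
    exact Finset.prod_nonneg (fun e _ => hl e)

/-- one step of the expansion, also valid when `y ∈ W` -/
lemma Apr_step {ve : E → Finset V} (h2 : ∀ e, (ve e).card = 2) {lam : E → ℝ} (hl : ∀ e, 0 ≤ lam e)
    (F : Finset E) (W : Finset V) (y : V) :
    Z ve lam F W ≤ Z ve lam F (insert y W) + ∑ e ∈ ed ve F W y, lam e * Z ve lam F (W ∪ ve e) := by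
  by_cases hy : y ∈ W
  · rw [Finset.insert_eq_of_mem hy]
    have : 0 ≤ ∑ e ∈ ed ve F W y, lam e * Z ve lam F (W ∪ ve e) :=
      Finset.sum_nonneg (fun e _ => mul_nonneg (hl e) (by linarith [one_le_Z ve hl F (W ∪ ve e)]))
    linarith
  · exact (Z_rec h2 lam F hy).le

/-- expansion at `x` and `y` -/
lemma Apr_expand {ve : E → Finset V} (h2 : ∀ e, (ve e).card = 2) {lam : E → ℝ}
    (hl : ∀ e, 0 ≤ lam e) (F : Finset E) (x y : V) {ax ay : ℝ}
    (hx : ∑ e ∈ F.filter (fun e => x ∈ ve e), lam e ≤ ax)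
    (hy : ∑ e ∈ F.filter (fun e => y ∈ ve e), lam e ≤ ay) :
    Z ve lam F ∅ ≤ (1 + ax) * ((1 + ay) * Z ve lam univ {x, y}) := by
  have hax : 0 ≤ ax := le_trans (Finset.sum_nonneg (fun e _ => hl e)) hx
  have hay : 0 ≤ ay := le_trans (Finset.sum_nonneg (fun e _ => hl e)) hy
  have hw : ∀ W : Finset V, ({x, y} : Finset V) ⊆ W → Z ve lam F W ≤ Z ve lam univ {x, y} := by
    intro W hW
    exact (Apr_monoF ve hl (Finset.subset_univ F) W).trans (Z_mono ve hl univ hW)
  have h1 : ∀ W : Finset V, x ∈ W → Z ve lam F W ≤ (1 + ay) * Z ve lam univ {x, y} := by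
    intro W hxW
    refine (Apr_step h2 hl F W y).trans ?_
    have e1 : Z ve lam F (insert y W) ≤ Z ve lam univ {x, y} :=
      hw _ (by intro v hv; simp only [Finset.mem_insert, Finset.mem_singleton] at hv ⊢
               rcases hv with h | h
               · right; rw [h]; exact hxW
               · left; exact h)
    have e2 : ∑ e ∈ ed ve F W y, lam e * Z ve lam F (W ∪ ve e) ≤
        ∑ e ∈ ed ve F W y, lam e * Z ve lam univ {x, y} := by
      apply Finset.sum_le_sum
      intro e he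
      apply mul_le_mul_of_nonneg_left _ (hl e)
      apply hw
      intro v hv
      simp only [Finset.mem_insert, Finset.mem_singleton, Finset.mem_union] at hv ⊢
      have he' : y ∈ ve e := by
        unfold ed at he
        rw [Finset.mem_filter] at he
        exact he.2.1
      rcases hv with h | h
      · left; rw [h]; exact hxW
      · right; rw [h]; exact he'
    have e3 : ∑ e ∈ ed ve F W y, lam e * Z ve lam univ {x, y} ≤ ay * Z ve lam univ {x, y} := by
      rw [← Finset.sum_mul]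
      apply mul_le_mul_of_nonneg_right _ (by linarith [one_le_Z ve hl univ ({x, y} : Finset V)])
      refine le_trans ?_ hy
      apply Finset.sum_le_sum_of_subset_of_nonneg
      · intro e he
        unfold ed at he
        rw [Finset.mem_filter] at he ⊢
        exact ⟨he.1, he.2.1⟩
      · intro e _ _
        exact hl e
    linarith
  refine (Apr_step h2 hl F ∅ x).trans ?_
  have e1 := h1 (insert x ∅) (Finset.mem_insert_self _ _)
  have e2 : ∑ e ∈ ed ve F ∅ x, lam e * Z ve lam F (∅ ∪ ve e) ≤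
      ∑ e ∈ ed ve F ∅ x, lam e * ((1 + ay) * Z ve lam univ {x, y}) := by
    apply Finset.sum_le_sum
    intro e he
    apply mul_le_mul_of_nonneg_left _ (hl e)
    apply h1
    unfold ed at he
    rw [Finset.mem_filter] at he
    rw [Finset.empty_union]
    exact he.2.1
  have hpos : 0 ≤ (1 + ay) * Z ve lam univ {x, y} :=
    mul_nonneg (by linarith) (by linarith [one_le_Z ve hl univ ({x, y} : Finset V)])
  have e3 : ∑ e ∈ ed ve F ∅ x, lam e * ((1 + ay) * Z ve lam univ {x, y}) ≤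
      ax * ((1 + ay) * Z ve lam univ {x, y}) := by
    rw [← Finset.sum_mul]
    apply mul_le_mul_of_nonneg_right _ hpos
    refine le_trans ?_ hx
    apply Finset.sum_le_sum_of_subset_of_nonneg
    · intro e he
      unfold ed at he
      rw [Finset.mem_filter] at he ⊢
      exact ⟨he.1, he.2.1⟩
    · intro e _ _
      exact hl e
  linarith

/-- either no edge inside `S` is used, or some edge is -/
lemma Apr_union {ve : E → Finset V} (h2 : ∀ e, (ve e).card = 2) {lam : E → ℝ}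
    (hl : ∀ e, 0 ≤ lam e) (S : Finset V) :
    Z ve lam univ ∅ ≤ Z ve lam (univ.filter (fun e => ¬ ve e ⊆ S)) ∅ +
      ∑ e ∈ univ.filter (fun e => ve e ⊆ S), lam e * Z ve lam univ (∅ ∪ ve e) := by
  have h1 : ∀ e, lam e * Z ve lam univ (∅ ∪ ve e) =
      ∑ M ∈ (MS ve univ ∅).filter (fun M => e ∈ M), ∏ f ∈ M, lam f := fun e =>
    (sum_mem h2 lam (Finset.mem_univ e) (Finset.disjoint_empty_right _)).symm
  simp only [h1]
  have h3 : ∑ e ∈ univ.filter (fun e => ve e ⊆ S),
      ∑ M ∈ (MS ve univ ∅).filter (fun M => e ∈ M), ∏ f ∈ M, lam f =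
      ∑ M ∈ MS ve univ ∅, ∑ e ∈ univ.filter (fun e => ve e ⊆ S),
        (if e ∈ M then ∏ f ∈ M, lam f else 0) := by
    rw [Finset.sum_comm]
    apply Finset.sum_congr rfl
    intro e _
    rw [Finset.sum_filter]
  have h4 : Z ve lam (univ.filter (fun e => ¬ ve e ⊆ S)) ∅ =
      ∑ M ∈ MS ve univ ∅, (if ∀ e ∈ M, ¬ ve e ⊆ S then ∏ f ∈ M, lam f else 0) := by
    rw [← Finset.sum_filter]
    unfold Z
    apply Finset.sum_congr _ (fun _ _ => rfl)
    ext M
    simp only [MS_mem, Finset.mem_filter, Finset.subset_univ, true_and, Finset.disjoint_empty_right,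
      Finset.subset_iff, Finset.mem_univ]
    tauto
  rw [h3, h4]
  unfold Z
  rw [← Finset.sum_add_distrib]
  apply Finset.sum_le_sum
  intro M _
  have h0 : 0 ≤ ∏ e ∈ M, lam e := Finset.prod_nonneg (fun e _ => hl e)
  by_cases h : ∀ e ∈ M, ¬ ve e ⊆ S
  · rw [if_pos h]
    have : 0 ≤ ∑ e ∈ univ.filter (fun e => ve e ⊆ S), (if e ∈ M then ∏ f ∈ M, lam f else 0) :=
      Finset.sum_nonneg (fun e _ => by split_ifs <;> simp [h0])
    linarith
  · rw [if_neg h]
    push Not at h
    obtain ⟨e, heM, heS⟩ := h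
    have : (if e ∈ M then ∏ f ∈ M, lam f else 0) ≤
        ∑ e ∈ univ.filter (fun e => ve e ⊆ S), (if e ∈ M then ∏ f ∈ M, lam f else 0) := by
      apply Finset.single_le_sum (f := fun e => if e ∈ M then ∏ f ∈ M, lam f else 0)
      · intro e _
        split_ifs
        · exact h0
        · exact le_rfl
      · rw [Finset.mem_filter]
        exact ⟨Finset.mem_univ _, heS⟩
    rw [if_pos heM] at this
    linarith

/-- the activities of the edges at `z` leaving `S` -/
lemma Apr_out {ve : E → Finset V} (h2 : ∀ e, (ve e).card = 2) {lam : E → ℝ}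
    (hl : ∀ e, 0 ≤ lam e) {D q η' : ℝ} (hD : 0 < D) (hq : 0 < q) (hη : 0 < η')
    (hdeg : ∀ v, (dg ve univ v : ℝ) ≤ D)
    (hP : ∀ e, lam e * fr ve lam univ ∅ (ve e) ≤ 1 / (q * D)) (S : Finset V) {z : V} (hz : z ∈ S)
    (hw : ∀ u, u ∉ S → η' ≤ fr ve lam univ ∅ {z, u}) :
    ∑ e ∈ (univ.filter (fun e => ¬ ve e ⊆ S)).filter (fun e => z ∈ ve e), lam e ≤ 1 / (q * η') := by
  have h1 : ∀ e ∈ (univ.filter (fun e => ¬ ve e ⊆ S)).filter (fun e => z ∈ ve e),
      lam e ≤ 1 / (q * D * η') := by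
    intro e he
    rw [Finset.mem_filter, Finset.mem_filter] at he
    obtain ⟨⟨_, hS⟩, hze⟩ := he
    obtain ⟨h3, h4, h5⟩ := oe_spec h2 hze
    have hu : oe ve e z ∉ S := by
      intro hu
      apply hS
      rw [h3]
      intro v hv
      simp only [Finset.mem_insert, Finset.mem_singleton] at hv
      rcases hv with h | h
      · rw [h]; exact hz
      · rw [h]; exact hu
    have h6 := hw _ hu
    rw [← h3] at h6
    have h7 := hP e
    have h8 : lam e * η' ≤ 1 / (q * D) := le_trans (mul_le_mul_of_nonneg_left h6 (hl e)) h7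
    rw [le_div_iff₀ (by positivity)] at h8 ⊢
    nlinarith
  have hc : (((univ.filter (fun e => ¬ ve e ⊆ S)).filter (fun e => z ∈ ve e)).card : ℝ) ≤ D := by
    refine le_trans ?_ (hdeg z)
    unfold dg
    exact_mod_cast Finset.card_le_card (Finset.filter_subset_filter _ (Finset.filter_subset _ _))
  calc ∑ e ∈ (univ.filter (fun e => ¬ ve e ⊆ S)).filter (fun e => z ∈ ve e), lam e
      ≤ ∑ e ∈ (univ.filter (fun e => ¬ ve e ⊆ S)).filter (fun e => z ∈ ve e), 1 / (q * D * η') :=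
        Finset.sum_le_sum h1
    _ = (((univ.filter (fun e => ¬ ve e ⊆ S)).filter (fun e => z ∈ ve e)).card : ℝ) *
          (1 / (q * D * η')) := by rw [Finset.sum_const, nsmul_eq_mul]
    _ ≤ D * (1 / (q * D * η')) := mul_le_mul_of_nonneg_right hc (by positivity)
    _ = 1 / (q * η') := by field_simp

/-- the core: a tight set of size two or three is impossible -/
lemma Apr_core {ve : E → Finset V} (h2 : ∀ e, (ve e).card = 2) {lam : E → ℝ}
    (hl : ∀ e, 0 ≤ lam e) {D ε η η' : ℝ} (hD : 0 < D) (hε : 0 < ε) (hε1 : ε ≤ 1 / 20)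
    (hη0 : 0 < η) (hη' : 0 < η') (hη1 : η' ≤ 1) (hηη : η ≤ ε * η' ^ 2 / 200)
    (hdeg : ∀ v, (dg ve univ v : ℝ) ≤ D)
    (hP : ∀ e, lam e * fr ve lam univ ∅ (ve e) ≤ 1 / ((3 / 2 - ε / 2) * D)) (S : Finset V)
    (hS : ((univ.filter (fun e => ve e ⊆ S)).card : ℝ) ≤ (1 - ε / 3) * ((3 / 2 - ε / 2) * D))
    {x y : V} (hx : x ∈ S) (hy : y ∈ S) (hxy : x ≠ y)
    (hw : fr ve lam univ ∅ {x, y} ≤ η) (hu : ∀ u, u ∉ S → η' ≤ fr ve lam univ ∅ {x, u})
    (hfree : ∀ v, (32 : ℝ) / 100 ≤ fr ve lam univ ∅ {v}) : False := by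
  have hq : (0 : ℝ) < 3 / 2 - ε / 2 := by linarith
  have hq1 : (1 : ℝ) ≤ 3 / 2 - ε / 2 := by linarith
  have hZ : 0 < Z ve lam univ ∅ := by linarith [one_le_Z ve hl univ (∅ : Finset V)]
  have hu2 : ∀ u, u ∉ S → 3 / 10 * η' ≤ fr ve lam univ ∅ {y, u} := by
    intro u huS
    have hxu : x ≠ u := by rintro rfl; exact huS hx
    have hyu : y ≠ u := by rintro rfl; exact huS hy
    have h := switch_fr h2 hl (x := x) (y := u) (z := y) hxu hxy (Ne.symm hyu)
    have h3 := hu u huS
    have h4 := hfree y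
    have h5 : η' * (32 / 100) ≤ fr ve lam univ ∅ {x, u} * fr ve lam univ ∅ {y} :=
      mul_le_mul h3 h4 (by norm_num) (by linarith)
    rw [Finset.pair_comm u y] at h
    nlinarith
  have ax := Apr_out h2 hl hD hq hη' hdeg hP S hx hu
  have ay := Apr_out h2 hl hD hq (by positivity : (0:ℝ) < 3 / 10 * η') hdeg hP S hy hu2
  have ax' : ∑ e ∈ (univ.filter (fun e => ¬ ve e ⊆ S)).filter (fun e => x ∈ ve e), lam e ≤ 1 / η' := by
    refine ax.trans ?_
    apply one_div_le_one_div_of_le hη'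
    nlinarith
  have ay' : ∑ e ∈ (univ.filter (fun e => ¬ ve e ⊆ S)).filter (fun e => y ∈ ve e), lam e ≤
      4 / η' := by
    refine ay.trans ?_
    rw [div_le_div_iff₀ (by positivity) hη']
    nlinarith
  have h1 := Apr_expand h2 hl (univ.filter (fun e => ¬ ve e ⊆ S)) x y ax' ay'
  have h3 := Apr_union h2 hl S
  have hwZ : Z ve lam univ {x, y} ≤ η * Z ve lam univ ∅ := by
    unfold fr at hw
    rw [Finset.empty_union, div_le_iff₀ hZ] at hw
    exact hw
  have hPe : ∑ e ∈ univ.filter (fun e => ve e ⊆ S), lam e * Z ve lam univ (∅ ∪ ve e) ≤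
      (1 - ε / 3) * Z ve lam univ ∅ := by
    have : ∀ e ∈ univ.filter (fun e => ve e ⊆ S), lam e * Z ve lam univ (∅ ∪ ve e) ≤
        1 / ((3 / 2 - ε / 2) * D) * Z ve lam univ ∅ := by
      intro e _
      have := hP e
      unfold fr at this
      rw [← mul_div_assoc, div_le_iff₀ hZ] at this
      exact this
    refine (Finset.sum_le_sum this).trans ?_
    rw [Finset.sum_const, nsmul_eq_mul, ← mul_assoc]
    apply mul_le_mul_of_nonneg_right _ hZ.le
    rw [mul_one_div, div_le_iff₀ (by positivity)]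
    exact hS
  have h4 : (1 + 1 / η') * ((1 + 4 / η') * Z ve lam univ {x, y}) ≤ ε / 4 * Z ve lam univ ∅ := by
    have e1 : (1 + 1 / η') ≤ 2 / η' := by
      rw [show (2:ℝ) / η' = 1 / η' + 1 / η' by ring]
      have : 1 ≤ 1 / η' := by rw [le_div_iff₀ hη']; linarith
      linarith
    have e2 : (1 + 4 / η') ≤ 5 / η' := by
      rw [show (5:ℝ) / η' = 1 / η' + 4 / η' by ring]
      have : 1 ≤ 1 / η' := by rw [le_div_iff₀ hη']; linarith
      linarith
    have hz : 0 ≤ Z ve lam univ {x, y} := by linarith [one_le_Z ve hl univ ({x, y} : Finset V)]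
    have e3 : (1 + 4 / η') * Z ve lam univ {x, y} ≤ 5 / η' * (η * Z ve lam univ ∅) :=
      mul_le_mul e2 hwZ hz (by positivity)
    have e4 : (1 + 1 / η') * ((1 + 4 / η') * Z ve lam univ {x, y}) ≤
        2 / η' * (5 / η' * (η * Z ve lam univ ∅)) :=
      mul_le_mul e1 e3 (by positivity) (by positivity)
    refine e4.trans ?_
    have e5 : 2 / η' * (5 / η' * (η * Z ve lam univ ∅)) = (10 * η / η' ^ 2) * Z ve lam univ ∅ := by
      field_simp
      ring
    rw [e5]
    apply mul_le_mul_of_nonneg_right _ hZ.le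
    rw [div_le_iff₀ (by positivity)]
    nlinarith [mul_pos hε (pow_pos hη' 2)]
  nlinarith

end apr

theorem apriori (ε : ℝ) (hε : 0 < ε) (hε1 : ε ≤ 1 / 20) :
    ∃ η : ℝ, 0 < η ∧ ∀ {V E : Type} [Fintype V] [Fintype E] (ve : E → Finset V)
      (_ : ∀ e, (ve e).card = 2) (D : ℝ) (_ : 0 < D)
      (_ : ∀ v, (dg ve univ v : ℝ) ≤ D)
      (_ : ∀ S : Finset V, S.card = 3 →
        ((univ.filter (fun e => ve e ⊆ S)).card : ℝ) ≤ (3 / 2 - ε) * D)
      (lam : E → ℝ) (_ : ∀ e, 0 ≤ lam e)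
      (_ : ∀ e, lam e * fr ve lam univ ∅ (ve e) ≤ 1 / ((3 / 2 - ε / 2) * D)),
      ∀ x y : V, x ≠ y → η ≤ fr ve lam univ ∅ {x, y} := by
  set η₂ : ℝ := 1 / 200 with hη₂
  set η₁ : ℝ := ε * η₂ ^ 2 / 200 with hη₁
  set η₀ : ℝ := ε * η₁ ^ 2 / 200 with hη₀
  have p2 : 0 < η₂ := by norm_num [hη₂]
  have p1 : 0 < η₁ := by positivity
  have p0 : 0 < η₀ := by positivity
  have l12 : η₁ ≤ η₂ := by rw [hη₁]; nlinarith
  have l1 : η₁ ≤ 1 := by linarith [show η₂ ≤ 1 by norm_num [hη₂]]
  have l01 : η₀ ≤ η₁ := by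
    rw [hη₀]
    have : ε * η₁ ^ 2 ≤ 1 * (η₁ * 1) := by
      apply mul_le_mul (by linarith) _ (by positivity) (by norm_num)
      rw [pow_two]
      exact mul_le_mul_of_nonneg_left l1 p1.le
    linarith
  refine ⟨η₀, p0, ?_⟩
  intro V E _ _ ve h2 D hD hdeg htri lam hl hP x y hxy
  by_contra hlt
  push Not at hlt
  have hZ : 0 < Z ve lam univ ∅ := by linarith [one_le_Z ve hl univ (∅ : Finset V)]
  have hK : (0:ℝ) < (3 / 2 - ε / 2) * D := mul_pos (by linarith) hD
  have hfree : ∀ v, (32 : ℝ) / 100 ≤ fr ve lam univ ∅ {v} := by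
    intro v
    have h := fr_sum h2 hl univ (Finset.notMem_empty v)
    have h3 : ∑ e ∈ ed ve univ ∅ v, lam e * fr ve lam univ ∅ (ve e) ≤
        (dg ve univ v : ℝ) * (1 / ((3 / 2 - ε / 2) * D)) := by
      refine (Finset.sum_le_sum (fun e _ => hP e)).trans ?_
      rw [Finset.sum_const, nsmul_eq_mul]
      apply mul_le_mul_of_nonneg_right _ (by positivity)
      unfold ed dg
      exact_mod_cast Finset.card_le_card (fun e he => by
        rw [Finset.mem_filter] at he ⊢
        exact ⟨he.1, he.2.1⟩)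
    have h4 : (dg ve univ v : ℝ) * (1 / ((3 / 2 - ε / 2) * D)) ≤ 68 / 100 := by
      rw [mul_one_div, div_le_iff₀ hK]
      have := hdeg v
      nlinarith
    linarith
  -- pairs of small elements
  have hpair : ∀ (t : ℝ) (a b : V), a ≠ x → b ≠ x → a ≠ b → fr ve lam univ ∅ {x, a} < t →
      fr ve lam univ ∅ {x, b} < t → fr ve lam univ ∅ {a, b} ≤ 2 * t / (32 / 100) := by
    intro t a b ha hb hab h3 h4
    have h5 := switch_fr h2 hl (x := a) (y := b) (z := x) hab ha hb
    rw [Finset.pair_comm a x, Finset.pair_comm b x] at h5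
    have h6 := hfree x
    have h7 : 0 ≤ fr ve lam univ ∅ {a, b} := (fr_pos ve hl univ ∅ _).le
    rw [le_div_iff₀ (by norm_num)]
    nlinarith
  -- at most two small elements
  have hcard : ((univ : Finset V).filter (fun z => z ≠ x ∧ fr ve lam univ ∅ {x, z} < η₂)).card ≤ 2 := by
    by_contra hc
    push Not at hc
    obtain ⟨a, b, c, ha, hb, hc', hab, hac, hbc⟩ := Finset.two_lt_card_iff.mp hc
    rw [Finset.mem_filter] at ha hb hc'
    obtain ⟨_, ha1, ha2⟩ := ha
    obtain ⟨_, hb1, hb2⟩ := hb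
    obtain ⟨_, hc1, hc2⟩ := hc'
    have h4 := Apr_four ve hl x a b c
    have e1 := hpair η₂ a b ha1 hb1 hab ha2 hb2
    have e2 := hpair η₂ a c ha1 hc1 hac ha2 hc2
    have e3 := hpair η₂ b c hb1 hc1 hbc hb2 hc2
    have e4 := hfree x
    have e5 := hfree a
    have e6 := hfree b
    have e7 := hfree c
    unfold fr at ha2 hb2 hc2 e1 e2 e3 e4 e5 e6 e7
    rw [div_lt_iff₀ hZ] at ha2 hb2 hc2
    rw [div_le_iff₀ hZ] at e1 e2 e3
    rw [le_div_iff₀ hZ] at e4 e5 e6 e7
    rw [hη₂] at *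
    linarith
  -- the edges inside small sets
  have hsmall : ∀ S : Finset V, x ∈ S → 2 ≤ S.card → S.card ≤ 3 →
      ((univ.filter (fun e => ve e ⊆ S)).card : ℝ) ≤ (1 - ε / 3) * ((3 / 2 - ε / 2) * D) := by
    intro S hxS h22 h33
    rcases Nat.lt_or_ge S.card 3 with h | h
    · have hS2 : S.card = 2 := by omega
      have : (univ.filter (fun e => ve e ⊆ S)) ⊆ univ.filter (fun e => x ∈ ve e) := by
        intro e he
        rw [Finset.mem_filter] at he ⊢
        refine ⟨he.1, ?_⟩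
        have : ve e = S := Finset.eq_of_subset_of_card_le he.2 (by rw [h2 e, hS2])
        rw [this]
        exact hxS
      have h5 : ((univ.filter (fun e => ve e ⊆ S)).card : ℝ) ≤ D := by
        refine le_trans ?_ (hdeg x)
        unfold dg
        exact_mod_cast Finset.card_le_card this
      nlinarith
    · have hS3 : S.card = 3 := by omega
      refine (htri S hS3).trans ?_
      nlinarith [mul_pos hε hε, mul_pos (mul_pos hε hε) hD]
  set T₀ := (univ : Finset V).filter (fun z => z ≠ x ∧ fr ve lam univ ∅ {x, z} < η₀) with hT₀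
  set T₁ := (univ : Finset V).filter (fun z => z ≠ x ∧ fr ve lam univ ∅ {x, z} < η₁) with hT₁
  set T₂ := (univ : Finset V).filter (fun z => z ≠ x ∧ fr ve lam univ ∅ {x, z} < η₂) with hT₂
  have hy0 : y ∈ T₀ := by
    rw [hT₀, Finset.mem_filter]
    exact ⟨Finset.mem_univ _, Ne.symm hxy, hlt⟩
  have s01 : T₀ ⊆ T₁ := by
    intro z hz
    rw [hT₀, Finset.mem_filter] at hz
    rw [hT₁, Finset.mem_filter]
    exact ⟨hz.1, hz.2.1, by linarith [hz.2.2]⟩
  have s12 : T₁ ⊆ T₂ := by
    intro z hz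
    rw [hT₁, Finset.mem_filter] at hz
    rw [hT₂, Finset.mem_filter]
    exact ⟨hz.1, hz.2.1, by linarith [hz.2.2]⟩
  have hx0 : ∀ T : Finset V, T ⊆ T₂ → x ∉ T := by
    intro T hT hx
    have := hT hx
    rw [hT₂, Finset.mem_filter] at this
    exact this.2.1 rfl
  have hfin : ∀ (T : Finset V) (η η' : ℝ), 0 < η → 0 < η' → η' ≤ 1 → η ≤ ε * η' ^ 2 / 200 → T ⊆ T₂ →
      y ∈ T → fr ve lam univ ∅ {x, y} ≤ η →
      (∀ u, u ≠ x → u ∉ T → η' ≤ fr ve lam univ ∅ {x, u}) → False := by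
    intro T η η' q1 q2 q3 q4 q5 q6 q7 q8
    have hxT := hx0 T q5
    have hc1 : (insert x T).card = T.card + 1 := Finset.card_insert_of_notMem hxT
    have hc2 : T.card ≤ 2 := (Finset.card_le_card q5).trans hcard
    have hc3 : 1 ≤ T.card := Finset.card_pos.mpr ⟨y, q6⟩
    apply Apr_core h2 hl hD hε hε1 q1 q2 q3 q4 hdeg hP (insert x T)
      (hsmall _ (Finset.mem_insert_self _ _) (by omega) (by omega)) (x := x) (y := y)
      (Finset.mem_insert_self _ _) (Finset.mem_insert_of_mem q6) hxy q7 _ hfree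
    intro u hu
    rw [Finset.mem_insert] at hu
    push Not at hu
    exact q8 u hu.1 hu.2
  by_cases h01 : T₁ ⊆ T₀
  · apply hfin T₀ η₀ η₁ p0 p1 l1 le_rfl (s01.trans s12) hy0 hlt.le
    intro u hux huT
    by_contra hc
    push Not at hc
    exact huT (h01 (by rw [hT₁, Finset.mem_filter]; exact ⟨Finset.mem_univ _, hux, hc⟩))
  · have hlt01 : T₀ ⊂ T₁ := ⟨s01, h01⟩
    have hc1 := Finset.card_lt_card hlt01
    have hc0 : 1 ≤ T₀.card := Finset.card_pos.mpr ⟨y, hy0⟩
    have h12 : T₁ = T₂ := Finset.eq_of_subset_of_card_le s12 (by omega)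
    apply hfin T₁ η₁ η₂ p1 p2 (by norm_num [hη₂]) le_rfl s12 (s01 hy0) (by linarith)
    intro u hux huT
    by_contra hc
    push Not at hc
    exact huT (by rw [h12, hT₂, Finset.mem_filter]; exact ⟨Finset.mem_univ _, hux, hc⟩)

end Pool.Agent.KH
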