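import Pool.Agent.Lib.MP_30840b_co_h61.Defs

set_option autoImplicit false

open Finset Classical

namespace Pool.Agent.KH

/-- the events of one stage: failure at the edge `e` with ends `x`, `y` -/
def Bad {V E C : Type} [Fintype V] [Fintype E] [Fintype C] (ve : E → Finset V) (lam : E → ℝ)
    (L : E → Finset C) (G : Finset E) (U : C → Finset V) (θ β : ℝ) (D : ℕ) (r : ℕ)
    (x y : E → V) (e : E) (ω : C → E → Fin 4) : Prop :=
  e ∈ G ∧ (QT ve lam L (FB ve G e (r + 3)) U r e (x e) (y e) ω < (1 - β) * Q ve lam L G U e ∨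
    ∃ v ∈ ve e, (1 - θ) * dg ve G v + β * D <
      (dg ve (FB ve G e (r + 3) \ Dl L (FB ve G e (r + 3)) ω) v : ℝ))

end Pool.Agent.KH
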