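import Pool.Agent.Lib.MP_30840b_co_h61.HC

/-! Balls. -/

set_option autoImplicit false

open Finset Classical

namespace Pool.Agent.KH

variable {V E : Type} [Fintype V] [Fintype E]

lemma Bv_mono (ve : E → Finset V) (S : Finset V) {j k : ℕ} (h : j ≤ k) :
    Bv ve S j ⊆ Bv ve S k := by
  induction k, h using Nat.le_induction with
  | base => exact Subset.rfl
  | succ k _ ih => exact ih.trans subset_union_left

/-- an edge that meets the ball of radius `k` is contained in the ball of radius `k+1` -/
lemma edge_Bv {ve : E → Finset V} {S : Finset V} {k : ℕ} {e : E}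
    (h : ¬ Disjoint (ve e) (Bv ve S k)) : ve e ⊆ Bv ve S (k + 1) := by
  intro v hv
  exact mem_union_right _ (mem_filter.2 ⟨mem_univ _, e, hv, h⟩)

lemma Bv_card {ve : E → Finset V} (h2 : ∀ e, (ve e).card = 2) {D : ℕ}
    (hd : ∀ v, dg ve univ v ≤ D) (S : Finset V) (k : ℕ) :
    (Bv ve S k).card ≤ S.card * (D + 1) ^ k := by
  induction k with
  | zero => simp [Bv]
  | succ k ih =>
    have hsub : Bv ve S (k + 1) ⊆ Bv ve S k ∪ (Bv ve S k).biUnion fun v =>
        (univ.filter fun e => v ∈ ve e).image fun e => oe ve e v := by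
      intro v hv
      rcases mem_union.1 hv with hv | hv
      · exact mem_union_left _ hv
      · obtain ⟨_, e, hve, hd'⟩ := mem_filter.1 hv
        by_cases hvB : v ∈ Bv ve S k
        · exact mem_union_left _ hvB
        · rw [not_disjoint_iff] at hd'
          obtain ⟨w, hw, hwB⟩ := hd'
          refine mem_union_right _ (mem_biUnion.2 ⟨w, hwB, mem_image.2 ⟨e,
            mem_filter.2 ⟨mem_univ _, hw⟩, ?_⟩⟩)
          have h3 := (oe_spec h2 hw).1
          rw [h3, mem_insert, mem_singleton] at hve
          rcases hve with hve | hve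
          · exact absurd (hve ▸ hwB) hvB
          · exact hve.symm
    have h4 : ((Bv ve S k).biUnion fun v =>
        (univ.filter fun e => v ∈ ve e).image fun e => oe ve e v).card ≤
        (Bv ve S k).card * D := by
      refine card_biUnion_le.trans ?_
      refine (sum_le_sum fun v _ => card_image_le.trans (hd v)).trans ?_
      rw [sum_const, smul_eq_mul]
    have h5 := (card_le_card hsub).trans (card_union_le _ _)
    calc (Bv ve S (k + 1)).card ≤ (Bv ve S k).card + (Bv ve S k).card * D := by omega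
      _ = (Bv ve S k).card * (D + 1) := by ring
      _ ≤ S.card * (D + 1) ^ k * (D + 1) := Nat.mul_le_mul_right _ ih
      _ = S.card * (D + 1) ^ (k + 1) := by ring

lemma Ball_oe {ve : E → Finset V} (h2 : ∀ e, (ve e).card = 2) {F : Finset E} {S : Finset V}
    {j : ℕ} {e : E} {W : Finset V} {v : V} (hv : v ∈ Bv ve S j) (he : e ∈ ed ve F W v) :
    oe ve e v ∈ Bv ve S (j + 1) := by
  unfold ed at he
  rw [mem_filter] at he
  have h3 := oe_spec h2 he.2.1
  exact edge_Bv (not_disjoint_iff.2 ⟨v, he.2.1, hv⟩) h3.2.2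

/-- the vertices of a walk -/
lemma wk_vertex {ve : E → Finset V} (h2 : ∀ e, (ve e).card = 2) {F : Finset E} {S : Finset V}
    {j : ℕ} (l : List E) (W : Finset V) (v : V) (hv : v ∈ Bv ve S j) (hval : Val ve F l W v) :
    (wk ve l W v).2 ∈ Bv ve S (j + l.length) := by
  induction l generalizing j W v with
  | nil => simpa [wk] using hv
  | cons e l ih =>
    have h3 := ih (insert v W) (oe ve e v) (Ball_oe h2 hv hval.1) hval.2
    rw [List.length_cons, show j + (l.length + 1) = j + 1 + l.length by ring]
    exact h3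

/-- the removed set of a walk -/
lemma wk_set {ve : E → Finset V} (h2 : ∀ e, (ve e).card = 2) {F : Finset E} {S : Finset V}
    {j : ℕ} (l : List E) (W : Finset V) (v : V) (hv : v ∈ Bv ve S j) (hval : Val ve F l W v) :
    ∃ P : Finset V, P ⊆ Bv ve S (j + l.length) ∧ ∀ W' : Finset V, (wk ve l W' v).1 = W' ∪ P ∧
      (wk ve l W' v).2 = (wk ve l W v).2 := by
  induction l generalizing j W v with
  | nil => exact ⟨∅, empty_subset _, fun W' => by simp [wk]⟩
  | cons e l ih =>
    obtain ⟨P, hP, hP'⟩ := ih (insert v W) (oe ve e v) (Ball_oe h2 hv hval.1) hval.2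
    rw [show j + 1 + l.length = j + (e :: l).length by rw [List.length_cons]; ring] at hP
    refine ⟨insert v P, insert_subset (Bv_mono ve S (by omega) hv) hP, fun W' => ?_⟩
    have h3 := hP' (insert v W')
    refine ⟨?_, h3.2⟩
    show (wk ve l (insert v W') (oe ve e v)).1 = _
    rw [h3.1]
    ext x
    simp only [mem_union, mem_insert]
    tauto

/-- the current vertex of a walk is not a removed vertex -/
lemma wk_notMem {ve : E → Finset V} (h2 : ∀ e, (ve e).card = 2) {F : Finset E}
    (l : List E) (W : Finset V) (v : V) (hv : v ∉ W) (hval : Val ve F l W v) :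
    (wk ve l W v).2 ∉ (wk ve l W v).1 := by
  induction l generalizing W v with
  | nil => simpa [wk] using hv
  | cons e l ih =>
    refine ih (insert v W) (oe ve e v) ?_ hval.2
    have he := hval.1
    unfold ed at he
    rw [mem_filter] at he
    have h3 := oe_spec h2 he.2.1
    rw [mem_insert]
    push Not
    exact ⟨h3.2.1, fun h4 => disjoint_left.1 he.2.2 h3.2.2 h4⟩

/-- the number of valid walks of length `k` -/
lemma walks_card {ve : E → Finset V} (h2 : ∀ e, (ve e).card = 2) {D : ℕ}
    (hd : ∀ v, dg ve univ v ≤ D) (F : Finset E) (v : V) (k : ℕ) :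
    ∃ 𝓛 : Finset (List E), 𝓛.card ≤ (D + 1) ^ k ∧
      ∀ (l : List E) (W : Finset V), l.length < k → Val ve F l W v → l ∈ 𝓛 := by
  induction k generalizing v with
  | zero => exact ⟨∅, by simp, fun l W hl => absurd hl (by omega)⟩
  | succ k ih =>
    choose 𝓛 h𝓛 h𝓛' using ih
    refine ⟨insert [] ((univ.filter fun e => v ∈ ve e).biUnion fun e =>
      (𝓛 (oe ve e v)).image fun l => e :: l), ?_, ?_⟩
    · refine (card_insert_le _ _).trans ?_
      have h3 : ((univ.filter fun e => v ∈ ve e).biUnion fun e =>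
          (𝓛 (oe ve e v)).image fun l => e :: l).card ≤ D * (D + 1) ^ k := by
        refine card_biUnion_le.trans ?_
        refine (sum_le_sum fun e _ => card_image_le.trans (h𝓛 (oe ve e v))).trans ?_
        rw [sum_const, smul_eq_mul]
        exact Nat.mul_le_mul_right _ (hd v)
      have h4 : 1 ≤ (D + 1) ^ k := Nat.one_le_pow _ _ (by omega)
      calc _ ≤ D * (D + 1) ^ k + (D + 1) ^ k := by omega
        _ = (D + 1) ^ (k + 1) := by ring
    · intro l W hl hval
      rcases l with _ | ⟨e, l⟩
      · exact mem_insert_self _ _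
      · refine mem_insert_of_mem (mem_biUnion.2 ⟨e, ?_, mem_image.2 ⟨l, ?_, rfl⟩⟩)
        · have he := hval.1
          unfold ed at he
          rw [mem_filter] at he
          exact mem_filter.2 ⟨mem_univ _, he.2.1⟩
        · rw [List.length_cons] at hl
          exact h𝓛' (oe ve e v) l (insert v W) (by omega) hval.2

/-- symmetry of balls -/
lemma Ball_symm {ve : E → Finset V} (h2 : ∀ e, (ve e).card = 2) {S : Finset V} {k : ℕ} {v : V}
    (h : v ∈ Bv ve S k) : ∃ u ∈ S, u ∈ Bv ve {v} k := by
  induction k generalizing v with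
  | zero => exact ⟨v, h, mem_singleton_self v⟩
  | succ k ih =>
    rcases mem_union.1 h with h | h
    · obtain ⟨u, hu, hu'⟩ := ih h
      exact ⟨u, hu, Bv_mono ve _ (Nat.le_succ k) hu'⟩
    · obtain ⟨_, e, hve, hd'⟩ := mem_filter.1 h
      rw [not_disjoint_iff] at hd'
      obtain ⟨w, hw, hwB⟩ := hd'
      obtain ⟨u, hu, hu'⟩ := ih hwB
      refine ⟨u, hu, ?_⟩
      have hw1 : w ∈ Bv ve {v} 1 := by
        refine edge_Bv (k := 0) (e := e) (not_disjoint_iff.2 ⟨v, hve, ?_⟩) hw
        exact mem_singleton_self v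
      have key : ∀ (m : ℕ) (A B : Finset V) (c : ℕ), A ⊆ Bv ve B c →
          Bv ve A m ⊆ Bv ve B (c + m) := by
        intro m
        induction m with
        | zero => intro A B c hAB; exact hAB
        | succ m ihm =>
          intro A B c hAB x hx
          rcases mem_union.1 hx with hx | hx
          · exact mem_union_left _ (ihm A B c hAB hx)
          · obtain ⟨_, f, hf, hf'⟩ := mem_filter.1 hx
            rw [not_disjoint_iff] at hf'
            obtain ⟨y, hy, hy'⟩ := hf'
            exact edge_Bv (not_disjoint_iff.2 ⟨y, hy, ihm A B c hAB hy'⟩) hf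
      have h5 := key k {w} {v} 1 (singleton_subset_iff.2 hw1) hu'
      rw [add_comm]
      exact h5

/-- few edges `f` have a near ball meeting the far ball of `e` -/
lemma nb_card {ve : E → Finset V} (h2 : ∀ e, (ve e).card = 2) {D : ℕ}
    (hd : ∀ v, dg ve univ v ≤ D) (G : Finset E) (e : E) (k R : ℕ) :
    (univ.filter (fun f => ¬ Disjoint (FB ve G f k) (FB ve G e R))).card ≤
      2 * (D + 1) ^ (R + k + 2) := by
  have hsub : univ.filter (fun f => ¬ Disjoint (FB ve G f k) (FB ve G e R)) ⊆
      (Bv ve (ve e) (R + k)).biUnion fun v => univ.filter fun f => v ∈ ve f := by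
    intro f hf
    obtain ⟨_, hf⟩ := mem_filter.1 hf
    rw [not_disjoint_iff] at hf
    obtain ⟨g, hg1, hg2⟩ := hf
    unfold FB at hg1 hg2
    rw [mem_filter] at hg1 hg2
    obtain ⟨x, hx⟩ : (ve g).Nonempty := by
      rw [← card_pos, h2]
      norm_num
    obtain ⟨u, hu, hu'⟩ := Ball_symm h2 (hg1.2 hx)
    refine mem_biUnion.2 ⟨u, ?_, mem_filter.2 ⟨mem_univ _, hu⟩⟩
    have key : ∀ (m : ℕ) (A B : Finset V) (c : ℕ), A ⊆ Bv ve B c →
        Bv ve A m ⊆ Bv ve B (c + m) := by
      intro m
      induction m with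
      | zero => intro A B c hAB; exact hAB
      | succ m ihm =>
        intro A B c hAB x hx
        rcases mem_union.1 hx with hx | hx
        · exact mem_union_left _ (ihm A B c hAB hx)
        · obtain ⟨_, f, hf, hf'⟩ := mem_filter.1 hx
          rw [not_disjoint_iff] at hf'
          obtain ⟨y, hy, hy'⟩ := hf'
          exact edge_Bv (not_disjoint_iff.2 ⟨y, hy, ihm A B c hAB hy'⟩) hf
    exact key k {x} (ve e) R (singleton_subset_iff.2 (hg2.2 hx)) hu'
  have h3 := Bv_card h2 hd (ve e) (R + k)
  rw [h2 e] at h3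
  refine (card_le_card hsub).trans (card_biUnion_le.trans ?_)
  refine (sum_le_sum fun v _ => hd v).trans ?_
  rw [sum_const, smul_eq_mul]
  calc (Bv ve (ve e) (R + k)).card * D ≤ 2 * (D + 1) ^ (R + k) * (D + 1) :=
        Nat.mul_le_mul h3 (by omega)
    _ = 2 * (D + 1) ^ (R + k + 1) := by ring
    _ ≤ 2 * (D + 1) ^ (R + k + 2) :=
        Nat.mul_le_mul_left _ (Nat.pow_le_pow_right (by omega) (by omega))

end Pool.Agent.KH
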