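import Pool.Agent.Lib.MP_30840b_co_h61.Prb

set_option autoImplicit false

open Finset Classical

namespace Pool.Agent.KH

variable {ι κ : Type} [Fintype ι] [Fintype κ]

/-- `e^x ≤ 1 + x + x²` for `|x| ≤ 1` -/
lemma Bern_exp_le (x : ℝ) (h : |x| ≤ 1) : Real.exp x ≤ 1 + x + x ^ 2 := by
  have := Real.abs_exp_sub_one_sub_id_le h
  have h2 := (abs_le.1 this).2
  linarith

/-- one coordinate -/
lemma Bern_one (q : κ → ℝ) (hq : ∀ k, 0 ≤ q k) (hq1 : ∑ k, q k = 1) (F : κ → ℝ) (h : κ → ℝ)
    (h0 : ∀ k, 0 ≤ h k) (h1 : ∀ k, h k ≤ 1) {B s : ℝ} (hB : 0 < B) (hs : |s| * (4 * B) ≤ 1)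
    (hF : ∀ k l, q k ≠ 0 → q l ≠ 0 → |F k - F l| ≤ B * (h k + h l)) :
    ∑ k, q k * Real.exp (s * (F k - ∑ l, q l * F l)) ≤
      Real.exp (4 * s ^ 2 * B ^ 2 * ∑ l, q l * h l) := by
  set m := ∑ l, q l * F l with hm
  set v := ∑ l, q l * h l with hv
  have hv0 : 0 ≤ v := Finset.sum_nonneg fun l _ => mul_nonneg (hq l) (h0 l)
  have hv1 : v ≤ 1 := by
    calc v ≤ ∑ l, q l * 1 := Finset.sum_le_sum fun l _ => mul_le_mul_of_nonneg_left (h1 l) (hq l)
      _ = 1 := by simp [hq1]
  have hd : ∀ k, q k ≠ 0 → |F k - m| ≤ B * (h k + v) := by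
    intro k hk
    have e1 : F k - m = ∑ l, q l * (F k - F l) := by
      have e2 : ∀ l, q l * (F k - F l) = q l * F k - q l * F l := fun l => by ring
      rw [Finset.sum_congr rfl fun l _ => e2 l, Finset.sum_sub_distrib, ← Finset.sum_mul, hq1,
        one_mul]
    have e3 : B * (h k + v) = ∑ l, q l * (B * (h k + h l)) := by
      have e2 : ∀ l, q l * (B * (h k + h l)) = B * h k * q l + B * (q l * h l) := fun l => by ring
      rw [Finset.sum_congr rfl fun l _ => e2 l, Finset.sum_add_distrib, ← Finset.mul_sum,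
        ← Finset.mul_sum, hq1]
      ring
    rw [e1, e3]
    refine (Finset.abs_sum_le_sum_abs _ _).trans (Finset.sum_le_sum fun l _ => ?_)
    rw [abs_mul, abs_of_nonneg (hq l)]
    by_cases hl : q l = 0
    · rw [hl, zero_mul, zero_mul]
    · exact mul_le_mul_of_nonneg_left (hF k l hk hl) (hq l)
  have hterm : ∀ k, q k * Real.exp (s * (F k - m)) ≤
      q k * (1 + s * (F k - m) + s ^ 2 * (B ^ 2 * (2 * h k + 2 * v))) := by
    intro k
    by_cases hk : q k = 0
    · rw [hk, zero_mul, zero_mul]
    · refine mul_le_mul_of_nonneg_left ?_ (hq k)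
      have hdk := hd k hk
      have hb : B * (h k + v) ≤ 2 * B := by
        nlinarith [h1 k]
      have e1 : |s * (F k - m)| ≤ 1 := by
        rw [abs_mul]
        calc |s| * |F k - m| ≤ |s| * (2 * B) :=
              mul_le_mul_of_nonneg_left (hdk.trans hb) (abs_nonneg s)
          _ ≤ |s| * (4 * B) := mul_le_mul_of_nonneg_left (by linarith) (abs_nonneg s)
          _ ≤ 1 := hs
      refine (Bern_exp_le _ e1).trans ?_
      have e2 : (F k - m) ^ 2 ≤ (B * (h k + v)) ^ 2 := by
        rw [← sq_abs (F k - m)]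
        exact pow_le_pow_left₀ (abs_nonneg _) hdk 2
      have e3 : (B * (h k + v)) ^ 2 ≤ B ^ 2 * (2 * h k + 2 * v) := by
        rw [mul_pow]
        refine mul_le_mul_of_nonneg_left ?_ (sq_nonneg B)
        nlinarith [h0 k, h1 k, sq_nonneg (h k - v)]
      have e4 : s ^ 2 * (F k - m) ^ 2 ≤ s ^ 2 * (B ^ 2 * (2 * h k + 2 * v)) :=
        mul_le_mul_of_nonneg_left (e2.trans e3) (sq_nonneg s)
      have e5 : (s * (F k - m)) ^ 2 = s ^ 2 * (F k - m) ^ 2 := by ring
      rw [e5]
      linarith
  have hsum : ∑ k, q k * (1 + s * (F k - m) + s ^ 2 * (B ^ 2 * (2 * h k + 2 * v))) =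
      1 + 4 * s ^ 2 * B ^ 2 * v := by
    have e1 : ∀ k, q k * (1 + s * (F k - m) + s ^ 2 * (B ^ 2 * (2 * h k + 2 * v))) =
        (1 - s * m + 2 * s ^ 2 * B ^ 2 * v) * q k + s * (q k * F k) +
          2 * s ^ 2 * B ^ 2 * (q k * h k) := fun k => by ring
    rw [Finset.sum_congr rfl fun k _ => e1 k, Finset.sum_add_distrib, Finset.sum_add_distrib,
      ← Finset.mul_sum, ← Finset.mul_sum, ← Finset.mul_sum, hq1, ← hm, ← hv]
    ring
  refine (Finset.sum_le_sum fun k _ => hterm k).trans ?_
  rw [hsum]
  have := Real.add_one_le_exp (4 * s ^ 2 * B ^ 2 * v)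
  linarith

/-- induction over the coordinates -/
lemma Bern_mgf {p : ι → κ → ℝ} (hp : IsLaw p) (h : ι → κ → ℝ)
    (h0 : ∀ i k, 0 ≤ h i k) (h1 : ∀ i k, h i k ≤ 1) {B s : ℝ} (hB : 0 < B)
    (hs : |s| * (4 * B) ≤ 1) (S : Finset ι) : ∀ f : (ι → κ) → ℝ,
    (∀ ω i k, (∀ j, p j (ω j) ≠ 0) → p i k ≠ 0 →
      |f (Function.update ω i k) - f ω| ≤ B * (h i k + h i (ω i))) →
    (∀ ω i k, i ∉ S → (∀ j, p j (ω j) ≠ 0) → p i k ≠ 0 → f (Function.update ω i k) = f ω) →
    Ex p (fun ω => Real.exp (s * (f ω - Ex p f))) ≤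
      Real.exp (4 * s ^ 2 * B ^ 2 * ∑ i ∈ S, ∑ k, p i k * h i k) := by
  induction S using Finset.induction_on with
  | empty =>
    intro f _ hf
    have hsup : ∀ ω : ι → κ, (∀ j, p j (ω j) ≠ 0) → ∀ ω' : ι → κ, (∀ j, p j (ω' j) ≠ 0) →
        f ω' = f ω := by
      intro ω hω ω' hω'
      have hT : ∀ T : Finset ι, f (fun i => if i ∈ T then ω' i else ω i) = f ω := by
        intro T
        induction T using Finset.induction_on with
        | empty => simp
        | insert a T ha ih =>
          rw [← ih]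
          have e1 : (fun i => if i ∈ insert a T then ω' i else ω i) =
              Function.update (fun i => if i ∈ T then ω' i else ω i) a (ω' a) := by
            funext i
            by_cases hi : i = a
            · subst hi
              simp
            · rw [Function.update_of_ne hi]
              simp [hi]
          rw [e1]
          refine hf _ a _ (Finset.notMem_empty a) (fun j => ?_) (hω' a)
          split_ifs
          · exact hω' j
          · exact hω j
      have := hT Finset.univ
      simpa using this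
    have hc : ∀ ω : ι → κ, (∀ j, p j (ω j) ≠ 0) → Ex p f = f ω := by
      intro ω hω
      rw [Ex_congr (p := p) (g := fun _ => f ω) (fun ω' hω' => hsup ω hω ω' hω'), Ex_const hp]
    have e1 : Ex p (fun ω => Real.exp (s * (f ω - Ex p f))) = Ex p (fun _ => (1 : ℝ)) := by
      refine Ex_congr fun ω hω => ?_
      rw [hc ω hω, sub_self, mul_zero, Real.exp_zero]
    rw [e1, Ex_const hp]
    simp
  | insert a S ha ih =>
    intro f hf hS
    set g : (ι → κ) → ℝ := fun ω => ∑ k, p a k * f (Function.update ω a k) with hg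
    have hEg : Ex p g = Ex p f := Ex_resample hp a f
    have hsupp : ∀ (ω : ι → κ) (l : κ), (∀ j, p j (ω j) ≠ 0) → p a l ≠ 0 →
        ∀ j, p j (Function.update ω a l j) ≠ 0 := by
      intro ω l hω hl j
      by_cases hj : j = a
      · subst hj
        rwa [Function.update_self]
      · rw [Function.update_of_ne hj]
        exact hω j
    have hga : ∀ (ω : ι → κ) (k : κ), g (Function.update ω a k) = g ω := by
      intro ω k
      refine Finset.sum_congr rfl fun l _ => ?_
      rw [Function.update_idem]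
    have hgi : ∀ (ω : ι → κ) (i : ι) (k : κ), i ≠ a → g (Function.update ω i k) - g ω =
        ∑ l, p a l * (f (Function.update (Function.update ω a l) i k) -
          f (Function.update ω a l)) := by
      intro ω i k hi
      rw [hg]
      dsimp only
      rw [← Finset.sum_sub_distrib]
      refine Finset.sum_congr rfl fun l _ => ?_
      rw [Function.update_comm hi]
      ring
    have h1' := ih g (by
      intro ω i k hω hk
      have hpos : 0 ≤ B * (h i k + h i (ω i)) :=
        mul_nonneg hB.le (add_nonneg (h0 i k) (h0 i _))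
      by_cases hi : i = a
      · subst hi
        rw [hga, sub_self, abs_zero]
        exact hpos
      · rw [hgi ω i k hi]
        calc |∑ l, p a l * (f (Function.update (Function.update ω a l) i k) -
              f (Function.update ω a l))|
            ≤ ∑ l, |p a l * (f (Function.update (Function.update ω a l) i k) -
              f (Function.update ω a l))| := Finset.abs_sum_le_sum_abs _ _
          _ ≤ ∑ l, p a l * (B * (h i k + h i (ω i))) := by
              refine Finset.sum_le_sum fun l _ => ?_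
              rw [abs_mul, abs_of_nonneg ((hp a).1 l)]
              by_cases hl : p a l = 0
              · rw [hl, zero_mul, zero_mul]
              · refine mul_le_mul_of_nonneg_left ?_ ((hp a).1 l)
                have := hf (Function.update ω a l) i k (hsupp ω l hω hl) hk
                rwa [Function.update_of_ne hi] at this
          _ = B * (h i k + h i (ω i)) := by rw [← Finset.sum_mul, (hp a).2, one_mul])
      (by
        intro ω i k hi hω hk
        by_cases hia : i = a
        · subst hia
          exact hga ω k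
        · refine sub_eq_zero.1 ?_
          rw [hgi ω i k hia]
          refine Finset.sum_eq_zero fun l _ => ?_
          by_cases hl : p a l = 0
          · rw [hl, zero_mul]
          · rw [hS (Function.update ω a l) i k (by
              rw [Finset.mem_insert]
              rintro (h3 | h3)
              · exact hia h3
              · exact hi h3) (hsupp ω l hω hl) hk, sub_self, mul_zero])
    rw [hEg] at h1'
    rw [← Ex_resample hp a (fun ω => Real.exp (s * (f ω - Ex p f)))]
    have hstep : Ex p (fun ω => ∑ k, p a k *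
        Real.exp (s * (f (Function.update ω a k) - Ex p f))) ≤
        Ex p (fun ω => Real.exp (4 * s ^ 2 * B ^ 2 * ∑ l, p a l * h a l) *
          Real.exp (s * (g ω - Ex p f))) := by
      refine Ex_mono hp fun ω hω => ?_
      have e1 : ∑ k, p a k * Real.exp (s * (f (Function.update ω a k) - Ex p f)) =
          (∑ k, p a k * Real.exp (s * (f (Function.update ω a k) - g ω))) *
            Real.exp (s * (g ω - Ex p f)) := by
        rw [Finset.sum_mul]
        refine Finset.sum_congr rfl fun k _ => ?_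
        rw [mul_assoc, ← Real.exp_add]
        congr 2
        ring
      rw [e1]
      refine mul_le_mul_of_nonneg_right ?_ (Real.exp_pos _).le
      refine Bern_one (p a) (hp a).1 (hp a).2 (fun k => f (Function.update ω a k)) (h a) (h0 a)
        (h1 a) hB hs ?_
      intro k l hk hl
      have := hf (Function.update ω a l) a k (hsupp ω l hω hl) hk
      rwa [Function.update_idem, Function.update_self] at this
    refine hstep.trans ?_
    rw [Ex_smul, Finset.sum_insert ha, mul_add, Real.exp_add]
    exact mul_le_mul_of_nonneg_left h1' (Real.exp_pos _).le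

/-- Bernstein's inequality for a function on a product space: `h i k ∈ [0,1]` measures whether the
value `k` of the coordinate `i` is active. -/
theorem bern {p : ι → κ → ℝ} (hp : IsLaw p) (f : (ι → κ) → ℝ) (h : ι → κ → ℝ)
    (h0 : ∀ i k, 0 ≤ h i k) (h1 : ∀ i k, h i k ≤ 1) {B v : ℝ} (hB : 0 < B)
    (hf : ∀ ω i k, (∀ j, p j (ω j) ≠ 0) → p i k ≠ 0 →
      |f (Function.update ω i k) - f ω| ≤ B * (h i k + h i (ω i)))
    (hv : ∑ i, ∑ k, p i k * h i k ≤ v) {s t : ℝ} (hs : 0 ≤ s) (hsB : 4 * (s * B) ≤ 1) :
    Pb p (fun ω => t ≤ |f ω - Ex p f|) ≤ 2 * Real.exp (-(s * t) + 8 * s ^ 2 * B ^ 2 * v) := by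
  have hv0 : 0 ≤ ∑ i, ∑ k, p i k * h i k :=
    Finset.sum_nonneg fun i _ => Finset.sum_nonneg fun k _ => mul_nonneg ((hp i).1 k) (h0 i k)
  have key : ∀ g : (ι → κ) → ℝ,
      (∀ ω i k, (∀ j, p j (ω j) ≠ 0) → p i k ≠ 0 →
        |g (Function.update ω i k) - g ω| ≤ B * (h i k + h i (ω i))) →
      Pb p (fun ω => t ≤ g ω - Ex p g) ≤ Real.exp (-(s * t) + 8 * s ^ 2 * B ^ 2 * v) := by
    intro g hg
    have e0 : |s| * (4 * B) ≤ 1 := by rw [abs_of_nonneg hs]; linarith
    have e1 := Bern_mgf hp h h0 h1 hB e0 Finset.univ g hg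
      (fun ω i k hi => absurd (Finset.mem_univ i) hi)
    refine (Pb_exp hp (fun ω => g ω - Ex p g) t hs).trans ?_
    rw [Real.exp_add]
    refine mul_le_mul_of_nonneg_left (e1.trans (Real.exp_le_exp.2 ?_)) (Real.exp_pos _).le
    have e2 : 4 * s ^ 2 * B ^ 2 * ∑ i, ∑ k, p i k * h i k ≤ 4 * s ^ 2 * B ^ 2 * v :=
      mul_le_mul_of_nonneg_left hv (by positivity)
    have e3 : 0 ≤ 4 * s ^ 2 * B ^ 2 * v := mul_nonneg (by positivity) (hv0.trans hv)
    linarith
  have e1 : Pb p (fun ω => t ≤ |f ω - Ex p f|) ≤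
      Pb p (fun ω => t ≤ f ω - Ex p f) + Pb p (fun ω => t ≤ -f ω - Ex p (fun ω => -f ω)) := by
    refine (Pb_mono hp (B := fun ω => t ≤ f ω - Ex p f ∨ t ≤ -f ω - Ex p (fun ω => -f ω))
      fun ω _ hω => ?_).trans (Pb_or hp _ _)
    have e2 : Ex p (fun ω => -f ω) = -Ex p f := by
      have := Ex_smul p (-1) f
      simpa using this
    rw [e2]
    rcases le_abs.1 hω with h3 | h3
    · exact Or.inl h3
    · right; linarith
  have e3 := key f hf
  have e4 := key (fun ω => -f ω) (fun ω i k hω hk => by
    have := hf ω i k hω hk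
    rw [show -f (Function.update ω i k) - -f ω = -(f (Function.update ω i k) - f ω) by ring,
      abs_neg]
    exact this)
  linarith

end Pool.Agent.KH
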