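import Mathlib

/-! Existence of the equalising coins. -/

set_option autoImplicit false

open Finset Classical

namespace Pool.Agent.KH

theorem exists_coin {α : Type} (s : Finset α) (q : α → ℝ) (h0 : ∀ c ∈ s, 0 ≤ q c)
    (h1 : ∀ c ∈ s, q c ≤ 1) {σ θ : ℝ} (hσ : 0 < σ) (hσ1 : σ ≤ 1) (hθ : 0 < θ) (hθσ : θ ≤ σ / 8)
    (hs : 1 + σ ≤ ∑ c ∈ s, q c) :
    ∃ a : ℝ, 0 ≤ a ∧ a ≤ 1 ∧ ∏ c ∈ s, (1 - θ * a * q c) = 1 - θ := by
  have hcont : ContinuousOn (fun a : ℝ => ∏ c ∈ s, (1 - θ * a * q c)) (Set.Icc 0 1) := by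
    refine Continuous.continuousOn ?_
    exact continuous_finsetProd _ fun c _ => by fun_prop
  have hiv := intermediate_value_Icc' (zero_le_one' ℝ) hcont
  have hmem : (1 - θ) ∈ Set.Icc (∏ c ∈ s, (1 - θ * 1 * q c)) (∏ c ∈ s, (1 - θ * 0 * q c)) := by
    constructor
    · have e1 : ∏ c ∈ s, (1 - θ * 1 * q c) ≤ ∏ c ∈ s, Real.exp (-(θ * q c)) := by
        refine Finset.prod_le_prod (fun c hc => ?_) fun c hc => ?_
        · have a1 := h0 c hc
          have a2 := h1 c hc
          nlinarith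
        · have := Real.add_one_le_exp (-(θ * q c))
          linarith
      rw [← Real.exp_sum, Finset.sum_neg_distrib, ← Finset.mul_sum] at e1
      refine e1.trans ?_
      have e2 : Real.exp (-(θ * ∑ c ∈ s, q c)) ≤ Real.exp (-(θ * (1 + σ))) := by
        apply Real.exp_le_exp.2
        nlinarith
      refine e2.trans ?_
      have e3 : 1 + θ * (1 + σ) ≤ Real.exp (θ * (1 + σ)) := by
        have := Real.add_one_le_exp (θ * (1 + σ))
        linarith
      have e4 : 1 ≤ (1 - θ) * Real.exp (θ * (1 + σ)) := by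
        have h5 : 0 < 1 - θ := by linarith
        have h6 : 1 ≤ (1 - θ) * (1 + θ * (1 + σ)) := by
          have h7 : θ * (1 + σ) ≤ σ := by nlinarith
          nlinarith
        exact h6.trans (mul_le_mul_of_nonneg_left e3 h5.le)
      rw [Real.exp_neg, inv_eq_one_div, div_le_iff₀ (Real.exp_pos _)]
      exact e4
    · simp only [mul_zero, zero_mul, sub_zero, Finset.prod_const_one]
      linarith
  obtain ⟨a, ha, hae⟩ := hiv hmem
  exact ⟨a, ha.1, ha.2, hae⟩

end Pool.Agent.KH
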