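import Pool.Agent.Lib.MP_30840b_co_h61.HC

/-! Decay of correlations and stability of the recursion. -/

set_option autoImplicit false
set_option linter.unusedSectionVars false

open Finset Classical

namespace Pool.Agent.KH

variable {V E : Type} [Fintype V] [Fintype E]

namespace Dec

/-- convexity -/
lemma conv {a t Λ : ℝ} (ha : 0 ≤ a) (haΛ : a ≤ Λ) (ht : 0 ≤ t) :
    Real.exp (-(Λ / (1 + Λ) * t)) * (1 + a) ≤ 1 + a * Real.exp (-t) := by
  have h1 : (0 : ℝ) < 1 + a := by linarith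
  have hΛ : (0 : ℝ) < 1 + Λ := by linarith
  have hp0 : 0 ≤ a / (1 + a) := by positivity
  have hp1 : 0 ≤ 1 - a / (1 + a) := by
    rw [sub_nonneg, div_le_one h1]; linarith
  have h2 := convexOn_exp.2 (Set.mem_univ (0 : ℝ)) (Set.mem_univ (-t)) hp1 hp0 (by ring)
  simp only [smul_eq_mul, mul_zero, zero_add, Real.exp_zero, mul_one] at h2
  have h3 : a / (1 + a) ≤ Λ / (1 + Λ) := by
    rw [div_le_div_iff₀ h1 hΛ]; nlinarith
  have h4 : Real.exp (-(Λ / (1 + Λ) * t)) ≤ Real.exp (a / (1 + a) * -t) := by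
    apply Real.exp_le_exp.2
    have := mul_le_mul_of_nonneg_right h3 ht
    linarith
  have h5 : Real.exp (-(Λ / (1 + Λ) * t)) ≤ 1 - a / (1 + a) + a / (1 + a) * Real.exp (-t) :=
    h4.trans h2
  have h6 := mul_le_mul_of_nonneg_right h5 h1.le
  have h7 : (1 - a / (1 + a) + a / (1 + a) * Real.exp (-t)) * (1 + a) =
      1 + a * Real.exp (-t) := by
    field_simp
    ring
  rw [h7] at h6
  exact h6

lemma log_le {a b t Λ : ℝ} (ha : 0 ≤ a) (haΛ : a ≤ Λ) (ht : 0 ≤ t) (hb : a * Real.exp (-t) ≤ b) :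
    Real.log (1 + a) - Real.log (1 + b) ≤ Λ / (1 + Λ) * t := by
  have h1 := conv ha haΛ ht
  have hae : 0 ≤ a * Real.exp (-t) := mul_nonneg ha (Real.exp_pos _).le
  have h2 : Real.exp (-(Λ / (1 + Λ) * t)) * (1 + a) ≤ 1 + b := by linarith
  have h3 := Real.log_le_log (by positivity) h2
  rw [Real.log_mul (Real.exp_pos _).ne' (by linarith), Real.log_exp] at h3
  linarith

lemma log_abs {a b t Λ : ℝ} (ha : 0 ≤ a) (haΛ : a ≤ Λ) (hb : 0 ≤ b) (hbΛ : b ≤ Λ) (ht : 0 ≤ t)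
    (h1 : a * Real.exp (-t) ≤ b) (h2 : b * Real.exp (-t) ≤ a) :
    |Real.log (1 + a) - Real.log (1 + b)| ≤ Λ / (1 + Λ) * t := by
  rw [abs_le]
  constructor
  · have := log_le hb hbΛ ht h2
    linarith
  · exact log_le ha haΛ ht h1

/-- the logarithm is `1`-Lipschitz on `[1,∞)` -/
lemma log_lip {a b : ℝ} (ha : 0 ≤ a) (hb : 0 ≤ b) :
    |Real.log (1 + a) - Real.log (1 + b)| ≤ |a - b| := by
  have key : ∀ a b : ℝ, 0 ≤ a → 0 ≤ b → Real.log (1 + a) - Real.log (1 + b) ≤ |a - b| := by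
    intro a b ha hb
    rw [← Real.log_div (by linarith) (by linarith)]
    have h1 : Real.log ((1 + a) / (1 + b)) ≤ (1 + a) / (1 + b) - 1 :=
      Real.log_le_sub_one_of_pos (by positivity)
    have h2 : (1 + a) / (1 + b) - 1 = (a - b) / (1 + b) := by
      field_simp
      ring
    rw [h2] at h1
    refine h1.trans ?_
    rw [div_le_iff₀ (by linarith)]
    have := le_abs_self (a - b)
    have h3 := abs_nonneg (a - b)
    nlinarith
  rw [abs_le]
  constructor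
  · have := key b a hb ha
    rw [abs_sub_comm] at this
    linarith
  · exact key a b ha hb

lemma exp_mul_le {u u' t : ℝ} (hu : 0 < u) (hu' : 0 < u')
    (h : |Real.log u - Real.log u'| ≤ t) : u * Real.exp (-t) ≤ u' := by
  have h1 := (abs_le.1 h).2
  have h2 : Real.log u + -t ≤ Real.log u' := by linarith
  have h3 := Real.exp_le_exp.2 h2
  rwa [Real.exp_add, Real.exp_log hu, Real.exp_log hu'] at h3

lemma ed_sub (ve : E → Finset V) (F : Finset E) (W : Finset V) (v : V) :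
    ed ve F W v ⊆ F.filter (fun e => v ∈ ve e) := by
  intro e he
  have h := mem_filter.1 he
  exact mem_filter.2 ⟨h.1, h.2.1⟩

lemma sum_ed_le {ve : E → Finset V} {lam : E → ℝ} (hl : ∀ e, 0 ≤ lam e) {F : Finset E} {Λ : ℝ}
    (hs : ∀ v, ∑ e ∈ F.filter (fun e => v ∈ ve e), lam e ≤ Λ) (W : Finset V) (v : V)
    {u : E → ℝ} (hu : ∀ e ∈ ed ve F W v, u e ≤ 1) :
    ∑ e ∈ ed ve F W v, lam e * u e ≤ Λ := by
  calc ∑ e ∈ ed ve F W v, lam e * u e ≤ ∑ e ∈ ed ve F W v, lam e := by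
        refine sum_le_sum fun e he => ?_
        have := mul_le_mul_of_nonneg_left (hu e he) (hl e)
        linarith
    _ ≤ ∑ e ∈ F.filter (fun e => v ∈ ve e), lam e :=
        sum_le_sum_of_subset_of_nonneg (ed_sub ve F W v) fun e _ _ => hl e
    _ ≤ Λ := hs v

end Dec

open Dec

/-- Stability: the exact probability in the system 1 and the truncated recursion in the system 2. -/
theorem perturb {ve : E → Finset V} (h2 : ∀ e, (ve e).card = 2) {Λ : ℝ} (hΛ : 0 ≤ Λ)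
    {lam1 lam2 : E → ℝ} (hl1 : ∀ e, 0 ≤ lam1 e) (hl2 : ∀ e, 0 ≤ lam2 e) {F1 F2 : Finset E}
    (hs1 : ∀ v, ∑ e ∈ F1.filter (fun e => v ∈ ve e), lam1 e ≤ Λ)
    (hs2 : ∀ v, ∑ e ∈ F2.filter (fun e => v ∈ ve e), lam2 e ≤ Λ)
    {δ : ℝ} (hδ : 0 ≤ δ) (k : ℕ) (W1 W2 : Finset V) (v : V) (hv : v ∉ W1)
    (H : ∀ l : List E, l.length < k → Val ve F1 l W1 v →
      ed ve F2 (wk ve l W2 v).1 (wk ve l W1 v).2 ⊆ ed ve F1 (wk ve l W1 v).1 (wk ve l W1 v).2 ∧
      |∑ e ∈ ed ve F1 (wk ve l W1 v).1 (wk ve l W1 v).2,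
          lam1 e * fr ve lam1 F1 (insert (wk ve l W1 v).2 (wk ve l W1 v).1)
            {oe ve e (wk ve l W1 v).2} -
        ∑ e ∈ ed ve F2 (wk ve l W2 v).1 (wk ve l W1 v).2,
          lam2 e * fr ve lam1 F1 (insert (wk ve l W1 v).2 (wk ve l W1 v).1)
            {oe ve e (wk ve l W1 v).2}| ≤ δ) :
    |Real.log (fr ve lam1 F1 W1 {v}) - Real.log (T ve lam2 F2 k W2 v)| ≤
      δ * (1 + Λ) + (Λ / (1 + Λ)) ^ k * Real.log (1 + Λ) := by
  have hΛ1 : (0 : ℝ) < 1 + Λ := by linarith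
  have hlog : 0 ≤ Real.log (1 + Λ) := Real.log_nonneg (by linarith)
  have hρ : 0 ≤ Λ / (1 + Λ) := by positivity
  induction k generalizing W1 W2 v with
  | zero =>
    have h1 := fr_ge h2 hl1 hs1 W1 v
    have h3 := fr_le_one ve hl1 F1 W1 {v}
    have h4 := fr_pos ve hl1 F1 W1 {v}
    have h5 : T ve lam2 F2 0 W2 v = 1 := rfl
    rw [h5, Real.log_one, sub_zero, pow_zero, one_mul]
    have h6 : Real.log (fr ve lam1 F1 W1 {v}) ≤ 0 := Real.log_nonpos h4.le h3
    have h7 := Real.log_le_log (by positivity) h1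
    rw [one_div, Real.log_inv] at h7
    have h8 : 0 ≤ δ * (1 + Λ) := by positivity
    rw [abs_le]
    constructor <;> linarith
  | succ k ih =>
    have hH := H [] (by simp) trivial
    simp only [wk] at hH
    obtain ⟨hsub, hdiff⟩ := hH
    obtain ⟨t, ht⟩ : ∃ t, t = δ * (1 + Λ) + (Λ / (1 + Λ)) ^ k * Real.log (1 + Λ) := ⟨_, rfl⟩
    have ht0 : 0 ≤ t := by rw [ht]; positivity
    -- induction hypothesis
    have hI : ∀ e ∈ ed ve F2 W2 v,
        |Real.log (fr ve lam1 F1 (insert v W1) {oe ve e v}) -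
          Real.log (T ve lam2 F2 k (insert v W2) (oe ve e v))| ≤ t := by
      intro e he
      have he1 := hsub he
      have he2 := (mem_filter.1 he1).2
      obtain ⟨-, ho1, ho2⟩ := oe_spec h2 he2.1
      rw [ht]
      refine ih (insert v W1) (insert v W2) (oe ve e v) ?_ ?_
      · rw [mem_insert, not_or]
        exact ⟨ho1, Finset.disjoint_left.1 he2.2 ho2⟩
      · intro l hl hval
        exact H (e :: l) (by simpa using hl) ⟨he1, hval⟩
    have hfp : ∀ e, 0 < fr ve lam1 F1 (insert v W1) {oe ve e v} := fun e =>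
      fr_pos ve hl1 F1 _ _
    have hTp : ∀ e, 0 < T ve lam2 F2 k (insert v W2) (oe ve e v) := fun e =>
      lt_of_lt_of_le (by positivity) (T_ge hl2 hs2 hΛ k _ _)
    obtain ⟨a, ha⟩ : ∃ a, a = ∑ e ∈ ed ve F1 W1 v,
      lam1 e * fr ve lam1 F1 (insert v W1) {oe ve e v} := ⟨_, rfl⟩
    obtain ⟨a2, ha2⟩ : ∃ a, a = ∑ e ∈ ed ve F2 W2 v,
      lam2 e * fr ve lam1 F1 (insert v W1) {oe ve e v} := ⟨_, rfl⟩
    obtain ⟨a3, ha3⟩ : ∃ a, a = ∑ e ∈ ed ve F2 W2 v,
      lam2 e * T ve lam2 F2 k (insert v W2) (oe ve e v) := ⟨_, rfl⟩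
    have ha0 : 0 ≤ a := by
      rw [ha]; exact sum_nonneg fun e _ => mul_nonneg (hl1 e) (hfp e).le
    have ha20 : 0 ≤ a2 := by
      rw [ha2]; exact sum_nonneg fun e _ => mul_nonneg (hl2 e) (hfp e).le
    have ha30 : 0 ≤ a3 := by
      rw [ha3]; exact sum_nonneg fun e _ => mul_nonneg (hl2 e) (hTp e).le
    have ha2Λ : a2 ≤ Λ := by
      rw [ha2]; exact sum_ed_le hl2 hs2 W2 v fun e _ => fr_le_one ve hl1 F1 _ _
    have ha3Λ : a3 ≤ Λ := by
      rw [ha3]; exact sum_ed_le hl2 hs2 W2 v fun e _ => T_le_one hl2 F2 k _ _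
    have h23 : a2 * Real.exp (-t) ≤ a3 := by
      rw [ha2, ha3, sum_mul]
      refine sum_le_sum fun e he => ?_
      rw [mul_assoc]
      exact mul_le_mul_of_nonneg_left (exp_mul_le (hfp e) (hTp e) (hI e he)) (hl2 e)
    have h32 : a3 * Real.exp (-t) ≤ a2 := by
      rw [ha2, ha3, sum_mul]
      refine sum_le_sum fun e he => ?_
      rw [mul_assoc]
      refine mul_le_mul_of_nonneg_left (exp_mul_le (hTp e) (hfp e) ?_) (hl2 e)
      rw [abs_sub_comm]
      exact hI e he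
    have e1 : fr ve lam1 F1 W1 {v} = 1 / (1 + a) := by rw [ha]; exact fr_rec h2 hl1 F1 hv
    have e2 : T ve lam2 F2 (k + 1) W2 v = 1 / (1 + a3) := by rw [ha3]; rfl
    have hd1 : |Real.log (1 + a) - Real.log (1 + a2)| ≤ δ := by
      refine (log_lip ha0 ha20).trans ?_
      rw [ha, ha2]
      exact hdiff
    have hd2 := log_abs ha20 ha2Λ ha30 ha3Λ ht0 h23 h32
    rw [e1, e2, one_div, one_div, Real.log_inv, Real.log_inv]
    have h9 : -Real.log (1 + a) - -Real.log (1 + a3) =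
        -((Real.log (1 + a) - Real.log (1 + a2)) + (Real.log (1 + a2) - Real.log (1 + a3))) := by
      ring
    rw [h9, abs_neg]
    refine (abs_add_le _ _).trans ((add_le_add hd1 hd2).trans (le_of_eq ?_))
    rw [ht, pow_succ]
    field_simp
    ring

/-- Locality: two systems with the same activities which agree along all walks of length `< k`. -/
theorem fr_close {ve : E → Finset V} (h2 : ∀ e, (ve e).card = 2) {Λ : ℝ} (hΛ : 0 ≤ Λ)
    {lam : E → ℝ} (hl : ∀ e, 0 ≤ lam e) {F1 F2 : Finset E}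
    (hs1 : ∀ v, ∑ e ∈ F1.filter (fun e => v ∈ ve e), lam e ≤ Λ)
    (hs2 : ∀ v, ∑ e ∈ F2.filter (fun e => v ∈ ve e), lam e ≤ Λ)
    (k : ℕ) (W1 W2 : Finset V) (v : V) (hv : v ∉ W1) (hv2 : v ∉ W2)
    (H : ∀ l : List E, l.length < k → Val ve F1 l W1 v →
      ed ve F2 (wk ve l W2 v).1 (wk ve l W1 v).2 = ed ve F1 (wk ve l W1 v).1 (wk ve l W1 v).2) :
    |Real.log (fr ve lam F1 W1 {v}) - Real.log (fr ve lam F2 W2 {v})| ≤
      2 * ((Λ / (1 + Λ)) ^ k * Real.log (1 + Λ)) := by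
  have h1 := perturb h2 hΛ hl hl hs1 hs2 le_rfl k W1 W2 v hv fun l hlen hval => by
    rw [H l hlen hval]
    exact ⟨Subset.refl _, by rw [sub_self, abs_zero]⟩
  have h3 := perturb h2 hΛ hl hl hs2 hs2 le_rfl k W2 W2 v hv2 fun l _ _ =>
    ⟨Subset.refl _, by rw [sub_self, abs_zero]⟩
  rw [zero_mul, zero_add] at h1 h3
  have h4 : Real.log (fr ve lam F1 W1 {v}) - Real.log (fr ve lam F2 W2 {v}) =
      (Real.log (fr ve lam F1 W1 {v}) - Real.log (T ve lam F2 k W2 v)) -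
      (Real.log (fr ve lam F2 W2 {v}) - Real.log (T ve lam F2 k W2 v)) := by ring
  rw [h4]
  refine (abs_sub _ _).trans ?_
  linarith

end Pool.Agent.KH
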