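import Mathlib

/-! Definitions for the nibble with hard-core matchings (MP_30840b_co).
A multigraph on the vertex type `V` with edge type `E` is given by `ve : E → Finset V`
with `(ve e).card = 2`. -/

set_option autoImplicit false

open Finset Classical

namespace Pool.Agent.KH

section graph

variable {V E : Type} [Fintype V] [Fintype E]

/-- a matching -/
def IsM (ve : E → Finset V) (M : Finset E) : Prop :=
  ∀ e ∈ M, ∀ f ∈ M, e ≠ f → Disjoint (ve e) (ve f)

/-- the vertices covered by a set of edges -/
noncomputable def cov (ve : E → Finset V) (M : Finset E) : Finset V := M.biUnion ve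

/-- the matchings inside `F` avoiding the vertices of `W` -/
noncomputable def MS (ve : E → Finset V) (F : Finset E) (W : Finset V) : Finset (Finset E) :=
  F.powerset.filter (fun M => IsM ve M ∧ ∀ e ∈ M, Disjoint (ve e) W)

/-- the partition function of the matchings inside `F` avoiding `W` -/
noncomputable def Z (ve : E → Finset V) (lam : E → ℝ) (F : Finset E) (W : Finset V) : ℝ :=
  ∑ M ∈ MS ve F W, ∏ e ∈ M, lam e

/-- the probability that no vertex of `S` is covered, in the matching model on `F` minus `W` -/
noncomputable def fr (ve : E → Finset V) (lam : E → ℝ) (F : Finset E) (W S : Finset V) : ℝ :=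
  Z ve lam F (W ∪ S) / Z ve lam F W

/-- the degree of `v` in the edge set `F` -/
noncomputable def dg (ve : E → Finset V) (F : Finset E) (v : V) : ℕ :=
  (F.filter (fun e => v ∈ ve e)).card

/-- the other end of the edge `e` seen from `v` -/
noncomputable def oe (ve : E → Finset V) (e : E) (v : V) : V :=
  if h : ∃ u ∈ ve e, u ≠ v then h.choose else v

/-- the edges of `F` at `v` that avoid `W` -/
noncomputable def ed (ve : E → Finset V) (F : Finset E) (W : Finset V) (v : V) : Finset E :=
  F.filter (fun e => v ∈ ve e ∧ Disjoint (ve e) W)

/-- the truncated recursion for the probability that `v` is free -/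
noncomputable def T (ve : E → Finset V) (lam : E → ℝ) (F : Finset E) : ℕ → Finset V → V → ℝ
  | 0, _, _ => 1
  | k + 1, W, v => 1 / (1 + ∑ e ∈ ed ve F W v, lam e * T ve lam F k (insert v W) (oe ve e v))

/-- the end of a walk: removed vertices and current vertex -/
noncomputable def wk (ve : E → Finset V) : List E → Finset V → V → Finset V × V
  | [], W, v => (W, v)
  | e :: l, W, v => wk ve l (insert v W) (oe ve e v)

/-- the walk `l` from `v` uses edges of `F` and avoids `W` and the vertices already visited -/
def Val (ve : E → Finset V) (F : Finset E) : List E → Finset V → V → Prop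
  | [], _, _ => True
  | e :: l, W, v => e ∈ ed ve F W v ∧ Val ve F l (insert v W) (oe ve e v)

/-- the ball of radius `k` around the vertex set `S` -/
noncomputable def Bv (ve : E → Finset V) (S : Finset V) : ℕ → Finset V
  | 0 => S
  | k + 1 => Bv ve S k ∪ univ.filter (fun v => ∃ e : E, v ∈ ve e ∧ ¬ Disjoint (ve e) (Bv ve S k))

/-- the edges of `G` inside the ball of radius `k` around the edge `e₀` -/
noncomputable def FB (ve : E → Finset V) (G : Finset E) (e₀ : E) (k : ℕ) : Finset E :=
  G.filter (fun e => ve e ⊆ Bv ve (ve e₀) k)

end graph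

section marks

variable {V E : Type} [Fintype V] [Fintype E]

/-- the edges of the matching: marks 1, 2, 3 -/
noncomputable def sM (g : E → Fin 4) : Finset E := univ.filter (fun e => g e ≠ 0)

/-- the thinned matching: marks 2, 3 -/
noncomputable def sN (g : E → Fin 4) : Finset E := univ.filter (fun e => g e = 2 ∨ g e = 3)

/-- the effective edges: mark 3 -/
noncomputable def sP (g : E → Fin 4) : Finset E := univ.filter (fun e => g e = 3)

/-- the weight of a mark -/
noncomputable def wm (lam : E → ℝ) (θ : ℝ) (a : E → ℝ) (e : E) : Fin 4 → ℝ :=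
  ![1, lam e * (1 - θ), lam e * θ * (1 - a e), lam e * θ * a e]

/-- the law of the marks in the matching model on `F` minus `W` -/
noncomputable def pc (ve : E → Finset V) (lam : E → ℝ) (θ : ℝ) (a : E → ℝ)
    (F : Finset E) (W : Finset V) (g : E → Fin 4) : ℝ :=
  if sM g ∈ MS ve F W then (∏ e, wm lam θ a e (g e)) / Z ve lam F W else 0

end marks

section prob

variable {ι κ : Type} [Fintype ι] [Fintype κ]

/-- expectation for the product of the laws `p i` -/
noncomputable def Ex (p : ι → κ → ℝ) (f : (ι → κ) → ℝ) : ℝ :=
  ∑ ω : ι → κ, (∏ i, p i (ω i)) * f ω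

/-- probability for the product of the laws `p i` -/
noncomputable def Pb (p : ι → κ → ℝ) (A : (ι → κ) → Prop) : ℝ :=
  Ex p (fun ω => if A ω then 1 else 0)

/-- `p` is a family of probability laws -/
def IsLaw (p : ι → κ → ℝ) : Prop := ∀ i, (∀ k, 0 ≤ p i k) ∧ ∑ k, p i k = 1

end prob

section colours

variable {V E C : Type} [Fintype V] [Fintype E] [Fintype C]

/-- the colours of `L e` still allowed at `e` -/
noncomputable def av (ve : E → Finset V) (L : E → Finset C) (U : C → Finset V) (e : E) : Finset C :=
  (L e).filter (fun c => Disjoint (ve e) (U c))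

/-- the sum over the colours of the list of the probability that both ends are free -/
noncomputable def Q (ve : E → Finset V) (lam : E → ℝ) (L : E → Finset C) (G : Finset E)
    (U : C → Finset V) (e : E) : ℝ :=
  ∑ c ∈ av ve L U e, fr ve lam G (U c) (ve e)

/-- the edges of `F` that become coloured -/
noncomputable def Dl (L : E → Finset C) (F : Finset E) (ω : C → E → Fin 4) : Finset E :=
  F.filter (fun e => ∃ c ∈ L e, ω c e = 3)

/-- the truncated version of `Q` after one stage, computed from the marks on the edges `F` near `e`
with ends `x`, `y` -/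
noncomputable def QT (ve : E → Finset V) (lam : E → ℝ) (L : E → Finset C) (F : Finset E)
    (U : C → Finset V) (r : ℕ) (e : E) (x y : V) (ω : C → E → Fin 4) : ℝ :=
  ∑ c ∈ (L e).filter (fun c => Disjoint (ve e) (U c ∪ cov ve (sN (ω c) ∩ F))),
    T ve lam (F \ Dl L F ω) r (U c ∪ cov ve (sN (ω c) ∩ F)) x *
      T ve lam (F \ Dl L F ω) r (insert x (U c ∪ cov ve (sN (ω c) ∩ F))) y

end colours

end Pool.Agent.KH
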