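import Pool.Agent.Lib.MP_30840b_co_h61.Apr

/-! Existence of activities with all edge probabilities equal to `1/((3/2-ε/2)D)`. -/

set_option autoImplicit false

open Finset Classical

namespace Pool.Agent.KH

/-- The partition function is affine in every activity. -/
lemma Exi_Z_update {V E : Type} [Fintype V] [Fintype E] {ve : E → Finset V}
    (h2 : ∀ e, (ve e).card = 2) (lam : E → ℝ) (e : E) (t : ℝ) :
    Z ve (Function.update lam e t) univ ∅ =
      Z ve lam univ ∅ + (t - lam e) * Z ve lam univ (∅ ∪ ve e) := by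
  have h0 : Disjoint (ve e) (∅ : Finset V) := disjoint_empty_right _
  have h1 := sum_mem h2 lam (F := univ) (mem_univ e) h0
  have h3 := sum_mem h2 (Function.update lam e t) (F := univ) (mem_univ e) h0
  have hne : (ve e).Nonempty := by
    rw [← card_pos, h2]
    norm_num
  have h4 : Z ve (Function.update lam e t) univ (∅ ∪ ve e) = Z ve lam univ (∅ ∪ ve e) := by
    refine Z_congr ve (fun f => Iff.rfl) fun f _ hf => ?_
    have hfe : f ≠ e := by
      rintro rfl
      rw [empty_union, disjoint_self_iff_empty] at hf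
      exact hne.ne_empty hf
    rw [Function.update_of_ne hfe]
  have h5 : ∑ M ∈ (MS ve univ ∅).filter (fun M => ¬ e ∈ M),
      ∏ f ∈ M, Function.update lam e t f =
      ∑ M ∈ (MS ve univ ∅).filter (fun M => ¬ e ∈ M), ∏ f ∈ M, lam f := by
    refine sum_congr rfl fun M hM => prod_congr rfl fun f hf => ?_
    rw [mem_filter] at hM
    have hfe : f ≠ e := by
      rintro rfl
      exact hM.2 hf
    rw [Function.update_of_ne hfe]
  rw [h4, Function.update_self] at h3
  have e1 := sum_filter_add_sum_filter_not (MS ve univ ∅) (fun M => e ∈ M)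
    (fun M => ∏ f ∈ M, Function.update lam e t f)
  have e2 := sum_filter_add_sum_filter_not (MS ve univ ∅) (fun M => e ∈ M)
    (fun M => ∏ f ∈ M, lam f)
  have e3 : Z ve (Function.update lam e t) univ ∅ =
      ∑ M ∈ MS ve univ ∅, ∏ f ∈ M, Function.update lam e t f := rfl
  have e4 : Z ve lam univ ∅ = ∑ M ∈ MS ve univ ∅, ∏ f ∈ M, lam f := rfl
  rw [e3, e4, ← e1, ← e2, h3, h1, h5]
  ring

lemma Exi_continuous {V E : Type} [Fintype V] [Fintype E] (ve : E → Finset V) :
    Continuous fun lam : E → ℝ => Z ve lam univ ∅ := by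
  unfold Z
  exact continuous_finsetSum _ fun M _ => continuous_finsetProd _ fun e _ => continuous_apply e

/-- a minimum on the right -/
lemma Exi_right {P p t₀ : ℝ} (hP : 0 ≤ P) (ht₀ : 0 < t₀)
    (h : ∀ s : ℝ, 0 < s → s < t₀ → p * Real.log (1 + s) ≤ Real.log (1 + s * P)) (hp : 0 ≤ p) :
    p ≤ P := by
  by_contra hcon
  rw [not_le] at hcon
  -- choose s with P (1 + s) < p
  obtain ⟨s, hs0, hs1, hs2⟩ : ∃ s : ℝ, 0 < s ∧ s < t₀ ∧ P * (1 + s) < p := by
    refine ⟨min (t₀ / 2) ((p - P) / (2 * (P + 1))), ?_, ?_, ?_⟩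
    · have : 0 < p - P := by linarith
      positivity
    · exact lt_of_le_of_lt (min_le_left _ _) (by linarith)
    · have h1 : min (t₀ / 2) ((p - P) / (2 * (P + 1))) ≤ (p - P) / (2 * (P + 1)) := min_le_right _ _
      have h2 : P * min (t₀ / 2) ((p - P) / (2 * (P + 1))) ≤ P * ((p - P) / (2 * (P + 1))) :=
        mul_le_mul_of_nonneg_left h1 hP
      have h3 : P * ((p - P) / (2 * (P + 1))) ≤ (p - P) / 2 := by
        rw [mul_div_assoc', div_le_div_iff₀ (by positivity) (by norm_num)]
        nlinarith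
      have e1 : P * (1 + min (t₀ / 2) ((p - P) / (2 * (P + 1)))) =
        P + P * min (t₀ / 2) ((p - P) / (2 * (P + 1))) := by ring
      rw [e1]
      linarith
  have h1 := h s hs0 hs1
  have h2 : Real.log (1 + s * P) ≤ s * P := by
    have := Real.log_le_sub_one_of_pos (show 0 < 1 + s * P by positivity)
    linarith
  have h3 : s / (1 + s) ≤ Real.log (1 + s) := by
    have h4 := Real.one_sub_inv_le_log_of_pos (show 0 < 1 + s by positivity)
    refine le_trans (le_of_eq ?_) h4
    field_simp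
    ring
  have h5 : p * (s / (1 + s)) ≤ s * P := (mul_le_mul_of_nonneg_left h3 hp).trans (h1.trans h2)
  have h6 : p * s ≤ s * P * (1 + s) := by
    rw [mul_div_assoc', div_le_iff₀ (by positivity)] at h5
    exact h5
  have h7 : s * (P * (1 + s)) < s * p := mul_lt_mul_of_pos_left hs2 hs0
  linarith

/-- a minimum on the left -/
lemma Exi_left {P p t₀ : ℝ} (hP : 0 ≤ P) (hP1 : P ≤ 1) (ht₀ : 0 < t₀)
    (h : ∀ s : ℝ, 0 < s → s < t₀ → s < 1 → p * Real.log (1 - s) ≤ Real.log (1 - s * P))
    (hp : 0 ≤ p) : P ≤ p := by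
  by_contra hcon
  rw [not_le] at hcon
  obtain ⟨s, hs0, hs1, hs2, hs3⟩ : ∃ s : ℝ, 0 < s ∧ s < t₀ ∧ s < 1 ∧ p < P * (1 - s) := by
    have hPp : 0 < P := by linarith
    refine ⟨min (t₀ / 2) ((P - p) / (2 * (P + 1))), ?_, ?_, ?_, ?_⟩
    · have : 0 < P - p := by linarith
      positivity
    · exact lt_of_le_of_lt (min_le_left _ _) (by linarith)
    · refine lt_of_le_of_lt (min_le_right _ _) ?_
      rw [div_lt_one (by positivity)]
      linarith
    · have h1 : min (t₀ / 2) ((P - p) / (2 * (P + 1))) ≤ (P - p) / (2 * (P + 1)) := min_le_right _ _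
      have h2 : P * min (t₀ / 2) ((P - p) / (2 * (P + 1))) ≤ P * ((P - p) / (2 * (P + 1))) :=
        mul_le_mul_of_nonneg_left h1 hP
      have h3 : P * ((P - p) / (2 * (P + 1))) ≤ (P - p) / 2 := by
        rw [mul_div_assoc', div_le_div_iff₀ (by positivity) (by norm_num)]
        nlinarith
      have e1 : P * (1 - min (t₀ / 2) ((P - p) / (2 * (P + 1)))) =
        P - P * min (t₀ / 2) ((P - p) / (2 * (P + 1))) := by ring
      rw [e1]
      linarith
  have h1 := h s hs0 hs1 hs2
  have hsP : s * P < 1 := by nlinarith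
  have h2 : Real.log (1 - s * P) ≤ -(s * P) := by
    have := Real.log_le_sub_one_of_pos (show 0 < 1 - s * P by linarith)
    linarith
  have h3 : -(s / (1 - s)) ≤ Real.log (1 - s) := by
    have h4 := Real.one_sub_inv_le_log_of_pos (show 0 < 1 - s by linarith)
    refine le_trans (le_of_eq ?_) h4
    have : (1 - s) ≠ 0 := by
      have : 0 < 1 - s := by linarith
      exact this.ne'
    field_simp
    ring
  have h5 : p * -(s / (1 - s)) ≤ -(s * P) := (mul_le_mul_of_nonneg_left h3 hp).trans (h1.trans h2)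
  have h6 : s * P * (1 - s) ≤ p * s := by
    have h7 : s * P ≤ p * (s / (1 - s)) := by linarith
    rw [mul_div_assoc', le_div_iff₀ (by linarith)] at h7
    exact h7
  have h7 : s * p < s * (P * (1 - s)) := mul_lt_mul_of_pos_left hs3 hs0
  linarith

theorem exists_lam (ε : ℝ) (hε : 0 < ε) (hε1 : ε ≤ 1 / 20) :
    ∃ η : ℝ, 0 < η ∧ ∀ {V E : Type} [Fintype V] [Fintype E] (ve : E → Finset V)
      (_ : ∀ e, (ve e).card = 2) (D : ℝ) (_ : 0 < D)
      (_ : ∀ v, (dg ve univ v : ℝ) ≤ D)
      (_ : ∀ S : Finset V, S.card = 3 →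
        ((univ.filter (fun e => ve e ⊆ S)).card : ℝ) ≤ (3 / 2 - ε) * D),
      ∃ lam : E → ℝ, (∀ e, 0 < lam e) ∧
        (∀ e, lam e * fr ve lam univ ∅ (ve e) = 1 / ((3 / 2 - ε / 2) * D)) ∧
        ∀ e, η ≤ fr ve lam univ ∅ (ve e) := by
  obtain ⟨η₀, hη₀, hap⟩ := apriori ε hε hε1
  obtain ⟨η, hη⟩ : ∃ η : ℝ, η = min η₀ 1 := ⟨_, rfl⟩
  have hη0 : 0 < η := by rw [hη]; positivity
  have hη1 : η ≤ 1 := by rw [hη]; exact min_le_right _ _
  have hηη : η ≤ η₀ := by rw [hη]; exact min_le_left _ _
  refine ⟨η, hη0, ?_⟩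
  intro V E _ _ ve h2 D hD hdg hS
  obtain ⟨p, hp⟩ : ∃ p : ℝ, p = 1 / ((3 / 2 - ε / 2) * D) := ⟨_, rfl⟩
  have hp0 : 0 < p := by
    rw [hp]
    have : 0 < 3 / 2 - ε / 2 := by linarith
    positivity
  obtain ⟨q, hq⟩ : ∃ q : ℝ, q = 2 * p / η := ⟨_, rfl⟩
  have hq0 : q * η = 2 * p := by rw [hq]; field_simp
  have hpq : p < q := by
    rw [hq, lt_div_iff₀ hη0]
    nlinarith
  -- the minimiser
  obtain ⟨Φ, hΦ⟩ : ∃ Φ : (E → ℝ) → ℝ, Φ = fun lam =>
    Real.log (Z ve lam univ ∅) - p * ∑ e, Real.log (lam e) := ⟨_, rfl⟩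
  have hK : IsCompact (Set.pi Set.univ fun _ : E => Set.Icc p q) :=
    isCompact_univ_pi fun _ => isCompact_Icc
  have hZpos : ∀ lam : E → ℝ, (∀ e, 0 ≤ lam e) → 0 < Z ve lam univ ∅ := fun lam hl =>
    lt_of_lt_of_le one_pos (one_le_Z ve hl _ _)
  have hcont : ContinuousOn Φ (Set.pi Set.univ fun _ : E => Set.Icc p q) := by
    rw [hΦ]
    refine ContinuousOn.sub ?_ ?_
    · refine ContinuousOn.log (Exi_continuous ve).continuousOn fun lam hl => ?_
      exact (hZpos lam fun e => hp0.le.trans (hl e (Set.mem_univ e)).1).ne'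
    · refine continuousOn_const.mul (continuousOn_finsetSum _ fun e _ => ?_)
      refine ContinuousOn.log (continuous_apply e).continuousOn fun lam hl => ?_
      exact (lt_of_lt_of_le hp0 (hl e (Set.mem_univ e)).1).ne'
  obtain ⟨lam, hlam, hmin⟩ := hK.exists_isMinOn ⟨fun _ => p, fun _ _ => ⟨le_rfl, hpq.le⟩⟩ hcont
  have hl0 : ∀ e, 0 < lam e := fun e => lt_of_lt_of_le hp0 (hlam e (Set.mem_univ e)).1
  have hl0' : ∀ e, 0 ≤ lam e := fun e => (hl0 e).le
  have hZ := hZpos lam hl0'
  -- the probability of an edge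
  obtain ⟨P, hP⟩ : ∃ P : E → ℝ, P = fun e => lam e * fr ve lam univ ∅ (ve e) := ⟨_, rfl⟩
  have hPZ : ∀ e, P e * Z ve lam univ ∅ = lam e * Z ve lam univ (∅ ∪ ve e) := by
    intro e
    rw [hP]
    simp only [fr]
    field_simp
  have hP0 : ∀ e, 0 ≤ P e := by
    intro e
    rw [hP]
    exact mul_nonneg (hl0' e) (fr_pos ve hl0' _ _ _).le
  have hP1 : ∀ e, P e ≤ 1 := by
    intro e
    have h1 := sum_mem h2 lam (F := univ) (mem_univ e) (disjoint_empty_right (ve e))
    have h3 : ∑ M ∈ (MS ve univ ∅).filter (fun M => e ∈ M), ∏ f ∈ M, lam f ≤ Z ve lam univ ∅ :=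
      sum_le_sum_of_subset_of_nonneg (filter_subset _ _) fun M _ _ => prod_nonneg fun f _ => hl0' f
    rw [h1, ← hPZ] at h3
    exact le_of_mul_le_mul_right (by linarith) hZ
  -- the inequality at the minimum
  have hkey : ∀ e t, 0 < t → t * lam e ∈ Set.Icc p q →
      p * Real.log t ≤ Real.log (1 + (t - 1) * P e) := by
    intro e t ht htq
    have h1 : Function.update lam e (t * lam e) ∈ Set.pi Set.univ fun _ : E => Set.Icc p q := by
      intro f _
      by_cases hf : f = e
      · subst hf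
        rw [Function.update_self]
        exact htq
      · rw [Function.update_of_ne hf]
        exact hlam f (Set.mem_univ f)
    have h3 := hmin h1
    rw [hΦ] at h3
    simp only [Set.mem_ofPred_eq] at h3
    have e1 : Z ve (Function.update lam e (t * lam e)) univ ∅ =
        (1 + (t - 1) * P e) * Z ve lam univ ∅ := by
      rw [Exi_Z_update h2]
      have : (t * lam e - lam e) * Z ve lam univ (∅ ∪ ve e) =
          (t - 1) * (lam e * Z ve lam univ (∅ ∪ ve e)) := by ring
      rw [this, ← hPZ]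
      ring
    have e2 : ∑ f, Real.log (Function.update lam e (t * lam e) f) =
        Real.log t + ∑ f, Real.log (lam f) := by
      have e3 : ∀ f, Real.log (Function.update lam e (t * lam e) f) =
          (if f = e then Real.log t else 0) + Real.log (lam f) := by
        intro f
        by_cases hf : f = e
        · subst hf
          rw [Function.update_self, if_pos rfl, Real.log_mul ht.ne' (hl0 f).ne']
        · rw [Function.update_of_ne hf, if_neg hf, zero_add]
      simp only [e3]
      rw [sum_add_distrib]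
      simp
    have hpos : 0 < 1 + (t - 1) * P e := by
      have h4 : 0 < Z ve (Function.update lam e (t * lam e)) univ ∅ :=
        hZpos _ fun f => hp0.le.trans (h1 f (Set.mem_univ f)).1
      rw [e1] at h4
      exact pos_of_mul_pos_left h4 hZ.le
    rw [e1, e2, Real.log_mul hpos.ne' hZ.ne'] at h3
    linarith
  have hle : ∀ e, P e ≤ p := by
    intro e
    rcases (hlam e (Set.mem_univ e)).1.eq_or_lt with h | h
    · rw [hP]
      simp only
      rw [← h]
      calc p * fr ve lam univ ∅ (ve e) ≤ p * 1 :=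
            mul_le_mul_of_nonneg_left (fr_le_one ve hl0' _ _ _) hp0.le
        _ = p := mul_one p
    · refine Exi_left (hP0 e) (hP1 e) (t₀ := (lam e - p) / lam e)
        (div_pos (by linarith) (hl0 e)) (fun s hs0 hs1 hs2 => ?_) hp0.le
      rw [lt_div_iff₀ (hl0 e)] at hs1
      have h1 := hkey e (1 - s) (by linarith) ⟨by linarith, by
        have h3 : (1 - s) * lam e ≤ 1 * lam e := mul_le_mul_of_nonneg_right (by linarith) (hl0' e)
        linarith [(hlam e (Set.mem_univ e)).2]⟩
      have e1 : 1 + (1 - s - 1) * P e = 1 - s * P e := by ring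
      rwa [e1] at h1
  have hfr : ∀ e, η ≤ fr ve lam univ ∅ (ve e) := by
    intro e
    obtain ⟨x, y, hxy, he⟩ := card_eq_two.1 (h2 e)
    have h1 := hap ve h2 D hD hdg hS lam hl0' (fun f => by
      have := hle f
      rw [hP, hp] at this
      exact this) x y hxy
    rw [he]
    exact hηη.trans h1
  have hlq : ∀ e, lam e < q := by
    intro e
    rcases (hlam e (Set.mem_univ e)).2.eq_or_lt with h | h
    · exfalso
      have h1 := hle e
      rw [hP] at h1
      simp only at h1
      rw [h] at h1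
      have h3 : q * η ≤ q * fr ve lam univ ∅ (ve e) :=
        mul_le_mul_of_nonneg_left (hfr e) (hp0.le.trans hpq.le)
      rw [hq0] at h3
      linarith
    · exact h
  have hge : ∀ e, p ≤ P e := by
    intro e
    refine Exi_right (hP0 e) (t₀ := (q - lam e) / lam e)
      (div_pos (by linarith [hlq e]) (hl0 e)) (fun s hs0 hs1 => ?_) hp0.le
    rw [lt_div_iff₀ (hl0 e)] at hs1
    have h1 := hkey e (1 + s) (by linarith) ⟨by
        have h3 : 1 * lam e ≤ (1 + s) * lam e := mul_le_mul_of_nonneg_right (by linarith) (hl0' e)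
        linarith [(hlam e (Set.mem_univ e)).1], by linarith⟩
    have e1 : 1 + (1 + s - 1) * P e = 1 + s * P e := by ring
    rwa [e1] at h1
  refine ⟨lam, hl0, fun e => ?_, hfr⟩
  rw [← hp]
  have := le_antisymm (hle e) (hge e)
  rw [hP] at this
  exact this

end Pool.Agent.KH
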