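import Pool.Agent.Lib.MP_30840b_co_h61.Defs

set_option autoImplicit false

open Finset Classical

namespace Pool.Agent.KH

/-- double counting of the degrees over a set of vertices -/
theorem Heavy_sum {V E : Type} [Fintype V] [Fintype E] (ve : E → Finset V) (X : Finset V) :
    ∑ v ∈ X, dg ve univ v = ∑ e, (ve e ∩ X).card := by
  unfold dg
  simp_rw [card_filter]
  rw [sum_comm]
  refine sum_congr rfl fun e _ => ?_
  rw [← card_filter]
  congr 1
  ext v
  simp only [mem_filter, mem_inter]
  tauto

/-- two heavy triangles are disjoint -/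
theorem heavy_disj {V E : Type} [Fintype V] [Fintype E] (ve : E → Finset V) (D : ℕ)
    (h2 : ∀ e, (ve e).card = 2) (hd : ∀ v, dg ve univ v ≤ D) (hD : 1 ≤ D) (S S' : Finset V)
    (hS : S.card = 3) (hS' : S'.card = 3)
    (h : 29 * D < 20 * (univ.filter (fun e => ve e ⊆ S)).card)
    (h' : 29 * D < 20 * (univ.filter (fun e => ve e ⊆ S')).card) (hne : S ≠ S') :
    Disjoint S S' := by
  rw [card_filter] at h h'
  have hX : ∀ X : Finset V, ∑ e, (ve e ∩ X).card ≤ X.card * D := by
    intro X
    rw [← Heavy_sum]
    refine (sum_le_sum fun v _ => hd v).trans ?_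
    rw [sum_const, smul_eq_mul]
  rw [disjoint_iff_inter_eq_empty]
  by_contra hT
  have hT0 : 1 ≤ (S ∩ S').card := by
    rw [Nat.one_le_iff_ne_zero]
    intro h0
    exact hT (card_eq_zero.1 h0)
  have hT3 : (S ∩ S').card < 3 := by
    by_contra hc
    push Not at hc
    have e1 : S ∩ S' = S := eq_of_subset_of_card_le inter_subset_left (by omega)
    have e2 : S ∩ S' = S' := eq_of_subset_of_card_le inter_subset_right (by omega)
    exact hne (e1.symm.trans e2)
  by_cases hT1 : (S ∩ S').card = 1
  · -- one common vertex
    have hU : (S ∪ S').card = 5 := by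
      have := card_union_add_card_inter S S'
      omega
    have h3 := hX (S ∪ S')
    rw [hU] at h3
    have h4 : ∀ e : E, 2 * ((if ve e ⊆ S then 1 else 0) + (if ve e ⊆ S' then 1 else 0)) ≤
        (ve e ∩ (S ∪ S')).card := by
      intro e
      by_cases a1 : ve e ⊆ S
      · rw [if_pos a1]
        by_cases a2 : ve e ⊆ S'
        · exfalso
          have := card_le_card (subset_inter a1 a2)
          rw [h2 e] at this
          omega
        · rw [if_neg a2, inter_eq_left.2 (a1.trans subset_union_left), h2 e]
      · rw [if_neg a1]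
        by_cases a2 : ve e ⊆ S'
        · rw [if_pos a2, inter_eq_left.2 (a2.trans subset_union_right), h2 e]
        · rw [if_neg a2]
          simp
    have h5 := sum_le_sum fun e (_ : e ∈ (univ : Finset E)) => h4 e
    rw [← mul_sum, sum_add_distrib] at h5
    omega
  · -- two common vertices
    have hT2 : (S ∩ S').card = 2 := by omega
    have h3 := hX (S ∩ S')
    rw [hT2] at h3
    have h4 : ∀ e : E, (if ve e ⊆ S then 1 else 0) + (if ve e ⊆ S' then 1 else 0) ≤
        (ve e ∩ (S ∩ S')).card := by
      intro e
      have key : ∀ X : Finset V, X.card = 3 → S ∩ S' ⊆ X → ve e ⊆ X →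
          1 ≤ (ve e ∩ (S ∩ S')).card := by
        intro X hX3 hX1 hX2
        have b1 := card_union_add_card_inter (ve e) (S ∩ S')
        have b2 := card_le_card (union_subset hX2 hX1)
        rw [h2 e, hT2] at b1
        omega
      by_cases a1 : ve e ⊆ S
      · rw [if_pos a1]
        by_cases a2 : ve e ⊆ S'
        · rw [if_pos a2, inter_eq_left.2 (subset_inter a1 a2), h2 e]
        · rw [if_neg a2]
          exact key S hS inter_subset_left a1
      · rw [if_neg a1]
        by_cases a2 : ve e ⊆ S'
        · rw [if_pos a2]
          exact key S' hS' inter_subset_right a2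
        · rw [if_neg a2]
          simp
    have h5 := sum_le_sum fun e (_ : e ∈ (univ : Finset E)) => h4 e
    rw [sum_add_distrib] at h5
    omega

end Pool.Agent.KH
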