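import Mathlib

/-! The exact step inside a near-Shannon triangle. `X` is the type of the inner edges, `cl e` the
vertex opposite to `e`, `o i` the number of outer edges at the vertex `i`. -/

set_option autoImplicit false
set_option linter.unusedSectionVars false

open Finset Classical

namespace Pool.Agent.KH

namespace Tri

variable {X C : Type} [Fintype X] [Fintype C]

/-- the reduced lists -/
noncomputable def red (cl : X → Fin 3) (L : X → Finset C) (Y : Fin 3 → Finset C) (e : X) :
    Finset C :=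
  (L e).filter (fun c => ∀ i, i ≠ cl e → c ∉ Y i)

lemma union_le {Y : Fin 3 → Finset C} {o : Fin 3 → ℕ} (h : ∀ i, (Y i).card ≤ o i) :
    (univ.biUnion Y).card ≤ ∑ i, o i :=
  card_biUnion_le.trans (sum_le_sum fun i _ => h i)

lemma class_add (cl : X → Fin 3) (i : Fin 3) :
    (univ.filter (fun e => cl e = i)).card + (univ.filter (fun e => cl e ≠ i)).card =
      Fintype.card X := by
  rw [← card_univ]
  exact card_filter_add_card_filter_not (s := (univ : Finset X)) (fun e => cl e = i)

lemma sum_le {cl : X → Fin 3} {D : ℕ} {o : Fin 3 → ℕ}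
    (hdeg : ∀ i, (univ.filter (fun e => cl e ≠ i)).card + o i ≤ D) :
    2 * Fintype.card X + ∑ i, o i ≤ 3 * D := by
  have h2 : ∑ i, (univ.filter (fun e => cl e = i)).card = Fintype.card X := by
    rw [← card_univ, card_eq_sum_card_fiberwise (f := cl) (t := univ) (by simp)]
  have a0 := class_add cl 0
  have a1 := class_add cl 1
  have a2 := class_add cl 2
  have b0 := hdeg 0
  have b1 := hdeg 1
  have b2 := hdeg 2
  rw [Fin.sum_univ_three] at h2 ⊢
  omega

lemma sub_red {cl : X → Fin 3} {L : X → Finset C} (Y : Fin 3 → Finset C) (S : Finset X) :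
    S.biUnion L ⊆ S.biUnion (red cl L Y) ∪ univ.biUnion Y := by
  intro c hc
  obtain ⟨e, he, hce⟩ := mem_biUnion.1 hc
  by_cases h : ∀ i, i ≠ cl e → c ∉ Y i
  · exact mem_union_left _ (mem_biUnion.2 ⟨e, he, mem_filter.2 ⟨hce, h⟩⟩)
  · push Not at h
    obtain ⟨i, -, hi⟩ := h
    exact mem_union_right _ (mem_biUnion.2 ⟨i, mem_univ _, hi⟩)

/-- A set violating the Hall condition is critical. -/
lemma fail {cl : X → Fin 3} {L : X → Finset C} {D : ℕ} {o : Fin 3 → ℕ}
    (hs : 2 * Fintype.card X + ∑ i, o i ≤ 3 * D)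
    (hL : ∀ e, 3 * D / 2 ≤ (L e).card) {Y : Fin 3 → Finset C} (hY : ∀ i, (Y i).card ≤ o i)
    {S : Finset X} (hS : (S.biUnion (red cl L Y)).card < S.card) :
    3 * D / 2 < S.card + ∑ i, o i ∧ 2 * (S.biUnion L).card ≤ 3 * D + ∑ i, o i := by
  have h1 : (S.biUnion L).card ≤ (S.biUnion (red cl L Y)).card + ∑ i, o i :=
    (card_le_card (sub_red Y S)).trans ((card_union_le _ _).trans
      (Nat.add_le_add_left (union_le hY) _))
  have h2 : S.card ≤ Fintype.card X := card_le_univ S
  obtain ⟨e, he⟩ : S.Nonempty := by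
    rw [← card_pos]; omega
  have h3 : (L e).card ≤ (S.biUnion L).card := card_le_card (subset_biUnion_of_mem L he)
  have h4 := hL e
  constructor <;> omega

lemma two_mul_card {A : Finset C} {Y : Fin 3 → Finset C}
    (h : ∀ c ∈ A, ∃ i j, i ≠ j ∧ c ∈ Y i ∧ c ∈ Y j) : 2 * A.card ≤ ∑ i, (Y i).card := by
  have h1 : ∀ c ∈ A, 2 ≤ (univ.filter (fun i => c ∈ Y i)).card := by
    intro c hc
    obtain ⟨i, j, hij, hi, hj⟩ := h c hc
    rw [← card_pair hij]
    refine card_le_card ?_
    intro k hk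
    rcases mem_insert.1 hk with rfl | hk
    · exact mem_filter.2 ⟨mem_univ _, hi⟩
    · rw [mem_singleton.1 hk]
      exact mem_filter.2 ⟨mem_univ _, hj⟩
  calc 2 * A.card = ∑ c ∈ A, 2 := by rw [sum_const, smul_eq_mul, mul_comm]
    _ ≤ ∑ c ∈ A, (univ.filter (fun i => c ∈ Y i)).card := sum_le_sum h1
    _ = ∑ c ∈ A, ∑ i, if c ∈ Y i then 1 else 0 := by
        refine sum_congr rfl fun c _ => ?_
        rw [card_filter]
    _ = ∑ i, ∑ c ∈ A, if c ∈ Y i then 1 else 0 := sum_comm
    _ = ∑ i, (A.filter (fun c => c ∈ Y i)).card := by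
        refine sum_congr rfl fun i _ => ?_
        rw [card_filter]
    _ ≤ ∑ i, (Y i).card := by
        refine sum_le_sum fun i _ => card_le_card fun c hc => (mem_filter.1 hc).2

/-- The edges of the class `i` in `S`. -/
noncomputable def cls (cl : X → Fin 3) (S : Finset X) (i : Fin 3) : Finset X :=
  S.filter (fun e => cl e = i)

/-- The rare colours. -/
noncomputable def rare (cl : X → Fin 3) (L : X → Finset C) (D : ℕ) (S : Finset X) (i : Fin 3) :
    Finset C :=
  (S.biUnion L).filter (fun c => 10 * ((cls cl S i).filter (fun e => c ∈ L e)).card ≤ D)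

lemma cls_ge {cl : X → Fin 3} {D : ℕ} {o : Fin 3 → ℕ}
    (hdeg : ∀ i, (univ.filter (fun e => cl e ≠ i)).card + o i ≤ D) (S : Finset X) (i : Fin 3) :
    S.card ≤ (cls cl S i).card + D := by
  have h1 := card_filter_add_card_filter_not (s := S) (fun e => cl e = i)
  have h2 : (S.filter (fun e => ¬ cl e = i)).card ≤ (univ.filter (fun e => cl e ≠ i)).card :=
    card_le_card (filter_subset_filter _ (subset_univ S))
  have h3 := hdeg i
  unfold cls
  omega

/-- Double counting: there are few rare colours. -/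
lemma rare_count {cl : X → Fin 3} {L : X → Finset C} {D m K : ℕ} {S : Finset X} {i : Fin 3}
    (hK : ∀ e, K ≤ (L e).card) (hm : m = (cls cl S i).card) :
    (rare cl L D S i).card * (10 * m) ≤
      (rare cl L D S i).card * D + 10 * (m * ((S.biUnion L).card - K)) := by
  obtain ⟨R, hR⟩ : ∃ R, R = rare cl L D S i := ⟨_, rfl⟩
  rw [← hR]
  have h1 : ∀ c ∈ R, 10 * m ≤ D + 10 * ((cls cl S i).filter (fun e => c ∉ L e)).card := by
    intro c hc
    rw [hR] at hc
    have h2 := (mem_filter.1 hc).2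
    have h3 := card_filter_add_card_filter_not (s := cls cl S i) (fun e => c ∈ L e)
    omega
  have h2 : ∑ c ∈ R, ((cls cl S i).filter (fun e => c ∉ L e)).card ≤
      m * ((S.biUnion L).card - K) := by
    calc ∑ c ∈ R, ((cls cl S i).filter (fun e => c ∉ L e)).card
        = ∑ c ∈ R, ∑ e ∈ cls cl S i, if c ∉ L e then 1 else 0 := by
          refine sum_congr rfl fun c _ => ?_
          rw [card_filter]
      _ = ∑ e ∈ cls cl S i, ∑ c ∈ R, if c ∉ L e then 1 else 0 := sum_comm
      _ = ∑ e ∈ cls cl S i, (R.filter (fun c => c ∉ L e)).card := by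
          refine sum_congr rfl fun e _ => ?_
          rw [card_filter]
      _ ≤ ∑ e ∈ cls cl S i, ((S.biUnion L).card - K) := by
          refine sum_le_sum fun e he => ?_
          have heS : e ∈ S := (mem_filter.1 he).1
          have h4 : R.filter (fun c => c ∉ L e) ⊆ S.biUnion L \ L e := by
            intro c hc
            have h5 := mem_filter.1 hc
            rw [hR] at h5
            exact mem_sdiff.2 ⟨(mem_filter.1 h5.1).1, h5.2⟩
          refine (card_le_card h4).trans ?_
          rw [card_sdiff_of_subset (subset_biUnion_of_mem L heS)]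
          exact Nat.sub_le_sub_left (hK e) _
      _ = m * ((S.biUnion L).card - K) := by rw [sum_const, smul_eq_mul, hm]
  calc R.card * (10 * m) = ∑ c ∈ R, 10 * m := by rw [sum_const, smul_eq_mul]
    _ ≤ ∑ c ∈ R, (D + 10 * ((cls cl S i).filter (fun e => c ∉ L e)).card) := sum_le_sum h1
    _ = R.card * D + 10 * ∑ c ∈ R, ((cls cl S i).filter (fun e => c ∉ L e)).card := by
        rw [sum_add_distrib, sum_const, smul_eq_mul, mul_sum]
    _ ≤ _ := by
        have := Nat.mul_le_mul_left 10 h2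
        omega

/-- arithmetic -/
lemma rare_arith {b m D O U K : ℕ} (hD : 1000 ≤ D) (hO : 10 * O < D)
    (hm : 10 * m ≥ 4 * D - 20) (hK : K = 3 * D / 2) (hU : 2 * U ≤ 3 * D + O)
    (h : b * (10 * m) ≤ b * D + 10 * (m * (U - K))) : 10 * b ≤ D := by
  by_contra hb
  push Not at hb
  -- `U - K ≤ (O + 1) / 2`
  have h1 : 2 * (U - K) ≤ O + 1 := by omega
  have h2 : 20 * (U - K) ≤ D + 9 := by omega
  have h3 : 20 * (m * (U - K)) ≤ m * (D + 9) := by
    have := Nat.mul_le_mul_left m h2
    nlinarith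
  -- b (10 m - D) ≤ m (D + 9) / 2
  have h4 : 2 * (b * (10 * m)) ≤ 2 * (b * D) + m * (D + 9) := by nlinarith
  zify at *
  have hm' : (4 : ℤ) * D - 20 ≤ 10 * m := by omega
  have h5 : (b : ℤ) * (2 * (10 * m - D)) ≤ m * (D + 9) := by nlinarith
  have h6 : (0 : ℤ) < 10 * m - D := by linarith
  have h7 : (D : ℤ) * (2 * (10 * m - D)) ≤ 10 * (m * (D + 9)) := by nlinarith
  nlinarith

end Tri

open Tri

theorem tri_hall {X C : Type} [Fintype X] [Fintype C] (cl : X → Fin 3) (L : X → Finset C) (D : ℕ)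
    (hD : 1000 ≤ D) (o : Fin 3 → ℕ) (hn : 29 * D < 20 * Fintype.card X)
    (hdeg : ∀ i, (univ.filter (fun e => cl e ≠ i)).card + o i ≤ D)
    (hL : ∀ e, 3 * D / 2 ≤ (L e).card) :
    ∃ B : Fin 3 → Finset C, (∀ i, 10 * (B i).card ≤ D) ∧
      ∀ Y : Fin 3 → Finset C, (∀ i, (Y i).card ≤ o i) → (∀ i, Disjoint (Y i) (B i)) →
        ∃ f : X → C, Function.Injective f ∧ ∀ e, f e ∈ L e ∧ ∀ i, i ≠ cl e → f e ∉ Y i := by
  have hs := Tri.sum_le hdeg
  obtain ⟨O, hO⟩ : ∃ O, O = ∑ i, o i := ⟨_, rfl⟩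
  -- it suffices to check the Hall condition
  have hall : ∀ Y : Fin 3 → Finset C, (∀ S : Finset X, S.card ≤ (S.biUnion (red cl L Y)).card) →
      ∃ f : X → C, Function.Injective f ∧ ∀ e, f e ∈ L e ∧ ∀ i, i ≠ cl e → f e ∉ Y i := by
    intro Y h
    obtain ⟨f, hf, hf'⟩ := (all_card_le_biUnion_card_iff_exists_injective (red cl L Y)).1 h
    exact ⟨f, hf, fun e => mem_filter.1 (hf' e)⟩
  by_cases hcrit : ∃ S : Finset X, 3 * D / 2 < S.card + ∑ i, o i ∧
      2 * (S.biUnion L).card ≤ 3 * D + ∑ i, o i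
  swap
  · refine ⟨fun _ => ∅, fun i => by simp, fun Y hY _ => hall Y fun S => ?_⟩
    by_contra h
    push Not at h
    exact hcrit ⟨S, fail hs hL hY h⟩
  obtain ⟨S₀, hS₀, hU₀⟩ := hcrit
  refine ⟨rare cl L D S₀, fun i => ?_, fun Y hY hd => hall Y fun S => ?_⟩
  · have h1 := rare_count (cl := cl) (D := D) (i := i) (S := S₀) hL rfl
    have h2 := cls_ge hdeg S₀ i
    refine rare_arith hD (O := O) (m := (cls cl S₀ i).card) ?_ ?_ rfl ?_ h1
    · omega
    · omega
    · omega
  · by_contra h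
    push Not at h
    obtain ⟨h1, -⟩ := fail hs hL hY h
    have hSn : S.card ≤ Fintype.card X := card_le_univ S
    -- the edges of `S₀` missing in `S`
    have hmiss : 10 * (S₀ \ S).card ≤ D := by
      have h2 : (S₀ \ S).card ≤ (univ \ S).card := card_le_card (sdiff_subset_sdiff (subset_univ _)
        (Subset.refl _))
      rw [card_sdiff_of_subset (subset_univ S), card_univ] at h2
      omega
    obtain ⟨S₁, hS₁⟩ : ∃ S₁, S₁ = S₀ ∩ S := ⟨_, rfl⟩
    have hne : S₁.Nonempty := by
      rw [← card_pos]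
      have := card_sdiff_add_card_inter S₀ S
      rw [← hS₁] at this
      omega
    -- a rich colour of a class appears in `S₁`
    have hrich : ∀ c ∈ S₀.biUnion L, ∀ i, c ∉ rare cl L D S₀ i →
        ∃ e ∈ S₁, cl e = i ∧ c ∈ L e := by
      intro c hc i hci
      have h2 : ¬ 10 * ((cls cl S₀ i).filter (fun e => c ∈ L e)).card ≤ D := fun h3 =>
        hci (mem_filter.2 ⟨hc, h3⟩)
      by_contra hno
      push Not at hno
      refine h2 (le_trans (Nat.mul_le_mul_left 10 (card_le_card ?_)) hmiss)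
      intro e he
      have h3 := mem_filter.1 he
      have h4 := mem_filter.1 h3.1
      refine mem_sdiff.2 ⟨h4.1, fun heS => hno e ?_ h4.2 h3.2⟩
      rw [hS₁]
      exact mem_inter.2 ⟨h4.1, heS⟩
    have hsub : S₁ ⊆ S := by rw [hS₁]; exact inter_subset_right
    have hsub₀ : S₁ ⊆ S₀ := by rw [hS₁]; exact inter_subset_left
    have htwo : 2 * (S₁.biUnion L \ S₁.biUnion (red cl L Y)).card ≤ ∑ i, (Y i).card := by
      refine two_mul_card fun c hc => ?_
      obtain ⟨hc1, hc2⟩ := mem_sdiff.1 hc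
      obtain ⟨e, he, hce⟩ := mem_biUnion.1 hc1
      have h2 : ∃ i, c ∈ Y i := by
        by_contra hno
        push Not at hno
        exact hc2 (mem_biUnion.2 ⟨e, he, mem_filter.2 ⟨hce, fun i _ => hno i⟩⟩)
      obtain ⟨i, hi⟩ := h2
      have h3 : c ∉ rare cl L D S₀ i := Finset.disjoint_left.1 (hd i) hi
      have h4 : c ∈ S₀.biUnion L := mem_biUnion.2 ⟨e, hsub₀ he, hce⟩
      obtain ⟨e', he', hcl, hce'⟩ := hrich c h4 i h3
      by_contra hno
      push Not at hno
      refine hc2 (mem_biUnion.2 ⟨e', he', mem_filter.2 ⟨hce', fun j hj hjY => ?_⟩⟩)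
      rw [hcl] at hj
      exact hno i j hj.symm hi hjY
    have h5 : ∑ i, (Y i).card ≤ ∑ i, o i := Finset.sum_le_sum fun i _ => hY i
    have h6 : (S₁.biUnion L).card ≤
        (S₁.biUnion (red cl L Y)).card + (S₁.biUnion L \ S₁.biUnion (red cl L Y)).card := by
      rw [← card_union_of_disjoint disjoint_sdiff]
      refine card_le_card fun c hc => ?_
      by_cases hc' : c ∈ S₁.biUnion (red cl L Y)
      · exact mem_union_left _ hc'
      · exact mem_union_right _ (mem_sdiff.2 ⟨hc, hc'⟩)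
    have h7 : (S₁.biUnion (red cl L Y)).card ≤ (S.biUnion (red cl L Y)).card :=
      card_le_card (biUnion_subset_biUnion_of_subset_left _ hsub)
    obtain ⟨e, he⟩ := hne
    have h8 : (L e).card ≤ (S₁.biUnion L).card := card_le_card (subset_biUnion_of_mem L he)
    have h9 := hL e
    omega

end Pool.Agent.KH
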