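import Pool.Agent.Lib.MP_30840b_co_h61.IterB
import Pool.Agent.Lib.MP_30840b_co_h61.Tri
import Pool.Agent.Lib.MP_30840b_co_h61.Heavy

set_option autoImplicit false

open Finset Classical

namespace Pool.Agent.KH

namespace FinA

variable {V E C : Type} [Fintype V] [Fintype E] [Fintype C]

theorem mf {α : Type} {S : Finset α} {P : α → Prop} {i : DecidablePred P} {x : α} :
    x ∈ S.filter P ↔ x ∈ S ∧ P x := mem_filter

/-- heavy triangles -/
def Hvy (ve : E → Finset V) (D : ℕ) (S : Finset V) : Prop :=
  S.card = 3 ∧ 29 * D < 20 * (univ.filter (fun e => ve e ⊆ S)).card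

/-- the number of edges at `v` inside `S` -/
noncomputable def inn (ve : E → Finset V) (S : Finset V) (v : V) : ℕ :=
  (univ.filter (fun e => v ∈ ve e ∧ ve e ⊆ S)).card

/-- the number of edges at `v` which are not inside `S` -/
noncomputable def out (ve : E → Finset V) (S : Finset V) (v : V) : ℕ :=
  (univ.filter (fun e => v ∈ ve e ∧ ¬ ve e ⊆ S)).card

theorem inn_add_out (ve : E → Finset V) (S : Finset V) (v : V) :
    inn ve S v + out ve S v = dg ve univ v := by
  unfold inn out dg
  rw [← Finset.card_filter_add_card_filter_not (s := univ.filter fun e => v ∈ ve e)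
    (fun e => ve e ⊆ S), Finset.filter_filter, Finset.filter_filter]

theorem sum_inn {ve : E → Finset V} (h2 : ∀ e, (ve e).card = 2) (S : Finset V) :
    ∑ v ∈ S, inn ve S v = 2 * (univ.filter (fun e => ve e ⊆ S)).card := by
  unfold inn
  simp only [Finset.card_filter]
  rw [Finset.sum_comm, Finset.mul_sum]
  refine Finset.sum_congr rfl fun e _ => ?_
  by_cases h : ve e ⊆ S
  · simp only [h, and_true, if_true]
    rw [← Finset.card_filter, mul_one, ← h2 e]
    congr 1
    ext v
    rw [mem_filter]
    exact ⟨fun h' => h'.2, fun h' => ⟨h h', h'⟩⟩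
  · simp [h]

theorem out_le {ve : E → Finset V} {D : ℕ} (h2 : ∀ e, (ve e).card = 2)
    (hd : ∀ v, dg ve univ v ≤ D) {S : Finset V} (hS : Hvy ve D S) {v : V} (hv : v ∈ S) :
    10 * out ve S v ≤ D := by
  have h1 := inn_add_out ve S v
  have h3 := hd v
  have h4 := sum_inn h2 S
  rw [← Finset.add_sum_erase S _ hv] at h4
  have h5 : ∑ u ∈ S.erase v, inn ve S u ≤ ∑ _u ∈ S.erase v, D :=
    Finset.sum_le_sum fun u _ => by
      have := inn_add_out ve S u
      have := hd u
      omega
  rw [Finset.sum_const, Finset.card_erase_of_mem hv, hS.1, smul_eq_mul] at h5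
  have h6 := hS.2
  omega

/-- The exact step inside a heavy triangle, in terms of the vertices. -/
theorem tri_local [Nonempty C] {ve : E → Finset V} {D : ℕ} (hD : 1000 ≤ D)
    (h2 : ∀ e, (ve e).card = 2) (hd : ∀ v, dg ve univ v ≤ D) (L : E → Finset C)
    (hL : ∀ e, 3 * D / 2 ≤ (L e).card) {S : Finset V} (hS : Hvy ve D S) :
    ∃ B : V → Finset C, (∀ v, 10 * (B v).card ≤ D) ∧ ∀ Y : V → Finset C,
      (∀ v ∈ S, (Y v).card ≤ out ve S v) → (∀ v ∈ S, Disjoint (Y v) (B v)) →
      ∃ f : E → C, (∀ e e', ve e ⊆ S → ve e' ⊆ S → e ≠ e' → f e ≠ f e') ∧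
        ∀ e, ve e ⊆ S → f e ∈ L e ∧ ∀ v ∈ ve e, f e ∉ Y v := by
  have φ : {x // x ∈ S} ≃ Fin 3 := Finset.equivFinOfCardEq hS.1
  have hcl : ∀ e : {e // ve e ⊆ S}, ∃ j : Fin 3, ∀ i, (j ≠ i ↔ (φ.symm i : V) ∈ ve e) := by
    rintro ⟨e, he⟩
    have h1 : (S \ ve e).card = 1 := by
      rw [Finset.card_sdiff_of_subset he, hS.1, h2]
    obtain ⟨w, hw⟩ := Finset.card_eq_one.1 h1
    have hwS : w ∈ S ∧ w ∉ ve e := by
      rw [← Finset.mem_sdiff, hw]
      exact mem_singleton_self w
    refine ⟨φ ⟨w, hwS.1⟩, fun i => ?_⟩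
    have h3 : (φ.symm i : V) ∉ ve e ↔ (φ.symm i : V) = w := by
      rw [← mem_singleton, ← hw, Finset.mem_sdiff]
      exact ⟨fun h => ⟨(φ.symm i).2, h⟩, fun h => h.2⟩
    rw [← not_iff_not, not_not, h3]
    constructor
    · intro h
      rw [← h]
      simp
    · intro h
      have h4 : φ.symm i = ⟨w, hwS.1⟩ := Subtype.ext h
      rw [← h4]
      simp
  choose cl hcl using hcl
  have hn : 29 * D < 20 * Fintype.card {e // ve e ⊆ S} := by
    rw [Fintype.card_subtype]
    exact hS.2
  have hdeg : ∀ i, (univ.filter (fun e : {e // ve e ⊆ S} => cl e ≠ i)).card +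
      out ve S (φ.symm i) ≤ D := by
    intro i
    have h1 : (univ.filter (fun e : {e // ve e ⊆ S} => cl e ≠ i)).card ≤
        inn ve S (φ.symm i) := by
      unfold inn
      refine Finset.card_le_card_of_injOn Subtype.val ?_ Subtype.val_injective.injOn
      intro e he
      rw [Finset.mem_coe, mem_filter] at he
      rw [Finset.mem_coe, mem_filter]
      exact ⟨mem_univ _, (hcl e i).1 he.2, e.2⟩
    have h3 := inn_add_out ve S (φ.symm i : V)
    have h4 := hd (φ.symm i : V)
    omega
  obtain ⟨B, hB1, hB2⟩ := tri_hall cl (fun e => L e) D hD (fun i => out ve S (φ.symm i)) hn hdeg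
    fun e => hL e
  refine ⟨fun v => if h : v ∈ S then B (φ ⟨v, h⟩) else ∅, ?_, ?_⟩
  · intro v
    by_cases h : v ∈ S
    · simp only [h, dif_pos]
      exact hB1 _
    · simp [h]
  · intro Y hY1 hY2
    obtain ⟨f, hf1, hf2⟩ := hB2 (fun i => Y (φ.symm i)) (fun i => hY1 _ (φ.symm i).2) (fun i => by
      have := hY2 _ (φ.symm i).2
      simpa using this)
    refine ⟨fun e => if h : ve e ⊆ S then f ⟨e, h⟩ else Classical.arbitrary C, ?_, ?_⟩
    · intro e e' he he' hne
      simp only [he, he', dif_pos]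
      intro h
      exact hne (congrArg Subtype.val (hf1 h))
    · intro e he
      simp only [he, dif_pos]
      refine ⟨(hf2 ⟨e, he⟩).1, fun v hv => ?_⟩
      have h1 := (hf2 ⟨e, he⟩).2 (φ ⟨v, he hv⟩) (Ne.symm ((hcl ⟨e, he⟩ _).2 (by simpa using hv)))
      simpa using h1

/-- The number of neighbours. -/
theorem nb_le {ve : E → Finset V} (h2 : ∀ e, (ve e).card = 2) (F : Finset E) (x : V)
    (N : Finset V) (hN : ∀ y ∈ N, y ≠ x ∧ ∃ e ∈ F, x ∈ ve e ∧ y ∈ ve e) :
    N.card ≤ (F.filter (fun e => x ∈ ve e)).card := by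
  have h1 : N ⊆ (F.filter (fun e => x ∈ ve e)).biUnion fun e => (ve e).erase x := by
    intro y hy
    obtain ⟨hne, e, he, hx, hy⟩ := hN y hy
    rw [mem_biUnion]
    exact ⟨e, mf.2 ⟨he, hx⟩, mem_erase.2 ⟨hne, hy⟩⟩
  refine (Finset.card_le_card h1).trans (Finset.card_biUnion_le.trans ?_)
  refine le_of_eq ?_
  rw [Finset.card_eq_sum_ones]
  refine Finset.sum_congr rfl fun e he => ?_
  rw [Finset.card_erase_of_mem (mf.1 he).2, h2]

theorem card_sdiff_ge {α : Type} (A B : Finset α) : A.card ≤ (A \ B).card + B.card := by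
  have := Finset.card_le_card (Finset.subset_union_left (s₁ := A) (s₂ := B))
  rw [← Finset.sdiff_union_self_eq_union] at this
  exact this.trans (Finset.card_union_le _ _)

end FinA

open FinA in
/-- for every `D ≥ D₀`: lists of size `⌊3D/2⌋` suffice for a total colouring -/
theorem part2 : ∃ D₀ : ℕ, ∀ {V E C : Type} [Fintype V] [Fintype E] [Fintype C] [Nonempty C]
    (ve : E → Finset V) (L : V ⊕ E → Finset C) (D : ℕ), D₀ ≤ D →
    (∀ e, (ve e).card = 2) → (∀ v, dg ve univ v ≤ D) → (∀ x, 3 * D / 2 ≤ (L x).card) →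
    ∃ c : V ⊕ E → C, (∀ x, c x ∈ L x) ∧
      (∀ (e : E) (u v : V), u ≠ v → u ∈ ve e → v ∈ ve e → c (Sum.inl u) ≠ c (Sum.inl v)) ∧
      (∀ e f : E, e ≠ f → ¬ Disjoint (ve e) (ve f) → c (Sum.inr e) ≠ c (Sum.inr f)) ∧
      (∀ (e : E) (v : V), v ∈ ve e → c (Sum.inl v) ≠ c (Sum.inr e)) := by
  obtain ⟨D₁, hpart1⟩ := part1 (1 / 20) (by norm_num) le_rfl
  refine ⟨max D₁ 1000, ?_⟩
  intro V E C _ _ _ _ ve L D hDD h2 hd hL
  have hD1 : D₁ ≤ D := (le_max_left _ _).trans hDD
  have hD : 1000 ≤ D := (le_max_right _ _).trans hDD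
  -- the heavy triangles
  set X : Finset V := univ.filter fun v => ∃ S, Hvy ve D S ∧ v ∈ S with hX
  have memX : ∀ {v}, v ∈ X ↔ ∃ S, Hvy ve D S ∧ v ∈ S := fun {v} => by
    rw [hX, mem_filter]; simp
  have huniq : ∀ {S S' : Finset V} {v : V}, Hvy ve D S → Hvy ve D S' → v ∈ S → v ∈ S' →
      S = S' := by
    intro S S' v hS hS' hv hv'
    by_contra hne
    have := heavy_disj ve D h2 hd (by omega) S S' hS.1 hS'.1 hS.2 hS'.2 hne
    exact Finset.disjoint_left.1 this hv hv'
  have hBex : ∀ S : Finset V, ∃ B : V → Finset C, Hvy ve D S → ((∀ v, 10 * (B v).card ≤ D) ∧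
      ∀ Y : V → Finset C, (∀ v ∈ S, (Y v).card ≤ out ve S v) → (∀ v ∈ S, Disjoint (Y v) (B v)) →
      ∃ f : E → C, (∀ e e', ve e ⊆ S → ve e' ⊆ S → e ≠ e' → f e ≠ f e') ∧
        ∀ e, ve e ⊆ S → f e ∈ L (Sum.inr e) ∧ ∀ v ∈ ve e, f e ∉ Y v) := by
    intro S
    by_cases hS : Hvy ve D S
    · obtain ⟨B, hB⟩ := tri_local hD h2 hd (fun e => L (Sum.inr e)) (fun e => hL _) hS
      exact ⟨B, fun _ => hB⟩
    · exact ⟨fun _ => ∅, fun h => absurd h hS⟩
  choose BS hBS using hBex
  set Bv : V → Finset C := fun v => if h : ∃ S, Hvy ve D S ∧ v ∈ S then BS h.choose v else ∅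
    with hBv
  have Bv_eq : ∀ {S : Finset V} {v : V}, Hvy ve D S → v ∈ S → Bv v = BS S v := by
    intro S v hS hv
    have h : ∃ S, Hvy ve D S ∧ v ∈ S := ⟨S, hS, hv⟩
    rw [hBv]
    simp only [h, dif_pos]
    rw [huniq h.choose_spec.1 hS h.choose_spec.2 hv]
  have Bv_le : ∀ v, v ∈ X → 10 * (Bv v).card ≤ D := by
    intro v hv
    obtain ⟨S, hS, hvS⟩ := memX.1 hv
    rw [Bv_eq hS hvS]
    exact (hBS S hS).1 v
  -- stage 1: the vertices outside `X`
  have hnb : ∀ (v : V) (N : Finset V), (∀ y ∈ N, y ≠ v ∧ ∃ e, v ∈ ve e ∧ y ∈ ve e) →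
      N.card ≤ D := by
    intro v N hN
    refine (nb_le h2 univ v N fun y hy => ?_).trans (hd v)
    obtain ⟨h1, e, h3⟩ := hN y hy
    exact ⟨h1, e, mem_univ _, h3⟩
  obtain ⟨c1, hc1, hc1'⟩ := greedy (fun u v : V => ∃ e, u ∈ ve e ∧ v ∈ ve e)
    (fun u v ⟨e, h, h'⟩ => ⟨e, h', h⟩) (univ \ X) (fun v => L (Sum.inl v)) (fun v _ => by
      refine lt_of_le_of_lt (hnb v _ fun y hy => (mf.1 hy).2) ?_
      have h4 := hL (Sum.inl v)
      omega)
  -- stage 2: the edges outside `X`
  have hstage2 : ∃ c2 : E → C, (∀ e, Disjoint (ve e) X → c2 e ∈ L (Sum.inr e) ∧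
      ∀ v ∈ ve e, c1 v ≠ c2 e) ∧ ∀ e f, Disjoint (ve e) X → Disjoint (ve f) X → e ≠ f →
      ¬ Disjoint (ve e) (ve f) → c2 e ≠ c2 f := by
    obtain ⟨col, hcol1, hcol2⟩ := hpart1 (E := {e : E // Disjoint (ve e) X}) (fun e => ve e)
      (fun e => L (Sum.inr e) \ (ve e).image c1) D hD1 (fun e => h2 e)
      (fun v => by
        refine le_trans ?_ (hd v)
        unfold dg
        refine Finset.card_le_card_of_injOn Subtype.val ?_ Subtype.val_injective.injOn
        intro e he
        rw [Finset.mem_coe, mem_filter] at he ⊢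
        exact ⟨mem_univ _, he.2⟩)
      (fun S hS => by
        by_cases hSh : Hvy ve D S
        · have : (univ.filter fun e : {e : E // Disjoint (ve e) X} => ve e ⊆ S) = ∅ := by
            rw [Finset.eq_empty_iff_forall_notMem]
            intro e he
            have h3 := (mf.1 he).2
            have h4 : (ve e).Nonempty := by
              rw [← Finset.card_pos, h2]
              norm_num
            obtain ⟨v, hv⟩ := h4
            exact Finset.disjoint_left.1 e.2 hv (memX.2 ⟨S, hSh, h3 hv⟩)
          rw [this, Finset.card_empty, Nat.cast_zero]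
          positivity
        · have h3 : 20 * (univ.filter (fun e => ve e ⊆ S)).card ≤ 29 * D := by
            by_contra hcon
            exact hSh ⟨hS, by omega⟩
          have h4 : (univ.filter fun e : {e : E // Disjoint (ve e) X} => ve e ⊆ S).card ≤
              (univ.filter (fun e => ve e ⊆ S)).card := by
            refine Finset.card_le_card_of_injOn Subtype.val ?_ Subtype.val_injective.injOn
            intro e he
            rw [Finset.mem_coe, mem_filter] at he ⊢
            exact ⟨mem_univ _, he.2⟩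
          have h5 : (20 : ℝ) * (univ.filter (fun e => ve e ⊆ S)).card ≤ 29 * D := by
            exact_mod_cast h3
          have h6 : ((univ.filter fun e : {e : E // Disjoint (ve e) X} => ve e ⊆ S).card : ℝ) ≤
              (univ.filter (fun e => ve e ⊆ S)).card := by exact_mod_cast h4
          linarith)
      (fun e => by
        have h3 := card_sdiff_ge (L (Sum.inr (e : E))) ((ve e).image c1)
        have h4 : ((ve e).image c1).card ≤ 2 := Finset.card_image_le.trans (h2 e).le
        have h5 := hL (Sum.inr (e : E))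
        omega)
    refine ⟨fun e => if h : Disjoint (ve e) X then col ⟨e, h⟩ else Classical.arbitrary C, ?_, ?_⟩
    · intro e he
      simp only [he, dif_pos]
      have h3 := Finset.mem_sdiff.1 (hcol1 ⟨e, he⟩)
      refine ⟨h3.1, fun v hv h => h3.2 ?_⟩
      rw [← h]
      exact mem_image_of_mem _ hv
    · intro e f he hf hne hdis
      simp only [he, hf, dif_pos]
      exact hcol2 _ _ (fun h => hne (congrArg Subtype.val h)) hdis
  obtain ⟨c2, hc2, hc2'⟩ := hstage2
  -- stage 3: the outer edges at `X`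
  set E2 : Finset E := univ.filter fun e => Disjoint (ve e) X with hE2
  set S3 : Finset E := univ.filter fun e => ¬ Disjoint (ve e) X ∧
    ∀ S, Hvy ve D S → ¬ ve e ⊆ S with hS3
  have memS3 : ∀ {e}, e ∈ S3 ↔ ¬ Disjoint (ve e) X ∧ ∀ S, Hvy ve D S → ¬ ve e ⊆ S := fun {e} => by
    rw [hS3, mem_filter]; simp
  have memE2 : ∀ {e}, e ∈ E2 ↔ Disjoint (ve e) X := fun {e} => by
    rw [hE2, mem_filter]; simp
  set L3 : E → Finset C := fun e => L (Sum.inr e) \
    (((E2.filter fun f => ¬ Disjoint (ve e) (ve f)).image c2 ∪ (ve e \ X).image c1) ∪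
      (ve e ∩ X).biUnion Bv) with hL3
  obtain ⟨c3, hc3, hc3'⟩ := greedy (fun e f : E => ¬ Disjoint (ve e) (ve f))
    (fun e f h h' => h h'.symm) S3 L3 (fun e he => by
      have he' := memS3.1 he
      refine lt_of_le_of_lt (Finset.card_le_card
        (t := S3.filter fun f => f ≠ e ∧ ¬ Disjoint (ve e) (ve f)) ?_) ?_
      · intro f hf
        exact mf.2 ⟨(mf.1 hf).1, (mf.1 hf).2⟩
      have h3 := card_sdiff_ge (L (Sum.inr e))
        (((E2.filter fun f => ¬ Disjoint (ve e) (ve f)).image c2 ∪ (ve e \ X).image c1) ∪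
          (ve e ∩ X).biUnion Bv)
      have h4 := Finset.card_union_le ((E2.filter fun f => ¬ Disjoint (ve e) (ve f)).image c2 ∪
        (ve e \ X).image c1) ((ve e ∩ X).biUnion Bv)
      have h5 := Finset.card_union_le ((E2.filter fun f => ¬ Disjoint (ve e) (ve f)).image c2)
        ((ve e \ X).image c1)
      have h6 : ((E2.filter fun f => ¬ Disjoint (ve e) (ve f)).image c2).card ≤
        (E2.filter fun f => ¬ Disjoint (ve e) (ve f)).card := Finset.card_image_le
      have h7 : ((ve e \ X).image c1).card ≤ (ve e \ X).card := Finset.card_image_le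
      have h8 : ((ve e ∩ X).biUnion Bv).card ≤ ∑ v ∈ ve e ∩ X, (Bv v).card :=
        Finset.card_biUnion_le
      have hLe := hL (Sum.inr e)
      -- the two ends
      obtain ⟨x, y, hxy, hve⟩ := Finset.card_eq_two.1 (h2 e)
      have hxe : x ∈ ve e := by rw [hve]; simp
      have hye : y ∈ ve e := by rw [hve]; simp
      set A : V → Finset E := fun v => (S3 ∪ E2).filter fun f => f ≠ e ∧ v ∈ ve f with hA
      have hAX : ∀ v ∈ ve e, v ∈ X → 10 * (A v).card ≤ D := by
        intro v hve hv
        obtain ⟨S, hS, hvS⟩ := memX.1 hv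
        refine le_trans (Nat.mul_le_mul_left 10 (Finset.card_le_card ?_)) (out_le h2 hd hS hvS)
        intro f hf
        rw [hA] at hf
        simp only [mem_filter, mem_union] at hf
        rw [mem_filter]
        refine ⟨mem_univ _, hf.2.2, fun hsub => ?_⟩
        rcases hf.1 with h | h
        · exact (memS3.1 h).2 S hS hsub
        · exact Finset.disjoint_left.1 (memE2.1 h) hf.2.2 hv
      have hAn : ∀ v ∈ ve e, (A v).card + 1 ≤ D := by
        intro v hve
        have h9 : A v ⊆ (univ.filter fun f => v ∈ ve f).erase e := by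
          intro f hf
          rw [hA] at hf
          simp only [mem_filter, mem_union] at hf
          rw [mem_erase, mem_filter]
          exact ⟨hf.2.1, mem_univ _, hf.2.2⟩
        have h10 := Finset.card_le_card h9
        have h13 : e ∈ univ.filter fun f => v ∈ ve f := mf.2 ⟨mem_univ _, hve⟩
        rw [Finset.card_erase_of_mem h13] at h10
        have h11 : 1 ≤ (univ.filter fun f => v ∈ ve f).card := Finset.card_pos.2 ⟨e, h13⟩
        have h12 : (univ.filter fun f => v ∈ ve f).card ≤ D := hd v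
        omega
      have hcount : (S3.filter fun f => f ≠ e ∧ ¬ Disjoint (ve e) (ve f)).card +
          (E2.filter fun f => ¬ Disjoint (ve e) (ve f)).card ≤ (A x).card + (A y).card := by
        rw [← Finset.card_union_of_disjoint]
        · refine (Finset.card_le_card ?_).trans (Finset.card_union_le (A x) (A y))
          intro f hf
          have key : f ∈ S3 ∪ E2 → f ≠ e → ¬ Disjoint (ve e) (ve f) → f ∈ A x ∪ A y := by
            intro h9 h10 h11
            obtain ⟨v, hv, hv'⟩ := Finset.not_disjoint_iff.1 h11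
            rw [hve, mem_insert, mem_singleton] at hv
            rw [mem_union, hA]
            simp only [mem_filter]
            rcases hv with rfl | rfl
            · exact Or.inl ⟨h9, h10, hv'⟩
            · exact Or.inr ⟨h9, h10, hv'⟩
          rcases mem_union.1 hf with h9 | h9
          · obtain ⟨h9, h10, h11⟩ := mf.1 h9
            exact key (mem_union_left _ h9) h10 h11
          · obtain ⟨h9, h11⟩ := mf.1 h9
            refine key (mem_union_right _ h9) ?_ h11
            intro hfe
            rw [hfe] at h9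
            exact he'.1 (memE2.1 h9)
        · rw [Finset.disjoint_left]
          intro f hf hf'
          exact (memS3.1 (mf.1 hf).1).1 (memE2.1 (mf.1 hf').1)
      have hx1 := hAn x hxe
      have hy1 := hAn y hye
      -- at least one end in `X`
      have hor : x ∈ X ∨ y ∈ X := by
        obtain ⟨v, hv, hv'⟩ := Finset.not_disjoint_iff.1 he'.1
        rw [hve, mem_insert, mem_singleton] at hv
        rcases hv with rfl | rfl
        · exact Or.inl hv'
        · exact Or.inr hv'
      by_cases hxX : x ∈ X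
      · by_cases hyX : y ∈ X
        · have e1 : (ve e \ X).card = 0 := by
            rw [Finset.card_eq_zero, hve, Finset.sdiff_eq_empty_iff_subset]
            intro v hv
            rw [mem_insert, mem_singleton] at hv
            rcases hv with rfl | rfl <;> assumption
          have e2 : ve e ∩ X = {x, y} := by
            rw [hve]
            refine Finset.inter_eq_left.2 ?_
            intro v hv
            rw [mem_insert, mem_singleton] at hv
            rcases hv with rfl | rfl <;> assumption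
          rw [e2, Finset.sum_pair hxy, ← e2] at h8
          have := hAX x hxe hxX
          have := hAX y hye hyX
          have := Bv_le x hxX
          have := Bv_le y hyX
          rw [hL3]
          simp only
          omega
        · have e1 : (ve e \ X).card ≤ 1 := by
            have : ve e \ X ⊆ {y} := by
              intro v hv
              rw [Finset.mem_sdiff, hve, mem_insert, mem_singleton] at hv
              rcases hv.1 with rfl | rfl
              · exact absurd hxX hv.2
              · exact mem_singleton_self _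
            exact (Finset.card_le_card this).trans (by simp)
          have e2 : ∑ v ∈ ve e ∩ X, (Bv v).card ≤ (Bv x).card := by
            have : ve e ∩ X ⊆ {x} := by
              intro v hv
              rw [Finset.mem_inter, hve, mem_insert, mem_singleton] at hv
              rcases hv.1 with rfl | rfl
              · exact mem_singleton_self _
              · exact absurd hv.2 hyX
            refine (Finset.sum_le_sum_of_subset this).trans ?_
            rw [Finset.sum_singleton]
          have := hAX x hxe hxX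
          have := Bv_le x hxX
          rw [hL3]
          simp only
          omega
      · have hyX : y ∈ X := hor.resolve_left hxX
        have e1 : (ve e \ X).card ≤ 1 := by
          have : ve e \ X ⊆ {x} := by
            intro v hv
            rw [Finset.mem_sdiff, hve, mem_insert, mem_singleton] at hv
            rcases hv.1 with rfl | rfl
            · exact mem_singleton_self _
            · exact absurd hyX hv.2
          exact (Finset.card_le_card this).trans (by simp)
        have e2 : ∑ v ∈ ve e ∩ X, (Bv v).card ≤ (Bv y).card := by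
          have : ve e ∩ X ⊆ {y} := by
            intro v hv
            rw [Finset.mem_inter, hve, mem_insert, mem_singleton] at hv
            rcases hv.1 with rfl | rfl
            · exact absurd hv.2 hxX
            · exact mem_singleton_self _
          refine (Finset.sum_le_sum_of_subset this).trans ?_
          rw [Finset.sum_singleton]
        have := hAX y hye hyX
        have := Bv_le y hyX
        rw [hL3]
        simp only
        omega)
  have hc3L : ∀ e ∈ S3, c3 e ∈ L (Sum.inr e) ∧
      (∀ f, Disjoint (ve f) X → ¬ Disjoint (ve e) (ve f) → c2 f ≠ c3 e) ∧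
      (∀ v ∈ ve e, v ∉ X → c1 v ≠ c3 e) ∧ ∀ v ∈ ve e, v ∈ X → c3 e ∉ Bv v := by
    intro e he
    have h3 := hc3 e he
    rw [hL3] at h3
    simp only [Finset.mem_sdiff, mem_union, not_or] at h3
    obtain ⟨h4, ⟨h5, h6⟩, h7⟩ := h3
    refine ⟨h4, ?_, ?_, ?_⟩
    · intro f hf hdis h
      apply h5
      rw [← h]
      exact mem_image_of_mem _ (mf.2 ⟨memE2.2 hf, hdis⟩)
    · intro v hv hvX h
      apply h6
      rw [← h]
      exact mem_image_of_mem _ (Finset.mem_sdiff.2 ⟨hv, hvX⟩)
    · intro v hv hvX h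
      apply h7
      rw [mem_biUnion]
      exact ⟨v, mem_inter.2 ⟨hv, hvX⟩, h⟩
  -- stage 4: the inner edges
  have hout3 : ∀ {S : Finset V} {v : V} {e : E}, Hvy ve D S → v ∈ S → v ∈ ve e → ¬ ve e ⊆ S →
      e ∈ S3 := by
    intro S v e hS hvS hve hsub
    rw [memS3]
    refine ⟨Finset.not_disjoint_iff.2 ⟨v, hve, memX.2 ⟨S, hS, hvS⟩⟩, fun S' hS' hsub' => ?_⟩
    rw [huniq hS hS' hvS (hsub' hve)] at hsub
    exact hsub hsub'
  have hstage4 : ∀ S : Finset V, ∃ f : E → C, Hvy ve D S →
      ((∀ e e', ve e ⊆ S → ve e' ⊆ S → e ≠ e' → f e ≠ f e') ∧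
        ∀ e, ve e ⊆ S → f e ∈ L (Sum.inr e) ∧
          ∀ v ∈ ve e, f e ∉ (S3.filter fun g => v ∈ ve g).image c3) := by
    intro S
    by_cases hS : Hvy ve D S
    · obtain ⟨f, hf⟩ := (hBS S hS).2 (fun v => (S3.filter fun g => v ∈ ve g).image c3)
        (fun v hv => by
          refine Finset.card_image_le.trans (Finset.card_le_card ?_)
          intro g hg
          rw [mem_filter] at hg
          rw [mem_filter]
          exact ⟨mem_univ _, hg.2, (memS3.1 hg.1).2 S hS⟩)
        (fun v hv => by
          rw [Finset.disjoint_left]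
          intro c hc hc'
          rw [mem_image] at hc
          obtain ⟨g, hg, rfl⟩ := hc
          rw [mem_filter] at hg
          rw [← Bv_eq hS hv] at hc'
          exact (hc3L g hg.1).2.2.2 v hg.2 (memX.2 ⟨S, hS, hv⟩) hc')
      exact ⟨f, fun _ => hf⟩
    · exact ⟨fun _ => Classical.arbitrary C, fun h => absurd h hS⟩
  choose c4 hc4 using hstage4
  -- the colours of the edges
  set cE : E → C := fun e => if Disjoint (ve e) X then c2 e else
    if h : ∃ S, Hvy ve D S ∧ ve e ⊆ S then c4 h.choose e else c3 e with hcE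
  have cE2 : ∀ {e}, Disjoint (ve e) X → cE e = c2 e := by
    intro e h
    rw [hcE]
    simp only [h, if_true]
  have hne0 : ∀ e, (ve e).Nonempty := fun e => by
    rw [← Finset.card_pos, h2]
    norm_num
  have cE4 : ∀ {e S}, Hvy ve D S → ve e ⊆ S → cE e = c4 S e := by
    intro e S hS hsub
    obtain ⟨v, hv⟩ := hne0 e
    have h3 : ¬ Disjoint (ve e) X :=
      Finset.not_disjoint_iff.2 ⟨v, hv, memX.2 ⟨S, hS, hsub hv⟩⟩
    have h : ∃ S, Hvy ve D S ∧ ve e ⊆ S := ⟨S, hS, hsub⟩
    rw [hcE]
    simp only [h3, if_false, h, dif_pos]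
    rw [huniq h.choose_spec.1 hS (h.choose_spec.2 hv) (hsub hv)]
  have cE3 : ∀ {e}, e ∈ S3 → cE e = c3 e := by
    intro e he
    have he' := memS3.1 he
    have h : ¬ ∃ S, Hvy ve D S ∧ ve e ⊆ S := fun ⟨S, hS, hsub⟩ => he'.2 S hS hsub
    rw [hcE]
    simp only [he'.1, if_false, h, dif_neg, not_false_eq_true]
  have hcases : ∀ e, Disjoint (ve e) X ∨ e ∈ S3 ∨ ∃ S, Hvy ve D S ∧ ve e ⊆ S := by
    intro e
    by_cases h : Disjoint (ve e) X
    · exact Or.inl h
    by_cases h' : ∃ S, Hvy ve D S ∧ ve e ⊆ S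
    · exact Or.inr (Or.inr h')
    · exact Or.inr (Or.inl (memS3.2 ⟨h, fun S hS hsub => h' ⟨S, hS, hsub⟩⟩))
  have hcEL : ∀ e, cE e ∈ L (Sum.inr e) := by
    intro e
    rcases hcases e with h | h | ⟨S, hS, h⟩
    · rw [cE2 h]; exact (hc2 e h).1
    · rw [cE3 h]; exact (hc3L e h).1
    · rw [cE4 hS h]; exact ((hc4 S hS).2 e h).1
  -- the edges are properly coloured
  have hEE : ∀ e f : E, e ≠ f → ¬ Disjoint (ve e) (ve f) → cE e ≠ cE f := by
    have h23 : ∀ e f : E, Disjoint (ve e) X → f ∈ S3 → ¬ Disjoint (ve e) (ve f) →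
        cE e ≠ cE f := by
      intro e f he hf hdis
      rw [cE2 he, cE3 hf]
      exact (hc3L f hf).2.1 e he fun h => hdis h.symm
    have h24 : ∀ e f : E, Disjoint (ve e) X → (∃ S, Hvy ve D S ∧ ve f ⊆ S) →
        ¬ Disjoint (ve e) (ve f) → False := by
      rintro e f he ⟨S, hS, hf⟩ hdis
      obtain ⟨v, hv, hv'⟩ := Finset.not_disjoint_iff.1 hdis
      exact Finset.disjoint_left.1 he hv (memX.2 ⟨S, hS, hf hv'⟩)
    have h34 : ∀ e f : E, e ∈ S3 → (∃ S, Hvy ve D S ∧ ve f ⊆ S) → ¬ Disjoint (ve e) (ve f) →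
        cE e ≠ cE f := by
      rintro e f he ⟨S, hS, hf⟩ hdis heq
      rw [cE3 he, cE4 hS hf] at heq
      obtain ⟨v, hv, hv'⟩ := Finset.not_disjoint_iff.1 hdis
      refine ((hc4 S hS).2 f hf).2 v hv' ?_
      rw [← heq]
      exact mem_image_of_mem _ (mf.2 ⟨he, hv⟩)
    intro e f hne hdis
    have hdis' : ¬ Disjoint (ve f) (ve e) := fun h => hdis h.symm
    rcases hcases e with he | he | he <;> rcases hcases f with hf | hf | hf
    · rw [cE2 he, cE2 hf]
      exact hc2' e f he hf hne hdis
    · exact h23 e f he hf hdis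
    · exact absurd hdis fun h => h24 e f he hf h
    · exact (h23 f e hf he hdis').symm
    · rw [cE3 he, cE3 hf]
      exact hc3' e he f hf hne hdis
    · exact h34 e f he hf hdis
    · exact absurd hdis' fun h => h24 f e hf he h
    · exact (h34 f e hf he hdis').symm
    · obtain ⟨S, hS, he⟩ := he
      obtain ⟨S', hS', hf⟩ := hf
      obtain ⟨v, hv, hv'⟩ := Finset.not_disjoint_iff.1 hdis
      obtain rfl := huniq hS hS' (he hv) (hf hv')
      rw [cE4 hS he, cE4 hS hf]
      exact (hc4 S hS).1 e f he hf hne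
  -- stage 5: the vertices of `X`
  set N : V → Finset V := fun v => univ.filter (fun y => y ≠ v ∧ ∃ e, v ∈ ve e ∧ y ∈ ve e)
    with hN
  set L5 : V → Finset C := fun v => L (Sum.inl v) \
    ((univ.filter fun e => v ∈ ve e).image cE ∪ ((N v) \ X).image c1) with hL5
  obtain ⟨c5, hc5, hc5'⟩ := greedy (fun u v : V => ∃ e, u ∈ ve e ∧ v ∈ ve e)
    (fun u v ⟨e, h, h'⟩ => ⟨e, h', h⟩) X L5 (fun v hv => by
      obtain ⟨S, hS, hvS⟩ := memX.1 hv
      refine lt_of_le_of_lt (Finset.card_le_card
        (t := X.filter fun y => y ≠ v ∧ ∃ e, v ∈ ve e ∧ y ∈ ve e) ?_) ?_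
      · intro f hf
        exact mf.2 ⟨(mf.1 hf).1, (mf.1 hf).2⟩
      have h3 := card_sdiff_ge (L (Sum.inl v))
        ((univ.filter fun e => v ∈ ve e).image cE ∪ ((N v) \ X).image c1)
      have h4 := Finset.card_union_le ((univ.filter fun e => v ∈ ve e).image cE)
        (((N v) \ X).image c1)
      have h5 : ((univ.filter fun e => v ∈ ve e).image cE).card ≤ D :=
        Finset.card_image_le.trans (hd v)
      have h6 : (((N v) \ X).image c1).card ≤ ((N v) \ X).card := Finset.card_image_le
      have h7 : (X.filter fun y => y ≠ v ∧ ∃ e, v ∈ ve e ∧ y ∈ ve e).card + ((N v) \ X).card ≤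
          (N v).card := by
        rw [← Finset.card_union_of_disjoint]
        · refine Finset.card_le_card ?_
          intro y hy
          rw [mem_union, mem_filter, Finset.mem_sdiff] at hy
          rw [hN]
          simp only
          rw [mem_filter]
          rcases hy with ⟨-, h⟩ | ⟨h, -⟩
          · exact ⟨mem_univ _, h⟩
          · rw [hN] at h
            exact mf.1 h
        · rw [Finset.disjoint_left]
          intro y hy hy'
          exact (Finset.mem_sdiff.1 hy').2 (mf.1 hy).1
      have h8 : (N v).card ≤ 2 + out ve S v := by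
        have h9 : N v ⊆ S.erase v ∪ (N v \ S) := by
          intro y hy
          rw [mem_union, mem_erase, Finset.mem_sdiff]
          have hy' := hy
          rw [hN] at hy'
          have hne := (mf.1 hy').2.1
          by_cases hyS : y ∈ S
          · exact Or.inl ⟨hne, hyS⟩
          · exact Or.inr ⟨hy, hyS⟩
        have h10 := (Finset.card_le_card h9).trans (Finset.card_union_le _ _)
        have h11 := nb_le h2 (univ.filter (fun e => ¬ ve e ⊆ S)) v (N v \ S) (by
          intro y hy
          rw [Finset.mem_sdiff] at hy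
          obtain ⟨hy, hyS⟩ := hy
          rw [hN] at hy
          obtain ⟨-, hne, e, hve, hye⟩ := mf.1 hy
          exact ⟨hne, e, mf.2 ⟨mem_univ _, fun hsub => hyS (hsub hye)⟩, hve, hye⟩)
        rw [Finset.card_erase_of_mem hvS, hS.1] at h10
        have h12 : ((univ.filter (fun e => ¬ ve e ⊆ S)).filter (fun e => v ∈ ve e)).card =
            out ve S v := by
          unfold out
          rw [Finset.filter_filter]
          congr 1
          ext e
          simp only [mem_filter, mem_univ, true_and]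
          tauto
        omega
      have h9 := out_le h2 hd hS hvS
      have h10 := hL (Sum.inl v)
      rw [hL5]
      simp only
      omega)
  have hc5L : ∀ v ∈ X, c5 v ∈ L (Sum.inl v) ∧ (∀ e, v ∈ ve e → c5 v ≠ cE e) ∧
      ∀ y, y ∉ X → y ≠ v → (∃ e, v ∈ ve e ∧ y ∈ ve e) → c5 v ≠ c1 y := by
    intro v hv
    have h3 := hc5 v hv
    rw [hL5] at h3
    simp only [Finset.mem_sdiff, mem_union, not_or] at h3
    obtain ⟨h4, h5, h6⟩ := h3
    refine ⟨h4, ?_, ?_⟩
    · intro e he h
      apply h5
      rw [h]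
      exact mem_image_of_mem _ (mf.2 ⟨mem_univ _, he⟩)
    · intro y hy hne hadj h
      apply h6
      rw [h]
      refine mem_image_of_mem _ (Finset.mem_sdiff.2 ⟨?_, hy⟩)
      rw [hN]
      exact mf.2 ⟨mem_univ _, hne, hadj⟩
  refine ⟨Sum.elim (fun v => if v ∈ X then c5 v else c1 v) cE, ?_, ?_, ?_, ?_⟩
  · rintro (v | e)
    · simp only [Sum.elim_inl]
      by_cases hv : v ∈ X
      · rw [if_pos hv]; exact (hc5L v hv).1
      · rw [if_neg hv]; exact hc1 v (Finset.mem_sdiff.2 ⟨mem_univ _, hv⟩)
    · exact hcEL e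
  · intro e u v hne hu hv
    simp only [Sum.elim_inl]
    by_cases huX : u ∈ X <;> by_cases hvX : v ∈ X
    · rw [if_pos huX, if_pos hvX]
      exact hc5' u huX v hvX hne ⟨e, hu, hv⟩
    · rw [if_pos huX, if_neg hvX]
      exact (hc5L u huX).2.2 v hvX hne.symm ⟨e, hu, hv⟩
    · rw [if_neg huX, if_pos hvX]
      exact ((hc5L v hvX).2.2 u huX hne ⟨e, hv, hu⟩).symm
    · rw [if_neg huX, if_neg hvX]
      exact hc1' u (Finset.mem_sdiff.2 ⟨mem_univ _, huX⟩) v (Finset.mem_sdiff.2 ⟨mem_univ _, hvX⟩)
        hne ⟨e, hu, hv⟩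
  · intro e f hne hdis
    exact hEE e f hne hdis
  · intro e v hv
    simp only [Sum.elim_inl, Sum.elim_inr]
    by_cases hvX : v ∈ X
    · rw [if_pos hvX]
      exact (hc5L v hvX).2.1 e hv
    · rw [if_neg hvX]
      rcases hcases e with he | he | ⟨S, hS, he⟩
      · rw [cE2 he]
        exact (hc2 e he).2 v hv
      · rw [cE3 he]
        exact (hc3L e he).2.2.1 v hv hvX
      · exact absurd (memX.2 ⟨S, hS, he hv⟩) hvX

end Pool.Agent.KH
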