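import Pool.Agent.Lib.MP_30840b_co_h61.FinA

set_option autoImplicit false

open Finset Classical

namespace Pool.Agent.KH

/-- the final statement, in the form of the frozen statement S07933 -/
theorem final : ∃ D₀ : ℕ, ∀ (V E : Type) [Fintype V] [Fintype E] (ends : E → Sym2 V),
      (∀ e, ¬ (ends e).IsDiag) →
      ∀ D : ℕ,
        (∀ v : V, (Finset.univ.filter (fun e : E => v ∈ ends e)).card ≤ D) →
        D₀ ≤ D →
        ∀ L : V ⊕ E → Finset ℕ,
          (∀ x, 3 * D / 2 ≤ (L x).card) →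
          ∃ c : V ⊕ E → ℕ,
            (∀ x, c x ∈ L x) ∧
            (∀ (e : E) (u v : V), ends e = s(u, v) → c (Sum.inl u) ≠ c (Sum.inl v)) ∧
            (∀ (e f : E), e ≠ f → ∀ v : V, v ∈ ends e → v ∈ ends f →
              c (Sum.inr e) ≠ c (Sum.inr f)) ∧
            (∀ (e : E) (v : V), v ∈ ends e → c (Sum.inl v) ≠ c (Sum.inr e)) := by
  obtain ⟨D₀, hD₀⟩ := part2
  refine ⟨max D₀ 1, ?_⟩
  intro V E _ _ ends hdiag D hdeg hD L hL
  let K : Finset ℕ := insert 0 (univ.biUnion L)
  let C : Type := {n : ℕ // n ∈ K}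
  have : Nonempty C := ⟨⟨0, mem_insert_self _ _⟩⟩
  have : Fintype C := inferInstanceAs (Fintype {n : ℕ // n ∈ K})
  let ve : E → Finset V := fun e => univ.filter fun v => v ∈ ends e
  have hve : ∀ e v, v ∈ ve e ↔ v ∈ ends e := fun e v => by simp [ve]
  let L' : V ⊕ E → Finset C := fun x => univ.filter fun c => c.1 ∈ L x
  have hLK : ∀ x, ∀ n ∈ L x, n ∈ K := fun x n hn =>
    mem_insert_of_mem (mem_biUnion.2 ⟨x, mem_univ _, hn⟩)
  have hL'c : ∀ x, (L' x).card = (L x).card := by
    intro x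
    refine card_bij (fun c _ => c.1) (fun c hc => (mem_filter.1 hc).2)
      (fun c _ c' _ h => Subtype.ext h) fun n hn => ⟨⟨n, hLK x n hn⟩, ?_, rfl⟩
    exact mem_filter.2 ⟨mem_univ _, hn⟩
  have hA : ∀ e, (ve e).card = 2 := by
    intro e
    have h5 := hdiag e
    induction hs : ends e using Sym2.ind with
    | _ u v =>
      rw [hs] at h5
      have huv : u ≠ v := fun h => h5 (Sym2.mk_isDiag_iff.2 h)
      have h6 : ve e = {u, v} := by
        ext w
        rw [hve, hs, Sym2.mem_iff, mem_insert, mem_singleton]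
      rw [h6, card_pair huv]
  have hB : ∀ v, dg ve univ v ≤ D := by
    intro v
    unfold dg
    refine le_trans (le_of_eq ?_) (hdeg v)
    congr 1
    ext e
    simp only [mem_filter, mem_univ, true_and]
    exact hve e v
  obtain ⟨c, h1, h2, h3, h4⟩ := hD₀ ve L' D ((le_max_left _ _).trans hD) hA hB
    fun x => (hL x).trans (hL'c x).ge
  refine ⟨fun x => ((c x).1 : ℕ), fun x => (mem_filter.1 (h1 x)).2, ?_, ?_, ?_⟩
  · intro e u v he hc
    refine h2 e u v (fun huv => hdiag e ?_) ?_ ?_ (Subtype.ext hc)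
    · rw [he, huv]
      exact Sym2.mk_isDiag_iff.2 rfl
    · rw [hve, he]
      exact Sym2.mem_mk_left u v
    · rw [hve, he]
      exact Sym2.mem_mk_right u v
  · intro e f hef v hv hv' hc
    exact h3 e f hef (not_disjoint_iff.2 ⟨v, (hve _ _).2 hv, (hve _ _).2 hv'⟩) (Subtype.ext hc)
  · intro e v hv hc
    exact h4 e v ((hve _ _).2 hv) (Subtype.ext hc)

end Pool.Agent.KH
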