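import Mathlib

set_option autoImplicit false

open Finset Classical

namespace Pool.Agent.KH

/-- greedy colouring from lists -/
theorem greedy {X C : Type} [Fintype X] [Nonempty C] (adj : X → X → Prop)
    (hsym : ∀ x y, adj x y → adj y x) (S : Finset X) (L : X → Finset C)
    (h : ∀ x ∈ S, (S.filter (fun y => y ≠ x ∧ adj x y)).card < (L x).card) :
    ∃ col : X → C, (∀ x ∈ S, col x ∈ L x) ∧
      ∀ x ∈ S, ∀ y ∈ S, x ≠ y → adj x y → col x ≠ col y := by
  induction S using Finset.induction_on with
  | empty => exact ⟨fun _ => Classical.arbitrary C, by simp, by simp⟩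
  | insert a S ha ih =>
    obtain ⟨col, hc1, hc2⟩ := ih fun x hx => by
      refine lt_of_le_of_lt (card_le_card ?_) (h x (mem_insert_of_mem hx))
      exact filter_subset_filter _ (subset_insert _ _)
    have h1 := h a (mem_insert_self a S)
    have h2 : ((S.filter fun y => adj a y).image col).card < (L a).card := by
      refine lt_of_le_of_lt card_image_le (lt_of_le_of_lt (card_le_card ?_) h1)
      intro y hy
      rw [mem_filter] at hy ⊢
      exact ⟨mem_insert_of_mem hy.1, fun e => ha (e ▸ hy.1), hy.2⟩
    obtain ⟨b, hb, hb'⟩ := exists_mem_notMem_of_card_lt_card h2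
    have h3 : ∀ y ∈ S, adj a y → b ≠ col y := fun y hy hay e =>
      hb' (mem_image.2 ⟨y, mem_filter.2 ⟨hy, hay⟩, e.symm⟩)
    have hne : ∀ y ∈ S, y ≠ a := fun y hy e => ha (e ▸ hy)
    refine ⟨Function.update col a b, fun x hx => ?_, fun x hx y hy hxy hadj => ?_⟩
    · rcases mem_insert.1 hx with hx' | hx'
      · rw [hx', Function.update_self]
        exact hb
      · rw [Function.update_of_ne (hne x hx')]
        exact hc1 x hx'
    · rcases mem_insert.1 hx with hx' | hx'
      · rcases mem_insert.1 hy with hy' | hy'
        · exact absurd (hx'.trans hy'.symm) hxy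
        · rw [hx', Function.update_self, Function.update_of_ne (hne y hy')]
          exact h3 y hy' (hx' ▸ hadj)
      · rcases mem_insert.1 hy with hy' | hy'
        · rw [hy', Function.update_self, Function.update_of_ne (hne x hx')]
          exact (h3 x hx' (hsym _ _ (hy' ▸ hadj))).symm
        · rw [Function.update_of_ne (hne y hy'), Function.update_of_ne (hne x hx')]
          exact hc2 x hx' y hy' hxy hadj

end Pool.Agent.KH
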