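import Pool.Agent.Lib.MP_30840b_co_h61.Defs

/-! Basic facts on the matching model. -/

set_option autoImplicit false

open Finset Classical

namespace Pool.Agent.KH

variable {V E : Type} [Fintype V] [Fintype E]

lemma MS_mem {ve : E → Finset V} {F : Finset E} {W : Finset V} {M : Finset E} :
    M ∈ MS ve F W ↔ M ⊆ F ∧ IsM ve M ∧ ∀ e ∈ M, Disjoint (ve e) W := by
  unfold MS
  rw [Finset.mem_filter, Finset.mem_powerset]

/-- other end -/
lemma oe_spec {ve : E → Finset V} (h2 : ∀ e, (ve e).card = 2) {e : E} {v : V} (hv : v ∈ ve e) :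
    ve e = {v, oe ve e v} ∧ oe ve e v ≠ v ∧ oe ve e v ∈ ve e := by
  have h : ∃ u ∈ ve e, u ≠ v := by
    obtain ⟨a, b, hab, h⟩ := Finset.card_eq_two.mp (h2 e)
    rw [h] at hv ⊢
    rw [Finset.mem_insert, Finset.mem_singleton] at hv
    rcases hv with rfl | rfl
    · exact ⟨b, by simp, hab.symm⟩
    · exact ⟨a, by simp, hab⟩
  have h1 : oe ve e v = h.choose := by
    unfold oe
    rw [dif_pos h]
  have h3 := h.choose_spec
  rw [← h1] at h3
  refine ⟨?_, h3.2, h3.1⟩
  symm
  apply Finset.eq_of_subset_of_card_le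
  · intro u hu
    rw [Finset.mem_insert, Finset.mem_singleton] at hu
    rcases hu with rfl | rfl
    · exact hv
    · exact h3.1
  · rw [h2 e, Finset.card_pair h3.2.symm]

lemma one_le_Z (ve : E → Finset V) {lam : E → ℝ} (hl : ∀ e, 0 ≤ lam e) (F : Finset E) (W : Finset V) :
    1 ≤ Z ve lam F W := by
  have h0 : (∅ : Finset E) ∈ MS ve F W := by
    rw [MS_mem]
    refine ⟨Finset.empty_subset _, ?_, ?_⟩
    · intro e he
      exact absurd he (Finset.notMem_empty e)
    · intro e he
      exact absurd he (Finset.notMem_empty e)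
  have := Finset.single_le_sum (f := fun M => ∏ e ∈ M, lam e)
    (fun M _ => Finset.prod_nonneg (fun e _ => hl e)) h0
  simpa [Z] using this

lemma Z_mono (ve : E → Finset V) {lam : E → ℝ} (hl : ∀ e, 0 ≤ lam e) (F : Finset E)
    {W W' : Finset V} (h : W ⊆ W') : Z ve lam F W' ≤ Z ve lam F W := by
  unfold Z
  apply Finset.sum_le_sum_of_subset_of_nonneg
  · intro M hM
    rw [MS_mem] at hM ⊢
    exact ⟨hM.1, hM.2.1, fun e he => Finset.disjoint_of_subset_right h (hM.2.2 e he)⟩
  · intro M _ _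
    exact Finset.prod_nonneg (fun e _ => hl e)

/-- `Z` only depends on the edges of `F` avoiding `W` and their activities. -/
lemma Z_congr (ve : E → Finset V) {lam lam' : E → ℝ} {F F' : Finset E} {W W' : Finset V}
    (h : ∀ e, (e ∈ F ∧ Disjoint (ve e) W) ↔ (e ∈ F' ∧ Disjoint (ve e) W'))
    (hl : ∀ e ∈ F, Disjoint (ve e) W → lam e = lam' e) : Z ve lam F W = Z ve lam' F' W' := by
  unfold Z
  apply Finset.sum_congr
  · ext M
    rw [MS_mem, MS_mem]
    constructor
    · rintro ⟨h1, h3, h4⟩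
      exact ⟨fun e he => ((h e).mp ⟨h1 he, h4 e he⟩).1, h3,
        fun e he => ((h e).mp ⟨h1 he, h4 e he⟩).2⟩
    · rintro ⟨h1, h3, h4⟩
      exact ⟨fun e he => ((h e).mpr ⟨h1 he, h4 e he⟩).1, h3,
        fun e he => ((h e).mpr ⟨h1 he, h4 e he⟩).2⟩
  · intro M hM
    rw [MS_mem] at hM
    apply Finset.prod_congr rfl
    intro e he
    have h5 := (h e).mpr ⟨hM.1 he, hM.2.2 e he⟩
    exact hl e h5.1 h5.2

/-- general bijection: matchings containing `e` -/
lemma HC_gen {ve : E → Finset V} (h2 : ∀ e, (ve e).card = 2) (lam : E → ℝ) {F : Finset E}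
    {W : Finset V} {e : E} (he : e ∈ F) (hd : Disjoint (ve e) W) (A : Finset E → Prop) :
    ∑ M ∈ (MS ve F W).filter (fun M => e ∈ M ∧ A (M.erase e)), ∏ f ∈ M, lam f =
      lam e * ∑ M ∈ (MS ve F (W ∪ ve e)).filter A, ∏ f ∈ M, lam f := by
  have hne : ∀ f, ¬ Disjoint (ve f) (ve f) := by
    intro f hf
    rw [disjoint_self, Finset.bot_eq_empty] at hf
    have := h2 f
    rw [hf] at this
    simp at this
  rw [Finset.mul_sum]
  refine Finset.sum_bij' (fun M _ => M.erase e) (fun M _ => insert e M) ?_ ?_ ?_ ?_ ?_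
  · intro M hM
    rw [Finset.mem_filter, MS_mem] at hM ⊢
    obtain ⟨⟨h1, h3, h4⟩, h5, h6⟩ := hM
    refine ⟨⟨(Finset.erase_subset _ _).trans h1, ?_, ?_⟩, h6⟩
    · intro f hf g hg hfg
      exact h3 f (Finset.mem_of_mem_erase hf) g (Finset.mem_of_mem_erase hg) hfg
    · intro f hf
      rw [Finset.disjoint_union_right]
      exact ⟨h4 f (Finset.mem_of_mem_erase hf),
        h3 f (Finset.mem_of_mem_erase hf) e h5 (Finset.ne_of_mem_erase hf)⟩
  · intro M hM
    rw [Finset.mem_filter, MS_mem] at hM ⊢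
    obtain ⟨⟨h1, h3, h4⟩, h6⟩ := hM
    have heM : e ∉ M := by
      intro h
      have := h4 e h
      rw [Finset.disjoint_union_right] at this
      exact hne e this.2
    refine ⟨⟨?_, ?_, ?_⟩, Finset.mem_insert_self _ _, ?_⟩
    · intro f hf
      rw [Finset.mem_insert] at hf
      rcases hf with rfl | hf
      · exact he
      · exact h1 hf
    · intro f hf g hg hfg
      rw [Finset.mem_insert] at hf hg
      rcases hf with rfl | hf
      · rcases hg with rfl | hg
        · exact absurd rfl hfg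
        · have := h4 g hg
          rw [Finset.disjoint_union_right] at this
          exact this.2.symm
      · rcases hg with rfl | hg
        · have := h4 f hf
          rw [Finset.disjoint_union_right] at this
          exact this.2
        · exact h3 f hf g hg hfg
    · intro f hf
      rw [Finset.mem_insert] at hf
      rcases hf with rfl | hf
      · exact hd
      · have := h4 f hf
        rw [Finset.disjoint_union_right] at this
        exact this.1
    · rw [Finset.erase_insert heM]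
      exact h6
  · intro M hM
    rw [Finset.mem_filter] at hM
    exact Finset.insert_erase hM.2.1
  · intro M hM
    rw [Finset.mem_filter, MS_mem] at hM
    apply Finset.erase_insert
    intro h
    have := hM.1.2.2 e h
    rw [Finset.disjoint_union_right] at this
    exact hne e this.2
  · intro M hM
    rw [Finset.mem_filter] at hM
    exact (Finset.mul_prod_erase M lam hM.2.1).symm

/-- the matchings containing `e` -/
lemma sum_mem {ve : E → Finset V} (h2 : ∀ e, (ve e).card = 2) (lam : E → ℝ) {F : Finset E}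
    {W : Finset V} {e : E} (he : e ∈ F) (hd : Disjoint (ve e) W) :
    ∑ M ∈ (MS ve F W).filter (fun M => e ∈ M), ∏ f ∈ M, lam f = lam e * Z ve lam F (W ∪ ve e) := by
  have h := HC_gen h2 lam he hd (fun _ => True)
  unfold Z
  rw [Finset.filter_true] at h
  rw [← h]
  apply Finset.sum_congr _ (fun _ _ => rfl)
  ext M
  simp only [Finset.mem_filter, and_true]

/-- recursion at a vertex -/
lemma Z_rec {ve : E → Finset V} (h2 : ∀ e, (ve e).card = 2) (lam : E → ℝ) (F : Finset E)
    {W : Finset V} {v : V} (_hv : v ∉ W) :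
    Z ve lam F W = Z ve lam F (insert v W) + ∑ e ∈ ed ve F W v, lam e * Z ve lam F (W ∪ ve e) := by
  have h1 : ∑ e ∈ ed ve F W v, lam e * Z ve lam F (W ∪ ve e) =
      ∑ e ∈ ed ve F W v, ∑ M ∈ (MS ve F W).filter (fun M => e ∈ M), ∏ f ∈ M, lam f := by
    apply Finset.sum_congr rfl
    intro e he
    unfold ed at he
    rw [Finset.mem_filter] at he
    rw [sum_mem h2 lam he.1 he.2.2]
  have h3 : Z ve lam F (insert v W) =
      ∑ M ∈ (MS ve F W).filter (fun M => ∀ e ∈ M, v ∉ ve e), ∏ f ∈ M, lam f := by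
    unfold Z
    apply Finset.sum_congr _ (fun _ _ => rfl)
    ext M
    simp only [Finset.mem_filter, MS_mem, Finset.disjoint_insert_right]
    constructor
    · rintro ⟨a, b, c⟩
      exact ⟨⟨a, b, fun e he => (c e he).2⟩, fun e he => (c e he).1⟩
    · rintro ⟨⟨a, b, c⟩, d⟩
      exact ⟨a, b, fun e he => ⟨d e he, c e he⟩⟩
  have h4 : ∑ e ∈ ed ve F W v, ∑ M ∈ (MS ve F W).filter (fun M => e ∈ M), ∏ f ∈ M, lam f =
      ∑ M ∈ (MS ve F W).filter (fun M => ¬ ∀ e ∈ M, v ∉ ve e), ∏ f ∈ M, lam f := by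
    have : ∀ e, ∑ M ∈ (MS ve F W).filter (fun M => e ∈ M), ∏ f ∈ M, lam f =
        ∑ M ∈ MS ve F W, (if e ∈ M then ∏ f ∈ M, lam f else 0) := fun e => by
      rw [Finset.sum_filter]
    simp only [this]
    rw [Finset.sum_comm, Finset.sum_filter]
    apply Finset.sum_congr rfl
    intro M hM
    rw [MS_mem] at hM
    obtain ⟨a, b, c⟩ := hM
    by_cases h : ∀ e ∈ M, v ∉ ve e
    · rw [if_neg (not_not.mpr h)]
      apply Finset.sum_eq_zero
      intro e he
      unfold ed at he
      rw [Finset.mem_filter] at he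
      rw [if_neg (fun hM => h e hM he.2.1)]
    · rw [if_pos h]
      push Not at h
      obtain ⟨e, heM, hve⟩ := h
      rw [Finset.sum_eq_single e]
      · rw [if_pos heM]
      · intro f hf hfe
        unfold ed at hf
        rw [Finset.mem_filter] at hf
        rw [if_neg]
        intro hfM
        exact (Finset.disjoint_left.mp (b f hfM e heM hfe)) hf.2.1 hve
      · intro hn
        exfalso
        apply hn
        unfold ed
        rw [Finset.mem_filter]
        exact ⟨a heM, hve, c e heM⟩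
  rw [h1, h4, h3]
  unfold Z
  rw [Finset.sum_filter_add_sum_filter_not]

lemma fr_pos (ve : E → Finset V) {lam : E → ℝ} (hl : ∀ e, 0 ≤ lam e) (F : Finset E)
    (W S : Finset V) : 0 < fr ve lam F W S := by
  unfold fr
  have h1 := one_le_Z ve hl F W
  have h2 := one_le_Z ve hl F (W ∪ S)
  apply div_pos <;> linarith

lemma fr_le_one (ve : E → Finset V) {lam : E → ℝ} (hl : ∀ e, 0 ≤ lam e) (F : Finset E)
    (W S : Finset V) : fr ve lam F W S ≤ 1 := by
  unfold fr
  have h1 := one_le_Z ve hl F W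
  rw [div_le_one (by linarith)]
  exact Z_mono ve hl F Finset.subset_union_left

lemma fr_union (ve : E → Finset V) {lam : E → ℝ} (hl : ∀ e, 0 ≤ lam e) (F : Finset E)
    (W S S' : Finset V) : fr ve lam F W (S ∪ S') = fr ve lam F W S * fr ve lam F (W ∪ S) S' := by
  unfold fr
  have h1 := one_le_Z ve hl F W
  have h2 := one_le_Z ve hl F (W ∪ S)
  rw [← Finset.union_assoc]
  field_simp

/-- recursion for the probability to be free -/
lemma fr_rec {ve : E → Finset V} (h2 : ∀ e, (ve e).card = 2) {lam : E → ℝ} (hl : ∀ e, 0 ≤ lam e)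
    (F : Finset E) {W : Finset V} {v : V} (hv : v ∉ W) :
    fr ve lam F W {v} =
      1 / (1 + ∑ e ∈ ed ve F W v, lam e * fr ve lam F (insert v W) {oe ve e v}) := by
  have h1 := one_le_Z ve hl F W
  have h3 := one_le_Z ve hl F (insert v W)
  have h4 : W ∪ {v} = insert v W := by
    rw [Finset.union_comm, ← Finset.insert_eq]
  have h5 : ∑ e ∈ ed ve F W v, lam e * fr ve lam F (insert v W) {oe ve e v} =
      (∑ e ∈ ed ve F W v, lam e * Z ve lam F (W ∪ ve e)) / Z ve lam F (insert v W) := by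
    rw [Finset.sum_div]
    apply Finset.sum_congr rfl
    intro e he
    unfold ed at he
    rw [Finset.mem_filter] at he
    obtain ⟨h6, _, _⟩ := oe_spec h2 he.2.1
    have h7 : insert v W ∪ {oe ve e v} = W ∪ ve e := by
      conv_rhs => rw [h6]
      ext u
      simp only [Finset.mem_union, Finset.mem_insert, Finset.mem_singleton]
      tauto
    unfold fr
    rw [h7, mul_div_assoc]
  rw [h5]
  have h6 := Z_rec h2 lam F hv
  unfold fr
  rw [h4]
  have h7 : 1 + (∑ e ∈ ed ve F W v, lam e * Z ve lam F (W ∪ ve e)) / Z ve lam F (insert v W) =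
      Z ve lam F W / Z ve lam F (insert v W) := by
    rw [h6]
    field_simp
  rw [h7, one_div_div]

/-- probability to be matched -/
lemma fr_sum {ve : E → Finset V} (h2 : ∀ e, (ve e).card = 2) {lam : E → ℝ} (hl : ∀ e, 0 ≤ lam e)
    (F : Finset E) {W : Finset V} {v : V} (hv : v ∉ W) :
    fr ve lam F W {v} + ∑ e ∈ ed ve F W v, lam e * fr ve lam F W (ve e) = 1 := by
  have h1 := one_le_Z ve hl F W
  have h4 : W ∪ {v} = insert v W := by
    rw [Finset.union_comm, ← Finset.insert_eq]
  unfold fr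
  rw [h4]
  have h5 : ∑ e ∈ ed ve F W v, lam e * (Z ve lam F (W ∪ ve e) / Z ve lam F W) =
      (∑ e ∈ ed ve F W v, lam e * Z ve lam F (W ∪ ve e)) / Z ve lam F W := by
    rw [Finset.sum_div]
    apply Finset.sum_congr rfl
    intro e _
    rw [mul_div_assoc]
  rw [h5, ← add_div, ← Z_rec h2 lam F hv]
  exact div_self (by linarith)

lemma HC_ed_sum {ve : E → Finset V} {lam : E → ℝ} (hl : ∀ e, 0 ≤ lam e)
    {F : Finset E} {Λ : ℝ} (hs : ∀ v, ∑ e ∈ F.filter (fun e => v ∈ ve e), lam e ≤ Λ)
    (W : Finset V) (v : V) (φ : E → ℝ) (hφ : ∀ e, φ e ≤ 1) :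
    ∑ e ∈ ed ve F W v, lam e * φ e ≤ Λ := by
  refine le_trans ?_ (hs v)
  have : ∑ e ∈ ed ve F W v, lam e * φ e ≤ ∑ e ∈ ed ve F W v, lam e := by
    apply Finset.sum_le_sum
    intro e _
    nlinarith [hl e, hφ e]
  refine this.trans ?_
  apply Finset.sum_le_sum_of_subset_of_nonneg
  · intro e he
    unfold ed at he
    rw [Finset.mem_filter] at he ⊢
    exact ⟨he.1, he.2.1⟩
  · intro e _ _
    exact hl e

lemma fr_ge {ve : E → Finset V} (h2 : ∀ e, (ve e).card = 2) {lam : E → ℝ} (hl : ∀ e, 0 ≤ lam e)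
    {F : Finset E} {Λ : ℝ} (hs : ∀ v, ∑ e ∈ F.filter (fun e => v ∈ ve e), lam e ≤ Λ)
    (W : Finset V) (v : V) : 1 / (1 + Λ) ≤ fr ve lam F W {v} := by
  have hΛ : 0 ≤ Λ := le_trans (Finset.sum_nonneg (fun e _ => hl e)) (hs v)
  by_cases hv : v ∈ W
  · have : fr ve lam F W {v} = 1 := by
      unfold fr
      have h4 : W ∪ {v} = W := by
        rw [Finset.union_comm, ← Finset.insert_eq, Finset.insert_eq_of_mem hv]
      rw [h4]
      exact div_self (by linarith [one_le_Z ve hl F W])
    rw [this, div_le_one (by linarith)]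
    linarith
  · rw [fr_rec h2 hl F hv]
    apply one_div_le_one_div_of_le
    · have : 0 ≤ ∑ e ∈ ed ve F W v, lam e * fr ve lam F (insert v W) {oe ve e v} :=
        Finset.sum_nonneg (fun e _ => mul_nonneg (hl e) (fr_pos ve hl F _ _).le)
      linarith
    · have := HC_ed_sum hl hs W v (fun e => fr ve lam F (insert v W) {oe ve e v})
        (fun e => fr_le_one ve hl F _ _)
      linarith

lemma HC_T_nonneg {ve : E → Finset V} {lam : E → ℝ} (hl : ∀ e, 0 ≤ lam e)
    (F : Finset E) (k : ℕ) : ∀ (W : Finset V) (v : V), 0 ≤ T ve lam F k W v := by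
  induction k with
  | zero => intro W v; simp [T]
  | succ k ih =>
    intro W v
    simp only [T]
    apply div_nonneg zero_le_one
    have : 0 ≤ ∑ e ∈ ed ve F W v, lam e * T ve lam F k (insert v W) (oe ve e v) :=
      Finset.sum_nonneg (fun e _ => mul_nonneg (hl e) (ih _ _))
    linarith

lemma T_le_one {ve : E → Finset V} {lam : E → ℝ} (hl : ∀ e, 0 ≤ lam e)
    (F : Finset E) (k : ℕ) (W : Finset V) (v : V) : T ve lam F k W v ≤ 1 := by
  cases k with
  | zero => simp [T]
  | succ k =>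
    simp only [T]
    have : 0 ≤ ∑ e ∈ ed ve F W v, lam e * T ve lam F k (insert v W) (oe ve e v) :=
      Finset.sum_nonneg (fun e _ => mul_nonneg (hl e) (HC_T_nonneg hl F k _ _))
    rw [div_le_one (by linarith)]
    linarith

lemma T_ge {ve : E → Finset V} {lam : E → ℝ} (hl : ∀ e, 0 ≤ lam e)
    {F : Finset E} {Λ : ℝ} (hs : ∀ v, ∑ e ∈ F.filter (fun e => v ∈ ve e), lam e ≤ Λ) (hΛ : 0 ≤ Λ)
    (k : ℕ) (W : Finset V) (v : V) : 1 / (1 + Λ) ≤ T ve lam F k W v := by
  cases k with
  | zero =>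
    simp only [T]
    rw [div_le_one (by linarith)]
    linarith
  | succ k =>
    simp only [T]
    apply one_div_le_one_div_of_le
    · have : 0 ≤ ∑ e ∈ ed ve F W v, lam e * T ve lam F k (insert v W) (oe ve e v) :=
        Finset.sum_nonneg (fun e _ => mul_nonneg (hl e) (HC_T_nonneg hl F k _ _))
      linarith
    · have := HC_ed_sum hl hs W v (fun e => T ve lam F k (insert v W) (oe ve e v))
        (fun e => T_le_one hl F k _ _)
      linarith

/-- if `v` is free the rest is the model without `v`: the weight of the matchings which avoid `S`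
and contain `e` -/
lemma sum_mem_avoid {ve : E → Finset V} (h2 : ∀ e, (ve e).card = 2) (lam : E → ℝ) {F : Finset E}
    {W S : Finset V} {e : E} (he : e ∈ F) (hd : Disjoint (ve e) W) (hS : Disjoint (ve e) S) :
    ∑ M ∈ (MS ve F W).filter (fun M => e ∈ M ∧ ∀ f ∈ M, Disjoint (ve f) S), ∏ f ∈ M, lam f =
      lam e * Z ve lam F (W ∪ S ∪ ve e) := by
  have h := HC_gen h2 lam he hd (fun M => ∀ f ∈ M, Disjoint (ve f) S)
  refine Eq.trans ?_ (h.trans ?_)
  · apply Finset.sum_congr _ (fun _ _ => rfl)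
    ext M
    simp only [Finset.mem_filter]
    constructor
    · rintro ⟨a, b, c⟩
      exact ⟨a, b, fun f hf => c f (Finset.mem_of_mem_erase hf)⟩
    · rintro ⟨a, b, c⟩
      refine ⟨a, b, fun f hf => ?_⟩
      by_cases hfe : f = e
      · rw [hfe]; exact hS
      · exact c f (Finset.mem_erase.mpr ⟨hfe, hf⟩)
  congr 1
  unfold Z
  apply Finset.sum_congr _ (fun _ _ => rfl)
  ext M
  simp only [Finset.mem_filter, MS_mem, Finset.disjoint_union_right]
  constructor
  · rintro ⟨⟨a, b, c⟩, d⟩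
    exact ⟨a, b, fun f hf => ⟨⟨(c f hf).1, d f hf⟩, (c f hf).2⟩⟩
  · rintro ⟨a, b, c⟩
    exact ⟨⟨a, b, fun f hf => ⟨(c f hf).1.1, (c f hf).2⟩⟩, fun f hf => (c f hf).1.2⟩

end Pool.Agent.KH
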