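import Pool.Agent.Lib.MP_30840b_co_h61.Prb

set_option autoImplicit false

open Finset Classical

namespace Pool.Agent.KH

variable {ι κ : Type} [Fintype ι] [Fintype κ]

/-- convexity of the exponential on `[-1, 1]` -/
lemma Hoeff_exp_le (u y : ℝ) (h0 : -1 ≤ y) (h1 : y ≤ 1) :
    Real.exp (u * y) ≤ Real.cosh u + y * Real.sinh u := by
  have hc := convexOn_exp.2 (Set.mem_univ u) (Set.mem_univ (-u))
    (show (0 : ℝ) ≤ (1 + y) / 2 by linarith) (show (0 : ℝ) ≤ (1 - y) / 2 by linarith) (by ring)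
  simp only [smul_eq_mul] at hc
  have e1 : (1 + y) / 2 * u + (1 - y) / 2 * -u = u * y := by ring
  rw [e1] at hc
  rw [Real.cosh_eq, Real.sinh_eq]
  refine hc.trans (le_of_eq ?_)
  ring

/-- Hoeffding's lemma with a crude constant -/
lemma Hoeff_mgf (q : κ → ℝ) (hq : ∀ k, 0 ≤ q k) (hq1 : ∑ k, q k = 1) (Y : κ → ℝ)
    (h0 : ∀ k, 0 ≤ Y k) (h1 : ∀ k, Y k ≤ 1) (u : ℝ) :
    ∑ k, q k * Real.exp (u * ((∑ l, q l * Y l) - Y k)) ≤ Real.exp (u ^ 2 / 2) := by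
  set m := ∑ l, q l * Y l with hm
  have hm0 : 0 ≤ m := Finset.sum_nonneg fun l _ => mul_nonneg (hq l) (h0 l)
  have hm1 : m ≤ 1 := by
    calc m ≤ ∑ l, q l * 1 := Finset.sum_le_sum fun l _ => mul_le_mul_of_nonneg_left (h1 l) (hq l)
      _ = 1 := by simp [hq1]
  calc ∑ k, q k * Real.exp (u * (m - Y k))
      ≤ ∑ k, q k * (Real.cosh u + (m - Y k) * Real.sinh u) := by
        refine Finset.sum_le_sum fun k _ => mul_le_mul_of_nonneg_left ?_ (hq k)
        exact Hoeff_exp_le u _ (by linarith [h1 k]) (by linarith [h0 k])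
    _ = Real.cosh u := by
        have e1 : ∀ k, q k * (Real.cosh u + (m - Y k) * Real.sinh u) =
            (Real.cosh u + m * Real.sinh u) * q k - Real.sinh u * (q k * Y k) := fun k => by ring
        rw [Finset.sum_congr rfl fun k _ => e1 k, Finset.sum_sub_distrib, ← Finset.mul_sum,
          ← Finset.mul_sum, hq1, ← hm]
        ring
    _ ≤ Real.exp (u ^ 2 / 2) := Real.cosh_le_exp_half_sq u

/-- Hoeffding's inequality, lower tail, for independent variables in `[0,1]` -/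
theorem hoeff {p : ι → κ → ℝ} (hp : IsLaw p) (S : Finset ι) (Y : ι → κ → ℝ)
    (h0 : ∀ i k, 0 ≤ Y i k) (h1 : ∀ i k, Y i k ≤ 1) {s n : ℝ} (hs : 0 ≤ s) (hn : 0 < n)
    (hS : (S.card : ℝ) ≤ n) :
    Pb p (fun ω => ∑ i ∈ S, Y i (ω i) ≤ (∑ i ∈ S, ∑ k, p i k * Y i k) - s) ≤
      Real.exp (-(s ^ 2 / (2 * n))) := by
  have hu : 0 ≤ s / n := div_nonneg hs hn.le
  have e1 : Pb p (fun ω => ∑ i ∈ S, Y i (ω i) ≤ (∑ i ∈ S, ∑ k, p i k * Y i k) - s) ≤
      Pb p (fun ω => s ≤ ∑ i ∈ S, ((∑ k, p i k * Y i k) - Y i (ω i))) := by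
    refine Pb_mono hp fun ω _ h => ?_
    rw [Finset.sum_sub_distrib]
    linarith
  refine e1.trans ((Pb_exp hp _ s hu).trans ?_)
  have e2 : Ex p (fun ω => Real.exp (s / n * ∑ i ∈ S, ((∑ k, p i k * Y i k) - Y i (ω i)))) =
      ∏ i ∈ S, ∑ k, p i k * Real.exp (s / n * ((∑ l, p i l * Y i l) - Y i k)) := by
    rw [← Ex_prod p hp S (fun i k => Real.exp (s / n * ((∑ l, p i l * Y i l) - Y i k)))]
    refine Ex_congr fun ω _ => ?_
    rw [Finset.mul_sum, Real.exp_sum]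
  rw [e2]
  have e3 : ∏ i ∈ S, ∑ k, p i k * Real.exp (s / n * ((∑ l, p i l * Y i l) - Y i k)) ≤
      ∏ _i ∈ S, Real.exp ((s / n) ^ 2 / 2) := by
    refine Finset.prod_le_prod (fun i _ => ?_) fun i _ => ?_
    · exact Finset.sum_nonneg fun k _ => mul_nonneg ((hp i).1 k) (Real.exp_pos _).le
    · exact Hoeff_mgf (p i) (hp i).1 (hp i).2 (Y i) (h0 i) (h1 i) _
  refine (mul_le_mul_of_nonneg_left e3 (Real.exp_pos _).le).trans ?_
  rw [Finset.prod_const, ← Real.exp_nat_mul, ← Real.exp_add]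
  refine Real.exp_le_exp.2 ?_
  have e4 : (S.card : ℝ) * ((s / n) ^ 2 / 2) ≤ n * ((s / n) ^ 2 / 2) :=
    mul_le_mul_of_nonneg_right hS (by positivity)
  have e5 : n * ((s / n) ^ 2 / 2) = s ^ 2 / (2 * n) := by
    field_simp
  have e6 : s / n * s = 2 * (s ^ 2 / (2 * n)) := by
    field_simp
  linarith

end Pool.Agent.KH
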