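import Pool.Agent.Lib.MP_30840b_co_h61.Stage

set_option autoImplicit false

open Finset Classical

namespace Pool.Agent.KH

/-- the state after `n` stages -/
def St {V E C : Type} [Fintype V] [Fintype E] [Fintype C] (ve : E → Finset V) (lam : E → ℝ)
    (L : E → Finset C) (θ β : ℝ) (D : ℕ) (n : ℕ) (G : Finset E) (U : C → Finset V)
    (col : E → C) : Prop :=
  (∀ e, e ∉ G → col e ∈ L e ∧ ve e ⊆ U (col e)) ∧
  (∀ e f, e ∉ G → f ∉ G → e ≠ f → ¬ Disjoint (ve e) (ve f) → col e ≠ col f) ∧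
  (∀ e ∈ G, (1 - β) ^ n * Q ve lam L univ (fun _ => ∅) e ≤ Q ve lam L G U e) ∧
  ∀ v, (dg ve G v : ℝ) ≤ ((1 - θ) ^ n + n * β) * D

lemma IterA_Q_nonneg {V E C : Type} [Fintype V] [Fintype E] [Fintype C] (ve : E → Finset V)
    {lam : E → ℝ} (hl : ∀ e, 0 ≤ lam e) (L : E → Finset C) (G : Finset E) (U : C → Finset V)
    (e : E) : 0 ≤ Q ve lam L G U e :=
  sum_nonneg fun c _ => (fr_pos ve hl _ _ _).le

/-- `n` stages -/
theorem iterate (Λ β : ℝ) (hΛ : 1 ≤ Λ) (hβ : 0 < β) (hβ1 : β ≤ 1) :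
    ∃ D₀ : ℕ, ∀ {V E C : Type} [Fintype V] [Fintype E] [Fintype C] [Nonempty C]
      (ve : E → Finset V) (lam : E → ℝ) (L : E → Finset C) (σ θ : ℝ) (D N : ℕ),
      D₀ ≤ D → (∀ e, (ve e).card = 2) → (∀ v, dg ve univ v ≤ D) → (∀ e, 0 < lam e) →
      (∀ e, lam e ≤ Λ / D) → (∀ e, (L e).card ≤ 2 * D) → 0 < σ → σ ≤ 1 → 0 < θ → θ ≤ σ / 8 →
      (∀ e, 1 + σ ≤ lam e * ((1 - β) ^ N * Q ve lam L univ (fun _ => ∅) e)) →
      ∀ n ≤ N, ∃ (G : Finset E) (U : C → Finset V) (col : E → C), St ve lam L θ β D n G U col := by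
  obtain ⟨D₀, hst⟩ := stage Λ β hΛ hβ hβ1
  refine ⟨D₀, ?_⟩
  intro V E C _ _ _ _ ve lam L σ θ D N hD h2 hd hl0 hl1 hL hσ hσ1 hθ hθσ hQ n
  have hl : ∀ e, 0 ≤ lam e := fun e => (hl0 e).le
  induction n with
  | zero =>
    intro _
    refine ⟨univ, fun _ => ∅, fun _ => Classical.arbitrary C, ?_, ?_, ?_, ?_⟩
    · exact fun e he => absurd (mem_univ e) he
    · exact fun e f he => absurd (mem_univ e) he
    · intro e _
      rw [pow_zero, one_mul]
    · intro v
      rw [pow_zero, Nat.cast_zero, zero_mul, add_zero, one_mul]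
      exact_mod_cast hd v
  | succ n ih =>
    intro hn
    obtain ⟨G, U, col, s1, s2, s3, s4⟩ := ih (by omega)
    have h0 : 0 ≤ 1 - β := by linarith
    have h1 : 1 - β ≤ 1 := by linarith
    have hθ1 : θ ≤ 1 := by linarith
    obtain ⟨G', U', col', g1, g2, g3, g4, g5, g6⟩ := hst ve lam L G U σ θ D hD h2 hd hl0 hl1 hL hσ
      hσ1 hθ hθσ (by
        intro e he
        refine (hQ e).trans (mul_le_mul_of_nonneg_left ?_ (hl e))
        refine le_trans (mul_le_mul_of_nonneg_right ?_ (IterA_Q_nonneg ve hl _ _ _ _)) (s3 e he)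
        exact pow_le_pow_of_le_one h0 h1 (by omega))
    refine ⟨G', U', fun e => if e ∈ G then col' e else col e, ?_, ?_, ?_, ?_⟩
    · intro e he
      by_cases heG : e ∈ G
      · have h3 := g3 e (mem_sdiff.2 ⟨heG, he⟩)
        simp only [if_pos heG]
        exact ⟨h3.1, h3.2.2⟩
      · have h3 := s1 e heG
        simp only [if_neg heG]
        exact ⟨h3.1, h3.2.trans (g2 _)⟩
    · intro e f he hf hef hnd
      have key : ∀ e f, e ∈ G → e ∉ G' → f ∉ G → ¬ Disjoint (ve e) (ve f) → col' e ≠ col f := by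
        intro e f he he' hf hnd hc
        have h3 := (g3 e (mem_sdiff.2 ⟨he, he'⟩)).2.1
        have h4 := (s1 f hf).2
        rw [← hc] at h4
        exact hnd (Finset.disjoint_of_subset_right h4 h3)
      by_cases heG : e ∈ G <;> by_cases hfG : f ∈ G
      · simp only [if_pos heG, if_pos hfG]
        exact g4 e (mem_sdiff.2 ⟨heG, he⟩) f (mem_sdiff.2 ⟨hfG, hf⟩) hef hnd
      · simp only [if_pos heG, if_neg hfG]
        exact key e f heG he hfG hnd
      · simp only [if_neg heG, if_pos hfG]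
        exact (key f e hfG hf heG fun h => hnd h.symm).symm
      · simp only [if_neg heG, if_neg hfG]
        exact s2 e f heG hfG hef hnd
    · intro e he
      have h3 := mul_le_mul_of_nonneg_left (s3 e (g1 he)) h0
      rw [pow_succ', mul_assoc]
      exact h3.trans (g5 e he)
    · intro v
      have hD0 : (0 : ℝ) ≤ D := Nat.cast_nonneg _
      refine (g6 v).trans ?_
      have h3 := mul_le_mul_of_nonneg_left (s4 v) (by linarith : (0 : ℝ) ≤ 1 - θ)
      have h4 : (1 - θ) * (((1 - θ) ^ n + n * β) * D) + β * D ≤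
          ((1 - θ) ^ (n + 1) + ((n + 1 : ℕ) : ℝ) * β) * D := by
        have h5 : 0 ≤ θ * (n * β) * D := by positivity
        push_cast
        rw [pow_succ']
        nlinarith
      linarith

end Pool.Agent.KH
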