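import Pool.Agent.Lib.MP_30840b_co_h61.IterA
import Pool.Agent.Lib.MP_30840b_co_h61.Exi
import Pool.Agent.Lib.MP_30840b_co_h61.Grd

set_option autoImplicit false

open Finset Classical

namespace Pool.Agent.KH

/-- Part I: without heavy triangles lists of size `3D/2 - 3` suffice for the edges. -/
theorem part1 (ε : ℝ) (hε : 0 < ε) (hε1 : ε ≤ 1 / 20) :
    ∃ D₀ : ℕ, ∀ {V E C : Type} [Fintype V] [Fintype E] [Fintype C] [Nonempty C]
      (ve : E → Finset V) (L : E → Finset C) (D : ℕ), D₀ ≤ D →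
      (∀ e, (ve e).card = 2) → (∀ v, dg ve univ v ≤ D) →
      (∀ S : Finset V, S.card = 3 →
        ((univ.filter (fun e => ve e ⊆ S)).card : ℝ) ≤ (3 / 2 - ε) * D) →
      (∀ e, 3 * D ≤ 2 * (L e).card + 6) →
      ∃ col : E → C, (∀ e, col e ∈ L e) ∧
        ∀ e f, e ≠ f → ¬ Disjoint (ve e) (ve f) → col e ≠ col f := by
  obtain ⟨η, hη, hex⟩ := exists_lam ε hε hε1
  set Λ : ℝ := max 1 (1 / η) with hΛdef
  have hΛ1 : 1 ≤ Λ := le_max_left _ _
  have hΛη : 1 / η ≤ Λ := le_max_right _ _
  set θ : ℝ := ε / 64 with hθdef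
  have hθ0 : 0 < θ := by positivity
  have hθ1 : θ < 1 := by rw [hθdef]; linarith
  obtain ⟨N, hN⟩ : ∃ N : ℕ, (1 - θ) ^ N < η / 16 := exists_pow_lt_of_lt_one (by positivity)
    (by linarith)
  set M : ℝ := (N : ℝ) + 1 with hM
  have hM0 : 0 < M := by positivity
  set β : ℝ := min (ε / (16 * M)) (η / (16 * M)) with hβdef
  have hβ0 : 0 < β := lt_min (by positivity) (by positivity)
  have hM1 : 1 ≤ M := by
    rw [hM]
    have : (0 : ℝ) ≤ N := Nat.cast_nonneg _
    linarith
  have hβε : N * β ≤ ε / 16 := by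
    have h1 : β ≤ ε / (16 * M) := min_le_left _ _
    have h2 : M * (ε / (16 * M)) = ε / 16 := by field_simp
    calc (N : ℝ) * β ≤ M * (ε / (16 * M)) := by
          refine mul_le_mul (by rw [hM]; linarith) h1 hβ0.le hM0.le
      _ = ε / 16 := h2
  have hβη : N * β ≤ η / 16 := by
    have h1 : β ≤ η / (16 * M) := min_le_right _ _
    have h2 : M * (η / (16 * M)) = η / 16 := by field_simp
    calc (N : ℝ) * β ≤ M * (η / (16 * M)) := by
          refine mul_le_mul (by rw [hM]; linarith) h1 hβ0.le hM0.le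
      _ = η / 16 := h2
  have hβ1 : β ≤ 1 := by
    have h1 : β ≤ ε / (16 * M) := min_le_left _ _
    have h2 : ε / (16 * M) ≤ 1 := by
      rw [div_le_one (by positivity)]
      linarith
    linarith
  obtain ⟨D₁, hit⟩ := iterate Λ β hΛ1 hβ0 hβ1
  refine ⟨max D₁ (max 6 ⌈24 / ε⌉₊), ?_⟩
  intro V E C _ _ _ _ ve L D hD h2 hd hS hLc
  have hD1 : D₁ ≤ D := le_trans (le_max_left _ _) hD
  have hD6 : 6 ≤ D := le_trans (le_trans (le_max_left _ _) (le_max_right _ _)) hD
  have hDε : 24 / ε ≤ D := (Nat.le_ceil _).trans (by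
    exact_mod_cast le_trans (le_trans (le_max_right _ _) (le_max_right _ _)) hD)
  have hD6' : (6 : ℝ) ≤ D := by exact_mod_cast hD6
  have hD0 : (0 : ℝ) < D := by linarith
  -- truncated lists
  have htr : ∀ e, ∃ L' : Finset C, L' ⊆ L e ∧ L'.card ≤ 2 * D ∧ 3 * D ≤ 2 * L'.card + 6 := by
    intro e
    by_cases h : (L e).card ≤ 2 * D
    · exact ⟨L e, Subset.refl _, h, hLc e⟩
    · obtain ⟨L', h3, h4⟩ := exists_subset_card_eq (show 2 * D ≤ (L e).card by omega)
      exact ⟨L', h3, h4.le, by omega⟩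
  choose L' hL'1 hL'2 hL'3 using htr
  obtain ⟨lam, hlam0, hlam1, hlam2⟩ := hex ve h2 D hD0 (fun v => by exact_mod_cast hd v) hS
  have hl : ∀ e, 0 ≤ lam e := fun e => (hlam0 e).le
  set K : ℝ := (3 / 2 - ε / 2) * D with hK
  have hK0 : 0 < K := by
    rw [hK]
    exact mul_pos (by linarith) hD0
  have hKD : (D : ℝ) ≤ K := by
    rw [hK]
    nlinarith
  have hlamΛ : ∀ e, lam e ≤ Λ / D := by
    intro e
    have h3 := hlam1 e
    have h4 := hlam2 e
    have h5 : lam e * η ≤ 1 / D := by
      refine (mul_le_mul_of_nonneg_left h4 (hl e)).trans ?_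
      rw [h3]
      exact one_div_le_one_div_of_le hD0 hKD
    have h6 : lam e ≤ 1 / D / η := by
      rw [le_div_iff₀ hη]
      exact h5
    refine h6.trans ?_
    have h7 : 1 / (D : ℝ) / η = 1 / η / D := by ring
    rw [h7]
    exact div_le_div_of_nonneg_right hΛη hD0.le
  -- the initial value
  have hav0 : ∀ e, av ve L' (fun _ => ∅) e = L' e := by
    intro e
    unfold av
    exact filter_true_of_mem fun c _ => disjoint_empty_right _
  have hQ0 : ∀ e, Q ve lam L' univ (fun _ => ∅) e = (L' e).card * fr ve lam univ ∅ (ve e) := by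
    intro e
    unfold Q
    rw [hav0, sum_const, nsmul_eq_mul]
  have hcard : ∀ e, (3 * (D : ℝ) - 6) / 2 ≤ (L' e).card := by
    intro e
    have h3 : (3 : ℝ) * D ≤ 2 * (L' e).card + 6 := by exact_mod_cast hL'3 e
    linarith
  have hQ0nn : ∀ e, 0 ≤ Q ve lam L' univ (fun _ => ∅) e := fun e => IterA_Q_nonneg ve hl _ _ _ _
  have hlQ0 : ∀ e, 1 + ε / 4 ≤ lam e * Q ve lam L' univ (fun _ => ∅) e := by
    intro e
    rw [hQ0]
    have h3 : lam e * ((L' e).card * fr ve lam univ ∅ (ve e)) = (L' e).card / K := by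
      have := hlam1 e
      calc lam e * ((L' e).card * fr ve lam univ ∅ (ve e)) =
            (L' e).card * (lam e * fr ve lam univ ∅ (ve e)) := by ring
        _ = (L' e).card * (1 / K) := by rw [this]
        _ = (L' e).card / K := by ring
    rw [h3, le_div_iff₀ hK0]
    refine le_trans ?_ (hcard e)
    have h4 : 24 ≤ ε * D := by
      rw [div_le_iff₀ hε] at hDε
      linarith
    rw [hK]
    nlinarith [mul_pos hε hD0, mul_pos (mul_pos hε hε) hD0]
  have hpowN : 1 - N * β ≤ (1 - β) ^ N := by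
    have := one_add_mul_le_pow (a := -β) (by linarith) N
    have e1 : 1 + (N : ℝ) * -β = 1 - N * β := by ring
    have e2 : 1 + -β = 1 - β := by ring
    rwa [e1, e2] at this
  have hpow2 : (1 : ℝ) / 2 ≤ (1 - β) ^ N := by linarith
  obtain ⟨G, U, col, s1, s2, s3, s4⟩ := hit ve lam L' (ε / 8) θ D N hD1 h2 hd hlam0 hlamΛ hL'2
    (by positivity) (by linarith) hθ0 (by rw [hθdef]; linarith) (by
      intro e
      have h3 := hlQ0 e
      have h4 : lam e * ((1 - β) ^ N * Q ve lam L' univ (fun _ => ∅) e) =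
          (1 - β) ^ N * (lam e * Q ve lam L' univ (fun _ => ∅) e) := by ring
      rw [h4]
      have h5 : (1 - N * β) * (1 + ε / 4) ≤
          (1 - β) ^ N * (lam e * Q ve lam L' univ (fun _ => ∅) e) :=
        mul_le_mul hpowN h3 (by positivity) (by positivity)
      refine le_trans ?_ h5
      have h6 : 0 ≤ (N : ℝ) * β := by positivity
      nlinarith) N le_rfl
  -- the last step
  have hmax : ∀ v, (dg ve G v : ℝ) ≤ η / 8 * D := by
    intro v
    refine (s4 v).trans (mul_le_mul_of_nonneg_right ?_ hD0.le)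
    linarith
  have havc : ∀ e ∈ G, η / 2 * D ≤ ((av ve L' U e).card : ℝ) := by
    intro e he
    have h3 : Q ve lam L' G U e ≤ (av ve L' U e).card := by
      unfold Q
      refine (sum_le_card_nsmul _ _ 1 fun c _ => fr_le_one ve hl _ _ _).trans (le_of_eq ?_)
      rw [nsmul_eq_mul, mul_one]
    refine le_trans ?_ ((s3 e he).trans h3)
    rw [hQ0]
    have h4 : η * ((3 * (D : ℝ) - 6) / 2) ≤ (L' e).card * fr ve lam univ ∅ (ve e) := by
      rw [mul_comm]
      exact mul_le_mul (hcard e) (hlam2 e) hη.le (Nat.cast_nonneg _)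
    have h5 : 1 / 2 * (η * ((3 * (D : ℝ) - 6) / 2)) ≤
        (1 - β) ^ N * ((L' e).card * fr ve lam univ ∅ (ve e)) :=
      mul_le_mul hpow2 h4 (mul_nonneg hη.le (by linarith)) (by positivity)
    refine le_trans ?_ h5
    nlinarith
  obtain ⟨col', c1, c2⟩ := greedy (fun e f => ¬ Disjoint (ve e) (ve f))
    (fun e f h h' => h h'.symm) G (av ve L' U) (by
      intro e he
      have h3 : (G.filter (fun f => f ≠ e ∧ ¬ Disjoint (ve e) (ve f))).card ≤
          ∑ v ∈ ve e, dg ve G v := by
        refine le_trans (card_le_card ?_) card_biUnion_le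
        intro f hf
        rw [mem_filter, Finset.not_disjoint_iff] at hf
        obtain ⟨hf1, -, v, hv1, hv2⟩ := hf
        rw [mem_biUnion]
        exact ⟨v, hv1, mem_filter.2 ⟨hf1, hv2⟩⟩
      have h4 : ((∑ v ∈ ve e, dg ve G v : ℕ) : ℝ) ≤ η / 4 * D := by
        push_cast
        refine (sum_le_card_nsmul _ _ _ fun v _ => hmax v).trans (le_of_eq ?_)
        rw [h2 e, nsmul_eq_mul]
        push_cast
        ring
      have h5 : ((∑ v ∈ ve e, dg ve G v : ℕ) : ℝ) < ((av ve L' U e).card : ℝ) := by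
        have h6 := havc e he
        have h7 : 0 < η * D := mul_pos hη hD0
        nlinarith
      refine lt_of_le_of_lt (le_trans (le_of_eq ?_) h3) (by exact_mod_cast h5)
      congr)
  have key : ∀ e f, e ∈ G → f ∉ G → ¬ Disjoint (ve e) (ve f) → col' e ≠ col f := by
    intro e f he hf hnd hc
    have h3 := c1 e he
    unfold av at h3
    have h4 := (mem_filter.1 h3).2
    have h5 := (s1 f hf).2
    rw [← hc] at h5
    exact hnd (Finset.disjoint_of_subset_right h5 h4)
  refine ⟨fun e => if e ∈ G then col' e else col e, ?_, ?_⟩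
  · intro e
    by_cases he : e ∈ G
    · simp only [if_pos he]
      have h3 := c1 e he
      unfold av at h3
      exact hL'1 e (mem_filter.1 h3).1
    · simp only [if_neg he]
      exact hL'1 e (s1 e he).1
  · intro e f hef hnd
    by_cases he : e ∈ G <;> by_cases hf : f ∈ G
    · simp only [if_pos he, if_pos hf]
      exact c2 e he f hf hef hnd
    · simp only [if_pos he, if_neg hf]
      exact key e f he hf hnd
    · simp only [if_neg he, if_pos hf]
      exact (key f e hf he fun h => hnd h.symm).symm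
    · simp only [if_neg he, if_neg hf]
      exact s2 e f he hf hef hnd

end Pool.Agent.KH
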