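import Mathlib

/-! The lopsided Lovász local lemma on a finite weighted space. -/

set_option autoImplicit false

open Finset Classical

namespace Pool.Agent.KH

theorem lll {Ω I : Type} [Fintype Ω] [Fintype I] (w : Ω → ℝ) (hw : ∀ ω, 0 ≤ w ω)
    (hpos : 0 < ∑ ω, w ω) (B : I → Ω → Prop) (nb : I → Finset I) (p : ℝ) (hp : 0 ≤ p) (d : ℕ)
    (hnb : ∀ i, (nb i).card ≤ d)
    (h : ∀ (i : I) (S : Finset I), (∀ j ∈ S, j ∉ nb i) →
      ∑ ω ∈ univ.filter (fun ω => B i ω ∧ ∀ j ∈ S, ¬ B j ω), w ω ≤
        p * ∑ ω ∈ univ.filter (fun ω => ∀ j ∈ S, ¬ B j ω), w ω)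
    (hpd : 4 * p * (d + 1) ≤ 1) : ∃ ω, 0 < w ω ∧ ∀ i, ¬ B i ω := by
  obtain ⟨m, hm⟩ : ∃ m : Finset I → ℝ, m = fun S =>
    ∑ ω ∈ univ.filter (fun ω => ∀ j ∈ S, ¬ B j ω), w ω := ⟨_, rfl⟩
  obtain ⟨b, hb⟩ : ∃ b : I → Finset I → ℝ, b = fun i S =>
    ∑ ω ∈ univ.filter (fun ω => B i ω ∧ ∀ j ∈ S, ¬ B j ω), w ω := ⟨_, rfl⟩
  have h' : ∀ (i : I) (S : Finset I), (∀ j ∈ S, j ∉ nb i) → b i S ≤ p * m S := by
    rw [hm, hb]
    exact h
  have hm0 : ∀ S, 0 ≤ m S := by
    intro S
    rw [hm]
    exact sum_nonneg fun ω _ => hw ω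
  have hmono : ∀ i (S T : Finset I), S ⊆ T → b i T ≤ b i S := by
    intro i S T hST
    rw [hb]
    refine sum_le_sum_of_subset_of_nonneg ?_ fun ω _ _ => hw ω
    intro ω hω
    rw [mem_filter] at hω ⊢
    exact ⟨hω.1, hω.2.1, fun j hj => hω.2.2 j (hST hj)⟩
  have hins : ∀ i (S : Finset I), m (insert i S) + b i S = m S := by
    intro i S
    rw [hm, hb]
    simp only
    rw [← sum_filter_add_sum_filter_not (univ.filter fun ω => ∀ j ∈ S, ¬ B j ω) (fun ω => B i ω),
      add_comm]
    congr 1
    · refine sum_congr ?_ fun _ _ => rfl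
      ext ω
      simp only [mem_filter, mem_univ, true_and]
      tauto
    · refine sum_congr ?_ fun _ _ => rfl
      ext ω
      simp only [mem_filter, mem_univ, true_and, mem_insert, forall_eq_or_imp]
      tauto
  -- removing few events
  have hsum : ∀ (S T : Finset I), m S - ∑ i ∈ T, b i S ≤ m (S ∪ T) := by
    intro S T
    induction T using Finset.induction_on with
    | empty => simp
    | insert i T hi ih =>
      rw [sum_insert hi, union_insert]
      have h1 := hins i (S ∪ T)
      have h2 := hmono i S (S ∪ T) subset_union_left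
      linarith
  have hd0 : (0 : ℝ) ≤ d := Nat.cast_nonneg d
  have hp4 : 4 * p ≤ 1 := by nlinarith
  have hpd' : 2 * p * d ≤ 1 / 2 := by nlinarith
  have key : ∀ n, ∀ S : Finset I, S.card = n → ∀ i, b i S ≤ 2 * p * m S := by
    intro n
    induction n using Nat.strong_induction_on with
    | _ n ih =>
      intro S hS i
      obtain ⟨S1, hS1⟩ : ∃ S1, S1 = S.filter (fun j => j ∈ nb i) := ⟨_, rfl⟩
      obtain ⟨S2, hS2⟩ : ∃ S2, S2 = S.filter (fun j => j ∉ nb i) := ⟨_, rfl⟩
      have hU : S2 ∪ S1 = S := by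
        rw [hS1, hS2]
        ext j
        simp only [mem_union, mem_filter]
        tauto
      have h1 : b i S2 ≤ p * m S2 := h' i S2 fun j hj => by
        rw [hS2, mem_filter] at hj
        exact hj.2
      have h2 : b i S ≤ b i S2 := hmono i S2 S (by rw [← hU]; exact subset_union_left)
      have h3 : m S2 ≤ 2 * m S := by
        rcases S1.eq_empty_or_nonempty with h0 | h0
        · rw [h0, union_empty] at hU
          rw [hU]
          linarith [hm0 S]
        · have hlt : S2.card < n := by
            rw [← hS]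
            refine card_lt_card ?_
            rw [hS2, filter_ssubset]
            obtain ⟨j, hj⟩ := h0
            rw [hS1, mem_filter] at hj
            exact ⟨j, hj.1, not_not.2 hj.2⟩
          have h4 : ∑ j ∈ S1, b j S2 ≤ S1.card • (2 * p * m S2) :=
            sum_le_card_nsmul _ _ _ fun j _ => ih _ hlt S2 rfl j
          have h5 : (S1.card : ℝ) ≤ d := by
            have h6 : S1.card ≤ (nb i).card := by
              refine card_le_card fun j hj => ?_
              rw [hS1, mem_filter] at hj
              exact hj.2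
            exact_mod_cast h6.trans (hnb i)
          rw [nsmul_eq_mul] at h4
          have h7 := hsum S2 S1
          rw [hU] at h7
          have h8 : (S1.card : ℝ) * (2 * p * m S2) ≤ d * (2 * p * m S2) :=
            mul_le_mul_of_nonneg_right h5 (mul_nonneg (by linarith) (hm0 S2))
          have h9 : d * (2 * p * m S2) = 2 * p * d * m S2 := by ring
          have h10 : 2 * p * d * m S2 ≤ 1 / 2 * m S2 := mul_le_mul_of_nonneg_right hpd' (hm0 S2)
          linarith
      have h4 : p * m S2 ≤ p * (2 * m S) := mul_le_mul_of_nonneg_left h3 hp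
      linarith
  have hpos2 : ∀ S : Finset I, 0 < m S := by
    intro S
    induction S using Finset.induction_on with
    | empty =>
      rw [hm]
      simpa using hpos
    | insert i S hi ih =>
      have h1 := hins i S
      have h2 := key _ S rfl i
      have h3 : 2 * p * m S ≤ 1 / 2 * m S := mul_le_mul_of_nonneg_right (by linarith) (hm0 S)
      linarith
  have h1 := hpos2 univ
  by_contra hcon
  push Not at hcon
  have h2 : m univ ≤ 0 := by
    rw [hm]
    refine sum_nonpos fun ω hω => ?_
    rw [mem_filter] at hω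
    by_contra hc
    rw [not_le] at hc
    obtain ⟨i, hi⟩ := hcon ω hc
    exact hω.2 i (mem_univ i) hi
  linarith

end Pool.Agent.KH
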