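import Pool.Agent.Lib.MP_30840b_co_h61.Defs

/-! Finite product laws: elementary facts. -/

set_option autoImplicit false

open Finset Classical

namespace Pool.Agent.KH

variable {ι κ : Type} [Fintype ι] [Fintype κ]

lemma Ex_add (p : ι → κ → ℝ) (f g : (ι → κ) → ℝ) : Ex p (fun ω => f ω + g ω) = Ex p f + Ex p g := by
  unfold Ex
  rw [← Finset.sum_add_distrib]
  exact Finset.sum_congr rfl fun ω _ => by ring

lemma Ex_smul (p : ι → κ → ℝ) (c : ℝ) (f : (ι → κ) → ℝ) : Ex p (fun ω => c * f ω) = c * Ex p f := by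
  unfold Ex
  rw [Finset.mul_sum]
  exact Finset.sum_congr rfl fun ω _ => by ring

lemma Ex_sum {α : Type} (p : ι → κ → ℝ) (s : Finset α) (f : α → (ι → κ) → ℝ) :
    Ex p (fun ω => ∑ x ∈ s, f x ω) = ∑ x ∈ s, Ex p (f x) := by
  unfold Ex
  rw [Finset.sum_comm]
  exact Finset.sum_congr rfl fun ω _ => by rw [Finset.mul_sum]

/-- a product of functions of the coordinates -/
lemma Ex_prod (p : ι → κ → ℝ) (hp : IsLaw p) (S : Finset ι) (f : ι → κ → ℝ) :
    Ex p (fun ω => ∏ i ∈ S, f i (ω i)) = ∏ i ∈ S, ∑ k, p i k * f i k := by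
  have h1 : ∀ ω : ι → κ, (∏ i, p i (ω i)) * ∏ i ∈ S, f i (ω i) =
      ∏ i, (p i (ω i) * if i ∈ S then f i (ω i) else 1) := by
    intro ω
    rw [Finset.prod_mul_distrib]
    congr 1
    rw [Finset.prod_ite_mem, Finset.univ_inter]
  unfold Ex
  rw [Finset.sum_congr rfl fun ω _ => h1 ω]
  rw [← Fintype.prod_sum (fun i k => p i k * if i ∈ S then f i k else 1)]
  rw [← Finset.prod_subset (Finset.subset_univ S)]
  · refine Finset.prod_congr rfl fun i hi => Finset.sum_congr rfl fun k _ => ?_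
    rw [if_pos hi]
  · intro i _ hi
    refine (Finset.sum_congr rfl fun k _ => ?_).trans (hp i).2
    rw [if_neg hi, mul_one]

lemma Ex_const {p : ι → κ → ℝ} (hp : IsLaw p) (c : ℝ) : Ex p (fun _ => c) = c := by
  have h := Ex_prod p hp ∅ (fun _ _ => (1 : ℝ))
  simp only [Finset.prod_empty] at h
  have h2 := Ex_smul p c (fun _ => (1 : ℝ))
  rw [h] at h2
  simpa using h2

lemma Ex_mono {p : ι → κ → ℝ} (hp : IsLaw p) {f g : (ι → κ) → ℝ}
    (h : ∀ ω, (∀ i, p i (ω i) ≠ 0) → f ω ≤ g ω) : Ex p f ≤ Ex p g := by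
  refine Finset.sum_le_sum fun ω _ => ?_
  by_cases hω : ∀ i, p i (ω i) ≠ 0
  · exact mul_le_mul_of_nonneg_left (h ω hω) (Finset.prod_nonneg fun i _ => (hp i).1 _)
  · push Not at hω
    obtain ⟨i, hi⟩ := hω
    rw [Finset.prod_eq_zero (Finset.mem_univ i) hi, zero_mul, zero_mul]

lemma Ex_congr {p : ι → κ → ℝ} {f g : (ι → κ) → ℝ}
    (h : ∀ ω, (∀ i, p i (ω i) ≠ 0) → f ω = g ω) : Ex p f = Ex p g := by
  refine Finset.sum_congr rfl fun ω _ => ?_
  by_cases hω : ∀ i, p i (ω i) ≠ 0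
  · rw [h ω hω]
  · push Not at hω
    obtain ⟨i, hi⟩ := hω
    rw [Finset.prod_eq_zero (Finset.mem_univ i) hi, zero_mul, zero_mul]

/-- a function of one coordinate -/
lemma Ex_coord {p : ι → κ → ℝ} (hp : IsLaw p) (i : ι) (f : κ → ℝ) :
    Ex p (fun ω => f (ω i)) = ∑ k, p i k * f k := by
  have h := Ex_prod p hp {i} (fun _ => f)
  simpa only [Finset.prod_singleton] using h

/-- conditioning on a coordinate -/
lemma Ex_cond (p : ι → κ → ℝ) (i : ι) (f : (ι → κ) → ℝ) :
    Ex p f = ∑ k, p i k * Ex (Function.update p i (fun j => if j = k then 1 else 0)) f := by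
  unfold Ex
  have h1 : ∀ k : κ, p i k * ∑ ω : ι → κ,
      (∏ j, Function.update p i (fun j => if j = k then 1 else 0) j (ω j)) * f ω =
      ∑ ω : ι → κ, if ω i = k then (∏ j, p j (ω j)) * f ω else 0 := by
    intro k
    rw [Finset.mul_sum]
    refine Finset.sum_congr rfl fun ω _ => ?_
    rw [← Finset.mul_prod_erase Finset.univ _ (Finset.mem_univ i),
      ← Finset.mul_prod_erase Finset.univ (fun j => p j (ω j)) (Finset.mem_univ i)]
    rw [Function.update_self]
    have h2 : ∏ x ∈ Finset.univ.erase i,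
        Function.update p i (fun j => if j = k then (1 : ℝ) else 0) x (ω x) =
        ∏ x ∈ Finset.univ.erase i, p x (ω x) := by
      refine Finset.prod_congr rfl fun x hx => ?_
      rw [Function.update_of_ne (Finset.ne_of_mem_erase hx)]
    rw [h2]
    by_cases h3 : ω i = k
    · rw [if_pos h3, if_pos h3, h3]
      ring
    · rw [if_neg h3, if_neg h3]
      ring
  rw [Finset.sum_congr rfl fun k _ => h1 k, Finset.sum_comm]
  refine Finset.sum_congr rfl fun ω _ => ?_
  rw [Finset.sum_ite_eq Finset.univ (ω i), if_pos (Finset.mem_univ _)]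

lemma IsLaw_update {p : ι → κ → ℝ} (hp : IsLaw p) (i : ι) (k : κ) :
    IsLaw (Function.update p i (fun j => if j = k then 1 else 0)) := by
  intro j
  by_cases hj : j = i
  · subst hj
    rw [Function.update_self]
    refine ⟨fun l => ?_, ?_⟩
    · split_ifs <;> norm_num
    · rw [Finset.sum_ite_eq' Finset.univ k, if_pos (Finset.mem_univ _)]
  · rw [Function.update_of_ne hj]
    exact hp j

lemma Pb_nonneg {p : ι → κ → ℝ} (hp : IsLaw p) (A : (ι → κ) → Prop) : 0 ≤ Pb p A := by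
  have h := Ex_mono (f := fun _ => (0 : ℝ)) (g := fun ω => if A ω then 1 else 0) hp
    (fun ω _ => by split_ifs <;> norm_num)
  rwa [Ex_const hp] at h

lemma Pb_le_one {p : ι → κ → ℝ} (hp : IsLaw p) (A : (ι → κ) → Prop) : Pb p A ≤ 1 := by
  have h := Ex_mono (f := fun ω => if A ω then (1 : ℝ) else 0) (g := fun _ => (1 : ℝ)) hp
    (fun ω _ => by split_ifs <;> norm_num)
  rwa [Ex_const hp] at h

lemma Pb_mono {p : ι → κ → ℝ} (hp : IsLaw p) {A B : (ι → κ) → Prop}
    (h : ∀ ω, (∀ i, p i (ω i) ≠ 0) → A ω → B ω) : Pb p A ≤ Pb p B := by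
  refine Ex_mono hp fun ω hω => ?_
  by_cases hA : A ω
  · rw [if_pos hA, if_pos (h ω hω hA)]
  · rw [if_neg hA]
    split_ifs <;> norm_num

lemma Pb_or {p : ι → κ → ℝ} (hp : IsLaw p) (A B : (ι → κ) → Prop) :
    Pb p (fun ω => A ω ∨ B ω) ≤ Pb p A + Pb p B := by
  unfold Pb
  rw [← Ex_add]
  refine Ex_mono hp fun ω _ => ?_
  dsimp only
  by_cases hA : A ω <;> by_cases hB : B ω <;> simp [hA, hB]

lemma Pb_exists {α : Type} {p : ι → κ → ℝ} (hp : IsLaw p) (s : Finset α)
    (A : α → (ι → κ) → Prop) : Pb p (fun ω => ∃ x ∈ s, A x ω) ≤ ∑ x ∈ s, Pb p (A x) := by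
  unfold Pb
  rw [← Ex_sum]
  refine Ex_mono hp fun ω _ => ?_
  dsimp only
  have h0 : ∀ x ∈ s, (0 : ℝ) ≤ if A x ω then 1 else 0 := fun x _ => by split_ifs <;> norm_num
  by_cases hA : ∃ x ∈ s, A x ω
  · rw [if_pos hA]
    obtain ⟨x, hx, hAx⟩ := hA
    have h1 := Finset.single_le_sum h0 hx
    rwa [if_pos hAx] at h1
  · rw [if_neg hA]
    exact Finset.sum_nonneg h0

/-- conditioning on a coordinate, for events -/
lemma Pb_cond_le {p : ι → κ → ℝ} (hp : IsLaw p) (i : ι) (A : (ι → κ) → Prop) {b : ℝ}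
    (h : ∀ k, p i k ≠ 0 →
      Pb (Function.update p i (fun j => if j = k then 1 else 0)) A ≤ b) : Pb p A ≤ b := by
  have h1 : Pb p A = ∑ k, p i k * Pb (Function.update p i (fun j => if j = k then 1 else 0)) A :=
    Ex_cond p i _
  rw [h1]
  calc ∑ k, p i k * Pb (Function.update p i (fun j => if j = k then 1 else 0)) A
      ≤ ∑ k, p i k * b := by
        refine Finset.sum_le_sum fun k _ => ?_
        by_cases hk : p i k = 0
        · rw [hk, zero_mul, zero_mul]
        · exact mul_le_mul_of_nonneg_left (h k hk) ((hp i).1 k)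
    _ = b := by rw [← Finset.sum_mul, (hp i).2, one_mul]

/-- Markov's inequality for the exponential -/
lemma Pb_exp {p : ι → κ → ℝ} (hp : IsLaw p) (f : (ι → κ) → ℝ) (t : ℝ) {s : ℝ} (hs : 0 ≤ s) :
    Pb p (fun ω => t ≤ f ω) ≤ Real.exp (-(s * t)) * Ex p (fun ω => Real.exp (s * f ω)) := by
  rw [← Ex_smul]
  refine Ex_mono hp fun ω _ => ?_
  dsimp only
  rw [← Real.exp_add]
  by_cases h : t ≤ f ω
  · rw [if_pos h]
    refine Real.one_le_exp ?_
    have := mul_le_mul_of_nonneg_left h hs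
    linarith
  · rw [if_neg h]
    exact (Real.exp_pos _).le

/-- resampling a coordinate -/
lemma Ex_resample {p : ι → κ → ℝ} (hp : IsLaw p) (a : ι) (F : (ι → κ) → ℝ) :
    Ex p (fun ω => ∑ k, p a k * F (Function.update ω a k)) = Ex p F := by
  have hw : ∀ (ω : ι → κ) (k : κ),
      (∏ i, p i (Function.update ω a k i)) * p a (ω a) = (∏ i, p i (ω i)) * p a k := by
    intro ω k
    rw [← Finset.mul_prod_erase Finset.univ _ (Finset.mem_univ a),
      ← Finset.mul_prod_erase Finset.univ (fun j => p j (ω j)) (Finset.mem_univ a)]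
    rw [Function.update_self]
    have h2 : ∏ x ∈ Finset.univ.erase a, p x (Function.update ω a k x) =
        ∏ x ∈ Finset.univ.erase a, p x (ω x) := by
      refine Finset.prod_congr rfl fun x hx => ?_
      rw [Function.update_of_ne (Finset.ne_of_mem_erase hx)]
    rw [h2]
    ring
  have h1 : Ex p (fun ω => ∑ k, p a k * F (Function.update ω a k)) =
      ∑ q : (ι → κ) × κ, (∏ i, p i (q.1 i)) * (p a q.2 * F (Function.update q.1 a q.2)) := by
    unfold Ex
    rw [Fintype.sum_prod_type]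
    exact Finset.sum_congr rfl fun ω _ => by rw [Finset.mul_sum]
  have h2 : Ex p F = ∑ q : (ι → κ) × κ, (∏ i, p i (q.1 i)) * (p a q.2 * F q.1) := by
    rw [Fintype.sum_prod_type]
    unfold Ex
    refine Finset.sum_congr rfl fun ω _ => ?_
    dsimp only
    rw [← Finset.mul_sum, ← Finset.sum_mul, (hp a).2, one_mul]
  rw [h1, h2]
  refine Finset.sum_bij' (fun q _ => (Function.update q.1 a q.2, q.1 a))
    (fun q _ => (Function.update q.1 a q.2, q.1 a)) (fun _ _ => Finset.mem_univ _)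
    (fun _ _ => Finset.mem_univ _) ?_ ?_ ?_
  · rintro ⟨ω, k⟩ _
    simp
  · rintro ⟨ω, k⟩ _
    simp
  · rintro ⟨ω, k⟩ _
    dsimp only
    rw [← mul_assoc, ← mul_assoc, hw ω k]

end Pool.Agent.KH
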