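import Pool.Agent.Lib.MP_30840b_co_h61.HC

/-! The law of the marks and the thinning identity. -/

set_option autoImplicit false
set_option linter.unusedSectionVars false

open Finset Classical

namespace Pool.Agent.KH

variable {V E : Type} [Fintype V] [Fintype E]

namespace Thin

lemma sum_prod (f : E → Fin 4 → ℝ) :
    ∑ g : E → Fin 4, ∏ e, f e (g e) = ∏ e, ∑ k, f e k := by
  rw [Finset.prod_univ_sum, Fintype.piFinset_univ]

lemma wm_nonneg {lam : E → ℝ} (hl : ∀ e, 0 ≤ lam e) {θ : ℝ} (h0 : 0 ≤ θ)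
    (h1 : θ ≤ 1) {a : E → ℝ} (ha0 : ∀ e, 0 ≤ a e) (ha1 : ∀ e, a e ≤ 1) (e : E) (k : Fin 4) :
    0 ≤ wm lam θ a e k := by
  have h2 : 0 ≤ 1 - θ := by linarith
  have h3 : 0 ≤ 1 - a e := by linarith [ha1 e]
  have h4 := hl e
  have h5 := ha0 e
  fin_cases k <;> simp [wm] <;> positivity

lemma mem_sM {g : E → Fin 4} {e : E} : e ∈ sM g ↔ g e ≠ 0 := by simp [sM]

lemma mem_sN {g : E → Fin 4} {e : E} : e ∈ sN g ↔ (g e = 2 ∨ g e = 3) := by simp [sN]

/-- the weight of the marks with given supports -/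
lemma fib (lam : E → ℝ) (θ : ℝ) (a : E → ℝ) (M N : Finset E) :
    ∑ g : E → Fin 4, (if sM g = M ∧ sN g = N then ∏ e, wm lam θ a e (g e) else 0) =
      if N ⊆ M then (∏ e ∈ N, (θ * lam e)) * ∏ e ∈ M \ N, ((1 - θ) * lam e) else 0 := by
  have h1 : ∀ g : E → Fin 4,
      (if sM g = M ∧ sN g = N then ∏ e, wm lam θ a e (g e) else 0) =
      ∏ e, (if ((g e ≠ 0) ↔ e ∈ M) ∧ ((g e = 2 ∨ g e = 3) ↔ e ∈ N) then
        wm lam θ a e (g e) else 0) := by
    intro g
    by_cases h : sM g = M ∧ sN g = N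
    · rw [if_pos h]
      refine prod_congr rfl fun e _ => ?_
      rw [if_pos]
      rw [← h.1, ← h.2, mem_sM, mem_sN]
      exact ⟨Iff.rfl, Iff.rfl⟩
    · rw [if_neg h]
      have h2 : ∃ e, ¬ (((g e ≠ 0) ↔ e ∈ M) ∧ ((g e = 2 ∨ g e = 3) ↔ e ∈ N)) := by
        by_contra hno
        push Not at hno
        refine h ⟨?_, ?_⟩
        · ext e
          rw [mem_sM]
          exact (hno e).1
        · ext e
          rw [mem_sN]
          exact (hno e).2
      obtain ⟨e, he⟩ := h2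
      exact (prod_eq_zero (mem_univ e) (if_neg he)).symm
  rw [sum_congr rfl fun g _ => h1 g]
  rw [sum_prod (fun e k => if ((k ≠ 0) ↔ e ∈ M) ∧ ((k = 2 ∨ k = 3) ↔ e ∈ N) then
        wm lam θ a e k else 0)]
  have h3 : ∀ e, ∑ k : Fin 4, (if ((k ≠ 0) ↔ e ∈ M) ∧ ((k = 2 ∨ k = 3) ↔ e ∈ N) then
        wm lam θ a e k else 0) =
      if e ∈ N then (if e ∈ M then θ * lam e else 0) else
        (if e ∈ M then (1 - θ) * lam e else 1) := by
    intro e
    rw [Fin.sum_univ_four]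
    by_cases hN : e ∈ N <;> by_cases hM : e ∈ M <;> simp [hN, hM, wm] <;> ring
  rw [prod_congr rfl fun e _ => h3 e]
  by_cases hNM : N ⊆ M
  · rw [if_pos hNM]
    have h4 : ∀ e, (if e ∈ N then (if e ∈ M then θ * lam e else 0) else
        (if e ∈ M then (1 - θ) * lam e else 1)) =
        (if e ∈ N then θ * lam e else 1) * (if e ∈ M \ N then (1 - θ) * lam e else 1) := by
      intro e
      by_cases hN : e ∈ N
      · simp [hN, hNM hN]
      · by_cases hM : e ∈ M <;> simp [hN, hM]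
    rw [prod_congr rfl fun e _ => h4 e, prod_mul_distrib, prod_ite_mem, prod_ite_mem, univ_inter,
      univ_inter]
  · rw [if_neg hNM]
    obtain ⟨e, he, he'⟩ := not_subset.1 hNM
    exact prod_eq_zero (mem_univ e) (by simp [he, he'])

/-- summation over the marks of a function of the two supports -/
lemma sum_marks (lam : E → ℝ) (θ : ℝ) (a : E → ℝ) (Ψ : Finset E → Finset E → ℝ) :
    ∑ g : E → Fin 4, (∏ e, wm lam θ a e (g e)) * Ψ (sM g) (sN g) =
      ∑ M : Finset E, ∑ N ∈ M.powerset,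
        ((∏ e ∈ N, (θ * lam e)) * ∏ e ∈ M \ N, ((1 - θ) * lam e)) * Ψ M N := by
  have h1 : ∀ g : E → Fin 4, (∏ e, wm lam θ a e (g e)) * Ψ (sM g) (sN g) =
      ∑ M : Finset E, ∑ N : Finset E,
        (if sM g = M ∧ sN g = N then ∏ e, wm lam θ a e (g e) else 0) * Ψ M N := by
    intro g
    rw [sum_eq_single (sM g)]
    · rw [sum_eq_single (sN g)]
      · rw [if_pos ⟨rfl, rfl⟩]
      · intro N _ hN
        rw [if_neg (fun h => hN h.2.symm), zero_mul]
      · intro h; exact absurd (mem_univ _) h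
    · intro M _ hM
      refine sum_eq_zero fun N _ => ?_
      rw [if_neg (fun h => hM h.1.symm), zero_mul]
    · intro h; exact absurd (mem_univ _) h
  rw [sum_congr rfl fun g _ => h1 g, sum_comm]
  refine sum_congr rfl fun M _ => ?_
  rw [sum_comm]
  have h2 : ∀ N : Finset E, ∑ g : E → Fin 4,
      (if sM g = M ∧ sN g = N then ∏ e, wm lam θ a e (g e) else 0) * Ψ M N =
      if N ∈ M.powerset then
        ((∏ e ∈ N, (θ * lam e)) * ∏ e ∈ M \ N, ((1 - θ) * lam e)) * Ψ M N else 0 := by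
    intro N
    rw [← sum_mul, fib]
    by_cases h : N ⊆ M
    · rw [if_pos h, if_pos (mem_powerset.2 h)]
    · rw [if_neg h, if_neg (fun h' => h (mem_powerset.1 h')), zero_mul]
  rw [sum_congr rfl fun N _ => h2 N, sum_ite_mem, univ_inter]

lemma pc_eq (ve : E → Finset V) (lam : E → ℝ) (θ : ℝ) (a : E → ℝ)
    (F : Finset E) (W : Finset V) (g : E → Fin 4) :
    pc ve lam θ a F W g =
      ((∏ e, wm lam θ a e (g e)) * (if sM g ∈ MS ve F W then 1 else 0)) / Z ve lam F W := by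
  unfold pc
  split_ifs <;> simp

/-- summation against the law of the marks -/
lemma sum_pc (ve : E → Finset V) (lam : E → ℝ) (θ : ℝ) (a : E → ℝ)
    (F : Finset E) (W : Finset V) (φ : Finset E → ℝ) :
    ∑ g, pc ve lam θ a F W g * φ (sN g) =
      (∑ M ∈ MS ve F W, ∑ N ∈ M.powerset,
        ((∏ e ∈ N, (θ * lam e)) * ∏ e ∈ M \ N, ((1 - θ) * lam e)) * φ N) / Z ve lam F W := by
  have h1 : ∀ g : E → Fin 4, pc ve lam θ a F W g * φ (sN g) =
      ((∏ e, wm lam θ a e (g e)) *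
        ((fun M N => (if M ∈ MS ve F W then 1 else 0) * φ N) (sM g) (sN g))) / Z ve lam F W := by
    intro g
    rw [pc_eq]
    simp only
    ring
  rw [sum_congr rfl fun g _ => h1 g, ← sum_div]
  refine congrArg (fun t => t / Z ve lam F W) ((sum_marks lam θ a
    (fun M N => (if M ∈ MS ve F W then 1 else 0) * φ N)).trans ?_)
  have h2 : ∀ M : Finset E, ∑ N ∈ M.powerset,
      ((∏ e ∈ N, (θ * lam e)) * ∏ e ∈ M \ N, ((1 - θ) * lam e)) *
        ((if M ∈ MS ve F W then 1 else 0) * φ N) =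
      if M ∈ MS ve F W then ∑ N ∈ M.powerset,
        ((∏ e ∈ N, (θ * lam e)) * ∏ e ∈ M \ N, ((1 - θ) * lam e)) * φ N else 0 := by
    intro M
    by_cases h : M ∈ MS ve F W
    · simp [h]
    · simp [h]
  rw [sum_congr rfl fun M _ => h2 M, sum_ite_mem, univ_inter]

/-- union of matchings -/
lemma bij (ve : E → Finset V) (h2 : ∀ e, (ve e).card = 2) (lam : E → ℝ) (θ : ℝ)
    (F : Finset E) (W : Finset V) (φ : Finset E → ℝ) :
    ∑ M ∈ MS ve F W, ∑ N ∈ M.powerset,
        ((∏ e ∈ N, (θ * lam e)) * ∏ e ∈ M \ N, ((1 - θ) * lam e)) * φ N =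
      ∑ N ∈ MS ve F W, (∏ e ∈ N, (θ * lam e)) *
        Z ve (fun e => (1 - θ) * lam e) F (W ∪ cov ve N) * φ N := by
  have h1 : ∀ N ∈ MS ve F W, (∏ e ∈ N, (θ * lam e)) *
      Z ve (fun e => (1 - θ) * lam e) F (W ∪ cov ve N) * φ N =
      ∑ M' ∈ MS ve F (W ∪ cov ve N),
        ((∏ e ∈ N, (θ * lam e)) * ∏ e ∈ M', ((1 - θ) * lam e)) * φ N := by
    intro N _
    unfold Z
    rw [mul_sum, sum_mul]
  rw [sum_congr rfl h1, sum_sigma', sum_sigma']
  have hdis : ∀ N M' : Finset E, M' ∈ MS ve F (W ∪ cov ve N) → Disjoint N M' := by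
    intro N M' hM'
    rw [Finset.disjoint_left]
    intro e he he'
    have h3 := (MS_mem.1 hM').2.2 e he'
    have h4 : ve e ⊆ W ∪ cov ve N := fun v hv =>
      mem_union_right _ (mem_biUnion.2 ⟨e, he, hv⟩)
    have h5 : ve e = ∅ := by
      have := h3.mono_right h4
      rwa [Finset.disjoint_self_iff_empty] at this
    have h6 := h2 e
    rw [h5] at h6
    simp at h6
  refine sum_bij' (fun x _ => ⟨x.2, x.1 \ x.2⟩) (fun x _ => ⟨x.1 ∪ x.2, x.1⟩) ?_ ?_ ?_ ?_ ?_
  · rintro ⟨M, N⟩ h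
    obtain ⟨hM, hN⟩ := mem_sigma.1 h
    simp only at hM hN
    have hNM := mem_powerset.1 hN
    obtain ⟨a1, a2, a3⟩ := MS_mem.1 hM
    refine mem_sigma.2 ⟨MS_mem.2 ⟨hNM.trans a1, fun e he f hf hef => a2 e (hNM he) f (hNM hf) hef,
      fun e he => a3 e (hNM he)⟩, MS_mem.2 ⟨sdiff_subset.trans a1, fun e he f hf hef =>
        a2 e (mem_sdiff.1 he).1 f (mem_sdiff.1 hf).1 hef, fun e he => ?_⟩⟩
    rw [disjoint_union_right]
    refine ⟨a3 e (mem_sdiff.1 he).1, ?_⟩
    unfold cov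
    rw [disjoint_biUnion_right]
    intro f hf
    refine a2 e (mem_sdiff.1 he).1 f (hNM hf) ?_
    rintro rfl
    exact (mem_sdiff.1 he).2 hf
  · rintro ⟨N, M'⟩ h
    obtain ⟨hN, hM'⟩ := mem_sigma.1 h
    simp only at hM' hN
    obtain ⟨a1, a2, a3⟩ := MS_mem.1 hN
    obtain ⟨b1, b2, b3⟩ := MS_mem.1 hM'
    have hcr : ∀ e ∈ N, ∀ f ∈ M', Disjoint (ve e) (ve f) := by
      intro e he f hf
      have h3 := (disjoint_union_right.1 (b3 f hf)).2
      exact (h3.mono_right (subset_biUnion_of_mem ve he)).symm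
    refine mem_sigma.2 ⟨MS_mem.2 ⟨union_subset a1 b1, ?_, ?_⟩, mem_powerset.2 subset_union_left⟩
    · intro e he f hf hef
      rcases mem_union.1 he with he | he <;> rcases mem_union.1 hf with hf | hf
      · exact a2 e he f hf hef
      · exact hcr e he f hf
      · exact (hcr f hf e he).symm
      · exact b2 e he f hf hef
    · intro e he
      rcases mem_union.1 he with he | he
      · exact a3 e he
      · exact (disjoint_union_right.1 (b3 e he)).1
  · rintro ⟨M, N⟩ h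
    obtain ⟨hM, hN⟩ := mem_sigma.1 h
    simp only at hM hN
    have hNM := mem_powerset.1 hN
    simp only
    rw [union_sdiff_of_subset hNM]
  · rintro ⟨N, M'⟩ h
    obtain ⟨hN, hM'⟩ := mem_sigma.1 h
    simp only at hM' hN
    have := hdis N M' hM'
    simp only
    rw [union_sdiff_left, sdiff_eq_self_of_disjoint this.symm]
  · rintro ⟨M, N⟩ h
    rfl

end Thin

open Thin

lemma pc_nonneg (ve : E → Finset V) {lam : E → ℝ} (hl : ∀ e, 0 ≤ lam e) {θ : ℝ} (h0 : 0 ≤ θ)
    (h1 : θ ≤ 1) {a : E → ℝ} (ha0 : ∀ e, 0 ≤ a e) (ha1 : ∀ e, a e ≤ 1) (F : Finset E)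
    (W : Finset V) (g : E → Fin 4) : 0 ≤ pc ve lam θ a F W g := by
  unfold pc
  split_ifs
  · exact div_nonneg (prod_nonneg fun e _ => wm_nonneg hl h0 h1 ha0 ha1 e (g e))
      (zero_le_one.trans (one_le_Z ve hl F W))
  · exact le_rfl

lemma pc_sum (ve : E → Finset V) {lam : E → ℝ} (hl : ∀ e, 0 ≤ lam e) (θ : ℝ) (a : E → ℝ)
    (F : Finset E) (W : Finset V) : ∑ g, pc ve lam θ a F W g = 1 := by
  have h1 := sum_pc ve lam θ a F W (fun _ => 1)
  simp only [mul_one] at h1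
  rw [h1]
  have h2 : ∀ M ∈ MS ve F W, ∑ N ∈ M.powerset,
      ((∏ e ∈ N, (θ * lam e)) * ∏ e ∈ M \ N, ((1 - θ) * lam e)) = ∏ e ∈ M, lam e := by
    intro M _
    rw [← prod_add]
    refine prod_congr rfl fun e _ => ?_
    ring
  rw [sum_congr rfl h2]
  have h3 := one_le_Z ve hl F W
  exact div_self (by unfold Z at h3; linarith)

/-- the law of the thinned matching -/
lemma pc_sN {ve : E → Finset V} (h2 : ∀ e, (ve e).card = 2) {lam : E → ℝ}
    (_ : ∀ e, 0 ≤ lam e) (θ : ℝ) (a : E → ℝ)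
    (F : Finset E) (W : Finset V) (φ : Finset E → ℝ) :
    ∑ g, pc ve lam θ a F W g * φ (sN g) =
      (∑ N ∈ MS ve F W, (∏ e ∈ N, (θ * lam e)) *
        Z ve (fun e => (1 - θ) * lam e) F (W ∪ cov ve N) * φ N) / Z ve lam F W := by
  rw [sum_pc, bij ve h2]

/-- thinning identity -/
theorem thin_main {ve : E → Finset V} (h2 : ∀ e, (ve e).card = 2) {lam : E → ℝ}
    (hl : ∀ e, 0 ≤ lam e) {θ : ℝ} (_ : 0 ≤ θ)
    (h1 : θ ≤ 1) (a : E → ℝ) (F : Finset E) (W S : Finset V) :
    ∑ g, pc ve lam θ a F W g * (if Disjoint S (cov ve (sN g)) then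
        fr ve (fun e => (1 - θ) * lam e) F (W ∪ cov ve (sN g)) S else 0) = fr ve lam F W S := by
  have h3 := pc_sN h2 hl θ a F W (fun N => if Disjoint S (cov ve N) then
        fr ve (fun e => (1 - θ) * lam e) F (W ∪ cov ve N) S else 0)
  rw [h3]
  unfold fr
  congr 1
  have hl' : ∀ e, 0 ≤ (1 - θ) * lam e := fun e => mul_nonneg (by linarith) (hl e)
  have h4 : Z ve lam F (W ∪ S) = ∑ N ∈ MS ve F (W ∪ S), (∏ e ∈ N, (θ * lam e)) *
        Z ve (fun e => (1 - θ) * lam e) F (W ∪ S ∪ cov ve N) := by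
    have h5 := bij ve h2 lam θ F (W ∪ S) (fun _ => 1)
    simp only [mul_one] at h5
    rw [← h5]
    unfold Z
    refine sum_congr rfl fun M _ => ?_
    rw [← prod_add]
    refine prod_congr rfl fun e _ => ?_
    ring
  have h6 : MS ve F (W ∪ S) = (MS ve F W).filter (fun N => Disjoint S (cov ve N)) := by
    ext N
    rw [mem_filter, MS_mem, MS_mem]
    have h7 : Disjoint S (cov ve N) ↔ ∀ e ∈ N, Disjoint (ve e) S := by
      unfold cov
      rw [disjoint_biUnion_right]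
      exact ⟨fun h e he => (h e he).symm, fun h e he => (h e he).symm⟩
    rw [h7]
    simp only [disjoint_union_right]
    constructor
    · rintro ⟨a1, a2, a3⟩
      exact ⟨⟨a1, a2, fun e he => (a3 e he).1⟩, fun e he => (a3 e he).2⟩
    · rintro ⟨⟨a1, a2, a3⟩, a4⟩
      exact ⟨a1, a2, fun e he => ⟨a3 e he, a4 e he⟩⟩
  rw [h4, h6, sum_filter]
  refine sum_congr rfl fun N _ => ?_
  by_cases h : Disjoint S (cov ve N)
  · rw [if_pos h, if_pos h]
    have h8 := one_le_Z ve hl' F (W ∪ cov ve N)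
    have h9 : Z ve (fun e => (1 - θ) * lam e) F (W ∪ cov ve N) ≠ 0 := by linarith
    rw [mul_assoc, mul_div_cancel₀ _ h9]
    congr 2
    rw [union_right_comm]
  · rw [if_neg h, if_neg h, mul_zero]

namespace Thin

/-- the weight of the marks with given support and mark 3 at `e` -/
lemma fib3 (lam : E → ℝ) (θ : ℝ) (a : E → ℝ) (M : Finset E) (e : E) :
    ∑ g : E → Fin 4, (if sM g = M ∧ g e = 3 then ∏ f, wm lam θ a f (g f) else 0) =
      if e ∈ M then θ * a e * ∏ f ∈ M, lam f else 0 := by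
  have h1 : ∀ g : E → Fin 4,
      (if sM g = M ∧ g e = 3 then ∏ f, wm lam θ a f (g f) else 0) =
      ∏ f, (if ((g f ≠ 0) ↔ f ∈ M) ∧ (f = e → g f = 3) then
        wm lam θ a f (g f) else 0) := by
    intro g
    by_cases h : sM g = M ∧ g e = 3
    · rw [if_pos h]
      refine prod_congr rfl fun f _ => ?_
      rw [if_pos]
      rw [← h.1, mem_sM]
      refine ⟨Iff.rfl, ?_⟩
      rintro rfl
      exact h.2
    · rw [if_neg h]
      have h2 : ∃ f, ¬ (((g f ≠ 0) ↔ f ∈ M) ∧ (f = e → g f = 3)) := by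
        by_contra hno
        push Not at hno
        refine h ⟨?_, (hno e).2 rfl⟩
        ext f
        rw [mem_sM]
        exact (hno f).1
      obtain ⟨f, hf⟩ := h2
      exact (prod_eq_zero (mem_univ f) (if_neg hf)).symm
  rw [sum_congr rfl fun g _ => h1 g]
  rw [sum_prod (fun f k => if ((k ≠ 0) ↔ f ∈ M) ∧ (f = e → k = 3) then
        wm lam θ a f k else 0)]
  have h3 : ∀ f, ∑ k : Fin 4, (if ((k ≠ 0) ↔ f ∈ M) ∧ (f = e → k = 3) then
        wm lam θ a f k else 0) =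
      (if f ∈ M then lam f else 1) * (if f = e then (if e ∈ M then θ * a e else 0) else 1) := by
    intro f
    rw [Fin.sum_univ_four]
    by_cases hfe : f = e
    · subst hfe
      by_cases hM : f ∈ M <;> simp [hM, wm] <;> ring
    · by_cases hM : f ∈ M <;> simp [hM, hfe, wm] <;> ring
  rw [prod_congr rfl fun f _ => h3 f, prod_mul_distrib, prod_ite_mem, univ_inter,
    prod_ite_eq' univ e, if_pos (mem_univ e)]
  split_ifs <;> ring

end Thin

/-- probability of the mark 3 -/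
lemma pc_three {ve : E → Finset V} (h2 : ∀ e, (ve e).card = 2) {lam : E → ℝ} (hl : ∀ e, 0 ≤ lam e)
    (θ : ℝ) (a : E → ℝ) {F : Finset E} {W : Finset V} {e : E} (he : e ∈ F)
    (hd : Disjoint (ve e) W) :
    ∑ g, pc ve lam θ a F W g * (if g e = 3 then 1 else 0) =
      θ * a e * (lam e * fr ve lam F W (ve e)) := by
  have h1 : ∀ g : E → Fin 4, pc ve lam θ a F W g * (if g e = 3 then 1 else 0) =
      (∑ M ∈ MS ve F W, if sM g = M ∧ g e = 3 then ∏ f, wm lam θ a f (g f) else 0) /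
        Z ve lam F W := by
    intro g
    unfold pc
    by_cases h3 : g e = 3
    · by_cases hM : sM g ∈ MS ve F W
      · rw [if_pos hM, if_pos h3, mul_one, sum_eq_single (sM g)]
        · rw [if_pos ⟨rfl, h3⟩]
        · intro M _ hne
          rw [if_neg (fun h => hne h.1.symm)]
        · intro h; exact absurd hM h
      · rw [if_neg hM, zero_mul, sum_eq_zero, zero_div]
        intro M hM'
        rw [if_neg]
        rintro ⟨rfl, -⟩
        exact hM hM'
    · rw [if_neg h3, mul_zero, sum_eq_zero, zero_div]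
      intro M _
      rw [if_neg (fun h => h3 h.2)]
  rw [sum_congr rfl fun g _ => h1 g, ← sum_div, sum_comm,
    sum_congr rfl fun M _ => fib3 lam θ a M e]
  rw [← sum_filter, ← mul_sum, sum_mem h2 lam he hd]
  unfold fr
  ring

/-- the marked edges form a matching of `F` avoiding `W` -/
lemma pc_supp {ve : E → Finset V} {lam : E → ℝ} {θ : ℝ} {a : E → ℝ} {F : Finset E}
    {W : Finset V} {g : E → Fin 4} (hg : pc ve lam θ a F W g ≠ 0) : sM g ∈ MS ve F W := by
  by_contra h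
  exact hg (if_neg h)

lemma pc_three_zero {ve : E → Finset V} {lam : E → ℝ} (θ : ℝ) (a : E → ℝ) {F : Finset E}
    {W : Finset V} {e : E} (h : ¬ (e ∈ F ∧ Disjoint (ve e) W)) (g : E → Fin 4)
    (hg : pc ve lam θ a F W g ≠ 0) : g e = 0 := by
  by_contra h0
  have h1 := MS_mem.1 (pc_supp hg)
  have h2 : e ∈ sM g := mem_sM.2 h0
  exact h ⟨h1.1 h2, h1.2.2 e h2⟩

lemma sP_sub_sN (g : E → Fin 4) : sP g ⊆ sN g := by
  intro e he
  have h1 : g e = 3 := (mem_filter.1 he).2
  exact mem_sN.2 (Or.inr h1)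

lemma sN_sub_sM (g : E → Fin 4) : sN g ⊆ sM g := by
  intro e he
  rw [mem_sM]
  rcases mem_sN.1 he with h | h <;> rw [h] <;> decide

end Pool.Agent.KH
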