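import Pool.Agent.Lib.MP_30840b_co_h61.Dec
import Pool.Agent.Lib.MP_30840b_co_h61.Ball
import Pool.Agent.Lib.MP_30840b_co_h61.Thin
import Pool.Agent.Lib.MP_30840b_co_h61.Prb

/-! The setting of the local estimate. -/

set_option autoImplicit false

open Finset Classical

namespace Pool.Agent.KH

/-- the error `2Λ(e^{4ρ^k log(1+Λ)} - 1) + Λ/D` -/
noncomputable def er (Λ D : ℝ) (k : ℕ) : ℝ :=
  2 * Λ * (Real.exp (4 * ((Λ / (1 + Λ)) ^ k * Real.log (1 + Λ))) - 1) + Λ / D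

variable {V E C : Type} [Fintype V] [Fintype E] [Fintype C]

/-- the general setting of one stage, seen from the root edge `e₀` -/
structure Loc (ve : E → Finset V) (lam : E → ℝ) (L : E → Finset C) (G : Finset E)
    (U : C → Finset V) (θ : ℝ) (a : E → ℝ) (Λ : ℝ) (D : ℕ) (e₀ : E) (R : ℕ)
    (W : C → Finset V) : Prop where
  h2 : ∀ e, (ve e).card = 2
  hD : 1 ≤ D
  hd : ∀ v, dg ve univ v ≤ D
  hΛ : 1 ≤ Λ
  l0 : ∀ e, 0 < lam e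
  l1 : ∀ e, lam e ≤ Λ / D
  hL : ∀ e, (L e).card ≤ 2 * D
  t0 : 0 < θ
  t1 : θ ≤ 1 / 8
  a0 : ∀ e, 0 ≤ a e
  a1 : ∀ e, a e ≤ 1
  ha : ∀ e ∈ G, ∏ c ∈ av ve L U e, (1 - θ * a e * (lam e * fr ve lam G (U c) (ve e))) = 1 - θ
  he : e₀ ∈ G
  hUW : ∀ c, U c ⊆ W c
  hW : ∀ c, Disjoint (W c \ U c) (Bv ve (ve e₀) (R - 1))

end Pool.Agent.KH
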