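import Pool.Agent.Lib.MP_30840b_co_h61.Dec
import Pool.Agent.Lib.MP_30840b_co_h61.Ball

/-! Locality: the inner system is close to the whole system near the root. -/

set_option autoImplicit false

open Finset Classical

namespace Pool.Agent.KH

variable {V E : Type} [Fintype V] [Fintype E]

/-- The edges at a vertex of a ball, for two systems which agree in the next ball. -/
lemma LocA_ed_eq {ve : E → Finset V} {S : Finset V} {m : ℕ} {F1 F2 : Finset E}
    {W1 W2 P : Finset V} (hF : ∀ e, ve e ⊆ Bv ve S (m + 1) → (e ∈ F1 ↔ e ∈ F2))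
    (hW : ∀ v ∈ Bv ve S (m + 1), v ∈ W1 ↔ v ∈ W2) {w : V} (hw : w ∈ Bv ve S m) :
    ed ve F1 (W1 ∪ P) w = ed ve F2 (W2 ∪ P) w := by
  ext e
  unfold ed
  rw [mem_filter, mem_filter]
  have key : w ∈ ve e → ((e ∈ F1 ↔ e ∈ F2) ∧
      (Disjoint (ve e) (W1 ∪ P) ↔ Disjoint (ve e) (W2 ∪ P))) := by
    intro hwe
    have h1 : ve e ⊆ Bv ve S (m + 1) := edge_Bv (by
      rw [Finset.not_disjoint_iff]
      exact ⟨w, hwe, hw⟩)
    refine ⟨hF e h1, ?_⟩
    rw [Finset.disjoint_left, Finset.disjoint_left]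
    refine forall₂_congr fun v hv => ?_
    rw [mem_union, mem_union, hW v (h1 hv)]
  constructor
  · rintro ⟨h1, h2, h3⟩
    exact ⟨(key h2).1.1 h1, h2, (key h2).2.1 h3⟩
  · rintro ⟨h1, h2, h3⟩
    exact ⟨(key h2).1.2 h1, h2, (key h2).2.2 h3⟩

/-- The edges at the end of a walk, for two systems which agree in a ball. -/
lemma LocA_walk {ve : E → Finset V} (h2 : ∀ e, (ve e).card = 2) {S : Finset V} {j k : ℕ}
    {F1 F2 : Finset E} {W1 W2 : Finset V}
    (hF : ∀ e, ve e ⊆ Bv ve S (j + k) → (e ∈ F1 ↔ e ∈ F2))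
    (hW : ∀ v ∈ Bv ve S (j + k), v ∈ W1 ↔ v ∈ W2) {v : V} (hv : v ∈ Bv ve S j) (l : List E)
    (hl : l.length < k) (hval : Val ve F1 l W1 v) :
    ed ve F2 (wk ve l W2 v).1 (wk ve l W1 v).2 = ed ve F1 (wk ve l W1 v).1 (wk ve l W1 v).2 := by
  obtain ⟨P, hP, hwk⟩ := wk_set h2 l W1 v hv hval
  have hw := wk_vertex h2 l W1 v hv hval
  rw [(hwk W2).1, (hwk W1).1]
  refine LocA_ed_eq (S := S) (m := j + l.length) ?_ ?_ hw
  · intro e he
    exact (hF e (he.trans (Bv_mono ve S (by omega)))).symm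
  · intro u hu
    exact (hW u (Bv_mono ve S (by omega) hu)).symm

lemma LocA_two {ve : E → Finset V} (h2 : ∀ e, (ve e).card = 2) (e : E) :
    ∃ x y, x ≠ y ∧ ve e = {x, y} := card_eq_two.1 (h2 e)

theorem loc_close {ve : E → Finset V} (h2 : ∀ e, (ve e).card = 2) {Λ : ℝ} (hΛ : 0 ≤ Λ)
    {lam : E → ℝ} (hl : ∀ e, 0 ≤ lam e)
    (hs : ∀ v, ∑ e ∈ univ.filter (fun e => v ∈ ve e), lam e ≤ Λ)
    (G : Finset E) (e₀ : E) {j k R : ℕ} (hR : j + k + 3 ≤ R) {U W : Finset V} (hUW : U ⊆ W)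
    (hW : Disjoint (W \ U) (Bv ve (ve e₀) (R - 1))) {e : E} (he : e ∈ FB ve G e₀ j)
    (hd : Disjoint (ve e) U) :
    |Real.log (fr ve lam (FB ve G e₀ R) W (ve e)) - Real.log (fr ve lam G U (ve e))| ≤
      4 * ((Λ / (1 + Λ)) ^ k * Real.log (1 + Λ)) := by
  obtain ⟨x, y, hxy, hve⟩ := LocA_two h2 e
  have heB : ve e ⊆ Bv ve (ve e₀) j := by
    unfold FB at he
    exact (mem_filter.1 he).2
  have hxB : x ∈ Bv ve (ve e₀) j := heB (by rw [hve]; simp)
  have hyB : y ∈ Bv ve (ve e₀) j := heB (by rw [hve]; simp)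
  have hs' : ∀ (F : Finset E) (v : V), ∑ e ∈ F.filter (fun e => v ∈ ve e), lam e ≤ Λ := by
    intro F v
    refine (sum_le_sum_of_subset_of_nonneg ?_ fun e _ _ => hl e).trans (hs v)
    exact filter_subset_filter _ (subset_univ _)
  have hWU : ∀ v ∈ Bv ve (ve e₀) (R - 1), v ∈ W ↔ v ∈ U := by
    intro v hv
    constructor
    · intro h
      by_contra h'
      exact Finset.disjoint_left.1 hW (mem_sdiff.2 ⟨h, h'⟩) hv
    · exact fun h => hUW h
  have hF : ∀ f, ve f ⊆ Bv ve (ve e₀) (j + k) → (f ∈ FB ve G e₀ R ↔ f ∈ G) := by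
    intro f hf
    unfold FB
    rw [mem_filter]
    exact ⟨fun h => h.1, fun h => ⟨h, hf.trans (Bv_mono ve _ (by omega))⟩⟩
  have hx : x ∉ U := fun h => Finset.disjoint_left.1 hd (by rw [hve]; simp) h
  have hy : y ∉ U := fun h => Finset.disjoint_left.1 hd (by rw [hve]; simp) h
  have hxW : x ∉ W := fun h => hx ((hWU x (Bv_mono ve _ (by omega) hxB)).1 h)
  have hyW : y ∉ W := fun h => hy ((hWU y (Bv_mono ve _ (by omega) hyB)).1 h)
  have c1 := fr_close h2 hΛ hl (hs' (FB ve G e₀ R)) (hs' G) k W U x hxW hx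
    (fun l hl' hval => LocA_walk h2 hF (fun v hv => hWU v (Bv_mono ve _ (by omega) hv)) hxB l hl'
      hval)
  have c2 := fr_close h2 hΛ hl (hs' (FB ve G e₀ R)) (hs' G) k (W ∪ {x}) (U ∪ {x}) y
    (by rw [mem_union, mem_singleton]; exact fun h => h.elim hyW fun h => hxy h.symm)
    (by rw [mem_union, mem_singleton]; exact fun h => h.elim hy fun h => hxy h.symm)
    (fun l hl' hval => LocA_walk h2 hF (fun v hv => by
      rw [mem_union, mem_union, hWU v (Bv_mono ve _ (by omega) hv)]) hyB l hl' hval)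
  have e1 : ve e = {x} ∪ {y} := by rw [hve]; rfl
  rw [e1, fr_union ve hl, fr_union ve hl, Real.log_mul (fr_pos ve hl _ _ _).ne'
    (fr_pos ve hl _ _ _).ne', Real.log_mul (fr_pos ve hl _ _ _).ne' (fr_pos ve hl _ _ _).ne']
  rw [abs_le] at c1 c2 ⊢
  constructor <;> linarith [c1.1, c1.2, c2.1, c2.2]

end Pool.Agent.KH
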