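import Pool.Agent.Lib.MP_30840b_co_h61.Dec
import Pool.Agent.Lib.MP_30840b_co_h61.Ball
import Pool.Agent.Lib.MP_30840b_co_h61.LocA1

set_option autoImplicit false

open Finset Classical

namespace Pool.Agent.KH

variable {V E : Type} [Fintype V] [Fintype E]

/-- the truncated recursion computed from the edges near `e₀` is close to the exact probability:
the graph `G'` and the removed set `U'` are arbitrary, only their parts near `e₀` are used. -/
theorem near_close {ve : E → Finset V} (h2 : ∀ e, (ve e).card = 2) {Λ : ℝ} (hΛ : 0 ≤ Λ)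
    {lam : E → ℝ} (hl : ∀ e, 0 ≤ lam e)
    (hs : ∀ v, ∑ e ∈ univ.filter (fun e => v ∈ ve e), lam e ≤ Λ)
    (G G' : Finset E) (e₀ : E) {r : ℕ} {U U' N : Finset V} {F' : Finset E} {x y : V}
    (hxy : ve e₀ = {x, y}) (hne : x ≠ y)
    (hG' : ∀ e, ve e ⊆ Bv ve (ve e₀) (r + 2) → (e ∈ G' ↔ e ∈ F'))
    (hF' : F' ⊆ FB ve G e₀ (r + 3))
    (hU' : ∀ v ∈ Bv ve (ve e₀) (r + 2), v ∈ U' ↔ v ∈ U ∪ N)
    (hd : Disjoint (ve e₀) U') :
    |Real.log (fr ve lam G' U' (ve e₀)) -
      Real.log (T ve lam F' r (U ∪ N) x * T ve lam F' r (insert x (U ∪ N)) y)| ≤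
      2 * ((Λ / (1 + Λ)) ^ r * Real.log (1 + Λ)) := by
  have hs' : ∀ (F : Finset E) (v : V), ∑ e ∈ F.filter (fun e => v ∈ ve e), lam e ≤ Λ := by
    intro F v
    refine (sum_le_sum_of_subset_of_nonneg ?_ fun e _ _ => hl e).trans (hs v)
    exact filter_subset_filter _ (subset_univ _)
  have hxB : x ∈ Bv ve (ve e₀) 0 := by
    change x ∈ ve e₀
    rw [hxy]
    simp
  have hyB : y ∈ Bv ve (ve e₀) 0 := by
    change y ∈ ve e₀
    rw [hxy]
    simp
  have hx : x ∉ U' := fun h => Finset.disjoint_left.1 hd (by rw [hxy]; simp) h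
  have hy : y ∉ U' := fun h => Finset.disjoint_left.1 hd (by rw [hxy]; simp) h
  have hF : ∀ f, ve f ⊆ Bv ve (ve e₀) (0 + r) → (f ∈ G' ↔ f ∈ F') :=
    fun f hf => hG' f (hf.trans (Bv_mono ve _ (by omega)))
  have c1 := perturb h2 hΛ hl hl (hs' G') (hs' F') (le_refl (0 : ℝ)) r U' (U ∪ N) x hx
    (fun l hl' hval => by
      have h3 := LocA_walk h2 hF (fun v hv => hU' v (Bv_mono ve _ (by omega) hv)) hxB l hl' hval
      refine ⟨h3.subset, ?_⟩
      rw [h3, sub_self, abs_zero])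
  have c2 := perturb h2 hΛ hl hl (hs' G') (hs' F') (le_refl (0 : ℝ)) r (U' ∪ {x})
    (insert x (U ∪ N)) y
    (by rw [mem_union, mem_singleton]; exact fun h => h.elim hy fun h => hne h.symm)
    (fun l hl' hval => by
      have h3 := LocA_walk (W2 := insert x (U ∪ N)) h2 hF (fun v hv => by
        rw [mem_union, mem_insert, mem_singleton, hU' v (Bv_mono ve _ (by omega) hv)]
        exact or_comm) hyB l hl' hval
      refine ⟨h3.subset, ?_⟩
      rw [h3, sub_self, abs_zero])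
  have e1 : ve e₀ = {x} ∪ {y} := by rw [hxy]; rfl
  have hT : ∀ W v, 0 < T ve lam F' r W v := fun W v =>
    lt_of_lt_of_le (by positivity) (T_ge hl (hs' F') hΛ r W v)
  rw [e1, fr_union ve hl, Real.log_mul (fr_pos ve hl _ _ _).ne' (fr_pos ve hl _ _ _).ne',
    Real.log_mul (hT _ _).ne' (hT _ _).ne']
  rw [zero_mul, zero_add, abs_le] at c1 c2
  rw [abs_le]
  constructor <;> linarith [c1.1, c1.2, c2.1, c2.2]

end Pool.Agent.KH
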