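import Pool.Agent.Lib.MP_30840b_co_h61.Loc
import Pool.Agent.Lib.MP_30840b_co_h61.LocA1

set_option autoImplicit false

open Finset Classical

namespace Pool.Agent.KH

variable {V E C : Type} [Fintype V] [Fintype E] [Fintype C]

lemma LocB1_prod {α : Type} (s : Finset α) (x y : α → ℝ) (hx0 : ∀ i ∈ s, 0 ≤ x i)
    (hx1 : ∀ i ∈ s, x i ≤ 1) (hy0 : ∀ i ∈ s, 0 ≤ y i) (hy1 : ∀ i ∈ s, y i ≤ 1) :
    |∏ i ∈ s, (1 - x i) - ∏ i ∈ s, (1 - y i)| ≤ ∑ i ∈ s, |x i - y i| := by
  induction s using Finset.induction_on with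
  | empty => simp
  | insert i s hi ih =>
    rw [prod_insert hi, prod_insert hi, sum_insert hi]
    have h1 := ih (fun j hj => hx0 j (mem_insert_of_mem hj)) (fun j hj => hx1 j (mem_insert_of_mem hj))
      (fun j hj => hy0 j (mem_insert_of_mem hj)) (fun j hj => hy1 j (mem_insert_of_mem hj))
    obtain ⟨A, hA⟩ : ∃ A, A = ∏ i ∈ s, (1 - x i) := ⟨_, rfl⟩
    obtain ⟨B, hB⟩ : ∃ B, B = ∏ i ∈ s, (1 - y i) := ⟨_, rfl⟩
    have hA0 : 0 ≤ A := by
      rw [hA]
      exact prod_nonneg fun j hj => by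
        have := hx1 j (mem_insert_of_mem hj)
        linarith
    have hA1 : A ≤ 1 := by
      rw [hA]
      refine prod_le_one (fun j hj => ?_) fun j hj => ?_
      · have := hx1 j (mem_insert_of_mem hj)
        linarith
      · have := hx0 j (mem_insert_of_mem hj)
        linarith
    rw [← hA, ← hB] at h1 ⊢
    have e1 : (1 - x i) * A - (1 - y i) * B = (y i - x i) * A + (1 - y i) * (A - B) := by ring
    rw [e1]
    have h2 : |(y i - x i) * A| ≤ |x i - y i| := by
      rw [abs_mul, abs_sub_comm, abs_of_nonneg hA0]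
      calc |x i - y i| * A ≤ |x i - y i| * 1 := mul_le_mul_of_nonneg_left hA1 (abs_nonneg _)
        _ = |x i - y i| := mul_one _
    have h3 : |(1 - y i) * (A - B)| ≤ |A - B| := by
      have g1 := hy0 i (mem_insert_self i s)
      have g2 := hy1 i (mem_insert_self i s)
      rw [abs_mul, abs_of_nonneg (show 0 ≤ 1 - y i by linarith)]
      calc (1 - y i) * |A - B| ≤ 1 * |A - B| := mul_le_mul_of_nonneg_right (by linarith) (abs_nonneg _)
        _ = |A - B| := one_mul _
    linarith [abs_add_le ((y i - x i) * A) ((1 - y i) * (A - B))]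

lemma LocB1_exp {x y t : ℝ} (hx : 0 < x) (hx1 : x ≤ 1) (hy : 0 < y) (hy1 : y ≤ 1)
    (h : |Real.log x - Real.log y| ≤ t) : |y - x| ≤ Real.exp t - 1 := by
  rw [abs_le] at h
  have h1 : x ≤ y * Real.exp t := by
    have : Real.log x ≤ Real.log y + t := by linarith
    calc x = Real.exp (Real.log x) := (Real.exp_log hx).symm
      _ ≤ Real.exp (Real.log y + t) := Real.exp_le_exp.2 this
      _ = y * Real.exp t := by rw [Real.exp_add, Real.exp_log hy]
  have h2 : y ≤ x * Real.exp t := by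
    have : Real.log y ≤ Real.log x + t := by linarith
    calc y = Real.exp (Real.log y) := (Real.exp_log hy).symm
      _ ≤ Real.exp (Real.log x + t) := Real.exp_le_exp.2 this
      _ = x * Real.exp t := by rw [Real.exp_add, Real.exp_log hx]
  have ht : 1 ≤ Real.exp t := Real.one_le_exp (by linarith)
  rw [abs_le]
  constructor
  · nlinarith
  · nlinarith

/-- an activity times the probability that both ends are free is at most one -/
lemma LocB1_le_one {ve : E → Finset V} (h2 : ∀ e, (ve e).card = 2) {lam : E → ℝ}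
    (hl : ∀ e, 0 ≤ lam e) {F : Finset E} {W : Finset V} {e : E} (he : e ∈ F)
    (hd : Disjoint (ve e) W) : lam e * fr ve lam F W (ve e) ≤ 1 := by
  have hZ : 0 < Z ve lam F W := lt_of_lt_of_le one_pos (one_le_Z ve hl _ _)
  have h1 := sum_mem h2 lam he hd
  have h3 : ∑ M ∈ (MS ve F W).filter (fun M => e ∈ M), ∏ f ∈ M, lam f ≤ Z ve lam F W :=
    sum_le_sum_of_subset_of_nonneg (filter_subset _ _) fun M _ _ => prod_nonneg fun f _ => hl f
  rw [h1] at h3
  unfold fr
  rw [mul_div_assoc', div_le_one hZ]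
  exact h3

theorem Loc.isLaw {ve : E → Finset V} {lam : E → ℝ} {L : E → Finset C} {G : Finset E}
    {U : C → Finset V} {θ : ℝ} {a : E → ℝ} {Λ : ℝ} {D : ℕ} {e₀ : E} {R : ℕ} {W : C → Finset V}
    (H : Loc ve lam L G U θ a Λ D e₀ R W) :
    IsLaw (fun c => pc ve lam θ a (FB ve G e₀ R) (W c)) := fun c =>
  ⟨fun g => pc_nonneg ve (fun e => (H.l0 e).le) H.t0.le (by linarith [H.t1]) H.a0 H.a1 _ _ g,
    pc_sum ve (fun e => (H.l0 e).le) θ a _ _⟩

theorem Loc.sum_le {ve : E → Finset V} {lam : E → ℝ} {L : E → Finset C} {G : Finset E}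
    {U : C → Finset V} {θ : ℝ} {a : E → ℝ} {Λ : ℝ} {D : ℕ} {e₀ : E} {R : ℕ} {W : C → Finset V}
    (H : Loc ve lam L G U θ a Λ D e₀ R W) (v : V) :
    ∑ e ∈ univ.filter (fun e => v ∈ ve e), lam e ≤ Λ := by
  have h1 := sum_le_card_nsmul (univ.filter fun e => v ∈ ve e) lam (Λ / D) fun e _ => H.l1 e
  rw [nsmul_eq_mul] at h1
  have h2 : ((univ.filter fun e => v ∈ ve e).card : ℝ) ≤ D := by exact_mod_cast H.hd v
  have hD : (0 : ℝ) < D := by exact_mod_cast H.hD
  have hΛ := H.hΛ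
  calc _ ≤ ((univ.filter fun e => v ∈ ve e).card : ℝ) * (Λ / D) := h1
    _ ≤ D * (Λ / D) := mul_le_mul_of_nonneg_right h2 (by positivity)
    _ = Λ := by field_simp

theorem loc_del {ve : E → Finset V} {lam : E → ℝ} {L : E → Finset C} {G : Finset E}
    {U : C → Finset V} {θ : ℝ} {a : E → ℝ} {Λ : ℝ} {D : ℕ} {e₀ : E} {R : ℕ} {W : C → Finset V}
    (H : Loc ve lam L G U θ a Λ D e₀ R W) {j k : ℕ} (hR : j + k + 3 ≤ R) {e : E}
    (he : e ∈ FB ve G e₀ j) (S : Finset C) (hS : S ⊆ L e) (hS1 : (L e \ S).card ≤ 1)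
    (p' : C → (E → Fin 4) → ℝ) (hp' : IsLaw p')
    (hpp : ∀ c ∈ S, p' c = pc ve lam θ a (FB ve G e₀ R) (W c)) :
    |Ex p' (fun ω => if ∃ c ∈ S, ω c e = 3 then 1 else 0) - θ| ≤ er Λ D k := by
  have hl0 : ∀ e, 0 ≤ lam e := fun e => (H.l0 e).le
  have hΛ0 : 0 ≤ Λ := by linarith [H.hΛ]
  have hD : (0 : ℝ) < D := by exact_mod_cast H.hD
  have ht0 := H.t0
  have ht1 := H.t1
  -- the position of the edge
  have heG : e ∈ G := (mem_filter.1 he).1
  have hej : ve e ⊆ Bv ve (ve e₀) j := (mem_filter.1 he).2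
  have heB : ve e ⊆ Bv ve (ve e₀) (R - 1) := hej.trans (Bv_mono ve _ (by omega))
  have heR : e ∈ FB ve G e₀ R := mem_filter.2 ⟨heG, hej.trans (Bv_mono ve _ (by omega))⟩
  have hWU : ∀ c, Disjoint (ve e) (U c) → Disjoint (ve e) (W c) := by
    intro c hc
    rw [disjoint_left] at hc ⊢
    intro x hx hxW
    by_cases hxU : x ∈ U c
    · exact hc hx hxU
    · exact disjoint_left.1 (H.hW c) (mem_sdiff.2 ⟨hxW, hxU⟩) (heB hx)
  -- the two families
  obtain ⟨x, hx⟩ : ∃ x : C → ℝ, x = fun c => θ * a e * (lam e * fr ve lam G (U c) (ve e)) :=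
    ⟨_, rfl⟩
  obtain ⟨P, hP⟩ : ∃ P : C → ℝ, P = fun c => ∑ g, p' c g * (if g e = 3 then 1 else 0) := ⟨_, rfl⟩
  have hprod := H.ha e heG
  have hta : 0 ≤ θ * a e := mul_nonneg ht0.le (H.a0 e)
  have hta1 : θ * a e ≤ 1 := by
    have := mul_le_mul (show θ ≤ 1 by linarith) (H.a1 e) (H.a0 e) zero_le_one
    linarith
  have hP0 : ∀ c, 0 ≤ P c := by
    intro c
    rw [hP]
    refine sum_nonneg fun g _ => mul_nonneg ((hp' c).1 g) ?_
    split_ifs <;> norm_num
  have hP1 : ∀ c, P c ≤ 1 := by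
    intro c
    rw [hP]
    refine (sum_le_sum fun g _ => ?_).trans (hp' c).2.le
    have := (hp' c).1 g
    split_ifs <;> linarith
  have hPav : ∀ c ∈ S, c ∈ av ve L U e →
      P c = θ * a e * (lam e * fr ve lam (FB ve G e₀ R) (W c) (ve e)) := by
    intro c hc hcav
    rw [hP]
    simp only
    rw [hpp c hc]
    exact pc_three H.h2 hl0 θ a heR (hWU c (mem_filter.1 hcav).2)
  have hPnav : ∀ c ∈ S, c ∉ av ve L U e → P c = 0 := by
    intro c hc hcav
    rw [hP]
    simp only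
    rw [hpp c hc]
    refine sum_eq_zero fun g _ => ?_
    by_cases hg : pc ve lam θ a (FB ve G e₀ R) (W c) g = 0
    · rw [hg, zero_mul]
    · have h1 : g e = 0 := by
        refine pc_three_zero θ a (fun h => hcav ?_) g hg
        exact mem_filter.2 ⟨hS hc, h.2.mono_right (H.hUW c)⟩
      rw [h1, if_neg (by decide), mul_zero]
  -- the expectation
  have hEx : Ex p' (fun ω => if ∃ c ∈ S, ω c e = 3 then 1 else 0) = 1 - ∏ c ∈ S, (1 - P c) := by
    have h1 : (fun ω : C → E → Fin 4 => if ∃ c ∈ S, ω c e = 3 then (1 : ℝ) else 0) =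
        fun ω => 1 + (-1) * ∏ c ∈ S, (if ω c e = 3 then (0 : ℝ) else 1) := by
      funext ω
      by_cases h : ∃ c ∈ S, ω c e = 3
      · rw [if_pos h]
        obtain ⟨c, hc, hce⟩ := h
        have h3 : ∏ c ∈ S, (if ω c e = 3 then (0 : ℝ) else 1) = 0 :=
          Finset.prod_eq_zero hc (by rw [if_pos hce])
        rw [h3]
        ring
      · have h3 : ∏ c ∈ S, (if ω c e = 3 then (0 : ℝ) else 1) = 1 :=
          Finset.prod_eq_one fun c hc => by rw [if_neg fun hce => h ⟨c, hc, hce⟩]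
        rw [if_neg h, h3]
        ring
    have h0 := Ex_prod p' hp' S (fun (_ : C) (g : E → Fin 4) => if g e = 3 then (0 : ℝ) else 1)
    rw [h1, Ex_add, Ex_const hp', Ex_smul, h0]
    have h2 : ∀ c ∈ S, ∑ g, p' c g * (if g e = 3 then (0 : ℝ) else 1) = 1 - P c := by
      intro c _
      have h3 : ∑ g, p' c g * (if g e = 3 then (0 : ℝ) else 1) + P c = ∑ g, p' c g := by
        rw [hP]
        simp only
        rw [← sum_add_distrib]
        refine sum_congr rfl fun g _ => ?_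
        split_ifs <;> ring
      rw [(hp' c).2] at h3
      linarith
    rw [prod_congr rfl h2]
    ring
  -- the product over the available colours
  obtain ⟨y, hy⟩ : ∃ y : C → ℝ, y = fun c => if c ∈ S then P c else 0 := ⟨_, rfl⟩
  have hSy : ∏ c ∈ S, (1 - P c) = ∏ c ∈ av ve L U e, (1 - y c) := by
    have h1 : ∏ c ∈ S, (1 - P c) = ∏ c ∈ S.filter (fun c => c ∈ av ve L U e), (1 - P c) := by
      refine (prod_filter_of_ne fun c hc hne => ?_).symm
      by_contra hcav
      exact hne (by rw [hPnav c hc hcav, sub_zero])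
    have h2 : ∏ c ∈ av ve L U e, (1 - y c) = ∏ c ∈ (av ve L U e).filter (fun c => c ∈ S),
        (1 - y c) := by
      refine (prod_filter_of_ne fun c hc hne => ?_).symm
      by_contra hcS
      exact hne (by rw [hy]; simp only; rw [if_neg hcS, sub_zero])
    rw [h1, h2]
    refine prod_congr ?_ fun c hc => ?_
    · ext c
      simp only [mem_filter]
      tauto
    · rw [hy]
      simp only
      rw [if_pos (mem_filter.1 hc).2]
  have hxp : ∏ c ∈ av ve L U e, (1 - x c) = 1 - θ := by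
    rw [hx]
    exact hprod
  rw [hEx, hSy]
  have e1 : 1 - ∏ c ∈ av ve L U e, (1 - y c) - θ =
      ∏ c ∈ av ve L U e, (1 - x c) - ∏ c ∈ av ve L U e, (1 - y c) := by
    rw [hxp]
    ring
  rw [e1]
  have hx0 : ∀ c ∈ av ve L U e, 0 ≤ x c := by
    intro c _
    rw [hx]
    exact mul_nonneg hta (mul_nonneg (hl0 e) (fr_pos ve hl0 _ _ _).le)
  have hx1 : ∀ c ∈ av ve L U e, x c ≤ 1 := by
    intro c hc
    rw [hx]
    have h1 := LocB1_le_one H.h2 hl0 heG (mem_filter.1 hc).2
    have h3 : 0 ≤ lam e * fr ve lam G (U c) (ve e) := mul_nonneg (hl0 e) (fr_pos ve hl0 _ _ _).le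
    simp only
    calc θ * a e * (lam e * fr ve lam G (U c) (ve e)) ≤ 1 * 1 := mul_le_mul hta1 h1 h3 zero_le_one
      _ = 1 := one_mul 1
  have hy0 : ∀ c ∈ av ve L U e, 0 ≤ y c := by
    intro c _
    rw [hy]
    simp only
    split_ifs
    · exact hP0 c
    · exact le_rfl
  have hy1 : ∀ c ∈ av ve L U e, y c ≤ 1 := by
    intro c _
    rw [hy]
    simp only
    split_ifs
    · exact hP1 c
    · exact zero_le_one
  refine (LocB1_prod _ x y hx0 hx1 hy0 hy1).trans ?_
  -- the two parts of the sum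
  obtain ⟨t, ht⟩ : ∃ t : ℝ, t = 4 * ((Λ / (1 + Λ)) ^ k * Real.log (1 + Λ)) := ⟨_, rfl⟩
  have ht0' : 0 ≤ t := by
    rw [ht]
    have := Real.log_nonneg (show (1 : ℝ) ≤ 1 + Λ by linarith)
    positivity
  have hexp : 0 ≤ Real.exp t - 1 := by linarith [Real.one_le_exp ht0']
  have hb1 : ∀ c ∈ (av ve L U e).filter (fun c => c ∈ S), |x c - y c| ≤
      Λ / D * (Real.exp t - 1) := by
    intro c hc
    obtain ⟨hc1, hc2⟩ := mem_filter.1 hc
    have hdU := (mem_filter.1 hc1).2
    have h1 := loc_close H.h2 hΛ0 hl0 H.sum_le G e₀ hR (H.hUW c) (H.hW c) he hdU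
    rw [← ht] at h1
    have h3 := LocB1_exp (fr_pos ve hl0 (FB ve G e₀ R) (W c) (ve e)) (fr_le_one ve hl0 _ _ _)
      (fr_pos ve hl0 G (U c) (ve e)) (fr_le_one ve hl0 _ _ _) h1
    rw [hx, hy]
    simp only
    rw [if_pos hc2, hPav c hc2 hc1]
    have e2 : θ * a e * (lam e * fr ve lam G (U c) (ve e)) -
        θ * a e * (lam e * fr ve lam (FB ve G e₀ R) (W c) (ve e)) =
        θ * a e * lam e * (fr ve lam G (U c) (ve e) -
          fr ve lam (FB ve G e₀ R) (W c) (ve e)) := by ring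
    rw [e2, abs_mul, abs_of_nonneg (mul_nonneg hta (hl0 e))]
    have h4 : θ * a e * lam e ≤ Λ / D := by
      calc θ * a e * lam e ≤ 1 * lam e := mul_le_mul_of_nonneg_right hta1 (hl0 e)
        _ = lam e := one_mul _
        _ ≤ Λ / D := H.l1 e
    exact mul_le_mul h4 h3 (abs_nonneg _) (by positivity)
  have hb2 : ∀ c ∈ (av ve L U e).filter (fun c => ¬ c ∈ S), |x c - y c| ≤ Λ / D := by
    intro c hc
    obtain ⟨hc1, hc2⟩ := mem_filter.1 hc
    have h0 := hx0 c hc1
    rw [hy]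
    simp only
    rw [if_neg hc2, sub_zero, abs_of_nonneg h0, hx]
    simp only
    calc θ * a e * (lam e * fr ve lam G (U c) (ve e)) ≤ 1 * (lam e * 1) := by
          refine mul_le_mul hta1 ?_ (mul_nonneg (hl0 e) (fr_pos ve hl0 _ _ _).le) zero_le_one
          exact mul_le_mul_of_nonneg_left (fr_le_one ve hl0 _ _ _) (hl0 e)
      _ = lam e := by ring
      _ ≤ Λ / D := H.l1 e
  rw [← sum_filter_add_sum_filter_not (av ve L U e) (fun c => c ∈ S)]
  have hs1 := sum_le_card_nsmul _ _ _ hb1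
  have hs2 := sum_le_card_nsmul _ _ _ hb2
  rw [nsmul_eq_mul] at hs1 hs2
  have hc1 : (((av ve L U e).filter (fun c => c ∈ S)).card : ℝ) ≤ 2 * D := by
    have h1 : ((av ve L U e).filter (fun c => c ∈ S)).card ≤ (L e).card := by
      refine card_le_card fun c hc => ?_
      exact (mem_filter.1 (mem_filter.1 hc).1).1
    exact_mod_cast h1.trans (H.hL e)
  have hc2 : (((av ve L U e).filter (fun c => ¬ c ∈ S)).card : ℝ) ≤ 1 := by
    have h1 : ((av ve L U e).filter (fun c => ¬ c ∈ S)).card ≤ (L e \ S).card := by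
      refine card_le_card fun c hc => ?_
      obtain ⟨h3, h4⟩ := mem_filter.1 hc
      exact mem_sdiff.2 ⟨(mem_filter.1 h3).1, h4⟩
    exact_mod_cast h1.trans hS1
  have hf1 : (((av ve L U e).filter (fun c => c ∈ S)).card : ℝ) * (Λ / D * (Real.exp t - 1)) ≤
      2 * Λ * (Real.exp t - 1) := by
    calc _ ≤ 2 * D * (Λ / D * (Real.exp t - 1)) := mul_le_mul_of_nonneg_right hc1 (by positivity)
      _ = 2 * Λ * (Real.exp t - 1) := by field_simp
  have hf2 : (((av ve L U e).filter (fun c => ¬ c ∈ S)).card : ℝ) * (Λ / D) ≤ Λ / D := by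
    calc _ ≤ 1 * (Λ / D) := mul_le_mul_of_nonneg_right hc2 (by positivity)
      _ = Λ / D := one_mul _
  unfold er
  rw [← ht]
  linarith

end Pool.Agent.KH
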