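import Pool.Agent.Lib.MP_30840b_co_h61.LocB1
import Pool.Agent.Lib.MP_30840b_co_h61.Bern

set_option autoImplicit false

open Finset Classical

namespace Pool.Agent.KH

variable {V E C : Type} [Fintype V] [Fintype E] [Fintype C]

/-- changing one coordinate -/
lemma LocB2_lip (S : Finset E) (b : E → ℝ) {B₀ : ℝ} (b0 : ∀ e ∈ S, 0 ≤ b e)
    (b1 : ∀ e ∈ S, b e ≤ B₀) (hB : 0 ≤ B₀) (L' : E → Finset C) (ω : C → E → Fin 4) (i : C)
    (k : E → Fin 4)
    (h1 : ∀ e ∈ S, ∀ f ∈ S, i ∈ L' e → i ∈ L' f → k e = 3 → k f = 3 → e = f)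
    (h2 : ∀ e ∈ S, ∀ f ∈ S, i ∈ L' e → i ∈ L' f → ω i e = 3 → ω i f = 3 → e = f) :
    |(∑ e ∈ S, b e * (if ∃ c ∈ L' e, Function.update ω i k c e = 3 then 1 else 0)) -
      ∑ e ∈ S, b e * (if ∃ c ∈ L' e, ω c e = 3 then 1 else 0)| ≤
      B₀ * ((if ∃ e ∈ S, i ∈ L' e ∧ k e = 3 then 1 else 0) +
        (if ∃ e ∈ S, i ∈ L' e ∧ ω i e = 3 then 1 else 0)) := by
  have hone : ∀ g : E → Fin 4,
      (∀ e ∈ S, ∀ f ∈ S, i ∈ L' e → i ∈ L' f → g e = 3 → g f = 3 → e = f) →
      ∑ e ∈ S, b e * (if i ∈ L' e ∧ g e = 3 then (1 : ℝ) else 0) ≤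
        B₀ * (if ∃ e ∈ S, i ∈ L' e ∧ g e = 3 then 1 else 0) := by
    intro g hg
    by_cases h : ∃ e ∈ S, i ∈ L' e ∧ g e = 3
    · rw [if_pos h, mul_one]
      obtain ⟨e, he, hie, hge⟩ := h
      rw [sum_eq_single_of_mem e he]
      · rw [if_pos ⟨hie, hge⟩, mul_one]
        exact b1 e he
      · intro f hf hfe
        rw [if_neg, mul_zero]
        rintro ⟨hif, hgf⟩
        exact hfe (hg f hf e he hif hie hgf hge)
    · rw [if_neg h, mul_zero]
      refine le_of_eq (sum_eq_zero fun e he => ?_)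
      rw [if_neg fun h' => h ⟨e, he, h'⟩, mul_zero]
  have hterm : ∀ e ∈ S, |b e * (if ∃ c ∈ L' e, Function.update ω i k c e = 3 then (1 : ℝ) else 0) -
      b e * (if ∃ c ∈ L' e, ω c e = 3 then 1 else 0)| ≤
      b e * (if i ∈ L' e ∧ k e = 3 then (1 : ℝ) else 0) +
        b e * (if i ∈ L' e ∧ ω i e = 3 then (1 : ℝ) else 0) := by
    intro e he
    rw [← mul_sub, abs_mul, abs_of_nonneg (b0 e he), ← mul_add]
    refine mul_le_mul_of_nonneg_left ?_ (b0 e he)
    by_cases hk : i ∈ L' e ∧ k e = 3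
    · rw [if_pos hk, if_pos ⟨i, hk.1, by rw [Function.update_self]; exact hk.2⟩]
      split_ifs <;> norm_num
    · by_cases hw : i ∈ L' e ∧ ω i e = 3
      · rw [if_pos hw, if_neg hk, if_pos (show ∃ c ∈ L' e, ω c e = 3 from ⟨i, hw⟩)]
        split_ifs <;> norm_num
      · rw [if_neg hw, if_neg hk]
        have hiff : (∃ c ∈ L' e, Function.update ω i k c e = 3) ↔ ∃ c ∈ L' e, ω c e = 3 := by
          constructor
          · rintro ⟨c, hc, h3⟩
            by_cases hci : c = i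
            · subst hci
              rw [Function.update_self] at h3
              exact absurd ⟨hc, h3⟩ hk
            · rw [Function.update_of_ne hci] at h3
              exact ⟨c, hc, h3⟩
          · rintro ⟨c, hc, h3⟩
            by_cases hci : c = i
            · subst hci
              exact absurd ⟨hc, h3⟩ hw
            · exact ⟨c, hc, by rw [Function.update_of_ne hci]; exact h3⟩
        rw [if_congr hiff rfl rfl, sub_self, abs_zero, add_zero]
  rw [← sum_sub_distrib]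
  refine (abs_sum_le_sum_abs _ _).trans ((sum_le_sum hterm).trans ?_)
  rw [sum_add_distrib, mul_add]
  exact add_le_add (hone k h1) (hone (ω i) h2)

/-- concentration of the deletions at a vertex -/
theorem loc_dev {ve : E → Finset V} {lam : E → ℝ} {L : E → Finset C} {G : Finset E}
    {U : C → Finset V} {θ : ℝ} {a : E → ℝ} {Λ : ℝ} {D : ℕ} {e₀ : E} {R : ℕ} {W : C → Finset V}
    (H : Loc ve lam L G U θ a Λ D e₀ R W) {j k : ℕ} (hR : j + k + 3 ≤ R) (v : V) (S : Finset E)
    (hS : ∀ e ∈ S, e ∈ FB ve G e₀ j ∧ v ∈ ve e) (b : E → ℝ) {B₀ : ℝ} (hB : 0 < B₀)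
    (b0 : ∀ e ∈ S, 0 ≤ b e) (b1 : ∀ e ∈ S, b e ≤ B₀)
    (L' : E → Finset C) (hL' : ∀ e ∈ S, L' e ⊆ L e) (hL1 : ∀ e ∈ S, (L e \ L' e).card ≤ 1)
    (p' : C → (E → Fin 4) → ℝ) (hp' : IsLaw p')
    (hpp : ∀ c, (∃ e ∈ S, c ∈ L' e) → p' c = pc ve lam θ a (FB ve G e₀ R) (W c))
    {δ : ℝ} (hδ : 0 < δ) (hδ1 : δ ≤ 1) :
    Pb p' (fun ω => B₀ * D * (δ + er Λ D k) ≤
      |∑ e ∈ S, b e * (if ∃ c ∈ L' e, ω c e = 3 then 1 else 0) - θ * ∑ e ∈ S, b e|) ≤
      2 * Real.exp (-(δ ^ 2 / (64 * Λ) * D)) := by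
  have hl0 : ∀ e, 0 ≤ lam e := fun e => (H.l0 e).le
  have hΛ := H.hΛ
  have hΛ0 : 0 < Λ := by linarith
  have hD : (0 : ℝ) < D := by exact_mod_cast H.hD
  have ht0 := H.t0
  have ht1 := H.t1
  have hScard : (S.card : ℝ) ≤ D := by
    have h1 : S.card ≤ dg ve univ v := by
      unfold dg
      exact card_le_card fun e he => mem_filter.2 ⟨mem_univ e, (hS e he).2⟩
    exact_mod_cast h1.trans (H.hd v)
  -- the activity of a mark function
  obtain ⟨h, hh⟩ : ∃ h : C → (E → Fin 4) → ℝ, h = fun c g =>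
    if ∃ e ∈ S, c ∈ L' e ∧ g e = 3 then 1 else 0 := ⟨_, rfl⟩
  have h0 : ∀ c g, 0 ≤ h c g := by
    intro c g
    rw [hh]
    simp only
    split_ifs <;> norm_num
  have h1 : ∀ c g, h c g ≤ 1 := by
    intro c g
    rw [hh]
    simp only
    split_ifs <;> norm_num
  -- mark functions in the support have at most one active edge
  have huniq : ∀ c g, p' c g ≠ 0 → ∀ e ∈ S, ∀ f ∈ S, c ∈ L' e → c ∈ L' f → g e = 3 → g f = 3 →
      e = f := by
    intro c g hg e he f hf hce hcf hge hgf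
    rw [hpp c ⟨e, he, hce⟩] at hg
    have hM := MS_mem.1 (pc_supp hg)
    by_contra hne
    have h3 : ∀ e, g e = 3 → e ∈ sM g := by
      intro e he
      rw [sM, mem_filter]
      refine ⟨mem_univ e, ?_⟩
      rw [he]
      decide
    have h4 := hM.2.1 e (h3 e hge) f (h3 f hgf) hne
    exact disjoint_left.1 h4 (hS e he).2 (hS f hf).2
  obtain ⟨f, hf⟩ : ∃ f : (C → E → Fin 4) → ℝ, f = fun ω =>
    ∑ e ∈ S, b e * (if ∃ c ∈ L' e, ω c e = 3 then 1 else 0) := ⟨_, rfl⟩
  have hlip : ∀ ω i k, (∀ j, p' j (ω j) ≠ 0) → p' i k ≠ 0 →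
      |f (Function.update ω i k) - f ω| ≤ B₀ * (h i k + h i (ω i)) := by
    intro ω i k hω hk
    rw [hf, hh]
    exact LocB2_lip S b b0 b1 hB.le L' ω i k (huniq i k hk) (huniq i (ω i) (hω i))
  -- the total activity
  have hPe : ∀ c, ∀ e ∈ S, c ∈ L' e → ∑ g, p' c g * (if g e = 3 then (1 : ℝ) else 0) ≤ Λ / D := by
    intro c e he hc
    rw [hpp c ⟨e, he, hc⟩]
    have heG : e ∈ G := (mem_filter.1 (hS e he).1).1
    have heR : e ∈ FB ve G e₀ R := mem_filter.2 ⟨heG,
      (mem_filter.1 (hS e he).1).2.trans (Bv_mono ve _ (by omega))⟩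
    by_cases hd : Disjoint (ve e) (W c)
    · rw [pc_three H.h2 hl0 θ a heR hd]
      have ha0 := H.a0 e
      have ha1 := H.a1 e
      have hta1 : θ * a e ≤ 1 := by
        have := mul_le_mul (show θ ≤ 1 by linarith) ha1 ha0 zero_le_one
        linarith
      have hta : 0 ≤ θ * a e := mul_nonneg ht0.le ha0
      calc θ * a e * (lam e * fr ve lam (FB ve G e₀ R) (W c) (ve e)) ≤ 1 * (lam e * 1) := by
            refine mul_le_mul hta1 ?_ (mul_nonneg (hl0 e) (fr_pos ve hl0 _ _ _).le) zero_le_one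
            exact mul_le_mul_of_nonneg_left (fr_le_one ve hl0 _ _ _) (hl0 e)
        _ = lam e := by ring
        _ ≤ Λ / D := H.l1 e
    · refine le_trans (le_of_eq (sum_eq_zero fun g _ => ?_)) (by positivity)
      by_cases hg : pc ve lam θ a (FB ve G e₀ R) (W c) g = 0
      · rw [hg, zero_mul]
      · rw [pc_three_zero θ a (fun h => hd h.2) g hg, if_neg (by decide), mul_zero]
  have hv : ∑ c, ∑ g, p' c g * h c g ≤ 2 * Λ * D := by
    have h3 : ∀ c, ∑ g, p' c g * h c g ≤ ∑ e ∈ S, if c ∈ L' e then Λ / D else 0 := by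
      intro c
      have h4 : ∀ g, p' c g * h c g ≤
          ∑ e ∈ S, if c ∈ L' e then p' c g * (if g e = 3 then (1 : ℝ) else 0) else 0 := by
        intro g
        have hp0 := (hp' c).1 g
        have hnn : ∀ e ∈ S, 0 ≤ if c ∈ L' e then p' c g * (if g e = 3 then (1 : ℝ) else 0) else 0 := by
          intro e _
          split_ifs
          · linarith
          · linarith
          · exact le_rfl
        rw [hh]
        simp only
        by_cases hex : ∃ e ∈ S, c ∈ L' e ∧ g e = 3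
        · rw [if_pos hex, mul_one]
          obtain ⟨e, he, hce, hge⟩ := hex
          have h5 := single_le_sum hnn he
          rw [if_pos hce, if_pos hge, mul_one] at h5
          exact h5
        · rw [if_neg hex, mul_zero]
          exact sum_nonneg hnn
      refine (sum_le_sum fun g _ => h4 g).trans ?_
      rw [sum_comm]
      refine sum_le_sum fun e he => ?_
      by_cases hce : c ∈ L' e
      · simp only [if_pos hce]
        exact hPe c e he hce
      · simp only [if_neg hce]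
        rw [sum_const_zero]
    refine (sum_le_sum fun c _ => h3 c).trans ?_
    rw [sum_comm]
    have h4 : ∀ e ∈ S, (∑ c, if c ∈ L' e then Λ / D else 0) ≤ 2 * Λ := by
      intro e he
      rw [← sum_filter, sum_const, nsmul_eq_mul]
      have h5 : ((univ.filter fun c => c ∈ L' e).card : ℝ) ≤ 2 * D := by
        have h6 : (univ.filter fun c => c ∈ L' e).card ≤ (L e).card := by
          refine card_le_card fun c hc => hL' e he (mem_filter.1 hc).2
        exact_mod_cast h6.trans (H.hL e)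
      calc _ ≤ 2 * D * (Λ / D) := mul_le_mul_of_nonneg_right h5 (by positivity)
        _ = 2 * Λ := by field_simp
    have h5 := sum_le_card_nsmul _ _ _ h4
    rw [nsmul_eq_mul] at h5
    refine h5.trans ?_
    calc (S.card : ℝ) * (2 * Λ) ≤ D * (2 * Λ) := mul_le_mul_of_nonneg_right hScard (by positivity)
      _ = 2 * Λ * D := by ring
  -- the expectation
  have hEx : |Ex p' f - θ * ∑ e ∈ S, b e| ≤ B₀ * D * er Λ D k := by
    have h3 : Ex p' f = ∑ e ∈ S, b e * Ex p' (fun ω => if ∃ c ∈ L' e, ω c e = 3 then 1 else 0) := by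
      rw [hf, Ex_sum]
      exact sum_congr rfl fun e _ => Ex_smul p' (b e) _
    rw [h3, mul_sum, ← sum_sub_distrib]
    refine (abs_sum_le_sum_abs _ _).trans ?_
    have h4 : ∀ e ∈ S, |b e * Ex p' (fun ω => if ∃ c ∈ L' e, ω c e = 3 then 1 else 0) -
        θ * b e| ≤ B₀ * er Λ D k := by
      intro e he
      have h5 := loc_del H hR (hS e he).1 (L' e) (hL' e he) (hL1 e he) p' hp'
        (fun c hc => hpp c ⟨e, he, hc⟩)
      have e1 : b e * Ex p' (fun ω => if ∃ c ∈ L' e, ω c e = 3 then 1 else 0) - θ * b e =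
          b e * (Ex p' (fun ω => if ∃ c ∈ L' e, ω c e = 3 then 1 else 0) - θ) := by ring
      rw [e1, abs_mul, abs_of_nonneg (b0 e he)]
      exact mul_le_mul (b1 e he) h5 (abs_nonneg _) hB.le
    have h5 := sum_le_card_nsmul _ _ _ h4
    rw [nsmul_eq_mul] at h5
    refine h5.trans ?_
    have her : 0 ≤ er Λ D k := by
      unfold er
      have h6 : 0 ≤ 4 * ((Λ / (1 + Λ)) ^ k * Real.log (1 + Λ)) := by
        have := Real.log_nonneg (show (1 : ℝ) ≤ 1 + Λ by linarith)
        positivity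
      have h7 := Real.one_le_exp h6
      have h8 : 0 ≤ Real.exp (4 * ((Λ / (1 + Λ)) ^ k * Real.log (1 + Λ))) - 1 := by linarith
      positivity
    calc (S.card : ℝ) * (B₀ * er Λ D k) ≤ D * (B₀ * er Λ D k) :=
          mul_le_mul_of_nonneg_right hScard (by positivity)
      _ = B₀ * D * er Λ D k := by ring
  -- Bernstein
  have hbern := bern hp' f h h0 h1 hB hlip hv (s := δ / (32 * Λ * B₀)) (t := B₀ * D * δ)
    (by positivity) (by
      have e1 : 4 * (δ / (32 * Λ * B₀) * B₀) = δ / (8 * Λ) := by field_simp; ring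
      rw [e1, div_le_one (by positivity)]
      linarith)
  refine le_trans (Pb_mono hp' fun ω _ hω => ?_) (hbern.trans (le_of_eq ?_))
  · have h3 : |∑ e ∈ S, b e * (if ∃ c ∈ L' e, ω c e = 3 then (1 : ℝ) else 0) -
        θ * ∑ e ∈ S, b e| ≤ |f ω - Ex p' f| + |Ex p' f - θ * ∑ e ∈ S, b e| := by
      have e1 : f ω = ∑ e ∈ S, b e * (if ∃ c ∈ L' e, ω c e = 3 then (1 : ℝ) else 0) := by rw [hf]
      rw [← e1]
      exact abs_sub_le _ _ _
    have e2 : B₀ * D * (δ + er Λ D k) = B₀ * D * δ + B₀ * D * er Λ D k := by ring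
    linarith
  · congr 2
    field_simp
    ring

end Pool.Agent.KH
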