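import Pool.Agent.Lib.MP_30840b_co_h61.Loc

/-! The error at the end of a walk. -/

set_option autoImplicit false

open Finset Classical

namespace Pool.Agent.KH

variable {V E C : Type} [Fintype V] [Fintype E] [Fintype C]

/-- the error at the end of the walk `l` started at the vertex `v` with removed set `X`
(`X` contains the vertices covered by the thinned matching of the colour) -/
noncomputable def we (ve : E → Finset V) (lam : E → ℝ) (θ : ℝ) (L : E → Finset C)
    (FR : Finset E) (X : Finset V) (v : V) (l : List E) (ω : C → E → Fin 4) : ℝ :=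
  |∑ e ∈ ed ve FR (wk ve l X v).1 (wk ve l X v).2,
      (1 - θ) * lam e * fr ve (fun e => (1 - θ) * lam e) FR
        (insert (wk ve l X v).2 (wk ve l X v).1) {oe ve e (wk ve l X v).2} -
    ∑ e ∈ (ed ve FR (wk ve l X v).1 (wk ve l X v).2).filter (fun e => ¬ ∃ c ∈ L e, ω c e = 3),
      lam e * fr ve (fun e => (1 - θ) * lam e) FR
        (insert (wk ve l X v).2 (wk ve l X v).1) {oe ve e (wk ve l X v).2}|

end Pool.Agent.KH
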