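import Pool.Agent.Lib.MP_30840b_co_h61.LocC
import Pool.Agent.Lib.MP_30840b_co_h61.LocB2

set_option autoImplicit false

open Finset Classical

namespace Pool.Agent.KH

variable {V E C : Type} [Fintype V] [Fintype E] [Fintype C]

/-- one walk, one colour: the error is small with high probability -/
theorem walk_dev {ve : E → Finset V} {lam : E → ℝ} {L : E → Finset C} {G : Finset E}
    {U : C → Finset V} {θ : ℝ} {a : E → ℝ} {Λ : ℝ} {D : ℕ} {e₀ : E} {R : ℕ} {W : C → Finset V}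
    (H : Loc ve lam L G U θ a Λ D e₀ R W) {r k : ℕ} (hR : r + k + 7 ≤ R) (c : C) (v : V)
    (hv : v ∈ ve e₀) (Y : Finset V) (l : List E) (hlen : l.length < r)
    {δ : ℝ} (hδ : 0 < δ) (hδ1 : δ ≤ 1) :
    Pb (fun c => pc ve lam θ a (FB ve G e₀ R) (W c)) (fun ω =>
      v ∉ Y ∪ (W c ∪ cov ve (sN (ω c))) ∧
      Val ve (FB ve G e₀ R) l (Y ∪ (W c ∪ cov ve (sN (ω c)))) v ∧
      Λ * (δ + er Λ D k) ≤
        we ve lam θ L (FB ve G e₀ R) (Y ∪ (W c ∪ cov ve (sN (ω c)))) v l ω) ≤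
      2 * Real.exp (-(δ ^ 2 / (64 * Λ) * D)) := by
  have hl0 : ∀ e, 0 ≤ lam e := fun e => (H.l0 e).le
  have hΛ0 : 0 < Λ := by linarith [H.hΛ]
  have hD : (0 : ℝ) < D := by exact_mod_cast H.hD
  have ht0 := H.t0
  have ht1 := H.t1
  have hlaw := H.isLaw
  refine Pb_cond_le hlaw c _ fun g _ => ?_
  obtain ⟨p', hp'⟩ : ∃ p' : C → (E → Fin 4) → ℝ, p' =
    Function.update (fun c => pc ve lam θ a (FB ve G e₀ R) (W c)) c
      (fun j => @ite ℝ (j = g) (propDecidable (j = g)) 1 0) := ⟨_, rfl⟩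
  have hlaw' : IsLaw p' := by
    rw [hp']
    exact IsLaw_update hlaw c g
  rw [← hp']
  obtain ⟨X, hX⟩ : ∃ X, X = Y ∪ (W c ∪ cov ve (sN g)) := ⟨_, rfl⟩
  have hωc : ∀ ω : C → E → Fin 4, (∀ i, p' i (ω i) ≠ 0) → ω c = g := by
    intro ω hω
    have h1 := hω c
    rw [hp', Function.update_self] at h1
    by_contra hne
    exact h1 (if_neg hne)
  have hbound : 0 ≤ 2 * Real.exp (-(δ ^ 2 / (64 * Λ) * D)) := by positivity
  by_cases hval : Val ve (FB ve G e₀ R) l X v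
  swap
  · refine le_trans (Pb_mono hlaw' (B := fun _ => False) fun ω hω h => ?_) ?_
    · rw [hωc ω hω, ← hX] at h
      exact hval h.2.1
    · refine le_trans (le_of_eq ?_) hbound
      unfold Pb Ex
      simp
  have hv0 : v ∈ Bv ve (ve e₀) 0 := hv
  obtain ⟨X', hX'⟩ : ∃ X', X' = (wk ve l X v).1 := ⟨_, rfl⟩
  obtain ⟨x', hx'⟩ : ∃ x', x' = (wk ve l X v).2 := ⟨_, rfl⟩
  have hx'B : x' ∈ Bv ve (ve e₀) (0 + l.length) := by
    rw [hx']
    exact wk_vertex H.h2 l X v hv0 hval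
  have hXX' : X ⊆ X' := by
    obtain ⟨P, -, hP⟩ := wk_set H.h2 l X v hv0 hval
    rw [hX', (hP X).1]
    exact subset_union_left
  obtain ⟨S, hS⟩ : ∃ S, S = ed ve (FB ve G e₀ R) X' x' := ⟨_, rfl⟩
  have hSmem : ∀ e ∈ S, e ∈ FB ve G e₀ R ∧ x' ∈ ve e ∧ Disjoint (ve e) X' := by
    intro e he
    rw [hS, ed, mem_filter] at he
    exact he
  have hS1 : ∀ e ∈ S, e ∈ FB ve G e₀ r ∧ x' ∈ ve e := by
    intro e he
    obtain ⟨h1, h2, -⟩ := hSmem e he
    refine ⟨mem_filter.2 ⟨(mem_filter.1 h1).1, ?_⟩, h2⟩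
    have h3 : ¬ Disjoint (ve e) (Bv ve (ve e₀) (0 + l.length)) :=
      fun h => disjoint_left.1 h h2 hx'B
    exact (edge_Bv h3).trans (Bv_mono ve _ (by omega))
  have hge : ∀ e ∈ S, g e ≠ 3 := by
    intro e he hg3
    obtain ⟨-, h2, h3⟩ := hSmem e he
    have h4 : e ∈ sN g := by
      rw [sN, mem_filter]
      exact ⟨mem_univ e, Or.inr hg3⟩
    have h5 : x' ∈ X := by
      rw [hX]
      refine mem_union_right _ (mem_union_right _ ?_)
      unfold cov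
      exact mem_biUnion.2 ⟨e, h4, h2⟩
    exact disjoint_left.1 h3 h2 (hXX' h5)
  obtain ⟨b, hb⟩ : ∃ b : E → ℝ, b = fun e =>
    lam e * fr ve (fun e => (1 - θ) * lam e) (FB ve G e₀ R) (insert x' X') {oe ve e x'} := ⟨_, rfl⟩
  have hl0' : ∀ e, 0 ≤ (1 - θ) * lam e := fun e => mul_nonneg (by linarith) (hl0 e)
  have b0 : ∀ e ∈ S, 0 ≤ b e := by
    intro e _
    rw [hb]
    exact mul_nonneg (hl0 e) (fr_pos ve hl0' _ _ _).le
  have b1 : ∀ e ∈ S, b e ≤ Λ / D := by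
    intro e _
    rw [hb]
    calc lam e * fr ve (fun e => (1 - θ) * lam e) (FB ve G e₀ R) (insert x' X') {oe ve e x'}
        ≤ lam e * 1 := mul_le_mul_of_nonneg_left (fr_le_one ve hl0' _ _ _) (hl0 e)
      _ = lam e := mul_one _
      _ ≤ Λ / D := H.l1 e
  have hdev := loc_dev H (j := r) (k := k) (by omega) x' S hS1 b (B₀ := Λ / D) (by positivity)
    b0 b1 (fun e => (L e).erase c) (fun e _ => erase_subset _ _) (fun e _ => by
      have h1 : L e \ (L e).erase c ⊆ {c} := by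
        intro c' hc'
        rw [mem_sdiff, mem_erase] at hc'
        rw [mem_singleton]
        by_contra hne
        exact hc'.2 ⟨hne, hc'.1⟩
      exact (card_le_card h1).trans (card_singleton c).le) p' hlaw' (fun c' ⟨e, _, hc'⟩ => by
      rw [hp', Function.update_of_ne (mem_erase.1 hc').1]) hδ hδ1
  refine le_trans (Pb_mono hlaw' fun ω hω h => ?_) hdev
  have hc := hωc ω hω
  obtain ⟨-, -, h3⟩ := h
  rw [hc, ← hX] at h3
  have e1 : Λ / D * D * (δ + er Λ D k) = Λ * (δ + er Λ D k) := by field_simp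
  rw [e1]
  refine h3.trans (le_of_eq ?_)
  unfold we
  rw [← hX', ← hx', ← hS]
  have hiff : ∀ e ∈ S, (∃ c' ∈ (L e).erase c, ω c' e = 3) ↔ ∃ c' ∈ L e, ω c' e = 3 := by
    intro e he
    constructor
    · rintro ⟨c', hc', h4⟩
      exact ⟨c', (mem_erase.1 hc').2, h4⟩
    · rintro ⟨c', hc', h4⟩
      refine ⟨c', mem_erase.2 ⟨?_, hc'⟩, h4⟩
      rintro rfl
      rw [hc] at h4
      exact hge e he h4
  have e2 : ∑ e ∈ S.filter (fun e => ¬ ∃ c ∈ L e, ω c e = 3),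
      lam e * fr ve (fun e => (1 - θ) * lam e) (FB ve G e₀ R) (insert x' X') {oe ve e x'} =
      ∑ e ∈ S, (b e - b e * (if ∃ c' ∈ (L e).erase c, ω c' e = 3 then 1 else 0)) := by
    rw [sum_filter]
    refine sum_congr rfl fun e he => ?_
    rw [hb]
    by_cases h4 : ∃ c' ∈ L e, ω c' e = 3
    · rw [if_neg (not_not.2 h4), if_pos ((hiff e he).2 h4)]
      ring
    · rw [if_pos h4, if_neg fun h5 => h4 ((hiff e he).1 h5)]
      ring
  have e3 : ∑ e ∈ S, (1 - θ) * lam e *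
      fr ve (fun e => (1 - θ) * lam e) (FB ve G e₀ R) (insert x' X') {oe ve e x'} =
      (1 - θ) * ∑ e ∈ S, b e := by
    rw [mul_sum, hb]
    exact sum_congr rfl fun e _ => by ring
  rw [e2, e3, sum_sub_distrib]
  congr 1
  ring

end Pool.Agent.KH
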