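import Pool.Agent.Lib.MP_30840b_co_h61.LocC

set_option autoImplicit false
set_option linter.unusedSectionVars false

open Finset Classical

namespace Pool.Agent.KH

variable {V E C : Type} [Fintype V] [Fintype E] [Fintype C]

namespace LocC2

lemma sum_le {ve : E → Finset V} {lam : E → ℝ} {L : E → Finset C} {G : Finset E}
    {U : C → Finset V} {θ : ℝ} {a : E → ℝ} {Λ : ℝ} {D : ℕ} {e₀ : E} {R : ℕ} {W : C → Finset V}
    (H : Loc ve lam L G U θ a Λ D e₀ R W) (F : Finset E) (v : V) :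
    ∑ e ∈ F.filter (fun e => v ∈ ve e), lam e ≤ Λ := by
  have hD : (0 : ℝ) < D := by exact_mod_cast H.hD
  have hΛ : (0 : ℝ) < Λ := lt_of_lt_of_le one_pos H.hΛ
  have h1 : ∑ e ∈ F.filter (fun e => v ∈ ve e), lam e ≤
      (F.filter (fun e => v ∈ ve e)).card • (Λ / D) :=
    sum_le_card_nsmul _ _ _ fun e _ => H.l1 e
  have h3 : (F.filter (fun e => v ∈ ve e)).card ≤ D :=
    (card_le_card (filter_subset_filter _ (subset_univ F))).trans (H.hd v)
  have h4 : ((F.filter (fun e => v ∈ ve e)).card : ℝ) ≤ D := by exact_mod_cast h3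
  rw [nsmul_eq_mul] at h1
  refine h1.trans ((mul_le_mul_of_nonneg_right h4 (by positivity)).trans (le_of_eq ?_))
  field_simp

/-- the edges at the end of a walk in the two systems -/
lemma ed_eq {ve : E → Finset V} (h2 : ∀ e, (ve e).card = 2) {G : Finset E} {e₀ : E} {r R : ℕ}
    (hR : r + 4 ≤ R) (L : E → Finset C) (ω : C → E → Fin 4) {W1 W2 : Finset V}
    (hW : ∀ v ∈ Bv ve (ve e₀) r, v ∈ W1 ↔ v ∈ W2) {v : V} (hv : v ∈ ve e₀) (l : List E)
    (hl : l.length < r) (hval : Val ve (FB ve G e₀ R) l W1 v) :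
    ed ve (FB ve G e₀ (r + 3) \ Dl L (FB ve G e₀ (r + 3)) ω) (wk ve l W2 v).1
        (wk ve l W1 v).2 =
      (ed ve (FB ve G e₀ R) (wk ve l W1 v).1 (wk ve l W1 v).2).filter
        (fun e => ¬ ∃ c ∈ L e, ω c e = 3) := by
  have hv0 : v ∈ Bv ve (ve e₀) 0 := hv
  obtain ⟨P, -, hPW⟩ := wk_set h2 l W1 v hv0 hval
  have hu := wk_vertex h2 l W1 v hv0 hval
  rw [zero_add] at hu
  have hsub : ∀ e, (wk ve l W1 v).2 ∈ ve e → ve e ⊆ Bv ve (ve e₀) (l.length + 1) := by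
    intro e he
    refine edge_Bv ?_
    rw [Finset.not_disjoint_iff]
    exact ⟨_, he, hu⟩
  have hdis : ∀ e, (wk ve l W1 v).2 ∈ ve e →
      (Disjoint (ve e) (wk ve l W2 v).1 ↔ Disjoint (ve e) (wk ve l W1 v).1) := by
    intro e he
    rw [(hPW W2).1, (hPW W1).1, disjoint_union_right, disjoint_union_right]
    have h3 : Disjoint (ve e) W2 ↔ Disjoint (ve e) W1 := by
      rw [Finset.disjoint_left, Finset.disjoint_left]
      have h4 : ∀ w ∈ ve e, (w ∈ W1 ↔ w ∈ W2) := fun w hw =>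
        hW w (Bv_mono ve _ (by omega) (hsub e he hw))
      constructor
      · intro h w hw hw1
        exact h hw ((h4 w hw).1 hw1)
      · intro h w hw hw2
        exact h hw ((h4 w hw).2 hw2)
    rw [h3]
  have hFB : ∀ e k, l.length + 1 ≤ k → (wk ve l W1 v).2 ∈ ve e → e ∈ G → e ∈ FB ve G e₀ k :=
    fun e k hk he heG => mem_filter.2 ⟨heG, (hsub e he).trans (Bv_mono ve _ hk)⟩
  ext e
  constructor
  · intro he
    obtain ⟨h3, h4, h5⟩ := mem_filter.1 he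
    obtain ⟨h6, h7⟩ := mem_sdiff.1 h3
    have heG : e ∈ G := (mem_filter.1 h6).1
    refine mem_filter.2 ⟨mem_filter.2 ⟨hFB e R (by omega) h4 heG, h4, (hdis e h4).1 h5⟩, ?_⟩
    intro h8
    exact h7 (mem_filter.2 ⟨h6, h8⟩)
  · intro he
    obtain ⟨h3, h4⟩ := mem_filter.1 he
    obtain ⟨h5, h6, h7⟩ := mem_filter.1 h3
    have heG : e ∈ G := (mem_filter.1 h5).1
    refine mem_filter.2 ⟨mem_sdiff.2 ⟨hFB e (r + 3) (by omega) h6 heG, ?_⟩, h6, (hdis e h6).2 h7⟩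
    intro h8
    exact h4 (mem_filter.1 h8).2

/-- comparison for one root vertex -/
lemma one_root {ve : E → Finset V} {lam : E → ℝ} {L : E → Finset C} {G : Finset E}
    {U : C → Finset V} {θ : ℝ} {a : E → ℝ} {Λ : ℝ} {D : ℕ} {e₀ : E} {R : ℕ} {W : C → Finset V}
    (H : Loc ve lam L G U θ a Λ D e₀ R W) {r : ℕ} (hR : r + 4 ≤ R) (ω : C → E → Fin 4)
    {W1 W2 : Finset V} (hW : ∀ v ∈ Bv ve (ve e₀) r, v ∈ W1 ↔ v ∈ W2) {v : V} (hv : v ∈ ve e₀)
    (hv1 : v ∉ W1) {ε : ℝ} (hε : 0 ≤ ε)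
    (hx : ∀ l : List E, l.length < r → Val ve (FB ve G e₀ R) l W1 v →
      we ve lam θ L (FB ve G e₀ R) W1 v l ω ≤ ε) :
    |Real.log (fr ve (fun e => (1 - θ) * lam e) (FB ve G e₀ R) W1 {v}) -
      Real.log (T ve lam (FB ve G e₀ (r + 3) \ Dl L (FB ve G e₀ (r + 3)) ω) r W2 v)| ≤
      ε * (1 + Λ) + (Λ / (1 + Λ)) ^ r * Real.log (1 + Λ) := by
  have hθ : 0 ≤ 1 - θ := by linarith [H.t1]
  have hΛ : 0 ≤ Λ := zero_le_one.trans H.hΛ
  refine perturb H.h2 hΛ (fun e => mul_nonneg hθ (H.l0 e).le) (fun e => (H.l0 e).le) ?_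
    (fun v => sum_le H _ v) hε r W1 W2 v hv1 ?_
  · intro w
    refine le_trans (sum_le_sum fun e _ => ?_) (sum_le H (FB ve G e₀ R) w)
    have := (H.l0 e).le
    have := H.t0
    nlinarith
  · intro l hl hval
    have h1 := ed_eq H.h2 hR L ω hW hv l hl hval
    rw [h1]
    exact ⟨filter_subset _ _, hx l hl hval⟩

end LocC2

/-- deterministic comparison: if all walks are good then the term of the colour `c` in `QT` is close
to the probability in the thinned model -/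
theorem term_close {ve : E → Finset V} {lam : E → ℝ} {L : E → Finset C} {G : Finset E}
    {U : C → Finset V} {θ : ℝ} {a : E → ℝ} {Λ : ℝ} {D : ℕ} {e₀ : E} {R : ℕ} {W : C → Finset V}
    (H : Loc ve lam L G U θ a Λ D e₀ R W) {r : ℕ} (hR : r + 6 ≤ R) {x y : V}
    (hxy : ve e₀ = {x, y}) (hne : x ≠ y) (c : C) (ω : C → E → Fin 4)
    (hω : ∀ c, pc ve lam θ a (FB ve G e₀ R) (W c) (ω c) ≠ 0)
    (hd : Disjoint (ve e₀) (U c ∪ cov ve (sN (ω c)))) {ε : ℝ} (hε : 0 ≤ ε)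
    (hx : ∀ l : List E, l.length < r →
      Val ve (FB ve G e₀ R) l (W c ∪ cov ve (sN (ω c))) x →
      we ve lam θ L (FB ve G e₀ R) (W c ∪ cov ve (sN (ω c))) x l ω ≤ ε)
    (hy : ∀ l : List E, l.length < r →
      Val ve (FB ve G e₀ R) l (insert x (W c ∪ cov ve (sN (ω c)))) y →
      we ve lam θ L (FB ve G e₀ R) (insert x (W c ∪ cov ve (sN (ω c)))) y l ω ≤ ε) :
    |Real.log (fr ve (fun e => (1 - θ) * lam e) (FB ve G e₀ R) (W c ∪ cov ve (sN (ω c))) (ve e₀)) -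
      Real.log (T ve lam (FB ve G e₀ (r + 3) \ Dl L (FB ve G e₀ (r + 3)) ω) r
          (U c ∪ cov ve (sN (ω c) ∩ FB ve G e₀ (r + 3))) x *
        T ve lam (FB ve G e₀ (r + 3) \ Dl L (FB ve G e₀ (r + 3)) ω) r
          (insert x (U c ∪ cov ve (sN (ω c) ∩ FB ve G e₀ (r + 3)))) y)| ≤
      2 * (ε * (1 + Λ) + (Λ / (1 + Λ)) ^ r * Real.log (1 + Λ)) := by
  have hθ : 0 ≤ 1 - θ := by linarith [H.t1]
  have hΛ : 0 ≤ Λ := zero_le_one.trans H.hΛ
  have hl1 : ∀ e, 0 ≤ (1 - θ) * lam e := fun e => mul_nonneg hθ (H.l0 e).le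
  have hl2 : ∀ e, 0 ≤ lam e := fun e => (H.l0 e).le
  have hxe : x ∈ ve e₀ := by rw [hxy]; simp
  have hye : y ∈ ve e₀ := by rw [hxy]; simp
  -- the two removed sets agree near the root
  have hWU : ∀ v ∈ Bv ve (ve e₀) r, v ∈ W c ↔ v ∈ U c := by
    intro v hv
    refine ⟨fun h => ?_, fun h => H.hUW c h⟩
    by_contra hno
    exact Finset.disjoint_left.1 (H.hW c) (mem_sdiff.2 ⟨h, hno⟩)
      (Bv_mono ve _ (by omega) hv)
  have hcov : ∀ v ∈ Bv ve (ve e₀) r, v ∈ cov ve (sN (ω c)) ↔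
      v ∈ cov ve (sN (ω c) ∩ FB ve G e₀ (r + 3)) := by
    intro v hv
    constructor
    · intro h
      obtain ⟨f, hf, hvf⟩ := mem_biUnion.1 h
      have h1 : f ∈ FB ve G e₀ R := (MS_mem.1 (pc_supp (hω c))).1 (sN_sub_sM _ hf)
      have h3 : ve f ⊆ Bv ve (ve e₀) (r + 1) :=
        edge_Bv (Finset.not_disjoint_iff.2 ⟨v, hvf, hv⟩)
      refine mem_biUnion.2 ⟨f, mem_inter.2 ⟨hf, mem_filter.2 ⟨(mem_filter.1 h1).1, ?_⟩⟩, hvf⟩
      exact h3.trans (Bv_mono ve _ (by omega))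
    · intro h
      obtain ⟨f, hf, hvf⟩ := mem_biUnion.1 h
      exact mem_biUnion.2 ⟨f, (mem_inter.1 hf).1, hvf⟩
  have hag : ∀ v ∈ Bv ve (ve e₀) r, v ∈ W c ∪ cov ve (sN (ω c)) ↔
      v ∈ U c ∪ cov ve (sN (ω c) ∩ FB ve G e₀ (r + 3)) := by
    intro v hv
    rw [mem_union, mem_union, hWU v hv, hcov v hv]
  have hag' : ∀ v ∈ Bv ve (ve e₀) r, v ∈ insert x (W c ∪ cov ve (sN (ω c))) ↔
      v ∈ insert x (U c ∪ cov ve (sN (ω c) ∩ FB ve G e₀ (r + 3))) := by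
    intro v hv
    rw [mem_insert, mem_insert, hag v hv]
  have hroot : ∀ v ∈ ve e₀, v ∉ W c ∪ cov ve (sN (ω c)) := by
    intro v hv h
    have hv' : v ∈ Bv ve (ve e₀) r := Bv_mono ve _ (Nat.zero_le r) hv
    have h1 := Finset.disjoint_left.1 hd hv
    rw [mem_union, not_or] at h1
    rcases mem_union.1 h with h | h
    · exact h1.1 ((hWU v hv').1 h)
    · exact h1.2 h
  have hy1 : y ∉ insert x (W c ∪ cov ve (sN (ω c))) := by
    rw [mem_insert, not_or]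
    exact ⟨hne.symm, hroot y hye⟩
  have b1 := LocC2.one_root H (by omega) ω hag hxe (hroot x hxe) hε hx
  have b2 := LocC2.one_root H (by omega) ω hag' hye hy1 hε hy
  -- the product
  have hfr : fr ve (fun e => (1 - θ) * lam e) (FB ve G e₀ R) (W c ∪ cov ve (sN (ω c))) (ve e₀) =
      fr ve (fun e => (1 - θ) * lam e) (FB ve G e₀ R) (W c ∪ cov ve (sN (ω c))) {x} *
      fr ve (fun e => (1 - θ) * lam e) (FB ve G e₀ R) (insert x (W c ∪ cov ve (sN (ω c)))) {y} := by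
    have h1 : ve e₀ = {x} ∪ {y} := by rw [hxy]; rfl
    have h3 : (W c ∪ cov ve (sN (ω c))) ∪ {x} = insert x (W c ∪ cov ve (sN (ω c))) := by
      rw [union_comm]; rfl
    rw [h1, fr_union ve hl1, h3]
  have p1 := fr_pos ve hl1 (FB ve G e₀ R) (W c ∪ cov ve (sN (ω c))) {x}
  have p2 := fr_pos ve hl1 (FB ve G e₀ R) (insert x (W c ∪ cov ve (sN (ω c)))) {y}
  have hTp : ∀ X v, 0 < T ve lam (FB ve G e₀ (r + 3) \ Dl L (FB ve G e₀ (r + 3)) ω) r X v :=
    fun X v => lt_of_lt_of_le (by positivity)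
      (T_ge hl2 (fun v => LocC2.sum_le H _ v) hΛ r X v)
  rw [hfr, Real.log_mul p1.ne' p2.ne', Real.log_mul (hTp _ _).ne' (hTp _ _).ne']
  refine le_trans (le_of_eq (congrArg abs ?_)) ((abs_add_le _ _).trans
    ((add_le_add b1 b2).trans (le_of_eq ?_)))
  · ring
  · ring

end Pool.Agent.KH
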