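import Pool.Agent.Lib.MP_30840b_co_h61.LocB2

set_option autoImplicit false

open Finset Classical

namespace Pool.Agent.KH

/-- The error is small. -/
lemma LocD2_er {Λ β : ℝ} (hΛ : 1 ≤ Λ) (hβ : 0 < β) : ∃ k₀ : ℕ, ∃ D₀ : ℕ, ∀ k ≥ k₀, ∀ D : ℕ,
    D₀ ≤ D → er Λ D k ≤ β := by
  have h0 : 0 ≤ Λ / (1 + Λ) := by positivity
  have h1 : Λ / (1 + Λ) < 1 := by rw [div_lt_one (by linarith)]; linarith
  have h2 : Filter.Tendsto (fun k : ℕ =>
      2 * Λ * (Real.exp (4 * ((Λ / (1 + Λ)) ^ k * Real.log (1 + Λ))) - 1)) Filter.atTop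
      (nhds (2 * Λ * (Real.exp (4 * (0 * Real.log (1 + Λ))) - 1))) := by
    refine Filter.Tendsto.const_mul _ (Filter.Tendsto.sub_const ?_ _)
    refine (Real.continuous_exp.tendsto _).comp ?_
    exact ((tendsto_pow_atTop_nhds_zero_of_lt_one h0 h1).mul_const _).const_mul _
  rw [zero_mul, mul_zero, Real.exp_zero, sub_self, mul_zero] at h2
  obtain ⟨k₀, hk⟩ := Filter.eventually_atTop.1 (h2.eventually (ge_mem_nhds (by positivity :
    (0 : ℝ) < β / 2)))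
  refine ⟨k₀, ⌈2 * Λ / β⌉₊ + 1, fun k hk' D hD => ?_⟩
  unfold er
  have h3 := hk k hk'
  have hD1 : (1 : ℝ) ≤ D := by exact_mod_cast (by omega : 1 ≤ D)
  have h4 : Λ / (D : ℝ) ≤ β / 2 := by
    rw [div_le_iff₀ (by linarith)]
    have h5 : 2 * Λ / β ≤ D := (Nat.le_ceil _).trans (by exact_mod_cast (by omega :
      ⌈2 * Λ / β⌉₊ ≤ D))
    rw [div_le_iff₀ hβ] at h5
    linarith
  linarith

/-- the degree part of the local estimate -/
theorem loc_deg (Λ β : ℝ) (hΛ : 1 ≤ Λ) (hβ : 0 < β) (hβ1 : β ≤ 1) (r : ℕ) :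
    ∃ R₀ : ℕ, ∀ R ≥ R₀, ∃ D₀ : ℕ, ∃ κ : ℝ, 0 < κ ∧ ∀ {V E C : Type} [Fintype V]
      [Fintype E] [Fintype C] (ve : E → Finset V) (lam : E → ℝ) (L : E → Finset C) (G : Finset E)
      (U : C → Finset V) (θ : ℝ) (a : E → ℝ) (D : ℕ) (e₀ : E) (W : C → Finset V) (v : V),
      D₀ ≤ D → Loc ve lam L G U θ a Λ D e₀ R W → v ∈ ve e₀ →
      Pb (fun c => pc ve lam θ a (FB ve G e₀ R) (W c))
        (fun ω => (1 - θ) * dg ve G v + β * D <
          (dg ve (FB ve G e₀ (r + 3) \ Dl L (FB ve G e₀ (r + 3)) ω) v : ℝ)) ≤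
        Real.exp (-(κ * D)) := by
  obtain ⟨k₀, D₁, her⟩ := LocD2_er (β := β / 2) hΛ (by positivity)
  refine ⟨k₀ + 4, fun R hR => ?_⟩
  set δ : ℝ := β / 2 with hδ
  set κ : ℝ := δ ^ 2 / (64 * Λ) / 2 with hκ
  have hκ0 : 0 < κ := by positivity
  refine ⟨max D₁ ⌈Real.log 2 / κ⌉₊, κ, hκ0, ?_⟩
  intro V E C _ _ _ ve lam L G U θ a D e₀ W v hD H hv
  have hD1 : D₁ ≤ D := le_trans (le_max_left _ _) hD
  have hDk : Real.log 2 / κ ≤ D := (Nat.le_ceil _).trans (by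
    exact_mod_cast le_trans (le_max_right _ _) hD)
  have hl : ∀ e, 0 ≤ lam e := fun e => (H.l0 e).le
  set S : Finset E := G.filter (fun e => v ∈ ve e) with hS
  have hSF : ∀ e ∈ S, ∀ m, 1 ≤ m → e ∈ FB ve G e₀ m := by
    intro e he m hm
    rw [hS, mem_filter] at he
    unfold FB
    rw [mem_filter]
    refine ⟨he.1, ?_⟩
    have h3 : ve e ⊆ Bv ve (ve e₀) (0 + 1) := edge_Bv (by
      rw [Finset.not_disjoint_iff]
      exact ⟨v, he.2, hv⟩)
    exact h3.trans (Bv_mono ve _ hm)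
  have hlaw : IsLaw (fun c => pc ve lam θ a (FB ve G e₀ R) (W c)) := fun c =>
    ⟨fun g => pc_nonneg ve hl H.t0.le (by linarith [H.t1]) H.a0 H.a1 _ _ g, pc_sum ve hl θ a _ _⟩
  have hdev := loc_dev H (j := 1) (k := R - 4) (by omega) v S
    (fun e he => ⟨hSF e he 1 le_rfl, (mem_filter.1 he).2⟩) (fun _ => 1) one_pos
    (fun e _ => zero_le_one) (fun e _ => le_refl _) L (fun e _ => Subset.refl _)
    (fun e _ => by simp) _ hlaw (fun c _ => rfl) (δ := δ) (by positivity) (by rw [hδ]; linarith)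
  have hone : Pb (fun c => pc ve lam θ a (FB ve G e₀ R) (W c))
      (fun ω => (1 - θ) * dg ve G v + β * D <
        (dg ve (FB ve G e₀ (r + 3) \ Dl L (FB ve G e₀ (r + 3)) ω) v : ℝ)) ≤
      2 * Real.exp (-(δ ^ 2 / (64 * Λ) * D)) := by
    refine (Pb_mono hlaw ?_).trans hdev
    intro ω _ h3
    have h4 : dg ve (FB ve G e₀ (r + 3) \ Dl L (FB ve G e₀ (r + 3)) ω) v ≤
        (S.filter (fun e => ¬ ∃ c ∈ L e, ω c e = 3)).card := by
      unfold dg
      refine card_le_card ?_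
      intro e he
      rw [mem_filter, mem_sdiff] at he
      obtain ⟨⟨he1, he2⟩, he3⟩ := he
      rw [mem_filter]
      refine ⟨mem_filter.2 ⟨?_, he3⟩, fun h => he2 ?_⟩
      · unfold FB at he1
        exact (mem_filter.1 he1).1
      · unfold Dl
        rw [mem_filter]
        exact ⟨he1, h⟩
    have h5 : (S.filter (fun e => ∃ c ∈ L e, ω c e = 3)).card +
        (S.filter (fun e => ¬ ∃ c ∈ L e, ω c e = 3)).card = S.card :=
      card_filter_add_card_filter_not _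
    have h6 : ∑ e ∈ S, (fun _ : E => (1 : ℝ)) e * (if ∃ c ∈ L e, ω c e = 3 then 1 else 0) =
        ((S.filter (fun e => ∃ c ∈ L e, ω c e = 3)).card : ℝ) := by
      simp only [one_mul]
      rw [sum_boole]
    have h7 : ∑ e ∈ S, (fun _ : E => (1 : ℝ)) e = (S.card : ℝ) := by
      simp only [sum_const, nsmul_eq_mul, mul_one]
    have h8 : dg ve G v = S.card := rfl
    rw [h6, h7, one_mul, le_abs]
    right
    have h9 : (dg ve (FB ve G e₀ (r + 3) \ Dl L (FB ve G e₀ (r + 3)) ω) v : ℝ) ≤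
        ((S.filter (fun e => ¬ ∃ c ∈ L e, ω c e = 3)).card : ℝ) := by exact_mod_cast h4
    have h10 : ((S.filter (fun e => ∃ c ∈ L e, ω c e = 3)).card : ℝ) +
        ((S.filter (fun e => ¬ ∃ c ∈ L e, ω c e = 3)).card : ℝ) = (S.card : ℝ) := by
      exact_mod_cast h5
    rw [h8] at h3
    have h11 : (D : ℝ) * (δ + er Λ D (R - 4)) ≤ β * D := by
      have h12 := her (R - 4) (by omega) D hD1
      have h13 : (0 : ℝ) ≤ D := Nat.cast_nonneg _
      nlinarith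
    linarith
  refine hone.trans ?_
  have h3 : (2 : ℝ) ≤ Real.exp (κ * D) := by
    rw [← Real.log_le_iff_le_exp (by norm_num)]
    rw [div_le_iff₀ hκ0] at hDk
    linarith
  have h4 : δ ^ 2 / (64 * Λ) * D = κ * D + κ * D := by
    rw [hκ]
    ring
  rw [h4, neg_add, Real.exp_add]
  have h5 : Real.exp (κ * D) * Real.exp (-(κ * D)) = 1 := by
    rw [← Real.exp_add, add_neg_cancel, Real.exp_zero]
  have h6 : 0 < Real.exp (-(κ * D)) := Real.exp_pos _
  nlinarith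

end Pool.Agent.KH
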