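import Pool.Agent.Lib.MP_30840b_co_h61.LocD1
import Pool.Agent.Lib.MP_30840b_co_h61.LocD2

set_option autoImplicit false

open Finset Classical

namespace Pool.Agent.KH

/-- the exponential beats the polynomial -/
lemma LocD_exp {κ : ℝ} (hκ : 0 < κ) (m : ℕ) : ∃ D₀ : ℕ, ∀ D : ℕ, D₀ ≤ D →
    3 * Real.exp (-(κ * D)) ≤ 1 / (16 * ((D : ℝ) + 1) ^ m) := by
  have h1 : Filter.Tendsto (fun D : ℕ => κ * ((D : ℝ) + 1)) Filter.atTop Filter.atTop :=
    Filter.Tendsto.const_mul_atTop hκ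
      (Filter.tendsto_atTop_add_const_right _ _ tendsto_natCast_atTop_atTop)
  have h2 := (Real.tendsto_pow_mul_exp_neg_atTop_nhds_zero m).comp h1
  have h3 : (0 : ℝ) < κ ^ m / (48 * Real.exp κ) := by positivity
  obtain ⟨D₀, hD₀⟩ := Filter.eventually_atTop.1 (h2.eventually (ge_mem_nhds h3))
  refine ⟨D₀, fun D hD => ?_⟩
  have h4 := hD₀ D hD
  simp only [Function.comp] at h4
  rw [mul_pow] at h4
  have h5 : Real.exp (-(κ * ((D : ℝ) + 1))) = Real.exp (-(κ * D)) / Real.exp κ := by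
    rw [← Real.exp_sub]
    congr 1
    ring
  rw [h5] at h4
  have hk : 0 < κ ^ m := by positivity
  have he : 0 < Real.exp κ := Real.exp_pos _
  have hD1 : (0 : ℝ) < ((D : ℝ) + 1) ^ m := by positivity
  rw [le_div_iff₀ (by positivity)]
  have h6 : κ ^ m * ((D : ℝ) + 1) ^ m * (Real.exp (-(κ * D)) / Real.exp κ) =
      κ ^ m / Real.exp κ * (((D : ℝ) + 1) ^ m * Real.exp (-(κ * D))) := by
    field_simp
  have h7 : κ ^ m / (48 * Real.exp κ) = κ ^ m / Real.exp κ * (1 / 48) := by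
    field_simp
  rw [h6, h7] at h4
  have h8 := le_of_mul_le_mul_left h4 (by positivity)
  linarith

/-- the local estimate -/
theorem local_est (Λ β : ℝ) (hΛ : 1 ≤ Λ) (hβ : 0 < β) (hβ1 : β ≤ 1) (r₁ : ℕ) :
    ∃ r R D₀ : ℕ, r₁ ≤ r ∧ r + 4 ≤ R ∧ ∀ {V E C : Type} [Fintype V]
      [Fintype E] [Fintype C] (ve : E → Finset V) (lam : E → ℝ) (L : E → Finset C) (G : Finset E)
      (U : C → Finset V) (θ : ℝ) (a : E → ℝ) (D : ℕ) (e₀ : E) (W : C → Finset V) (x y : V),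
      D₀ ≤ D → Loc ve lam L G U θ a Λ D e₀ R W → ve e₀ = {x, y} → x ≠ y →
      1 ≤ lam e₀ * Q ve lam L G U e₀ →
      Pb (fun c => pc ve lam θ a (FB ve G e₀ R) (W c))
        (fun ω => QT ve lam L (FB ve G e₀ (r + 3)) U r e₀ x y ω < (1 - β) * Q ve lam L G U e₀ ∨
          ∃ v ∈ ve e₀, (1 - θ) * dg ve G v + β * D <
            (dg ve (FB ve G e₀ (r + 3) \ Dl L (FB ve G e₀ (r + 3)) ω) v : ℝ)) ≤
        1 / (16 * (D + 1) ^ (R + r + 5)) := by
  obtain ⟨r₀, hQT⟩ := loc_QT Λ β hΛ hβ hβ1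
  set r := max r₀ r₁ with hr
  obtain ⟨R₁, hR₁⟩ := hQT r (le_max_left _ _)
  obtain ⟨R₂, hR₂⟩ := loc_deg Λ β hΛ hβ hβ1 r
  set R := max (max R₁ R₂) (r + 4) with hR
  obtain ⟨D₁, κ₁, hκ₁, h1⟩ := hR₁ R (le_trans (le_max_left _ _) (le_max_left _ _))
  obtain ⟨D₂, κ₂, hκ₂, h2⟩ := hR₂ R (le_trans (le_max_right _ _) (le_max_left _ _))
  obtain ⟨D₃, hD₃⟩ := LocD_exp (lt_min hκ₁ hκ₂) (R + r + 5)
  refine ⟨r, R, max (max D₁ D₂) D₃, le_max_right _ _, le_max_right _ _, ?_⟩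
  intro V E C _ _ _ ve lam L G U θ a D e₀ W x y hD H hxy hne hQ
  have hl : ∀ e, 0 ≤ lam e := fun e => (H.l0 e).le
  have hlaw : IsLaw (fun c => pc ve lam θ a (FB ve G e₀ R) (W c)) := fun c =>
    ⟨fun g => pc_nonneg ve hl H.t0.le (by linarith [H.t1]) H.a0 H.a1 _ _ g, pc_sum ve hl θ a _ _⟩
  have k1 := h1 ve lam L G U θ a D e₀ W x y
    (le_trans (le_trans (le_max_left _ _) (le_max_left _ _)) hD) H hxy hne hQ
  have k2 := fun v (hv : v ∈ ve e₀) => h2 ve lam L G U θ a D e₀ W v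
    (le_trans (le_trans (le_max_right _ _) (le_max_left _ _)) hD) H hv
  refine (Pb_or hlaw _ _).trans ?_
  refine le_trans (add_le_add k1 ((Pb_exists hlaw _ _).trans (sum_le_card_nsmul _ _ _ k2))) ?_
  rw [H.h2 e₀, nsmul_eq_mul]
  have hm1 : Real.exp (-(κ₁ * D)) ≤ Real.exp (-(min κ₁ κ₂ * D)) := by
    rw [Real.exp_le_exp, neg_le_neg_iff]
    exact mul_le_mul_of_nonneg_right (min_le_left _ _) (Nat.cast_nonneg _)
  have hm2 : Real.exp (-(κ₂ * D)) ≤ Real.exp (-(min κ₁ κ₂ * D)) := by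
    rw [Real.exp_le_exp, neg_le_neg_iff]
    exact mul_le_mul_of_nonneg_right (min_le_right _ _) (Nat.cast_nonneg _)
  have h3 := hD₃ D (le_trans (le_max_right _ _) hD)
  push_cast
  linarith

end Pool.Agent.KH
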