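import Pool.Agent.Lib.MP_30840b_co_h61.LocD1a

set_option autoImplicit false

open Finset Classical

namespace Pool.Agent.KH

/-- the `Q` part of the local estimate -/
theorem loc_QT (Λ β : ℝ) (hΛ : 1 ≤ Λ) (hβ : 0 < β) (hβ1 : β ≤ 1) :
    ∃ r₀ : ℕ, ∀ r ≥ r₀, ∃ R₀ : ℕ, ∀ R ≥ R₀, ∃ D₀ : ℕ, ∃ κ : ℝ, 0 < κ ∧ ∀ {V E C : Type} [Fintype V]
      [Fintype E] [Fintype C] (ve : E → Finset V) (lam : E → ℝ) (L : E → Finset C) (G : Finset E)
      (U : C → Finset V) (θ : ℝ) (a : E → ℝ) (D : ℕ) (e₀ : E) (W : C → Finset V) (x y : V),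
      D₀ ≤ D → Loc ve lam L G U θ a Λ D e₀ R W → ve e₀ = {x, y} → x ≠ y →
      1 ≤ lam e₀ * Q ve lam L G U e₀ →
      Pb (fun c => pc ve lam θ a (FB ve G e₀ R) (W c))
        (fun ω => QT ve lam L (FB ve G e₀ (r + 3)) U r e₀ x y ω < (1 - β) * Q ve lam L G U e₀) ≤
        Real.exp (-(κ * D)) := by
  have hΛ0 : 0 < Λ := by linarith
  have hρ0 : 0 ≤ Λ / (1 + Λ) := by positivity
  have hρ1 : Λ / (1 + Λ) < 1 := by
    rw [div_lt_one (by linarith)]
    linarith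
  have hℓ : 0 ≤ Real.log (1 + Λ) := Real.log_nonneg (by linarith)
  have htk : Filter.Tendsto (fun k : ℕ => (Λ / (1 + Λ)) ^ k * Real.log (1 + Λ)) Filter.atTop
      (nhds 0) := by
    simpa using (tendsto_pow_atTop_nhds_zero_of_lt_one hρ0 hρ1).mul_const (Real.log (1 + Λ))
  obtain ⟨r₀, hr₀⟩ := Filter.eventually_atTop.1
    (htk.eventually (gt_mem_nhds (show (0 : ℝ) < β / 32 by positivity)))
  have hk : Filter.Tendsto (fun k : ℕ => 2 * Λ * (1 + Λ) * (2 * Λ *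
      (Real.exp (4 * ((Λ / (1 + Λ)) ^ k * Real.log (1 + Λ))) - 1))) Filter.atTop (nhds 0) := by
    have h1 : Filter.Tendsto (fun k : ℕ =>
        Real.exp (4 * ((Λ / (1 + Λ)) ^ k * Real.log (1 + Λ)))) Filter.atTop (nhds 1) := by
      have := (Real.continuous_exp.tendsto (4 * 0)).comp (htk.const_mul 4)
      simpa [Function.comp_def] using this
    have h2 := ((h1.sub_const 1).const_mul (2 * Λ)).const_mul (2 * Λ * (1 + Λ))
    simpa using h2
  obtain ⟨k, hk1, hk2⟩ := ((htk.eventually (gt_mem_nhds (show (0 : ℝ) < β / 16 by positivity))).and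
    (hk.eventually (gt_mem_nhds (show (0 : ℝ) < β / 16 by positivity)))).exists
  set δ : ℝ := β / (32 * Λ * (1 + Λ)) with hδdef
  have hδ : 0 < δ := by positivity
  have hδ2 : 2 * Λ * (1 + Λ) * δ = β / 16 := by
    rw [hδdef]; field_simp; norm_num
  have hδ1 : δ ≤ 1 := by
    rw [hδdef, div_le_one (by positivity)]
    nlinarith
  have hδ3 : δ * Λ ≤ β / 4 := by nlinarith
  refine ⟨r₀, fun r hr => ⟨r + k + 7, fun R hR => ?_⟩⟩
  obtain ⟨D₁, hD₁⟩ := locD1_num (δ ^ 2 / (128 * Λ)) (by positivity) r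
  refine ⟨max D₁ (Nat.ceil (32 * Λ ^ 2 * (1 + Λ) / β)), δ ^ 2 / (128 * Λ), by positivity, ?_⟩
  intro V E C _ _ _ ve lam L G U θ a D e₀ W x y hDD H hxy hne hQ
  have hD1 : (1 : ℝ) ≤ D := by exact_mod_cast H.hD
  have hDpos : (0 : ℝ) < D := by linarith
  have hlaw := locD1_law H
  have hl : ∀ e, 0 ≤ lam e := fun e => (H.l0 e).le
  have hDbig : 32 * Λ ^ 2 * (1 + Λ) / β ≤ D :=
    (Nat.le_ceil _).trans (by exact_mod_cast le_trans (le_max_right _ _) hDD)
  have hnum := hD₁ D (le_trans (le_max_left _ _) hDD)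
  have her0 : 0 ≤ er Λ D k := by
    unfold er
    have : 1 ≤ Real.exp (4 * ((Λ / (1 + Λ)) ^ k * Real.log (1 + Λ))) :=
      Real.one_le_exp (by positivity)
    have h2 : 0 ≤ Real.exp (4 * ((Λ / (1 + Λ)) ^ k * Real.log (1 + Λ))) - 1 := by linarith
    positivity
  have her : 2 * Λ * (1 + Λ) * er Λ D k ≤ β / 8 := by
    have h1 : 2 * Λ * (1 + Λ) * (Λ / D) ≤ β / 16 := by
      rw [div_le_iff₀ hβ] at hDbig
      rw [← mul_div_assoc, div_le_iff₀ hDpos]
      have h0 : 2 * Λ * (1 + Λ) * Λ = (32 * Λ ^ 2 * (1 + Λ)) / 16 := by ring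
      rw [h0]
      linarith
    have h2 := hk2.le
    have h3 : 2 * Λ * (1 + Λ) * er Λ D k = 2 * Λ * (1 + Λ) * (2 * Λ *
        (Real.exp (4 * ((Λ / (1 + Λ)) ^ k * Real.log (1 + Λ))) - 1)) +
        2 * Λ * (1 + Λ) * (Λ / D) := by
      unfold er
      ring
    rw [h3]
    linarith
  -- the failure events
  have hbadx := locD1_walks H hR x (by rw [hxy]; simp) ∅ hδ hδ1
  have hbady := locD1_walks H hR y (by rw [hxy]; simp) {x} hδ hδ1
  have hY0 : ∀ c g, 0 ≤ locD1_Y ve lam θ (FB ve G e₀ R) e₀ (W c) g := by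
    intro c g
    unfold locD1_Y
    split_ifs
    · exact (fr_pos ve (fun e => mul_nonneg (by linarith [H.t1]) (hl e)) _ _ _).le
    · exact le_rfl
  have hY1 : ∀ c g, locD1_Y ve lam θ (FB ve G e₀ R) e₀ (W c) g ≤ 1 := by
    intro c g
    unfold locD1_Y
    split_ifs
    · exact fr_le_one ve (fun e => mul_nonneg (by linarith [H.t1]) (hl e)) _ _ _
    · exact zero_le_one
  have hcard : (((av ve L U e₀).card : ℕ) : ℝ) ≤ 2 * D := by
    have : (av ve L U e₀).card ≤ 2 * D := (Finset.card_filter_le _ _).trans (H.hL e₀)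
    exact_mod_cast this
  have hhoeff := hoeff hlaw (av ve L U e₀)
    (fun c g => locD1_Y ve lam θ (FB ve G e₀ R) e₀ (W c) g) hY0 hY1 (s := δ * D) (n := 2 * D)
    (by positivity) (by positivity) hcard
  have hmean : Real.exp (-(4 * ((Λ / (1 + Λ)) ^ k * Real.log (1 + Λ)))) * Q ve lam L G U e₀ ≤
      ∑ c ∈ av ve L U e₀, ∑ g, pc ve lam θ a (FB ve G e₀ R) (W c) g *
        locD1_Y ve lam θ (FB ve G e₀ R) e₀ (W c) g := by
    unfold Q
    rw [Finset.mul_sum]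
    refine Finset.sum_le_sum (fun c hc => ?_)
    refine locD1_mean H (by omega) c ?_
    unfold av at hc
    exact (Finset.mem_filter.1 hc).2
  have hQ0 : (D : ℝ) ≤ Λ * Q ve lam L G U e₀ := by
    have hQpos : 0 < Q ve lam L G U e₀ := by
      by_contra hneg
      push Not at hneg
      nlinarith [H.l0 e₀]
    have h1 : 1 ≤ Λ / D * Q ve lam L G U e₀ :=
      hQ.trans (mul_le_mul_of_nonneg_right (H.l1 e₀) hQpos.le)
    rw [div_mul_eq_mul_div, le_div_iff₀ hDpos] at h1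
    linarith
  have hQpos : 0 < Q ve lam L G U e₀ := by
    by_contra hneg
    push Not at hneg
    nlinarith
  have hincl : Pb (fun c => pc ve lam θ a (FB ve G e₀ R) (W c))
      (fun ω => QT ve lam L (FB ve G e₀ (r + 3)) U r e₀ x y ω < (1 - β) * Q ve lam L G U e₀) ≤
      Pb (fun c => pc ve lam θ a (FB ve G e₀ R) (W c)) (fun ω =>
        ((∃ c ∈ L e₀, ∃ l : List E, l.length < r ∧
          x ∉ ∅ ∪ (W c ∪ cov ve (sN (ω c))) ∧
          Val ve (FB ve G e₀ R) l (∅ ∪ (W c ∪ cov ve (sN (ω c)))) x ∧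
          Λ * (δ + er Λ D k) ≤
            we ve lam θ L (FB ve G e₀ R) (∅ ∪ (W c ∪ cov ve (sN (ω c)))) x l ω) ∨
        (∃ c ∈ L e₀, ∃ l : List E, l.length < r ∧
          y ∉ {x} ∪ (W c ∪ cov ve (sN (ω c))) ∧
          Val ve (FB ve G e₀ R) l ({x} ∪ (W c ∪ cov ve (sN (ω c)))) y ∧
          Λ * (δ + er Λ D k) ≤
            we ve lam θ L (FB ve G e₀ R) ({x} ∪ (W c ∪ cov ve (sN (ω c)))) y l ω)) ∨
        ∑ c ∈ av ve L U e₀, locD1_Y ve lam θ (FB ve G e₀ R) e₀ (W c) (ω c) ≤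
          (∑ c ∈ av ve L U e₀, ∑ g, pc ve lam θ a (FB ve G e₀ R) (W c) g *
            locD1_Y ve lam θ (FB ve G e₀ R) e₀ (W c) g) - δ * D) := by
    refine Pb_mono hlaw ?_
    intro ω hω hlt
    by_contra hno
    push Not at hno
    obtain ⟨⟨hnx, hny⟩, hns⟩ := hno
    have hε : 0 ≤ Λ * (δ + er Λ D k) := by positivity
    have hdet := locD1_det H (r := r) (by omega) hxy hne ω hω hε
      (fun c hc l hlen h1 h2 => (hnx c hc l hlen h1 h2).le)
      (fun c hc l hlen h1 h2 => (hny c hc l hlen h1 h2).le)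
    have hτ : 2 * (Λ * (δ + er Λ D k) * (1 + Λ) + (Λ / (1 + Λ)) ^ r * Real.log (1 + Λ)) ≤
        β / 4 := by
      have h1 := (hr₀ r hr).le
      have h0 : 2 * (Λ * (δ + er Λ D k) * (1 + Λ) + (Λ / (1 + Λ)) ^ r * Real.log (1 + Λ)) =
          2 * Λ * (1 + Λ) * δ + 2 * Λ * (1 + Λ) * er Λ D k +
            2 * ((Λ / (1 + Λ)) ^ r * Real.log (1 + Λ)) := by ring
      rw [h0]
      linarith
    have he1 : 1 - β / 4 ≤ Real.exp (-(2 * (Λ * (δ + er Λ D k) * (1 + Λ) +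
        (Λ / (1 + Λ)) ^ r * Real.log (1 + Λ)))) := by
      have := Real.add_one_le_exp (-(2 * (Λ * (δ + er Λ D k) * (1 + Λ) +
        (Λ / (1 + Λ)) ^ r * Real.log (1 + Λ))))
      linarith
    have he2 : 1 - β / 4 ≤ Real.exp (-(4 * ((Λ / (1 + Λ)) ^ k * Real.log (1 + Λ)))) := by
      have := Real.add_one_le_exp (-(4 * ((Λ / (1 + Λ)) ^ k * Real.log (1 + Λ))))
      linarith
    have hsum : (1 - β / 2) * Q ve lam L G U e₀ ≤
        ∑ c ∈ av ve L U e₀, locD1_Y ve lam θ (FB ve G e₀ R) e₀ (W c) (ω c) := by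
      have h1 : (1 - β / 4) * Q ve lam L G U e₀ ≤
          Real.exp (-(4 * ((Λ / (1 + Λ)) ^ k * Real.log (1 + Λ)))) * Q ve lam L G U e₀ :=
        mul_le_mul_of_nonneg_right he2 hQpos.le
      have h2 : δ * D ≤ β / 4 * Q ve lam L G U e₀ := by
        calc δ * D ≤ δ * (Λ * Q ve lam L G U e₀) := mul_le_mul_of_nonneg_left hQ0 hδ.le
          _ = (δ * Λ) * Q ve lam L G U e₀ := by ring
          _ ≤ _ := mul_le_mul_of_nonneg_right hδ3 hQpos.le
      linarith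
    have hfin : (1 - β) * Q ve lam L G U e₀ ≤ QT ve lam L (FB ve G e₀ (r + 3)) U r e₀ x y ω := by
      refine le_trans ?_ hdet
      have h3 : (1 - β / 4) * ((1 - β / 2) * Q ve lam L G U e₀) ≤
          Real.exp (-(2 * (Λ * (δ + er Λ D k) * (1 + Λ) +
            (Λ / (1 + Λ)) ^ r * Real.log (1 + Λ)))) *
          ∑ c ∈ av ve L U e₀, locD1_Y ve lam θ (FB ve G e₀ R) e₀ (W c) (ω c) := by
        refine mul_le_mul he1 hsum ?_ (Real.exp_pos _).le
        exact mul_nonneg (by linarith) hQpos.le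
      refine le_trans ?_ h3
      have h4 : (1 - β) ≤ (1 - β / 4) * (1 - β / 2) := by nlinarith
      calc (1 - β) * Q ve lam L G U e₀ ≤ ((1 - β / 4) * (1 - β / 2)) * Q ve lam L G U e₀ :=
            mul_le_mul_of_nonneg_right h4 hQpos.le
        _ = _ := by ring
    linarith
  refine hincl.trans ?_
  refine (Pb_or hlaw _ _).trans ?_
  refine (add_le_add (Pb_or hlaw _ _) le_rfl).trans ?_
  refine (add_le_add (add_le_add hbadx hbady) hhoeff).trans ?_
  have hA : Real.exp (-((δ * D) ^ 2 / (2 * (2 * D)))) ≤ Real.exp (-(δ ^ 2 / (64 * Λ) * D)) := by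
    apply Real.exp_le_exp.2
    have : (δ * (D : ℝ)) ^ 2 / (2 * (2 * D)) = δ ^ 2 / 4 * D := by
      field_simp
      ring
    rw [this]
    have h5 : δ ^ 2 / (64 * Λ) ≤ δ ^ 2 / 4 := by
      apply div_le_div_of_nonneg_left (by positivity) (by norm_num)
      linarith
    have h6 := mul_le_mul_of_nonneg_right h5 hDpos.le
    linarith
  have hB : Real.exp (-(δ ^ 2 / (64 * Λ) * D)) =
      Real.exp (-(δ ^ 2 / (128 * Λ) * D)) * Real.exp (-(δ ^ 2 / (128 * Λ) * D)) := by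
    rw [← Real.exp_add]
    congr 1
    field_simp
    ring
  calc _ ≤ (2 * D) * ((D + 1) ^ r * (2 * Real.exp (-(δ ^ 2 / (64 * Λ) * D)))) +
        (2 * D) * ((D + 1) ^ r * (2 * Real.exp (-(δ ^ 2 / (64 * Λ) * D)))) +
        Real.exp (-(δ ^ 2 / (64 * Λ) * D)) := by linarith
    _ = ((2 * ((2 * (D : ℝ)) * (((D : ℝ) + 1) ^ r * 2)) + 1) *
        Real.exp (-(δ ^ 2 / (128 * Λ) * D))) * Real.exp (-(δ ^ 2 / (128 * Λ) * D)) := by
      rw [hB]; ring
    _ ≤ 1 * Real.exp (-(δ ^ 2 / (128 * Λ) * D)) :=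
      mul_le_mul_of_nonneg_right hnum (Real.exp_pos _).le
    _ = _ := by rw [one_mul]

end Pool.Agent.KH
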