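import Pool.Agent.Lib.MP_30840b_co_h61.LocC1
import Pool.Agent.Lib.MP_30840b_co_h61.LocC2
import Pool.Agent.Lib.MP_30840b_co_h61.Hoeff

set_option autoImplicit false

open Finset Classical

namespace Pool.Agent.KH

section locD1

variable {V E C : Type} [Fintype V] [Fintype E] [Fintype C]

/-- the contribution of one colour -/
noncomputable def locD1_Y (ve : E → Finset V) (lam : E → ℝ) (θ : ℝ) (FR : Finset E) (e₀ : E)
    (X : Finset V) (g : E → Fin 4) : ℝ :=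
  if Disjoint (ve e₀) (cov ve (sN g)) then
    fr ve (fun e => (1 - θ) * lam e) FR (X ∪ cov ve (sN g)) (ve e₀) else 0

lemma locD1_hs {ve : E → Finset V} {lam : E → ℝ} {L : E → Finset C} {G : Finset E}
    {U : C → Finset V} {θ : ℝ} {a : E → ℝ} {Λ : ℝ} {D : ℕ} {e₀ : E} {R : ℕ} {W : C → Finset V}
    (H : Loc ve lam L G U θ a Λ D e₀ R W) (F : Finset E) (v : V) :
    ∑ e ∈ F.filter (fun e => v ∈ ve e), lam e ≤ Λ := by
  have hΛ := H.hΛ
  have hD : (1 : ℝ) ≤ D := by exact_mod_cast H.hD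
  have h1 : ∑ e ∈ F.filter (fun e => v ∈ ve e), lam e ≤
      ∑ e ∈ univ.filter (fun e => v ∈ ve e), lam e :=
    sum_le_sum_of_subset_of_nonneg (filter_subset_filter _ (subset_univ _))
      (fun e _ _ => (H.l0 e).le)
  have h2 : ∑ e ∈ univ.filter (fun e => v ∈ ve e), lam e ≤
      (univ.filter (fun e => v ∈ ve e)).card • (Λ / D) :=
    sum_le_card_nsmul _ _ _ (fun e _ => H.l1 e)
  have h3 : ((univ.filter (fun e => v ∈ ve e)).card : ℝ) ≤ D := by
    have := H.hd v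
    unfold dg at this
    exact_mod_cast this
  rw [nsmul_eq_mul] at h2
  calc _ ≤ _ := h1
    _ ≤ _ := h2
    _ ≤ D * (Λ / D) := mul_le_mul_of_nonneg_right h3 (by positivity)
    _ = Λ := by field_simp

lemma locD1_law {ve : E → Finset V} {lam : E → ℝ} {L : E → Finset C} {G : Finset E}
    {U : C → Finset V} {θ : ℝ} {a : E → ℝ} {Λ : ℝ} {D : ℕ} {e₀ : E} {R : ℕ} {W : C → Finset V}
    (H : Loc ve lam L G U θ a Λ D e₀ R W) :
    IsLaw (fun c => pc ve lam θ a (FB ve G e₀ R) (W c)) := by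
  intro c
  refine ⟨fun k => ?_, ?_⟩
  · exact pc_nonneg ve (fun e => (H.l0 e).le) H.t0.le (by linarith [H.t1]) H.a0 H.a1 _ _ k
  · exact pc_sum ve (fun e => (H.l0 e).le) θ a _ _

lemma locD1_mean {ve : E → Finset V} {lam : E → ℝ} {L : E → Finset C} {G : Finset E}
    {U : C → Finset V} {θ : ℝ} {a : E → ℝ} {Λ : ℝ} {D : ℕ} {e₀ : E} {R : ℕ} {W : C → Finset V}
    (H : Loc ve lam L G U θ a Λ D e₀ R W) {k : ℕ} (hR : k + 3 ≤ R) (c : C)
    (hd : Disjoint (ve e₀) (U c)) :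
    Real.exp (-(4 * ((Λ / (1 + Λ)) ^ k * Real.log (1 + Λ)))) * fr ve lam G (U c) (ve e₀) ≤
      ∑ g, pc ve lam θ a (FB ve G e₀ R) (W c) g *
        locD1_Y ve lam θ (FB ve G e₀ R) e₀ (W c) g := by
  have hl : ∀ e, 0 ≤ lam e := fun e => (H.l0 e).le
  unfold locD1_Y
  rw [thin_main H.h2 hl H.t0.le (by linarith [H.t1]) a (FB ve G e₀ R) (W c) (ve e₀)]
  have hmem : e₀ ∈ FB ve G e₀ 0 := by
    unfold FB
    rw [mem_filter]
    exact ⟨H.he, by unfold Bv; exact Subset.refl _⟩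
  have h := loc_close H.h2 (by linarith [H.hΛ] : (0 : ℝ) ≤ Λ) hl (locD1_hs H univ) G e₀
    (j := 0) (k := k) (R := R) (by omega) (H.hUW c) (H.hW c) hmem hd
  have p1 := fr_pos ve hl (FB ve G e₀ R) (W c) (ve e₀)
  have p2 := fr_pos ve hl G (U c) (ve e₀)
  have h' := (abs_le.1 h).1
  rw [← Real.exp_log p2, ← Real.exp_add, ← Real.exp_log p1]
  apply Real.exp_le_exp.2
  linarith

lemma locD1_det {ve : E → Finset V} {lam : E → ℝ} {L : E → Finset C} {G : Finset E}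
    {U : C → Finset V} {θ : ℝ} {a : E → ℝ} {Λ : ℝ} {D : ℕ} {e₀ : E} {R : ℕ} {W : C → Finset V}
    (H : Loc ve lam L G U θ a Λ D e₀ R W) {r : ℕ} (hR : r + 6 ≤ R) {x y : V}
    (hxy : ve e₀ = {x, y}) (hne : x ≠ y) (ω : C → E → Fin 4)
    (hω : ∀ c, pc ve lam θ a (FB ve G e₀ R) (W c) (ω c) ≠ 0) {ε : ℝ} (hε : 0 ≤ ε)
    (hx : ∀ c ∈ L e₀, ∀ l : List E, l.length < r →
      x ∉ ∅ ∪ (W c ∪ cov ve (sN (ω c))) →
      Val ve (FB ve G e₀ R) l (∅ ∪ (W c ∪ cov ve (sN (ω c)))) x →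
      we ve lam θ L (FB ve G e₀ R) (∅ ∪ (W c ∪ cov ve (sN (ω c)))) x l ω ≤ ε)
    (hy : ∀ c ∈ L e₀, ∀ l : List E, l.length < r →
      y ∉ {x} ∪ (W c ∪ cov ve (sN (ω c))) →
      Val ve (FB ve G e₀ R) l ({x} ∪ (W c ∪ cov ve (sN (ω c)))) y →
      we ve lam θ L (FB ve G e₀ R) ({x} ∪ (W c ∪ cov ve (sN (ω c)))) y l ω ≤ ε) :
    Real.exp (-(2 * (ε * (1 + Λ) + (Λ / (1 + Λ)) ^ r * Real.log (1 + Λ)))) *
        ∑ c ∈ av ve L U e₀, locD1_Y ve lam θ (FB ve G e₀ R) e₀ (W c) (ω c) ≤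
      QT ve lam L (FB ve G e₀ (r + 3)) U r e₀ x y ω := by
  have hl : ∀ e, 0 ≤ lam e := fun e => (H.l0 e).le
  have hΛ := H.hΛ
  have hT : ∀ (F : Finset E) (k : ℕ) (X : Finset V) (v : V), 0 < T ve lam F k X v := by
    intro F k X v
    have := T_ge hl (F := F) (locD1_hs H F) (by linarith : (0 : ℝ) ≤ Λ) k X v
    have h2 : 0 < 1 / (1 + Λ) := by positivity
    linarith
  have hxW : ∀ c, Disjoint (ve e₀) (U c ∪ cov ve (sN (ω c))) → ∀ v ∈ ve e₀,
      v ∉ W c ∪ cov ve (sN (ω c)) := by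
    intro c hd v hv hm
    rcases Finset.mem_union.1 hm with hm | hm
    · by_cases hU : v ∈ U c
      · exact Finset.disjoint_left.1 hd hv (Finset.mem_union_left _ hU)
      · have h0 : v ∈ Bv ve (ve e₀) (R - 1) :=
          Bv_mono ve (ve e₀) (Nat.zero_le _) (by unfold Bv; exact hv)
        exact Finset.disjoint_left.1 (H.hW c) (Finset.mem_sdiff.2 ⟨hm, hU⟩) h0
    · exact Finset.disjoint_left.1 hd hv (Finset.mem_union_right _ hm)
  have hxe : x ∈ ve e₀ := by rw [hxy]; simp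
  have hye : y ∈ ve e₀ := by rw [hxy]; simp
  have key : ∀ c ∈ L e₀, Disjoint (ve e₀) (U c ∪ cov ve (sN (ω c))) →
      Real.exp (-(2 * (ε * (1 + Λ) + (Λ / (1 + Λ)) ^ r * Real.log (1 + Λ)))) *
        fr ve (fun e => (1 - θ) * lam e) (FB ve G e₀ R) (W c ∪ cov ve (sN (ω c))) (ve e₀) ≤
      T ve lam (FB ve G e₀ (r + 3) \ Dl L (FB ve G e₀ (r + 3)) ω) r
          (U c ∪ cov ve (sN (ω c) ∩ FB ve G e₀ (r + 3))) x *
        T ve lam (FB ve G e₀ (r + 3) \ Dl L (FB ve G e₀ (r + 3)) ω) r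
          (insert x (U c ∪ cov ve (sN (ω c) ∩ FB ve G e₀ (r + 3)))) y := by
    intro c hc hd
    have h := term_close H hR hxy hne c ω hω hd hε
      (by
        intro l hlen hval
        have := hx c hc l hlen
        rw [Finset.empty_union] at this
        exact this (hxW c hd x hxe) hval)
      (by
        intro l hlen hval
        have := hy c hc l hlen
        rw [← Finset.insert_eq] at this
        refine this ?_ hval
        intro hm
        rcases Finset.mem_insert.1 hm with hm | hm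
        · exact hne hm.symm
        · exact hxW c hd y hye hm)
    have hl' : ∀ e, 0 ≤ (fun e => (1 - θ) * lam e) e := fun e =>
      mul_nonneg (by linarith [H.t1]) (hl e)
    have p1 := fr_pos ve hl' (FB ve G e₀ R) (W c ∪ cov ve (sN (ω c))) (ve e₀)
    have p2 := mul_pos
      (hT (FB ve G e₀ (r + 3) \ Dl L (FB ve G e₀ (r + 3)) ω) r
        (U c ∪ cov ve (sN (ω c) ∩ FB ve G e₀ (r + 3))) x)
      (hT (FB ve G e₀ (r + 3) \ Dl L (FB ve G e₀ (r + 3)) ω) r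
        (insert x (U c ∪ cov ve (sN (ω c) ∩ FB ve G e₀ (r + 3)))) y)
    have h' := (abs_le.1 h).2
    rw [← Real.exp_log p2, ← Real.exp_log p1, ← Real.exp_add]
    apply Real.exp_le_exp.2
    linarith
  unfold QT av
  rw [Finset.mul_sum]
  rw [← Finset.sum_filter_add_sum_filter_not ((L e₀).filter (fun c => Disjoint (ve e₀) (U c)))
    (fun c => Disjoint (ve e₀) (cov ve (sN (ω c))))]
  have hz : ∑ c ∈ ((L e₀).filter (fun c => Disjoint (ve e₀) (U c))).filter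
      (fun c => ¬ Disjoint (ve e₀) (cov ve (sN (ω c)))),
      Real.exp (-(2 * (ε * (1 + Λ) + (Λ / (1 + Λ)) ^ r * Real.log (1 + Λ)))) *
        locD1_Y ve lam θ (FB ve G e₀ R) e₀ (W c) (ω c) = 0 := by
    apply Finset.sum_eq_zero
    intro c hc
    have := (Finset.mem_filter.1 hc).2
    unfold locD1_Y
    rw [if_neg this, mul_zero]
  rw [hz, add_zero]
  refine le_trans (Finset.sum_le_sum (g := fun c =>
      T ve lam (FB ve G e₀ (r + 3) \ Dl L (FB ve G e₀ (r + 3)) ω) r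
          (U c ∪ cov ve (sN (ω c) ∩ FB ve G e₀ (r + 3))) x *
        T ve lam (FB ve G e₀ (r + 3) \ Dl L (FB ve G e₀ (r + 3)) ω) r
          (insert x (U c ∪ cov ve (sN (ω c) ∩ FB ve G e₀ (r + 3)))) y) ?_) ?_
  · intro c hc
    rw [Finset.mem_filter, Finset.mem_filter] at hc
    unfold locD1_Y
    rw [if_pos hc.2]
    exact key c hc.1.1 (Finset.disjoint_union_right.2 ⟨hc.1.2, hc.2⟩)
  · refine Finset.sum_le_sum_of_subset_of_nonneg ?_ ?_
    · intro c hc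
      rw [Finset.mem_filter, Finset.mem_filter] at hc
      rw [Finset.mem_filter]
      refine ⟨hc.1.1, Finset.disjoint_union_right.2 ⟨hc.1.2, ?_⟩⟩
      refine Finset.disjoint_of_subset_right ?_ hc.2
      unfold cov
      exact Finset.biUnion_subset_biUnion_of_subset_left _ Finset.inter_subset_left
    · intro c _ _
      exact (mul_pos (hT _ _ _ _) (hT _ _ _ _)).le

/-- union bound over the walks from one root -/
lemma locD1_walks {ve : E → Finset V} {lam : E → ℝ} {L : E → Finset C} {G : Finset E}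
    {U : C → Finset V} {θ : ℝ} {a : E → ℝ} {Λ : ℝ} {D : ℕ} {e₀ : E} {R : ℕ} {W : C → Finset V}
    (H : Loc ve lam L G U θ a Λ D e₀ R W) {r k : ℕ} (hR : r + k + 7 ≤ R) (v : V)
    (hv : v ∈ ve e₀) (Y : Finset V) {δ : ℝ} (hδ : 0 < δ) (hδ1 : δ ≤ 1) :
    Pb (fun c => pc ve lam θ a (FB ve G e₀ R) (W c)) (fun ω =>
      ∃ c ∈ L e₀, ∃ l : List E, l.length < r ∧
      v ∉ Y ∪ (W c ∪ cov ve (sN (ω c))) ∧
      Val ve (FB ve G e₀ R) l (Y ∪ (W c ∪ cov ve (sN (ω c)))) v ∧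
      Λ * (δ + er Λ D k) ≤
        we ve lam θ L (FB ve G e₀ R) (Y ∪ (W c ∪ cov ve (sN (ω c)))) v l ω) ≤
      (2 * D) * ((D + 1) ^ r * (2 * Real.exp (-(δ ^ 2 / (64 * Λ) * D)))) := by
  obtain ⟨𝓛, h𝓛, h𝓛2⟩ := walks_card H.h2 H.hd (FB ve G e₀ R) v r
  have hlaw := locD1_law H
  have h1 : ∀ c, Pb (fun c => pc ve lam θ a (FB ve G e₀ R) (W c)) (fun ω =>
      ∃ l ∈ 𝓛.filter (fun l => l.length < r),
      v ∉ Y ∪ (W c ∪ cov ve (sN (ω c))) ∧
      Val ve (FB ve G e₀ R) l (Y ∪ (W c ∪ cov ve (sN (ω c)))) v ∧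
      Λ * (δ + er Λ D k) ≤
        we ve lam θ L (FB ve G e₀ R) (Y ∪ (W c ∪ cov ve (sN (ω c)))) v l ω) ≤
      ((D + 1) ^ r * (2 * Real.exp (-(δ ^ 2 / (64 * Λ) * D)))) := by
    intro c
    refine le_trans (Pb_exists hlaw _ _) ?_
    refine le_trans (Finset.sum_le_card_nsmul _ _ (2 * Real.exp (-(δ ^ 2 / (64 * Λ) * D))) ?_) ?_
    · intro l hl
      exact walk_dev H hR c v hv Y l (Finset.mem_filter.1 hl).2 hδ hδ1
    · rw [nsmul_eq_mul]
      refine mul_le_mul_of_nonneg_right ?_ (by positivity)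
      have : (𝓛.filter (fun l => l.length < r)).card ≤ (D + 1) ^ r :=
        (Finset.card_filter_le _ _).trans h𝓛
      exact_mod_cast this
  refine le_trans (Pb_mono hlaw (B := fun ω => ∃ c ∈ L e₀, ∃ l ∈ 𝓛.filter (fun l => l.length < r),
      v ∉ Y ∪ (W c ∪ cov ve (sN (ω c))) ∧
      Val ve (FB ve G e₀ R) l (Y ∪ (W c ∪ cov ve (sN (ω c)))) v ∧
      Λ * (δ + er Λ D k) ≤
        we ve lam θ L (FB ve G e₀ R) (Y ∪ (W c ∪ cov ve (sN (ω c)))) v l ω) ?_) ?_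
  · rintro ω _ ⟨c, hc, l, hlen, h1, h2, h3⟩
    exact ⟨c, hc, l, Finset.mem_filter.2 ⟨h𝓛2 l _ hlen h2, hlen⟩, h1, h2, h3⟩
  · refine le_trans (Pb_exists hlaw _ _) ?_
    refine le_trans (Finset.sum_le_card_nsmul _ _ _ (fun c _ => h1 c)) ?_
    rw [nsmul_eq_mul]
    refine mul_le_mul_of_nonneg_right ?_ (by positivity)
    exact_mod_cast H.hL e₀

end locD1

lemma locD1_num (c : ℝ) (hc : 0 < c) (r : ℕ) :
    ∃ D₀ : ℕ, ∀ D : ℕ, D₀ ≤ D →
      (2 * ((2 * (D : ℝ)) * (((D : ℝ) + 1) ^ r * 2)) + 1) * Real.exp (-(c * D)) ≤ 1 := by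
  have h := Real.tendsto_pow_mul_exp_neg_atTop_nhds_zero (r + 1)
  have h2 : Filter.Tendsto (fun D : ℕ => c * (D : ℝ)) Filter.atTop Filter.atTop :=
    Filter.Tendsto.const_mul_atTop hc tendsto_natCast_atTop_atTop
  have h3 := h.comp h2
  have h4 : ∀ᶠ D : ℕ in Filter.atTop,
      (c * (D : ℝ)) ^ (r + 1) * Real.exp (-(c * D)) < c ^ (r + 1) / (9 * 2 ^ (r + 1)) := by
    have : (0 : ℝ) < c ^ (r + 1) / (9 * 2 ^ (r + 1)) := by positivity
    exact h3.eventually (gt_mem_nhds this)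
  obtain ⟨D₀, hD₀⟩ := Filter.eventually_atTop.1 h4
  refine ⟨max D₀ 1, fun D hD => ?_⟩
  have hD1 : (1 : ℝ) ≤ D := by
    have : 1 ≤ D := le_trans (le_max_right _ _) hD
    exact_mod_cast this
  have h5 := hD₀ D (le_trans (le_max_left _ _) hD)
  have h6 : (D : ℝ) ^ (r + 1) * Real.exp (-(c * D)) < 1 / (9 * 2 ^ (r + 1)) := by
    rw [mul_pow] at h5
    have hcp : 0 < c ^ (r + 1) := by positivity
    rw [div_eq_mul_one_div, mul_assoc] at h5
    exact lt_of_mul_lt_mul_left h5 hcp.le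
  have h7 : (2 * ((2 * (D : ℝ)) * (((D : ℝ) + 1) ^ r * 2)) + 1) ≤
      9 * (2 ^ (r + 1) * (D : ℝ) ^ (r + 1)) := by
    have a1 : ((D : ℝ) + 1) ^ r ≤ (2 * D) ^ r := by
      apply pow_le_pow_left₀ (by positivity)
      linarith
    have a2 : (1 : ℝ) ≤ (2 * D) ^ r * (2 * D) := by
      rw [← pow_succ]
      exact one_le_pow₀ (by linarith)
    have a3 : 2 * ((2 * (D : ℝ)) * (((D : ℝ) + 1) ^ r * 2)) ≤
        4 * ((2 * D) ^ r * (2 * D)) := by nlinarith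
    rw [← mul_pow, pow_succ]
    nlinarith
  have h8 : 0 < Real.exp (-(c * D)) := Real.exp_pos _
  calc _ ≤ 9 * (2 ^ (r + 1) * (D : ℝ) ^ (r + 1)) * Real.exp (-(c * D)) :=
        mul_le_mul_of_nonneg_right h7 h8.le
    _ = (9 * 2 ^ (r + 1)) * ((D : ℝ) ^ (r + 1) * Real.exp (-(c * D))) := by ring
    _ ≤ (9 * 2 ^ (r + 1)) * (1 / (9 * 2 ^ (r + 1))) :=
        mul_le_mul_of_nonneg_left h6.le (by positivity)
    _ = 1 := by field_simp

end Pool.Agent.KH
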