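import Pool.Agent.Lib.MP_30840b_co_h61.Thin
import Pool.Agent.Lib.MP_30840b_co_h61.Prb

/-! Conditioning on the marks outside an edge set (spatial Markov property). -/

set_option autoImplicit false

open Finset Classical

namespace Pool.Agent.KH

variable {V E C : Type} [Fintype V] [Fintype E] [Fintype C]

/-- the marks outside `F` -/
noncomputable def splitOut (F : Finset E) (g : E → Fin 4) : E → Fin 4 :=
  fun e => if e ∈ F then 0 else g e

/-- the marks inside `F` -/
noncomputable def splitInn (F : Finset E) (g : E → Fin 4) : E → Fin 4 :=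
  fun e => if e ∈ F then g e else 0

/-- the weight of the marks outside `F` -/
noncomputable def splitPo (ve : E → Finset V) (lam : E → ℝ) (θ : ℝ) (a : E → ℝ)
    (F G : Finset E) (U : Finset V) (g : E → Fin 4) : ℝ :=
  if sM g ∈ MS ve (G \ F) U then
    (∏ e, wm lam θ a e (g e)) * Z ve lam F (U ∪ cov ve (sM g)) / Z ve lam G U else 0

lemma split_wm_zero (lam : E → ℝ) (θ : ℝ) (a : E → ℝ) (e : E) : wm lam θ a e 0 = 1 := rfl

lemma split_wm_nonneg {lam : E → ℝ} (hl : ∀ e, 0 ≤ lam e) {θ : ℝ} (h0 : 0 ≤ θ) (h1 : θ ≤ 1)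
    {a : E → ℝ} (ha0 : ∀ e, 0 ≤ a e) (ha1 : ∀ e, a e ≤ 1) (e : E) (i : Fin 4) :
    0 ≤ wm lam θ a e i := by
  fin_cases i
  · exact zero_le_one
  · exact mul_nonneg (hl e) (by linarith)
  · exact mul_nonneg (mul_nonneg (hl e) h0) (by linarith [ha1 e])
  · exact mul_nonneg (mul_nonneg (hl e) h0) (ha0 e)

lemma splitPo_nonneg (ve : E → Finset V) {lam : E → ℝ} (hl : ∀ e, 0 ≤ lam e)
    {θ : ℝ} (h0 : 0 ≤ θ) (h1 : θ ≤ 1) {a : E → ℝ} (ha0 : ∀ e, 0 ≤ a e) (ha1 : ∀ e, a e ≤ 1)
    (F G : Finset E) (U : Finset V) (g : E → Fin 4) : 0 ≤ splitPo ve lam θ a F G U g := by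
  unfold splitPo
  split_ifs
  · have hZ1 := one_le_Z ve hl F (U ∪ cov ve (sM g))
    have hZ2 := one_le_Z ve hl G U
    exact div_nonneg (mul_nonneg (Finset.prod_nonneg
      (fun e _ => split_wm_nonneg hl h0 h1 ha0 ha1 e (g e))) (by linarith)) (by linarith)
  · exact le_rfl

lemma split_prod (lam : E → ℝ) (θ : ℝ) (a : E → ℝ) (F : Finset E) (g : E → Fin 4) :
    ∏ e, wm lam θ a e (g e) =
      (∏ e, wm lam θ a e (splitOut F g e)) * ∏ e, wm lam θ a e (splitInn F g e) := by
  rw [← Finset.prod_mul_distrib]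
  refine Finset.prod_congr rfl (fun e _ => ?_)
  unfold splitOut splitInn
  by_cases h : e ∈ F
  · simp [h, split_wm_zero]
  · simp [h, split_wm_zero]

lemma split_MS (ve : E → Finset V) {F G : Finset E} (hFG : F ⊆ G) (U : Finset V)
    (g : E → Fin 4) :
    sM g ∈ MS ve G U ↔ sM (splitOut F g) ∈ MS ve (G \ F) U ∧
      sM (splitInn F g) ∈ MS ve F (U ∪ cov ve (sM (splitOut F g))) := by
  have hO : ∀ e, e ∈ sM (splitOut F g) ↔ e ∉ F ∧ g e ≠ 0 := by
    intro e
    unfold sM splitOut
    by_cases h : e ∈ F <;> simp [h]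
  have hI : ∀ e, e ∈ sM (splitInn F g) ↔ e ∈ F ∧ g e ≠ 0 := by
    intro e
    unfold sM splitInn
    by_cases h : e ∈ F <;> simp [h]
  have hM : ∀ e, e ∈ sM g ↔ g e ≠ 0 := by
    intro e
    unfold sM
    simp
  rw [MS_mem, MS_mem, MS_mem]
  constructor
  · rintro ⟨hs, hm, hd⟩
    refine ⟨⟨?_, ?_, ?_⟩, ?_, ?_, ?_⟩
    · intro e he
      have := (hO e).1 he
      exact Finset.mem_sdiff.2 ⟨hs ((hM e).2 this.2), this.1⟩
    · intro e he f hf hef
      exact hm e ((hM e).2 ((hO e).1 he).2) f ((hM f).2 ((hO f).1 hf).2) hef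
    · intro e he
      exact hd e ((hM e).2 ((hO e).1 he).2)
    · intro e he
      exact ((hI e).1 he).1
    · intro e he f hf hef
      exact hm e ((hM e).2 ((hI e).1 he).2) f ((hM f).2 ((hI f).1 hf).2) hef
    · intro e he
      have he' := (hI e).1 he
      rw [Finset.disjoint_union_right]
      refine ⟨hd e ((hM e).2 he'.2), ?_⟩
      unfold cov
      rw [Finset.disjoint_biUnion_right]
      intro f hf
      have hf' := (hO f).1 hf
      refine hm e ((hM e).2 he'.2) f ((hM f).2 hf'.2) ?_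
      rintro rfl
      exact hf'.1 he'.1
  · rintro ⟨⟨hs1, hm1, hd1⟩, hs2, hm2, hd2⟩
    have hcross : ∀ e ∈ sM (splitInn F g), ∀ f ∈ sM (splitOut F g), Disjoint (ve e) (ve f) := by
      intro e he f hf
      have h := hd2 e he
      rw [Finset.disjoint_union_right] at h
      unfold cov at h
      rw [Finset.disjoint_biUnion_right] at h
      exact h.2 f hf
    refine ⟨?_, ?_, ?_⟩
    · intro e he
      by_cases h : e ∈ F
      · exact hFG h
      · exact (Finset.mem_sdiff.1 (hs1 ((hO e).2 ⟨h, (hM e).1 he⟩))).1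
    · intro e he f hf hef
      by_cases h : e ∈ F
      · by_cases h' : f ∈ F
        · exact hm2 e ((hI e).2 ⟨h, (hM e).1 he⟩) f ((hI f).2 ⟨h', (hM f).1 hf⟩) hef
        · exact hcross e ((hI e).2 ⟨h, (hM e).1 he⟩) f ((hO f).2 ⟨h', (hM f).1 hf⟩)
      · by_cases h' : f ∈ F
        · exact (hcross f ((hI f).2 ⟨h', (hM f).1 hf⟩) e ((hO e).2 ⟨h, (hM e).1 he⟩)).symm
        · exact hm1 e ((hO e).2 ⟨h, (hM e).1 he⟩) f ((hO f).2 ⟨h', (hM f).1 hf⟩) hef
    · intro e he
      by_cases h : e ∈ F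
      · have := hd2 e ((hI e).2 ⟨h, (hM e).1 he⟩)
        rw [Finset.disjoint_union_right] at this
        exact this.1
      · exact hd1 e ((hO e).2 ⟨h, (hM e).1 he⟩)

lemma split_pc (ve : E → Finset V) {lam : E → ℝ} (hl : ∀ e, 0 ≤ lam e) (θ : ℝ) (a : E → ℝ)
    {F G : Finset E} (hFG : F ⊆ G) (U : Finset V) (g : E → Fin 4) :
    pc ve lam θ a G U g = splitPo ve lam θ a F G U (splitOut F g) *
      pc ve lam θ a F (U ∪ cov ve (sM (splitOut F g))) (splitInn F g) := by
  unfold pc splitPo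
  have hZ := one_le_Z ve hl F (U ∪ cov ve (sM (splitOut F g)))
  have hZ' : Z ve lam F (U ∪ cov ve (sM (splitOut F g))) ≠ 0 := by linarith
  by_cases h : sM g ∈ MS ve G U
  · have h' := (split_MS ve hFG U g).1 h
    rw [if_pos h, if_pos h'.1, if_pos h'.2, split_prod lam θ a F g]
    field_simp
  · rw [if_neg h]
    have h' := (not_congr (split_MS ve hFG U g)).1 h
    by_cases h1 : sM (splitOut F g) ∈ MS ve (G \ F) U
    · have h2 : sM (splitInn F g) ∉ MS ve F (U ∪ cov ve (sM (splitOut F g))) :=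
        fun h2 => h' ⟨h1, h2⟩
      rw [if_neg h2, mul_zero]
    · rw [if_neg h1, zero_mul]

lemma split_sum (ve : E → Finset V) {lam : E → ℝ} (hl : ∀ e, 0 ≤ lam e) (θ : ℝ) (a : E → ℝ)
    {F G : Finset E} (hFG : F ⊆ G) (U : C → Finset V)
    (Φ Ψ : (C → E → Fin 4) → ℝ) :
    ∑ ω : C → E → Fin 4, (∏ c, pc ve lam θ a G (U c) (ω c)) *
        (Φ (fun c => splitOut F (ω c)) * Ψ (fun c => splitInn F (ω c))) =
      ∑ η : C → E → Fin 4, (∏ c, splitPo ve lam θ a F G (U c) (η c)) * Φ η *
        ∑ κ : C → E → Fin 4, (∏ c, pc ve lam θ a F (U c ∪ cov ve (sM (η c))) (κ c)) * Ψ κ := by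
  simp_rw [Finset.mul_sum]
  rw [← Finset.sum_product']
  refine Finset.sum_of_injOn
    (fun ω : C → E → Fin 4 => ((fun c => splitOut F (ω c)), (fun c => splitInn F (ω c))))
    ?_ ?_ ?_ ?_
  · intro ω _ ω' _ h
    funext c e
    have h1 := congrFun (congrFun (congrArg Prod.fst h) c) e
    have h2 := congrFun (congrFun (congrArg Prod.snd h) c) e
    simp only [splitOut, splitInn] at h1 h2
    by_cases he : e ∈ F
    · simpa [he] using h2
    · simpa [he] using h1
  · intro ω _
    simp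
  · rintro ⟨η, κ⟩ _ hn
    by_cases h1 : ∀ c, ∀ e ∈ F, η c e = 0
    · by_cases h2 : ∀ c, ∀ e, e ∉ F → κ c e = 0
      · exfalso
        apply hn
        refine ⟨fun c e => if e ∈ F then κ c e else η c e, by simp, ?_⟩
        refine Prod.ext ?_ ?_
        · funext c e
          simp only [splitOut]
          by_cases he : e ∈ F
          · simp [he, h1 c e he]
          · simp [he]
        · funext c e
          simp only [splitInn]
          by_cases he : e ∈ F
          · simp [he]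
          · simp [he, h2 c e he]
      · push Not at h2
        obtain ⟨c, e, he, hne⟩ := h2
        have : pc ve lam θ a F (U c ∪ cov ve (sM (η c))) (κ c) = 0 := by
          unfold pc
          rw [if_neg]
          intro hm
          rw [MS_mem] at hm
          apply he
          apply hm.1
          unfold sM
          simp [hne]
        simp only
        have hz : ∏ c, pc ve lam θ a F (U c ∪ cov ve (sM (η c))) (κ c) = 0 :=
          Finset.prod_eq_zero (Finset.mem_univ c) this
        rw [hz]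
        simp
    · push Not at h1
      obtain ⟨c, e, he, hne⟩ := h1
      have : splitPo ve lam θ a F G (U c) (η c) = 0 := by
        unfold splitPo
        rw [if_neg]
        intro hm
        rw [MS_mem] at hm
        have := hm.1 (show e ∈ sM (η c) by unfold sM; simp [hne])
        exact (Finset.mem_sdiff.1 this).2 he
      simp only
      rw [Finset.prod_eq_zero (Finset.mem_univ c) this]
      simp
  · intro ω _
    simp only
    have : ∀ c, pc ve lam θ a G (U c) (ω c) = splitPo ve lam θ a F G (U c) (splitOut F (ω c)) *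
      pc ve lam θ a F (U c ∪ cov ve (sM (splitOut F (ω c)))) (splitInn F (ω c)) :=
      fun c => split_pc ve hl θ a hFG (U c) (ω c)
    rw [Finset.prod_congr rfl (fun c _ => this c), Finset.prod_mul_distrib]
    ring

theorem split (ve : E → Finset V) {lam : E → ℝ} (hl : ∀ e, 0 ≤ lam e)
    {θ : ℝ} (h0 : 0 ≤ θ) (h1 : θ ≤ 1) {a : E → ℝ} (ha0 : ∀ e, 0 ≤ a e) (ha1 : ∀ e, a e ≤ 1)
    {F G : Finset E} (hFG : F ⊆ G) (U : C → Finset V) (A B : (C → E → Fin 4) → Prop)
    (hA : ∀ ω ω' : C → E → Fin 4, (∀ c, ∀ e, e ∉ F → ω c e = ω' c e) → (A ω ↔ A ω'))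
    (hB : ∀ ω ω' : C → E → Fin 4, (∀ c, ∀ e ∈ F, ω c e = ω' c e) → (B ω ↔ B ω')) {p : ℝ}
    (hp : 0 ≤ p)
    (H : ∀ O : C → Finset E, (∀ c, O c ∈ MS ve (G \ F) (U c)) →
      Pb (fun c => pc ve lam θ a F (U c ∪ cov ve (O c))) B ≤ p) :
    Pb (fun c => pc ve lam θ a G (U c)) (fun ω => B ω ∧ A ω) ≤
      p * Pb (fun c => pc ve lam θ a G (U c)) A := by
  have hA' : ∀ ω : C → E → Fin 4, A ω ↔ A (fun c => splitOut F (ω c)) := by
    intro ω
    apply hA
    intro c e he
    simp [splitOut, he]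
  have hB' : ∀ ω : C → E → Fin 4, B ω ↔ B (fun c => splitInn F (ω c)) := by
    intro ω
    apply hB
    intro c e he
    simp [splitInn, he]
  have e1 : Pb (fun c => pc ve lam θ a G (U c)) (fun ω => B ω ∧ A ω) =
      ∑ η : C → E → Fin 4, (∏ c, splitPo ve lam θ a F G (U c) (η c)) * (if A η then 1 else 0) *
        Pb (fun c => pc ve lam θ a F (U c ∪ cov ve (sM (η c)))) B := by
    have := split_sum ve hl θ a hFG U (fun η => if A η then (1 : ℝ) else 0)
      (fun κ => if B κ then (1 : ℝ) else 0)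
    unfold Pb Ex
    rw [← this]
    refine Finset.sum_congr rfl (fun ω _ => ?_)
    congr 1
    have hAω := hA' ω
    have hBω := hB' ω
    by_cases h : A ω
    · by_cases h' : B ω
      · simp [h, h', hAω.1 h, hBω.1 h']
      · simp [h', (not_congr hBω).1 h']
    · simp [h, (not_congr hAω).1 h]
  have e2 : Pb (fun c => pc ve lam θ a G (U c)) A =
      ∑ η : C → E → Fin 4, (∏ c, splitPo ve lam θ a F G (U c) (η c)) * (if A η then 1 else 0) := by
    have := split_sum ve hl θ a hFG U (fun η => if A η then (1 : ℝ) else 0)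
      (fun _ => (1 : ℝ))
    unfold Pb Ex
    have h3 : ∀ η : C → E → Fin 4,
        ∑ κ : C → E → Fin 4, (∏ c, pc ve lam θ a F (U c ∪ cov ve (sM (η c))) (κ c)) * 1 = 1 := by
      intro η
      have hlaw : IsLaw (fun c => pc ve lam θ a F (U c ∪ cov ve (sM (η c)))) := by
        intro c
        refine ⟨fun k => pc_nonneg ve hl h0 h1 ha0 ha1 F _ k, pc_sum ve hl θ a F _⟩
      exact Ex_const hlaw 1
    simp_rw [h3, mul_one] at this
    rw [← this]
    refine Finset.sum_congr rfl (fun ω _ => ?_)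
    congr 1
    have hAω := hA' ω
    by_cases h : A ω
    · simp [h, hAω.1 h]
    · simp [h, (not_congr hAω).1 h]
  rw [e1, e2, Finset.mul_sum]
  refine Finset.sum_le_sum (fun η _ => ?_)
  rw [mul_comm p]
  by_cases hη : ∀ c, sM (η c) ∈ MS ve (G \ F) (U c)
  · refine mul_le_mul_of_nonneg_left (H (fun c => sM (η c)) hη) ?_
    refine mul_nonneg (Finset.prod_nonneg
      (fun c _ => splitPo_nonneg ve hl h0 h1 ha0 ha1 F G (U c) (η c))) ?_
    split_ifs
    · exact zero_le_one
    · exact le_rfl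
  · push Not at hη
    obtain ⟨c, hc⟩ := hη
    have : splitPo ve lam θ a F G (U c) (η c) = 0 := by
      unfold splitPo
      rw [if_neg hc]
    rw [Finset.prod_eq_zero (Finset.mem_univ c) this]
    simp

end Pool.Agent.KH
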