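import Pool.Agent.Lib.MP_30840b_co_h61.Bad
import Pool.Agent.Lib.MP_30840b_co_h61.LocA2
import Pool.Agent.Lib.MP_30840b_co_h61.Thin

set_option autoImplicit false

open Finset Classical

namespace Pool.Agent.KH

namespace StageBAux

variable {V E : Type} [Fintype V] [Fintype E]

/-- The sum of the activities at a vertex. -/
lemma sum_lam {ve : E → Finset V} {lam : E → ℝ} {Λ : ℝ} (hΛ : 1 ≤ Λ) {D : ℕ} (hD : 1 ≤ D)
    (hd : ∀ v, dg ve univ v ≤ D) (hl : ∀ e, lam e ≤ Λ / D) (v : V) :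
    ∑ e ∈ univ.filter (fun e => v ∈ ve e), lam e ≤ Λ := by
  have h0 : (0 : ℝ) < D := by exact_mod_cast hD
  refine (sum_le_card_nsmul _ _ _ fun e _ => hl e).trans ?_
  rw [nsmul_eq_mul]
  have h1 : ((univ.filter (fun e => v ∈ ve e)).card : ℝ) ≤ D := by exact_mod_cast hd v
  calc ((univ.filter (fun e => v ∈ ve e)).card : ℝ) * (Λ / D) ≤ D * (Λ / D) :=
        mul_le_mul_of_nonneg_right h1 (by positivity)
    _ = Λ := by field_simp

/-- An edge of `G` that meets the ball of radius `k` is in `FB` of radius `k + 1`. -/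
lemma mem_FB {ve : E → Finset V} {G : Finset E} {e f : E} {k m : ℕ} (hkm : k + 1 ≤ m)
    (hf : f ∈ G) {v : V} (hv : v ∈ ve f) (hv' : v ∈ Bv ve (ve e) k) : f ∈ FB ve G e m := by
  unfold FB
  rw [mem_filter]
  refine ⟨hf, (edge_Bv ?_).trans (Bv_mono ve _ hkm)⟩
  rw [Finset.not_disjoint_iff]
  exact ⟨v, hv, hv'⟩

lemma mem_cov {ve : E → Finset V} {M : Finset E} {v : V} : v ∈ cov ve M ↔ ∃ e ∈ M, v ∈ ve e := by
  unfold cov
  rw [mem_biUnion]

lemma exists_small {Λ β : ℝ} (hΛ : 1 ≤ Λ) (hβ : 0 < β) :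
    ∃ r₁ : ℕ, ∀ r ≥ r₁, 2 * ((Λ / (1 + Λ)) ^ r * Real.log (1 + Λ)) ≤ β / 2 := by
  have h0 : 0 ≤ Λ / (1 + Λ) := by positivity
  have h1 : Λ / (1 + Λ) < 1 := by rw [div_lt_one (by linarith)]; linarith
  have h2 : Filter.Tendsto (fun r : ℕ => 2 * ((Λ / (1 + Λ)) ^ r * Real.log (1 + Λ))) Filter.atTop
      (nhds (2 * (0 * Real.log (1 + Λ)))) :=
    ((tendsto_pow_atTop_nhds_zero_of_lt_one h0 h1).mul_const _).const_mul _
  rw [zero_mul, mul_zero] at h2
  obtain ⟨r₁, hr⟩ := Filter.eventually_atTop.1 (h2.eventually (ge_mem_nhds (by positivity :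
    (0 : ℝ) < β / 2)))
  exact ⟨r₁, hr⟩

end StageBAux

open StageBAux

/-- deterministic part: such marks give the next state -/
theorem stage_next (Λ β : ℝ) (hΛ : 1 ≤ Λ) (hβ : 0 < β) (hβ1 : β ≤ 1) :
    ∃ r₁ : ℕ, ∀ r ≥ r₁, ∀ {V E C : Type} [Fintype V] [Fintype E] [Fintype C] [Nonempty C]
      (ve : E → Finset V) (lam : E → ℝ) (L : E → Finset C) (G : Finset E)
      (U : C → Finset V) (θ : ℝ) (D : ℕ) (x y : E → V),
      1 ≤ D → (∀ e, (ve e).card = 2) → (∀ v, dg ve univ v ≤ D) → (∀ e, 0 < lam e) →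
      (∀ e, lam e ≤ Λ / D) → 0 < θ → θ ≤ 1 → (∀ e, ve e = {x e, y e}) → (∀ e, x e ≠ y e) →
      ∀ ω : C → E → Fin 4, (∀ c, sM (ω c) ∈ MS ve G (U c)) →
        (∀ e, ¬ Bad ve lam L G U θ (β / 2) D r x y e ω) →
      ∃ (G' : Finset E) (U' : C → Finset V) (col : E → C), G' ⊆ G ∧ (∀ c, U c ⊆ U' c) ∧
        (∀ e ∈ G \ G', col e ∈ L e ∧ Disjoint (ve e) (U (col e)) ∧ ve e ⊆ U' (col e)) ∧
        (∀ e ∈ G \ G', ∀ f ∈ G \ G', e ≠ f → ¬ Disjoint (ve e) (ve f) → col e ≠ col f) ∧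
        (∀ e ∈ G', (1 - β) * Q ve lam L G U e ≤ Q ve lam L G' U' e) ∧
        ∀ v, (dg ve G' v : ℝ) ≤ (1 - θ) * dg ve G v + β * D := by
  obtain ⟨r₁, hr₁⟩ := exists_small hΛ hβ
  refine ⟨r₁, ?_⟩
  intro r hr V E C _ _ _ _ ve lam L G U θ D x y hD h2 hd hl0 hl1 hθ0 hθ1 hxy hne ω hM hbad
  have ht := hr₁ r hr
  have hl : ∀ e, 0 ≤ lam e := fun e => (hl0 e).le
  have hs := sum_lam hΛ hD hd hl1
  have hD0 : (0 : ℝ) < D := by exact_mod_cast hD
  -- facts on the marks
  have hMS : ∀ c, sM (ω c) ⊆ G ∧ IsM ve (sM (ω c)) ∧ ∀ e ∈ sM (ω c), Disjoint (ve e) (U c) :=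
    fun c => MS_mem.1 (hM c)
  have h3M : ∀ c e, ω c e = 3 → e ∈ sM (ω c) ∧ e ∈ sN (ω c) := by
    intro c e h
    unfold sM sN
    rw [mem_filter, mem_filter]
    refine ⟨⟨mem_univ _, ?_⟩, mem_univ _, Or.inr h⟩
    rw [h]
    decide
  have hNG : ∀ c, ∀ f ∈ sN (ω c), f ∈ G := fun c f hf => (hMS c).1 (sN_sub_sM _ hf)
  set G' : Finset E := G \ Dl L G ω with hG'
  set U' : C → Finset V := fun c => U c ∪ cov ve (sN (ω c)) with hU'
  set col : E → C := fun e => if h : ∃ c ∈ L e, ω c e = 3 then h.choose else Classical.arbitrary C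
    with hcol
  have hdel : ∀ e ∈ G \ G', col e ∈ L e ∧ ω (col e) e = 3 := by
    intro e he
    rw [hG', mem_sdiff, mem_sdiff, not_and, not_not] at he
    have h4 := he.2 he.1
    unfold Dl at h4
    rw [mem_filter] at h4
    have h5 : col e = h4.2.choose := by
      rw [hcol]
      exact dif_pos h4.2
    rw [h5]
    exact h4.2.choose_spec
  -- membership in `G'` near an edge
  have hDl : ∀ (F : Finset E) (f : E), f ∈ F → F ⊆ G → (f ∈ Dl L F ω ↔ f ∈ Dl L G ω) := by
    intro F f hf hFG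
    unfold Dl
    rw [mem_filter, mem_filter]
    exact ⟨fun h => ⟨hFG h.1, h.2⟩, fun h => ⟨hf, h.2⟩⟩
  have hFBG : ∀ e, FB ve G e (r + 3) ⊆ G := fun e => filter_subset _ _
  refine ⟨G', U', col, sdiff_subset, fun c => subset_union_left, ?_, ?_, ?_, ?_⟩
  · intro e he
    obtain ⟨h4, h5⟩ := hdel e he
    obtain ⟨h6, h7⟩ := h3M _ _ h5
    refine ⟨h4, (hMS _).2.2 e h6, ?_⟩
    intro v hv
    rw [hU']
    simp only
    rw [mem_union]
    exact Or.inr (mem_cov.2 ⟨e, h7, hv⟩)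
  · intro e he f hf hef hnd hc
    obtain ⟨-, h5⟩ := hdel e he
    obtain ⟨-, h6⟩ := hdel f hf
    rw [← hc] at h6
    exact hnd ((hMS _).2.1 e (h3M _ _ h5).1 f (h3M _ _ h6).1 hef)
  · intro e he
    have heG : e ∈ G := (mem_sdiff.1 he).1
    set F := FB ve G e (r + 3) with hF
    have hb := hbad e
    unfold Bad at hb
    rw [← hF] at hb
    push Not at hb
    obtain ⟨hQT, -⟩ := hb heG
    -- the neighbourhood
    have hcovB : ∀ c, ∀ v ∈ Bv ve (ve e) (r + 2), (v ∈ cov ve (sN (ω c)) ↔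
        v ∈ cov ve (sN (ω c) ∩ F)) := by
      intro c v hv
      rw [mem_cov, mem_cov]
      constructor
      · rintro ⟨f, hf, hvf⟩
        exact ⟨f, mem_inter.2 ⟨hf, mem_FB (by omega) (hNG c f hf) hvf hv⟩, hvf⟩
      · rintro ⟨f, hf, hvf⟩
        exact ⟨f, (mem_inter.1 hf).1, hvf⟩
    have hUB : ∀ c, ∀ v ∈ Bv ve (ve e) (r + 2), (v ∈ U' c ↔
        v ∈ U c ∪ cov ve (sN (ω c) ∩ F)) := by
      intro c v hv
      rw [hU']
      simp only
      rw [mem_union, mem_union, hcovB c v hv]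
    have hve : ∀ v ∈ ve e, v ∈ Bv ve (ve e) (r + 2) := fun v hv =>
      Bv_mono ve _ (Nat.zero_le _) hv
    have hdisj : ∀ c, (Disjoint (ve e) (U' c) ↔ Disjoint (ve e) (U c ∪ cov ve (sN (ω c) ∩ F))) := by
      intro c
      rw [Finset.disjoint_left, Finset.disjoint_left]
      refine forall₂_congr fun v hv => ?_
      rw [hUB c v (hve v hv)]
    have hidx : av ve L U' e = (L e).filter (fun c => Disjoint (ve e)
        (U c ∪ cov ve (sN (ω c) ∩ F))) := by
      unfold av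
      exact filter_congr fun c _ => hdisj c
    have hQ0 : 0 ≤ Q ve lam L G U e := sum_nonneg fun c _ => (fr_pos ve hl _ _ _).le
    -- one colour
    have hone : ∀ c ∈ av ve L U' e, Real.exp (-(β / 2)) *
        (T ve lam (F \ Dl L F ω) r (U c ∪ cov ve (sN (ω c) ∩ F)) (x e) *
        T ve lam (F \ Dl L F ω) r (insert (x e) (U c ∪ cov ve (sN (ω c) ∩ F))) (y e)) ≤
        fr ve lam G' (U' c) (ve e) := by
      intro c hc
      have hdc : Disjoint (ve e) (U' c) := by
        unfold av at hc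
        exact (mem_filter.1 hc).2
      have hnear := near_close h2 (by linarith : (0 : ℝ) ≤ Λ) hl hs G G' e (r := r) (U := U c)
        (U' := U' c) (N := cov ve (sN (ω c) ∩ F)) (F' := F \ Dl L F ω) (hxy e) (hne e) ?_ ?_
        (hUB c) hdc
      · have hTpos : ∀ W v, 0 < T ve lam (F \ Dl L F ω) r W v := by
          intro W v
          refine lt_of_lt_of_le ?_ (T_ge hl (Λ := Λ) ?_ (by linarith) r W v)
          · positivity
          · intro v
            refine (sum_le_sum_of_subset_of_nonneg ?_ fun e _ _ => hl e).trans (hs v)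
            exact filter_subset_filter _ (subset_univ _)
        have hTT := mul_pos (hTpos (U c ∪ cov ve (sN (ω c) ∩ F)) (x e))
          (hTpos (insert (x e) (U c ∪ cov ve (sN (ω c) ∩ F))) (y e))
        have hfr := fr_pos ve hl G' (U' c) (ve e)
        have h6 := (abs_le.1 (hnear.trans ht)).1
        rw [← Real.log_le_log_iff (mul_pos (Real.exp_pos _) hTT) hfr,
          Real.log_mul (Real.exp_pos _).ne' hTT.ne', Real.log_exp]
        linarith
      · intro f hf
        rw [hG', mem_sdiff, mem_sdiff]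
        have h7 : f ∈ G ↔ f ∈ F := by
          rw [hF]
          unfold FB
          rw [mem_filter]
          exact ⟨fun h => ⟨h, hf.trans (Bv_mono ve _ (by omega))⟩, fun h => h.1⟩
        constructor
        · rintro ⟨h8, h9⟩
          have h10 := h7.1 h8
          exact ⟨h10, fun h11 => h9 ((hDl F f h10 (hFBG e)).1 h11)⟩
        · rintro ⟨h8, h9⟩
          exact ⟨h7.2 h8, fun h11 => h9 ((hDl F f h8 (hFBG e)).2 h11)⟩
      · exact sdiff_subset
    have hsum : Real.exp (-(β / 2)) * QT ve lam L F U r e (x e) (y e) ω ≤ Q ve lam L G' U' e := by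
      unfold Q QT
      rw [← hidx, mul_sum]
      exact sum_le_sum hone
    have hexp : 1 - β / 2 ≤ Real.exp (-(β / 2)) := by
      have := Real.add_one_le_exp (-(β / 2))
      linarith
    have h8 : (1 - β / 2) * ((1 - β / 2) * Q ve lam L G U e) ≤
        Real.exp (-(β / 2)) * QT ve lam L F U r e (x e) (y e) ω :=
      mul_le_mul hexp hQT (mul_nonneg (by linarith) hQ0) (Real.exp_pos _).le
    have h9 : (1 - β) * Q ve lam L G U e ≤ (1 - β / 2) * ((1 - β / 2) * Q ve lam L G U e) := by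
      nlinarith [mul_nonneg (sq_nonneg (β / 2)) hQ0]
    exact h9.trans (h8.trans hsum)
  · intro v
    by_cases hv : ∃ e ∈ G', v ∈ ve e
    · obtain ⟨e, he, hve⟩ := hv
      have heG : e ∈ G := (mem_sdiff.1 he).1
      have hb := hbad e
      unfold Bad at hb
      push Not at hb
      obtain ⟨-, hdeg⟩ := hb heG
      have h6 := hdeg v hve
      have h7 : dg ve G' v ≤ dg ve (FB ve G e (r + 3) \ Dl L (FB ve G e (r + 3)) ω) v := by
        unfold dg
        refine card_le_card ?_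
        intro f hf
        rw [mem_filter] at hf ⊢
        obtain ⟨hf1, hvf⟩ := hf
        rw [hG', mem_sdiff] at hf1
        have h8 : f ∈ FB ve G e (r + 3) := mem_FB (k := 0) (by omega) hf1.1 hvf hve
        refine ⟨mem_sdiff.2 ⟨h8, fun h9 => hf1.2 ((hDl _ f h8 (hFBG e)).1 h9)⟩, hvf⟩
      have h8 : (dg ve G' v : ℝ) ≤
          (dg ve (FB ve G e (r + 3) \ Dl L (FB ve G e (r + 3)) ω) v : ℝ) := by exact_mod_cast h7
      have h9 : β / 2 * (D : ℝ) ≤ β * D := by nlinarith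
      linarith
    · push Not at hv
      have h6 : dg ve G' v = 0 := by
        unfold dg
        rw [card_eq_zero, filter_eq_empty_iff]
        exact fun e he => hv e he
      rw [h6, Nat.cast_zero]
      have h7 : 0 ≤ (1 - θ) * (dg ve G v : ℝ) := mul_nonneg (by linarith) (Nat.cast_nonneg _)
      positivity

end Pool.Agent.KH
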