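import Pool.Agent.Lib.MP_30840b_co_h61.StageA
import Pool.Agent.Lib.MP_30840b_co_h61.StageB

set_option autoImplicit false

open Finset Classical

namespace Pool.Agent.KH

theorem stage (Λ β : ℝ) (hΛ : 1 ≤ Λ) (hβ : 0 < β) (hβ1 : β ≤ 1) :
    ∃ D₀ : ℕ, ∀ {V E C : Type} [Fintype V] [Fintype E] [Fintype C] [Nonempty C]
      (ve : E → Finset V) (lam : E → ℝ) (L : E → Finset C) (G : Finset E)
      (U : C → Finset V) (σ θ : ℝ) (D : ℕ),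
      D₀ ≤ D → (∀ e, (ve e).card = 2) → (∀ v, dg ve univ v ≤ D) → (∀ e, 0 < lam e) →
      (∀ e, lam e ≤ Λ / D) → (∀ e, (L e).card ≤ 2 * D) → 0 < σ → σ ≤ 1 → 0 < θ → θ ≤ σ / 8 →
      (∀ e ∈ G, 1 + σ ≤ lam e * Q ve lam L G U e) →
      ∃ (G' : Finset E) (U' : C → Finset V) (col : E → C), G' ⊆ G ∧ (∀ c, U c ⊆ U' c) ∧
        (∀ e ∈ G \ G', col e ∈ L e ∧ Disjoint (ve e) (U (col e)) ∧ ve e ⊆ U' (col e)) ∧
        (∀ e ∈ G \ G', ∀ f ∈ G \ G', e ≠ f → ¬ Disjoint (ve e) (ve f) → col e ≠ col f) ∧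
        (∀ e ∈ G', (1 - β) * Q ve lam L G U e ≤ Q ve lam L G' U' e) ∧
        ∀ v, (dg ve G' v : ℝ) ≤ (1 - θ) * dg ve G v + β * D := by
  obtain ⟨r₁, hr₁⟩ := stage_next Λ β hΛ hβ hβ1
  obtain ⟨r, D₀, hr, hst⟩ := stage_marks Λ (β / 2) hΛ (by linarith) (by linarith) r₁
  refine ⟨max D₀ 1, ?_⟩
  intro V E C _ _ _ _ ve lam L G U σ θ D hD h2 hd hl0 hl1 hL hσ hσ1 hθ hθσ hQ
  have hD0 : D₀ ≤ D := le_trans (le_max_left _ _) hD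
  have hD1 : 1 ≤ D := le_trans (le_max_right _ _) hD
  have hex : ∀ e, ∃ p : V × V, ve e = {p.1, p.2} ∧ p.1 ≠ p.2 := by
    intro e
    obtain ⟨a, b, hab, h⟩ := Finset.card_eq_two.mp (h2 e)
    exact ⟨(a, b), h, hab⟩
  choose p hp1 hp2 using hex
  obtain ⟨ω, h3, h4⟩ := hst ve lam L G U σ θ D (fun e => (p e).1) (fun e => (p e).2) hD0 h2 hd hl0
    hl1 hL hσ hσ1 hθ hθσ hQ hp1 hp2
  exact hr₁ r hr ve lam L G U θ D (fun e => (p e).1) (fun e => (p e).2) hD1 h2 hd hl0 hl1 hθ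
    (by linarith) hp1 hp2 ω h3 h4

end Pool.Agent.KH
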