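import Pool.Agent.Lib.MP_30840b_co_h61.Bad
import Pool.Agent.Lib.MP_30840b_co_h61.LocD
import Pool.Agent.Lib.MP_30840b_co_h61.LLL
import Pool.Agent.Lib.MP_30840b_co_h61.Split
import Pool.Agent.Lib.MP_30840b_co_h61.Coin

set_option autoImplicit false

open Finset Classical

namespace Pool.Agent.KH

namespace StageAAux

variable {V E C : Type} [Fintype V] [Fintype E] [Fintype C]

/-- The failure at an edge only depends on the marks near the edge. -/
lemma bad_congr {ve : E → Finset V} {lam : E → ℝ} {L : E → Finset C} {G : Finset E}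
    {U : C → Finset V} {θ β : ℝ} {D r : ℕ} {x y : E → V} {e : E} {ω ω' : C → E → Fin 4}
    (h : ∀ c, ∀ f ∈ FB ve G e (r + 3), ω c f = ω' c f) :
    Bad ve lam L G U θ β D r x y e ω ↔ Bad ve lam L G U θ β D r x y e ω' := by
  have h1 : Dl L (FB ve G e (r + 3)) ω = Dl L (FB ve G e (r + 3)) ω' := by
    unfold Dl
    refine filter_congr fun f hf => ?_
    refine exists_congr fun c => and_congr_right fun _ => ?_
    rw [h c f hf]
  have h2 : ∀ c, sN (ω c) ∩ FB ve G e (r + 3) = sN (ω' c) ∩ FB ve G e (r + 3) := by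
    intro c
    ext f
    unfold sN
    simp only [mem_inter, mem_filter, mem_univ, true_and]
    constructor
    · rintro ⟨h3, h4⟩
      rw [h c f h4] at h3
      exact ⟨h3, h4⟩
    · rintro ⟨h3, h4⟩
      rw [← h c f h4] at h3
      exact ⟨h3, h4⟩
  unfold Bad QT
  simp only [h1, h2]

/-- A term is at most one. -/
lemma lam_fr_le {ve : E → Finset V} (h2 : ∀ e, (ve e).card = 2) {lam : E → ℝ}
    (hl : ∀ e, 0 ≤ lam e) {G : Finset E} {W : Finset V} {e : E} (he : e ∈ G)
    (hd : Disjoint (ve e) W) : lam e * fr ve lam G W (ve e) ≤ 1 := by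
  obtain ⟨v, hv⟩ : (ve e).Nonempty := by
    rw [← card_pos, h2 e]
    norm_num
  have hvW : v ∉ W := fun h => Finset.disjoint_left.1 hd hv h
  have h3 := fr_sum h2 hl G hvW
  have h4 : e ∈ ed ve G W v := by
    unfold ed
    rw [mem_filter]
    exact ⟨he, hv, hd⟩
  have h5 := single_le_sum (f := fun e => lam e * fr ve lam G W (ve e))
    (fun f _ => mul_nonneg (hl f) (fr_pos ve hl G W (ve f)).le) h4
  have h6 := (fr_pos ve hl G W {v}).le
  linarith

end StageAAux

open StageAAux

/-- probabilistic part: some marks avoid all failures -/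
theorem stage_marks (Λ β : ℝ) (hΛ : 1 ≤ Λ) (hβ : 0 < β) (hβ1 : β ≤ 1) (r₁ : ℕ) :
    ∃ r D₀ : ℕ, r₁ ≤ r ∧ ∀ {V E C : Type} [Fintype V] [Fintype E] [Fintype C]
      (ve : E → Finset V) (lam : E → ℝ) (L : E → Finset C) (G : Finset E)
      (U : C → Finset V) (σ θ : ℝ) (D : ℕ) (x y : E → V),
      D₀ ≤ D → (∀ e, (ve e).card = 2) → (∀ v, dg ve univ v ≤ D) → (∀ e, 0 < lam e) →
      (∀ e, lam e ≤ Λ / D) → (∀ e, (L e).card ≤ 2 * D) → 0 < σ → σ ≤ 1 → 0 < θ → θ ≤ σ / 8 →
      (∀ e ∈ G, 1 + σ ≤ lam e * Q ve lam L G U e) → (∀ e, ve e = {x e, y e}) →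
      (∀ e, x e ≠ y e) →
      ∃ ω : C → E → Fin 4, (∀ c, sM (ω c) ∈ MS ve G (U c)) ∧
        ∀ e, ¬ Bad ve lam L G U θ β D r x y e ω := by
  obtain ⟨r, R, D₀, hr, hrR, hloc⟩ := local_est Λ β hΛ hβ hβ1 r₁
  refine ⟨r, max D₀ 1, hr, ?_⟩
  intro V E C _ _ _ ve lam L G U σ θ D x y hD h2 hd hl0 hl1 hL hσ hσ1 hθ hθσ hQ hxy hne
  have hl : ∀ e, 0 ≤ lam e := fun e => (hl0 e).le
  have hD1 : 1 ≤ D := le_trans (le_max_right _ _) hD
  have hDD : D₀ ≤ D := le_trans (le_max_left _ _) hD
  -- the coins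
  have hcoin : ∀ e, ∃ a : ℝ, 0 ≤ a ∧ a ≤ 1 ∧ (e ∈ G → ∏ c ∈ av ve L U e,
      (1 - θ * a * (lam e * fr ve lam G (U c) (ve e))) = 1 - θ) := by
    intro e
    by_cases he : e ∈ G
    · obtain ⟨a, h3, h4, h5⟩ := exists_coin (av ve L U e)
        (fun c => lam e * fr ve lam G (U c) (ve e))
        (fun c _ => mul_nonneg (hl e) (fr_pos ve hl _ _ _).le)
        (fun c hc => lam_fr_le h2 hl he (by
          unfold av at hc
          exact (mem_filter.1 hc).2)) hσ hσ1 hθ hθσ (by
          have := hQ e he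
          unfold Q at this
          rw [mul_sum] at this
          exact this)
      exact ⟨a, h3, h4, fun _ => h5⟩
    · exact ⟨0, le_rfl, zero_le_one, fun h => absurd h he⟩
  choose a ha0 ha1 ha using hcoin
  have hθ1 : θ ≤ 1 := by linarith
  -- the weights
  set w : (C → E → Fin 4) → ℝ := fun ω => ∏ c, pc ve lam θ a G (U c) (ω c) with hw
  have hw0 : ∀ ω, 0 ≤ w ω := fun ω =>
    prod_nonneg fun c _ => pc_nonneg ve hl hθ.le hθ1 ha0 ha1 G (U c) (ω c)
  have hlaw : IsLaw (fun c => pc ve lam θ a G (U c)) := fun c =>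
    ⟨fun g => pc_nonneg ve hl hθ.le hθ1 ha0 ha1 G (U c) g, pc_sum ve hl θ a G (U c)⟩
  have hsum : ∑ ω, w ω = 1 := by
    have h3 := Ex_const hlaw (1 : ℝ)
    unfold Ex at h3
    simp only [mul_one] at h3
    exact h3
  have hPb : ∀ (A : (C → E → Fin 4) → Prop) [DecidablePred A],
      ∑ ω ∈ univ.filter A, w ω = Pb (fun c => pc ve lam θ a G (U c)) A := by
    intro A _
    unfold Pb Ex
    rw [sum_filter]
    refine sum_congr rfl fun ω _ => ?_
    rw [mul_ite, mul_one, mul_zero]
    congr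
  set X : ℝ := ((D : ℝ) + 1) ^ (R + r + 5) with hX
  have hX1 : 1 ≤ X := one_le_pow₀ (by
    have : (0 : ℝ) ≤ D := Nat.cast_nonneg _
    linarith)
  have key := lll w hw0 (by rw [hsum]; norm_num)
    (fun e ω => Bad ve lam L G U θ β D r x y e ω)
    (fun e => univ.filter (fun f => ¬ Disjoint (FB ve G f (r + 3)) (FB ve G e R)))
    (1 / (16 * X)) (by positivity) (2 * (D + 1) ^ (R + r + 5))
    (fun e => (nb_card h2 hd G e (r + 3) R).trans (le_of_eq (by ring_nf))) ?_ ?_
  · obtain ⟨ω, hω, hbad⟩ := key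
    refine ⟨ω, fun c => ?_, hbad⟩
    refine pc_supp (lam := lam) (θ := θ) (a := a) fun h3 => ?_
    rw [hw] at hω
    simp only at hω
    rw [prod_eq_zero (mem_univ c) h3] at hω
    exact lt_irrefl _ hω
  · -- the local estimate
    intro e S hS
    rw [hPb, hPb]
    by_cases he : e ∈ G
    · refine split ve hl hθ.le hθ1 ha0 ha1 (F := FB ve G e R) (G := G) (filter_subset _ _) U
        (fun ω => ∀ j ∈ S, ¬ Bad ve lam L G U θ β D r x y j ω)
        (fun ω => Bad ve lam L G U θ β D r x y e ω) ?_ ?_ (by positivity) ?_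
      · intro ω ω' h3
        refine forall₂_congr fun j hj => not_congr (bad_congr fun c f hf => h3 c f fun h4 => ?_)
        have h5 := hS j hj
        rw [mem_filter, not_and, not_not] at h5
        exact Finset.disjoint_left.1 (h5 (mem_univ _)) hf h4
      · intro ω ω' h3
        refine bad_congr fun c f hf => h3 c f ?_
        unfold FB at hf ⊢
        rw [mem_filter] at hf ⊢
        exact ⟨hf.1, hf.2.trans (Bv_mono ve _ (by omega))⟩
      · intro O hO
        have h3 : Loc ve lam L G U θ a Λ D e R (fun c => U c ∪ cov ve (O c)) := by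
          refine ⟨h2, hD1, hd, hΛ, hl0, hl1, hL, hθ, by linarith, ha0, ha1, fun f hf => ha f hf, he,
            fun c => subset_union_left, fun c => ?_⟩
          rw [Finset.disjoint_left]
          intro v hv hvB
          rw [mem_sdiff, mem_union] at hv
          obtain ⟨h4 | h4, h5⟩ := hv
          · exact h5 h4
          · unfold cov at h4
            rw [mem_biUnion] at h4
            obtain ⟨f, hf, hvf⟩ := h4
            have h6 := (MS_mem.1 (hO c)).1 hf
            rw [mem_sdiff] at h6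
            refine h6.2 ?_
            unfold FB
            rw [mem_filter]
            refine ⟨h6.1, ?_⟩
            have h7 : ve f ⊆ Bv ve (ve e) (R - 1 + 1) := edge_Bv (by
              rw [Finset.not_disjoint_iff]
              exact ⟨v, hvf, hvB⟩)
            rwa [Nat.sub_add_cancel (by omega)] at h7
        have h4 := hloc ve lam L G U θ a D e (fun c => U c ∪ cov ve (O c)) (x e) (y e) hDD h3
          (hxy e) (hne e) (by have := hQ e he; linarith)
        refine le_trans (Pb_mono ?_ ?_) h4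
        · exact fun c => ⟨fun g => pc_nonneg ve hl hθ.le hθ1 ha0 ha1 _ _ g, pc_sum ve hl θ a _ _⟩
        · intro ω _ h5
          exact h5.2
    · have h3 : Pb (fun c => pc ve lam θ a G (U c)) (fun ω => Bad ve lam L G U θ β D r x y e ω ∧
          ∀ j ∈ S, ¬ Bad ve lam L G U θ β D r x y j ω) = 0 := by
        unfold Pb Ex
        refine sum_eq_zero fun ω _ => ?_
        simp only
        rw [if_neg, mul_zero]
        rintro ⟨h4, -⟩
        exact he h4.1
      rw [h3]
      exact mul_nonneg (by positivity) (Pb_nonneg hlaw _)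
  · push_cast
    rw [← hX]
    have h3 : 4 * (1 / (16 * X)) * (2 * X + 1) = (2 * X + 1) / (4 * X) := by
      field_simp
      ring
    rw [h3, div_le_one (by positivity)]
    linarith

end Pool.Agent.KH
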