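import Pool.Agent.Lib.MP_30840b_co_h61.HC

/-! The switching inequality. -/

set_option autoImplicit false

open Finset Classical

namespace Pool.Agent.KH

variable {V E : Type} [Fintype V] [Fintype E]

lemma Sw_Z_nonneg (ve : E → Finset V) {lam : E → ℝ} (hl : ∀ e, 0 ≤ lam e) (F : Finset E)
    (W : Finset V) : 0 ≤ Z ve lam F W := zero_le_one.trans (one_le_Z ve hl F W)

/-- the second inequality of the switch -/
lemma Sw_two {ve : E → Finset V} (h2 : ∀ e, (ve e).card = 2) {lam : E → ℝ} (hl : ∀ e, 0 ≤ lam e)
    (F : Finset E) (W : Finset V) {x y u : V} (hx : x ∉ W) (hy : y ∉ W) (hu : u ∉ W)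
    (hxy : x ≠ y) (hxu : x ≠ u) (hyu : y ≠ u)
    (h1 : ∀ v, v ∉ insert u W → x ≠ v → y ≠ v →
      Z ve lam F (insert u W ∪ {x, y}) * Z ve lam F (insert v (insert u W)) ≤
      Z ve lam F (insert u W) *
        (Z ve lam F (insert u W ∪ {x, v}) + Z ve lam F (insert u W ∪ {y, v}))) :
    Z ve lam F (insert u W ∪ {x, y}) * Z ve lam F W ≤
      Z ve lam F (insert u W) * (Z ve lam F (insert x W) + Z ve lam F (insert y W)) := by
  have hZ0 := Sw_Z_nonneg ve hl F
  have hux : u ∉ insert x W := by
    rw [mem_insert]
    push Not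
    exact ⟨hxu.symm, hu⟩
  have huy : u ∉ insert y W := by
    rw [mem_insert]
    push Not
    exact ⟨hyu.symm, hu⟩
  have hed : ∀ a, ed ve F (insert a W) u = (ed ve F W u).filter (fun e => a ∉ ve e) := by
    intro a
    ext e
    simp only [ed, mem_filter, disjoint_insert_right]
    tauto
  rw [Z_rec h2 lam F hu, Z_rec h2 lam F hux, Z_rec h2 lam F huy, hed x, hed y, sum_filter,
    sum_filter]
  have hmain : Z ve lam F (insert u W ∪ {x, y}) *
      ∑ e ∈ ed ve F W u, lam e * Z ve lam F (W ∪ ve e) ≤
      Z ve lam F (insert u W) * ((∑ e ∈ ed ve F W u, if x ∉ ve e then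
        lam e * Z ve lam F (insert x W ∪ ve e) else 0) +
        ∑ e ∈ ed ve F W u, if y ∉ ve e then lam e * Z ve lam F (insert y W ∪ ve e) else 0) := by
    rw [← sum_add_distrib, mul_sum, mul_sum]
    refine sum_le_sum fun e he => ?_
    rw [ed, mem_filter] at he
    obtain ⟨-, hue, hdis⟩ := he
    obtain ⟨hv1, hv2, hv3⟩ := oe_spec h2 hue
    obtain ⟨v, hv⟩ : ∃ v, v = oe ve e u := ⟨_, rfl⟩
    rw [← hv] at hv1 hv2 hv3
    have hvW : v ∉ W := disjoint_left.1 hdis hv3
    rw [hv1]
    have hle := hl e
    have hA := hZ0 (insert u W ∪ {x, y})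
    have hni : ∀ a, a ≠ u → a ≠ v → a ∉ ({u, v} : Finset V) := by
      intro a h3 h4
      simp only [mem_insert, mem_singleton]
      push Not
      exact ⟨h3, h4⟩
    by_cases hvx : v = x
    · rw [if_neg (by rw [← hvx]; simp), if_pos (hni y hyu (by rw [hvx]; exact hxy.symm)), zero_add]
      have e1 : insert y W ∪ {u, v} = insert u W ∪ {x, y} := by
        rw [hvx]
        ext a
        simp only [mem_union, mem_insert, mem_singleton]
        tauto
      have e2 : Z ve lam F (W ∪ {u, v}) ≤ Z ve lam F (insert u W) := by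
        refine Z_mono ve hl F fun a ha => ?_
        simp only [mem_union, mem_insert, mem_singleton] at ha ⊢
        tauto
      rw [e1]
      have := mul_le_mul_of_nonneg_left e2 (mul_nonneg hA hle)
      linarith
    · by_cases hvy : v = y
      · rw [if_pos (hni x hxu fun h => hvx h.symm), if_neg (by rw [← hvy]; simp), add_zero]
        have e1 : insert x W ∪ {u, v} = insert u W ∪ {x, y} := by
          rw [hvy]
          ext a
          simp only [mem_union, mem_insert, mem_singleton]
          tauto
        have e2 : Z ve lam F (W ∪ {u, v}) ≤ Z ve lam F (insert u W) := by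
          refine Z_mono ve hl F fun a ha => ?_
          simp only [mem_union, mem_insert, mem_singleton] at ha ⊢
          tauto
        rw [e1]
        have := mul_le_mul_of_nonneg_left e2 (mul_nonneg hA hle)
        linarith
      · rw [if_pos (hni x hxu fun h => hvx h.symm), if_pos (hni y hyu fun h => hvy h.symm)]
        have h3 := h1 v (by
          rw [mem_insert]
          push Not
          exact ⟨hv2, hvW⟩) (fun h => hvx h.symm) (fun h => hvy h.symm)
        have e1 : insert x W ∪ {u, v} = insert u W ∪ {x, v} := by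
          ext a
          simp only [mem_union, mem_insert, mem_singleton]
          tauto
        have e2 : insert y W ∪ {u, v} = insert u W ∪ {y, v} := by
          ext a
          simp only [mem_union, mem_insert, mem_singleton]
          tauto
        have e3 : W ∪ {u, v} = insert v (insert u W) := by
          ext a
          simp only [mem_union, mem_insert, mem_singleton]
          tauto
        rw [e1, e2, e3]
        have := mul_le_mul_of_nonneg_left h3 hle
        linarith
  have h0 : Z ve lam F (insert u W ∪ {x, y}) * Z ve lam F (insert u W) ≤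
      Z ve lam F (insert u W) * Z ve lam F (insert u (insert x W)) := by
    rw [mul_comm]
    refine mul_le_mul_of_nonneg_left ?_ (hZ0 _)
    refine Z_mono ve hl F fun a ha => ?_
    simp only [mem_union, mem_insert, mem_singleton] at ha ⊢
    tauto
  have h00 : 0 ≤ Z ve lam F (insert u W) * Z ve lam F (insert u (insert y W)) :=
    mul_nonneg (hZ0 _) (hZ0 _)
  linarith

/-- `Z(x,y) Z(z) ≤ Z (Z(x,z) + Z(y,z))` -/
theorem switch {ve : E → Finset V} (h2 : ∀ e, (ve e).card = 2) {lam : E → ℝ} (hl : ∀ e, 0 ≤ lam e)
    (F : Finset E) (W : Finset V) {x y z : V} (hx : x ∉ W) (hy : y ∉ W) (hz : z ∉ W)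
    (hxy : x ≠ y) (hxz : x ≠ z) (hyz : y ≠ z) :
    Z ve lam F (W ∪ {x, y}) * Z ve lam F (insert z W) ≤
      Z ve lam F W * (Z ve lam F (W ∪ {x, z}) + Z ve lam F (W ∪ {y, z})) := by
  have hZ0 := Sw_Z_nonneg ve hl F
  obtain ⟨n, hn⟩ : ∃ n, (univ \ W).card = n := ⟨_, rfl⟩
  induction n using Nat.strong_induction_on generalizing W x y z with
  | _ n ih =>
    have hz' : z ∉ W ∪ {x, y} := by
      simp only [mem_union, mem_insert, mem_singleton]
      push Not
      exact ⟨hz, hxz.symm, hyz.symm⟩
    rw [Z_rec h2 lam F hz']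
    have hsub : ed ve F (W ∪ {x, y}) z ⊆ ed ve F W z := by
      intro e he
      rw [ed, mem_filter] at he ⊢
      exact ⟨he.1, he.2.1, he.2.2.mono_right subset_union_left⟩
    have hlow : Z ve lam F (insert z W) + ∑ e ∈ ed ve F (W ∪ {x, y}) z,
        lam e * Z ve lam F (W ∪ ve e) ≤ Z ve lam F W := by
      rw [Z_rec h2 lam F hz]
      refine add_le_add le_rfl ?_
      exact sum_le_sum_of_subset_of_nonneg hsub fun e _ _ => mul_nonneg (hl e) (hZ0 _)
    have hR0 : 0 ≤ Z ve lam F (W ∪ {x, z}) + Z ve lam F (W ∪ {y, z}) :=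
      add_nonneg (hZ0 _) (hZ0 _)
    refine le_trans ?_ (mul_le_mul_of_nonneg_right hlow hR0)
    have h0 : Z ve lam F (insert z (W ∪ {x, y})) * Z ve lam F (insert z W) ≤
        Z ve lam F (insert z W) * (Z ve lam F (W ∪ {x, z}) + Z ve lam F (W ∪ {y, z})) := by
      rw [mul_comm]
      refine mul_le_mul_of_nonneg_left ?_ (hZ0 _)
      have h3 : Z ve lam F (insert z (W ∪ {x, y})) ≤ Z ve lam F (W ∪ {x, z}) := by
        refine Z_mono ve hl F fun a ha => ?_
        simp only [mem_union, mem_insert, mem_singleton] at ha ⊢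
        tauto
      linarith [hZ0 (W ∪ {y, z})]
    have hmain : (∑ e ∈ ed ve F (W ∪ {x, y}) z, lam e * Z ve lam F (W ∪ {x, y} ∪ ve e)) *
        Z ve lam F (insert z W) ≤ (∑ e ∈ ed ve F (W ∪ {x, y}) z, lam e * Z ve lam F (W ∪ ve e)) *
        (Z ve lam F (W ∪ {x, z}) + Z ve lam F (W ∪ {y, z})) := by
      rw [sum_mul, sum_mul]
      refine sum_le_sum fun e he => ?_
      rw [ed, mem_filter] at he
      obtain ⟨-, hze, hdis⟩ := he
      obtain ⟨hu1, hu2, hu3⟩ := oe_spec h2 hze
      obtain ⟨u, hu⟩ : ∃ u, u = oe ve e z := ⟨_, rfl⟩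
      rw [← hu] at hu1 hu2 hu3
      have huW : u ∉ W ∪ {x, y} := disjoint_left.1 hdis hu3
      simp only [mem_union, mem_insert, mem_singleton] at huW
      push Not at huW
      obtain ⟨huW, hux, huy⟩ := huW
      rw [hu1]
      have hni : ∀ a, a ∉ W → a ≠ z → a ∉ insert z W := by
        intro a h3 h4
        rw [mem_insert]
        push Not
        exact ⟨h4, h3⟩
      have h3 := Sw_two h2 hl F (insert z W) (hni x hx hxz) (hni y hy hyz) (hni u huW hu2) hxy
        (fun h => hux h.symm) (fun h => huy h.symm) (fun v hv hxv hyv => by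
          refine ih (univ \ insert u (insert z W)).card ?_ _ ?_ ?_ hv hxy hxv hyv rfl
          · rw [← hn]
            refine card_lt_card ⟨?_, fun hcon => ?_⟩
            · refine sdiff_subset_sdiff Subset.rfl ?_
              exact (subset_insert _ _).trans (subset_insert _ _)
            · have h4 : z ∈ univ \ insert u (insert z W) :=
                hcon (mem_sdiff.2 ⟨mem_univ z, hz⟩)
              rw [mem_sdiff] at h4
              exact h4.2 (by simp)
          · rw [mem_insert]
            push Not
            exact ⟨fun h => hux h.symm, hni x hx hxz⟩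
          · rw [mem_insert]
            push Not
            exact ⟨fun h => huy h.symm, hni y hy hyz⟩)
      have e1 : W ∪ {x, y} ∪ {z, u} = insert u (insert z W) ∪ {x, y} := by
        ext a
        simp only [mem_union, mem_insert, mem_singleton]
        tauto
      have e2 : W ∪ {z, u} = insert u (insert z W) := by
        ext a
        simp only [mem_union, mem_insert, mem_singleton]
        tauto
      have e3 : W ∪ {x, z} = insert x (insert z W) := by
        ext a
        simp only [mem_union, mem_insert, mem_singleton]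
        tauto
      have e4 : W ∪ {y, z} = insert y (insert z W) := by
        ext a
        simp only [mem_union, mem_insert, mem_singleton]
        tauto
      rw [e1, e2, e3, e4]
      have := mul_le_mul_of_nonneg_left h3 (hl e)
      linarith
    linarith

/-- the same for probabilities, in the full graph -/
theorem switch_fr {ve : E → Finset V} (h2 : ∀ e, (ve e).card = 2) {lam : E → ℝ}
    (hl : ∀ e, 0 ≤ lam e) {x y z : V} (hxy : x ≠ y) (hxz : x ≠ z) (hyz : y ≠ z) :
    fr ve lam univ ∅ {x, y} * fr ve lam univ ∅ {z} ≤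
      fr ve lam univ ∅ {x, z} + fr ve lam univ ∅ {y, z} := by
  have h1 := switch h2 hl univ (∅ : Finset V) (notMem_empty x) (notMem_empty y) (notMem_empty z)
    hxy hxz hyz
  have hZ : 0 < Z ve lam univ ∅ := lt_of_lt_of_le one_pos (one_le_Z ve hl _ _)
  unfold fr
  rw [div_mul_div_comm, ← add_div, div_le_div_iff₀ (by positivity) hZ]
  have e1 : (∅ : Finset V) ∪ {z} = insert z ∅ := by simp
  rw [e1]
  have h3 := mul_le_mul_of_nonneg_right h1 hZ.le
  linarith

end Pool.Agent.KH
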